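import Pool.Agent.H489.GI.Lift

open Complex Filter Topology Set

namespace Pool.Agent.H489.GI.G

/-- the straight path -/
def seg (a b : ℂ) (τ : ℝ) : ℂ := a + τ * (b - a)

lemma seg_zero (a b : ℂ) : seg a b 0 = a := by simp [seg]

lemma seg_one (a b : ℂ) : seg a b 1 = b := by simp [seg]

lemma seg_cd (a b : ℂ) : ContDiff ℝ 1 (seg a b) := by
  unfold seg
  exact contDiff_const.add ((ofRealCLM.contDiff).mul contDiff_const)

lemma seg_mem {D : Set ℂ} (hD : Convex ℝ D) {a b : ℂ} (ha : a ∈ D) (hb : b ∈ D) {τ : ℝ}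
    (hτ : τ ∈ Icc (0 : ℝ) 1) : seg a b τ ∈ D := by
  have := hD.add_smul_sub_mem ha hb hτ
  simpa [seg] using this

/-- two points off a countable set are joined by two segments off this set -/
lemma two_seg {W : Set ℂ} (hW : W.Countable) {D : Set ℂ} (hD : Convex ℝ D) (hDo : IsOpen D)
    {a b : ℂ} (ha : a ∈ D) (hb : b ∈ D) (haW : a ∉ W) (hbW : b ∉ W) :
    ∃ c ∈ D, (∀ τ ∈ Icc (0 : ℝ) 1, seg a c τ ∉ W) ∧ ∀ τ ∈ Icc (0 : ℝ) 1, seg c b τ ∉ W := by
  by_cases hab : a = b
  · refine ⟨a, ha, ?_, ?_⟩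
    · intro τ _
      simp [seg, haW]
    · intro τ _
      simp [seg, ← hab, haW]
  have hne : b - a ≠ 0 := sub_ne_zero.2 (Ne.symm hab)
  -- the points on the perpendicular bisector
  set c : ℝ → ℂ := fun s => a + (1 / 2 + s * I) * (b - a) with hc
  have hc0 : c 0 ∈ D := by
    have := hD.add_smul_sub_mem ha hb (t := (1 / 2 : ℝ)) ⟨by norm_num, by norm_num⟩
    simp only [hc]
    simpa using this
  have hcc : Continuous c := by fun_prop
  have h1 : ∀ᶠ s in 𝓝 (0 : ℝ), c s ∈ D := hcc.continuousAt.eventually (hDo.mem_nhds hc0)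
  -- bad parameters
  have hinj : ∀ x x' s s' : ℝ, (x : ℂ) * ((1 / 2 + s * I) * (b - a)) =
      x' * ((1 / 2 + s' * I) * (b - a)) → x ≠ 0 → s = s' := by
    intro x x' s s' h2 hx
    have h3 : (x : ℂ) * (1 / 2 + s * I) = x' * (1 / 2 + s' * I) := by
      have := mul_right_cancel₀ hne (by rw [mul_assoc, mul_assoc]; exact h2 :
        ((x : ℂ) * (1 / 2 + s * I)) * (b - a) = (x' * (1 / 2 + s' * I)) * (b - a))
      exact this
    have hre := congrArg re h3
    have him := congrArg im h3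
    simp at hre him
    have hxx : x = x' := by linarith
    rw [← hxx] at him
    exact mul_left_cancel₀ hx him
  have hbad1 : {s : ℝ | ∃ w ∈ W, ∃ τ ∈ Icc (0 : ℝ) 1, seg a (c s) τ = w}.Countable := by
    have : {s : ℝ | ∃ w ∈ W, ∃ τ ∈ Icc (0 : ℝ) 1, seg a (c s) τ = w} =
        ⋃ w ∈ W, {s : ℝ | ∃ τ ∈ Icc (0 : ℝ) 1, seg a (c s) τ = w} := by
      ext s; simp
    rw [this]
    refine hW.biUnion fun w hw => Set.Subsingleton.countable ?_
    rintro s ⟨τ, hτ, h2⟩ s' ⟨τ', hτ', h3⟩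
    have hτ0 : τ ≠ 0 := by
      rintro rfl
      rw [seg_zero] at h2
      exact haW (h2 ▸ hw)
    refine hinj τ τ' s s' ?_ hτ0
    simp only [seg, hc] at h2 h3
    linear_combination h2 - h3
  have hbad2 : {s : ℝ | ∃ w ∈ W, ∃ τ ∈ Icc (0 : ℝ) 1, seg (c s) b τ = w}.Countable := by
    have : {s : ℝ | ∃ w ∈ W, ∃ τ ∈ Icc (0 : ℝ) 1, seg (c s) b τ = w} =
        ⋃ w ∈ W, {s : ℝ | ∃ τ ∈ Icc (0 : ℝ) 1, seg (c s) b τ = w} := by
      ext s; simp
    rw [this]
    refine hW.biUnion fun w hw => Set.Subsingleton.countable ?_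
    rintro s ⟨τ, hτ, h2⟩ s' ⟨τ', hτ', h3⟩
    have hτ0 : 1 - τ ≠ 0 := by
      intro h4
      have : τ = 1 := by linarith
      rw [this, seg_one] at h2
      exact hbW (h2 ▸ hw)
    have hneg : -s = -s' := by
      refine hinj (1 - τ) (1 - τ') (-s) (-s') ?_ hτ0
      simp only [seg, hc] at h2 h3
      push_cast
      linear_combination h3 - h2
    exact neg_injective hneg
  have hdense := (hbad1.union hbad2).dense_compl ℝ
  obtain ⟨s, hs1, hs2⟩ := hdense.inter_nhds_nonempty h1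
  refine ⟨c s, hs2, ?_, ?_⟩
  · intro τ hτ hW'
    exact hs1 (Or.inl ⟨_, hW', τ, hτ, rfl⟩)
  · intro τ hτ hW'
    exact hs1 (Or.inr ⟨_, hW', τ, hτ, rfl⟩)

lemma exists_notMem {W : Set ℂ} (hW : W.Countable) {v : ℂ} {p : ℂ → Prop} (h : ∀ᶠ y in 𝓝 v, p y) :
    ∃ y, p y ∧ y ∉ W := by
  have hdense := hW.dense_compl ℝ
  obtain ⟨y, hy1, hy2⟩ := hdense.inter_nhds_nonempty h
  exact ⟨y, hy2, hy1⟩

/-- a set all of whose points are isolated is countable -/
lemma countable_of_isolated {S : Set ℂ} (hS : ∀ z ∈ S, ∀ᶠ y in 𝓝[≠] z, y ∉ S) : S.Countable := by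
  obtain ⟨t, -, ht2, ht3⟩ := TopologicalSpace.countable_cover_nhdsWithin (s := S)
    (f := fun x => ({x} : Set ℂ)) (by
      intro x hx
      have h1 := hS x hx
      rw [eventually_nhdsWithin_iff] at h1
      rw [mem_nhdsWithin_iff_eventually]
      filter_upwards [h1] with y hy hyS
      by_contra h2
      exact hy h2 hyS)
  refine ht2.mono ?_
  intro x hx
  have := ht3 hx
  simpa using this

/-- the zeros of an entire function which is not zero -/
lemma zeros_countable {f : ℂ → ℂ} (hf : Differentiable ℂ f) (h0 : ∃ z, f z ≠ 0) :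
    {z | f z = 0}.Countable := by
  refine countable_of_isolated fun z _ => ?_
  rcases (hf.analyticAt z).eventually_eq_zero_or_eventually_ne_zero with h2 | h2
  · exfalso
    obtain ⟨y, hy⟩ := h0
    have h3 : AnalyticOnNhd ℂ f univ := fun y _ => hf.analyticAt y
    have h4 : AnalyticOnNhd ℂ (fun _ : ℂ => (0 : ℂ)) univ := fun y _ => analyticAt_const
    exact hy (congrFun (h3.eq_of_eventuallyEq h4 h2) y)
  · filter_upwards [h2] with y hy h3
    exact hy h3

lemma CV_countable : CV.Countable := by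
  have h1 : CV = H '' {z | deriv H z = 0} := by
    ext w
    simp [CV]
  rw [h1]
  refine Set.Countable.image ?_ _
  refine zeros_countable ?_ ⟨-(0 : ℕ), deriv_H_neg_nat 0⟩
  intro z
  exact (H_analytic z).deriv.differentiableAt

lemma H_preimage_countable {W : Set ℂ} (hW : W.Countable) : (H ⁻¹' W).Countable := by
  have h1 : H ⁻¹' W = ⋃ w ∈ W, {z | H z = w} := by ext z; simp
  rw [h1]
  refine hW.biUnion fun w _ => countable_of_isolated fun z _ => ?_
  filter_upwards [eventually_ne_val z w] with y hy using hy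

/-- normal form near a nondegenerate critical point -/
lemma morse {f : ℂ → ℂ} {x : ℂ} (hf : AnalyticAt ℂ f x) (h1 : deriv f x = 0)
    (h2 : deriv (deriv f) x ≠ 0) :
    ∃ φ ζ : ℂ → ℂ, AnalyticAt ℂ φ 0 ∧ φ 0 = x ∧ AnalyticAt ℂ ζ x ∧ ζ x = 0 ∧
      (∀ᶠ s in 𝓝 0, f (φ s) = f x - s ^ 2) ∧ (∀ᶠ s in 𝓝 0, ζ (φ s) = s) ∧
      (∀ᶠ y in 𝓝 x, φ (ζ y) = y) ∧ ∀ᶠ y in 𝓝 x, ζ y ^ 2 = f x - f y := by
  have o1 : analyticOrderAt (deriv f) x = 1 :=
    hf.deriv.analyticOrderAt_eq_one_of_zero_deriv_ne_zero h1 h2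
  have o2 : analyticOrderAt (f · - f x) x = (2 : ℕ) := by
    rw [← hf.analyticOrderAt_deriv_add_one, o1]
    norm_num
  obtain ⟨g, hg, hg0, hg1⟩ :=
    (AnalyticAt.analyticOrderAt_eq_natCast (hf.sub analyticAt_const)).1 o2
  obtain ⟨c, hc⟩ := IsAlgClosed.exists_pow_nat_eq (-g x) (n := 2) (by norm_num)
  have hc0 : c ≠ 0 := by
    rintro rfl
    apply hg0
    have : (0 : ℂ) = - g x := by simpa using hc
    linear_combination this
  set k : ℂ → ℂ := fun y => c * (g y / g x) ^ (((2 : ℕ) : ℂ)⁻¹) with hk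
  have hkx : k x = c := by simp [hk, hg0]
  have hkan : AnalyticAt ℂ k x := by
    refine analyticAt_const.mul ?_
    refine AnalyticAt.cpow (hg.div analyticAt_const hg0) analyticAt_const ?_
    simp [hg0]
  have hk2 : ∀ y, k y ^ 2 = - g y := by
    intro y
    simp only [hk]
    rw [mul_pow, hc, Complex.cpow_nat_inv_pow _ (by norm_num)]
    field_simp
  set ζ : ℂ → ℂ := fun y => (y - x) * k y with hζ
  have hζan : AnalyticAt ℂ ζ x := (analyticAt_id.sub analyticAt_const).mul hkan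
  have hζx : ζ x = 0 := by simp [hζ]
  have hζd : deriv ζ x = c := by
    have h3 : HasDerivAt (fun y : ℂ => y - x) 1 x := (hasDerivAt_id x).sub_const x
    have h4 := h3.mul hkan.differentiableAt.hasDerivAt
    have h5 : deriv ζ x = 1 * k x + (x - x) * deriv k x := h4.deriv
    rw [h5, hkx]
    ring
  obtain ⟨φ, p1, p2, p3, p4⟩ := exists_sec hζan (by rw [hζd]; exact hc0)
  rw [hζx] at p1 p2 p3
  have e1 : ∀ᶠ y in 𝓝 x, ζ y ^ 2 = f x - f y := by
    filter_upwards [hg1] with y hy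
    simp only [hζ, mul_pow, hk2]
    simp only [smul_eq_mul, Pi.sub_apply] at hy
    linear_combination hy
  refine ⟨φ, ζ, p1, p2, hζan, hζx, ?_, p3, p4, e1⟩
  have e2 : Tendsto φ (𝓝 0) (𝓝 x) := by
    have := p1.continuousAt.tendsto
    rwa [p2] at this
  filter_upwards [p3, e2.eventually e1] with s h3 h4
  rw [h3] at h4
  linear_combination h4

end Pool.Agent.H489.GI.G
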