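import Pool.Agent.H489.GI.Win2
import Pool.Agent.H489.GI.Util

open Filter Topology Polynomial
open scoped Polynomial.Bivariate

namespace Pool.Agent.H489.GI.G

lemma eval_diag (A : ℂ[X][Y]) (v : ℂ) : (A.eval X).eval v = A.evalEval v v := by
  unfold evalEval
  rw [eval_eq_sum_range (p := A) (x := (X : ℂ[X])), eval_eq_sum_range (p := A) (x := (C v : ℂ[X])),
    eval_finsetSum, eval_finsetSum]
  refine Finset.sum_congr rfl fun j _ => by simp

/-- at a zero of a polynomial two monomials are comparable -/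
lemma two_mono {A : ℂ[X][Y]} (hA : A ≠ 0) : ∃ (C : ℝ) (d : ℕ), 0 ≤ C ∧ ∀ x y : ℂ, x ≠ 0 → y ≠ 0 →
    A.evalEval x y = 0 → ∃ a b : ℤ, (a ≠ 0 ∨ b ≠ 0) ∧ a.natAbs ≤ d ∧ b.natAbs ≤ d ∧
      |(a : ℝ) * Real.log ‖x‖ + b * Real.log ‖y‖| ≤ C := by
  classical
  set D : ℕ := A.natDegree + (Finset.range (A.natDegree + 1)).sup (fun j => (A.coeff j).natDegree)
    with hD
  set c : ℕ × ℕ → ℂ := fun s => (A.coeff s.1).coeff s.2 with hc
  set S : Finset (ℕ × ℕ) := (Finset.range (D + 1) ×ˢ Finset.range (D + 1)).filter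
    fun s => c s ≠ 0 with hS
  have hdeg : ∀ j, (A.coeff j).natDegree ≤ D := by
    intro j
    by_cases hj : j ∈ Finset.range (A.natDegree + 1)
    · have : (A.coeff j).natDegree ≤ (Finset.range (A.natDegree + 1)).sup
          (fun j => (A.coeff j).natDegree) :=
        Finset.le_sup (f := fun j => (A.coeff j).natDegree) hj
      omega
    · have : A.coeff j = 0 := by
        apply coeff_eq_zero_of_natDegree_lt
        simp only [Finset.mem_range, not_lt] at hj
        omega
      rw [this]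
      simp
  have hsum : ∀ x y : ℂ, A.evalEval x y = ∑ s ∈ S, c s * (x ^ s.2 * y ^ s.1) := by
    intro x y
    have h1 : A.evalEval x y = ∑ j ∈ Finset.range (D + 1), (A.coeff j).eval x * y ^ j := by
      unfold evalEval
      rw [eval_eq_sum_range' (p := A) (n := D + 1) (by omega), eval_finsetSum]
      refine Finset.sum_congr rfl fun j _ => ?_
      simp
    have h2 : ∀ j, (A.coeff j).eval x = ∑ i ∈ Finset.range (D + 1), c (j, i) * x ^ i := by
      intro j
      rw [eval_eq_sum_range' (n := D + 1) (Nat.lt_succ_of_le (hdeg j))]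
    rw [h1, hS, Finset.sum_filter, Finset.sum_product]
    refine Finset.sum_congr rfl fun j _ => ?_
    rw [h2, Finset.sum_mul]
    refine Finset.sum_congr rfl fun i _ => ?_
    split_ifs with h3
    · ring
    · have : c (j, i) = 0 := not_not.1 h3
      rw [this]
      ring
  have hSne : S.Nonempty := by
    by_contra hcon
    rw [Finset.not_nonempty_iff_eq_empty] at hcon
    apply hA
    ext j i
    simp only [coeff_zero]
    by_contra h1
    have h2 : (j, i) ∈ S := by
      rw [hS, Finset.mem_filter, Finset.mem_product, Finset.mem_range, Finset.mem_range]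
      refine ⟨⟨?_, ?_⟩, h1⟩
      · have : j ≤ A.natDegree := by
          by_contra h3
          apply h1
          rw [coeff_eq_zero_of_natDegree_lt (by omega : A.natDegree < j)]
          simp
        simp only
        omega
      · have : i ≤ (A.coeff j).natDegree := by
          by_contra h3
          apply h1
          rw [coeff_eq_zero_of_natDegree_lt (by omega : (A.coeff j).natDegree < i)]
        have := hdeg j
        simp only
        omega
    rw [hcon] at h2
    exact absurd h2 (Finset.notMem_empty _)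
  set N : ℝ := (S.card : ℝ) with hN
  have hNpos : 0 < N := by rw [hN]; exact_mod_cast hSne.card_pos
  set C : ℝ := ∑ s ∈ S, ∑ t ∈ S, |Real.log (‖c s‖ * N / ‖c t‖)| with hC
  refine ⟨C, D, Finset.sum_nonneg fun s _ => Finset.sum_nonneg fun t _ => abs_nonneg _, ?_⟩
  intro x y hx hy hxy
  set w : ℕ × ℕ → ℝ := fun s => ‖x‖ ^ s.2 * ‖y‖ ^ s.1 with hw
  have hwpos : ∀ s, 0 < w s := fun s => by
    have := norm_pos_iff.2 hx
    have := norm_pos_iff.2 hy
    simp only [hw]
    positivity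
  obtain ⟨s0, hs0, hmax⟩ := S.exists_max_image w hSne
  have hcs0 : c s0 ≠ 0 := by
    rw [hS, Finset.mem_filter] at hs0
    exact hs0.2
  -- another comparable monomial
  obtain ⟨s1, hs1, hne, hcomp⟩ : ∃ s ∈ S, s ≠ s0 ∧ ‖c s0‖ * w s0 ≤ ‖c s‖ * w s * N := by
    by_contra hcon
    push Not at hcon
    rw [hsum, ← Finset.add_sum_erase S _ hs0] at hxy
    have h1 : ‖c s0‖ * w s0 ≤ ∑ s ∈ S.erase s0, ‖c s‖ * w s := by
      have h2 : c s0 * (x ^ s0.2 * y ^ s0.1) = -∑ s ∈ S.erase s0, c s * (x ^ s.2 * y ^ s.1) := by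
        linear_combination hxy
      have h3 : ‖c s0‖ * w s0 = ‖c s0 * (x ^ s0.2 * y ^ s0.1)‖ := by
        simp only [hw, norm_mul, norm_pow]
      rw [h3, h2, norm_neg]
      refine (norm_sum_le _ _).trans (le_of_eq ?_)
      refine Finset.sum_congr rfl fun s _ => ?_
      simp only [hw, norm_mul, norm_pow]
    have h4 : 0 < ‖c s0‖ * w s0 := mul_pos (norm_pos_iff.2 hcs0) (hwpos s0)
    have h5 : (S.erase s0).Nonempty := by
      by_contra h6
      rw [Finset.not_nonempty_iff_eq_empty] at h6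
      rw [h6, Finset.sum_empty] at h1
      linarith
    have h6 : ∑ s ∈ S.erase s0, ‖c s‖ * w s < ∑ s ∈ S.erase s0, ‖c s0‖ * w s0 / N := by
      refine Finset.sum_lt_sum_of_nonempty h5 fun s hs => ?_
      rw [lt_div_iff₀ hNpos]
      rw [Finset.mem_erase] at hs
      exact hcon s hs.2 hs.1
    rw [Finset.sum_const, Finset.card_erase_of_mem hs0, nsmul_eq_mul] at h6
    have h7 : ((S.card - 1 : ℕ) : ℝ) * (‖c s0‖ * w s0 / N) ≤ ‖c s0‖ * w s0 := by
      have h8 : ((S.card - 1 : ℕ) : ℝ) ≤ N := by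
        rw [hN]
        exact_mod_cast Nat.sub_le _ _
      calc ((S.card - 1 : ℕ) : ℝ) * (‖c s0‖ * w s0 / N) ≤ N * (‖c s0‖ * w s0 / N) :=
            mul_le_mul_of_nonneg_right h8 (by positivity)
        _ = ‖c s0‖ * w s0 := by field_simp
    linarith
  have hcs1 : c s1 ≠ 0 := by
    rw [hS, Finset.mem_filter] at hs1
    exact hs1.2
  have hlogw : ∀ s : ℕ × ℕ, Real.log (w s) = s.2 * Real.log ‖x‖ + s.1 * Real.log ‖y‖ := by
    intro s
    have h1 := norm_pos_iff.2 hx
    have h2 := norm_pos_iff.2 hy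
    simp only [hw]
    rw [Real.log_mul (by positivity) (by positivity), Real.log_pow, Real.log_pow]
  refine ⟨(s0.2 : ℤ) - s1.2, (s0.1 : ℤ) - s1.1, ?_, ?_, ?_, ?_⟩
  · by_contra hcon
    push Not at hcon
    apply hne
    ext
    · omega
    · omega
  · rw [hS, Finset.mem_filter, Finset.mem_product, Finset.mem_range, Finset.mem_range] at hs0 hs1
    omega
  · rw [hS, Finset.mem_filter, Finset.mem_product, Finset.mem_range, Finset.mem_range] at hs0 hs1
    omega
  · have e1 : (((s0.2 : ℤ) - s1.2 : ℤ) : ℝ) * Real.log ‖x‖ + (((s0.1 : ℤ) - s1.1 : ℤ) : ℝ) *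
        Real.log ‖y‖ = Real.log (w s0) - Real.log (w s1) := by
      rw [hlogw, hlogw]
      push_cast
      ring
    rw [e1, abs_of_nonneg (sub_nonneg.2 (Real.log_le_log (hwpos s1) (hmax s1 hs1)))]
    have h1 : Real.log (w s0) - Real.log (w s1) ≤ Real.log (‖c s1‖ * N / ‖c s0‖) := by
      rw [← Real.log_div (hwpos s0).ne' (hwpos s1).ne']
      refine Real.log_le_log (div_pos (hwpos s0) (hwpos s1)) ?_
      rw [div_le_div_iff₀ (hwpos s1) (norm_pos_iff.2 hcs0)]
      linarith
    have h2 : |Real.log (‖c s1‖ * N / ‖c s0‖)| ≤ C := by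
      rw [hC]
      refine le_trans ?_ (Finset.single_le_sum
        (f := fun s => ∑ t ∈ S, |Real.log (‖c s‖ * N / ‖c t‖)|)
        (fun s _ => Finset.sum_nonneg fun t _ => abs_nonneg _) hs1)
      exact Finset.single_le_sum (f := fun t => |Real.log (‖c s1‖ * N / ‖c t‖)|)
        (fun t _ => abs_nonneg _) hs0
    exact h1.trans ((le_abs_self _).trans h2)

lemma natAbs_neg' {a : ℤ} (ha : a < 0) : (a : ℝ) = -(a.natAbs : ℝ) := by
  have h1 : (a.natAbs : ℤ) = -a := by omega
  have h2 : ((a.natAbs : ℤ) : ℝ) = ((-a : ℤ) : ℝ) := by rw [h1]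
  rw [Int.cast_natCast, Int.cast_neg] at h2
  rw [h2, neg_neg]

lemma natAbs_pos' {a : ℤ} (ha : 0 < a) : (a : ℝ) = (a.natAbs : ℝ) := by
  have h1 : (a.natAbs : ℤ) = a := by omega
  have h2 : ((a.natAbs : ℤ) : ℝ) = ((a : ℤ) : ℝ) := by rw [h1]
  rw [Int.cast_natCast] at h2
  exact h2.symm

lemma norm_H_xk {k : ℕ} (hk : 1 ≤ k) : ‖H (xk k : ℂ)‖ = Mk k := by
  rw [← h_coe, Complex.norm_real, Real.norm_eq_abs]
  have e2 := Mk_pos hk
  unfold Mk at e2 ⊢
  rcases neg_one_pow_eq_or ℝ k with e3 | e3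
  · rw [e3] at e2 ⊢
    rw [one_mul] at e2 ⊢
    exact abs_of_pos e2
  · rw [e3] at e2 ⊢
    rw [abs_of_neg (by linarith)]
    ring

lemma CV_ne_zero {w : ℂ} (hw : w ∈ CV) : w ≠ 0 := by
  rintro rfl
  obtain ⟨z, hz1, hz2⟩ := hw
  obtain ⟨m, rfl⟩ := (H_eq_zero_iff z).1 hz2
  exact deriv_H_neg_nat m hz1

/-- the critical values -/
lemma CV_cases : ∃ w0 : ℂ, ∀ w ∈ CV, w = w0 ∨ ∃ m : ℕ, 1 ≤ m ∧ w = H (xk m : ℂ) := by
  by_cases hex : ∃ x : ℝ, 0 < x ∧ deriv H (x : ℂ) = 0
  · obtain ⟨y, hy, hy'⟩ := hex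
    refine ⟨H (y : ℂ), fun w hw => ?_⟩
    have hw0 := CV_ne_zero hw
    obtain ⟨z, hz1, rfl⟩ := hw
    have him := crit_real hw0 hz1
    obtain ⟨x, rfl⟩ : ∃ x : ℝ, z = x := ⟨z.re, by apply Complex.ext <;> simp [him]⟩
    rcases lt_trichotomy x 0 with hx | hx | hx
    · obtain ⟨m, hm, hm1, hm2⟩ := exists_interval hx hw0
      right
      exact ⟨m, hm, by rw [crit_unique hm hm1 hm2 hz1]⟩
    · exfalso
      apply hw0
      rw [hx]
      have := H_neg_nat 0
      simpa using this
    · left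
      have e1 : psi x = 0 := by
        unfold psi
        rw [(deriv_H_eq_zero_iff ((h_ne_iff x).1 (h_pos hx).ne')).1 hz1]
        simp
      have e2 : psi y = 0 := by
        unfold psi
        rw [(deriv_H_eq_zero_iff ((h_ne_iff y).1 (h_pos hy).ne')).1 hy']
        simp
      rw [psi_mono_pos.injOn hx hy (by rw [e1, e2])]
  · push Not at hex
    refine ⟨0, fun w hw => ?_⟩
    have hw0 := CV_ne_zero hw
    obtain ⟨z, hz1, rfl⟩ := hw
    have him := crit_real hw0 hz1
    obtain ⟨x, rfl⟩ : ∃ x : ℝ, z = x := ⟨z.re, by apply Complex.ext <;> simp [him]⟩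
    rcases lt_trichotomy x 0 with hx | hx | hx
    · obtain ⟨m, hm, hm1, hm2⟩ := exists_interval hx hw0
      right
      exact ⟨m, hm, by rw [crit_unique hm hm1 hm2 hz1]⟩
    · exfalso
      apply hw0
      rw [hx]
      have := H_neg_nat 0
      simpa using this
    · exact absurd hz1 (hex x hx)

lemma ev_notMem {F : Set ℂ} (hF : F.Finite) : ∀ᶠ k : ℕ in atTop, H (xk k : ℂ) ∉ F := by
  obtain ⟨C, hC⟩ := hF.isBounded.exists_norm_le
  obtain ⟨k0, hk0⟩ := Mk_large C
  filter_upwards [eventually_ge_atTop k0, eventually_ge_atTop 1] with k h1 h2 h3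
  have h4 := hC _ h3
  rw [norm_H_xk h2] at h4
  linarith [hk0 k h1]

lemma zeros_finite {q : ℂ[X]} (hq : q ≠ 0) : {v : ℂ | q.eval v = 0}.Finite := by
  refine (q.roots.toFinset.finite_toSet).subset ?_
  intro v hv
  simp only [Finset.mem_coe, Multiset.mem_toFinset]
  exact (mem_roots hq).2 hv

/-- **Clean windows of critical values.** -/
theorem clean_window {ι : Type*} [Finite ι] {A : ι → ℂ[X][Y]} (hdiag : ∀ l, (A l).eval X ≠ 0)
    (hc : ∀ l (y : ℂ), (A l).eval (C y) ≠ 0) (J K : ℕ) :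
    ∃ k1, K ≤ k1 ∧ ∀ k, k1 < k → k ≤ k1 + J → ∀ l, ∀ w ∈ CV, (A l).evalEval (H (xk k : ℂ)) w ≠ 0 := by
  classical
  have hA0 : ∀ l, A l ≠ 0 := by
    intro l h
    apply hdiag l
    rw [h, eval_zero]
  choose C0 d0 hC0 htwo using fun l => two_mono (hA0 l)
  obtain ⟨C1, hC1⟩ := (Set.finite_range C0).bddAbove
  obtain ⟨d1, hd1⟩ := (Set.finite_range d0).bddAbove
  set CC := max C1 1 with hCdef
  set d := d1 + 1 with hddef
  have hCl : ∀ l, C0 l ≤ CC := fun l => (hC1 ⟨l, rfl⟩).trans (le_max_left _ _)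
  have hdl : ∀ l, d0 l ≤ d := fun l => (hd1 ⟨l, rfl⟩).trans (Nat.le_succ _)
  have hCpos : 0 < CC := lt_of_lt_of_le one_pos (le_max_right _ _)
  obtain ⟨w0, hw0⟩ := CV_cases
  -- the small critical values
  obtain ⟨m0, hm0⟩ := Mk_large (Real.exp CC)
  set F : Set ℂ := {w0} ∪ (fun m : ℕ => H (xk m : ℂ)) '' (Finset.range m0 : Set ℕ) with hF
  have hFfin : F.Finite := (Set.finite_singleton _).union ((Finset.finite_toSet _).image _)
  have hG : (⋃ l, ⋃ w ∈ F, {v : ℂ | ((A l).eval (C w)).eval v = 0}).Finite :=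
    Set.finite_iUnion fun l => hFfin.biUnion fun w _ => zeros_finite (hc l w)
  have hG' : (⋃ l, {v : ℂ | ((A l).eval X).eval v = 0}).Finite :=
    Set.finite_iUnion fun l => zeros_finite (hdiag l)
  -- large indices
  have hL1 : ∀ᶠ k : ℕ in atTop, CC < Lk k := by
    filter_upwards [eventually_ge_atTop m0] with k hk
    unfold Lk
    have h1 := hm0 k hk
    rwa [Real.lt_log_iff_exp_lt ((Real.exp_pos CC).trans h1)]
  have hL2 : ∀ᶠ k : ℕ in atTop, CC < Real.log (k - 1 : ℕ) := by
    have h1 := (tendsto_sub_atTop_nat 1).eventually (ev_log CC)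
    exact h1
  obtain ⟨K1, hK1⟩ := eventually_atTop.1 ((((ev_notMem hG).and (ev_notMem hG')).and
    (hL1.and hL2)).and (eventually_ge_atTop 2))
  obtain ⟨k1, hk1, hwin⟩ := Lk_gr.window (d := d) (by omega) hCpos.le J (max K K1)
  refine ⟨k1, (le_max_left _ _).trans hk1, ?_⟩
  intro k hkk1 hkJ l w hw hzero
  obtain ⟨⟨⟨a1, a2⟩, a3, a4⟩, a5⟩ := hK1 k ((le_max_right K K1).trans (hk1.trans hkk1.le))
  have hk : 1 ≤ k := by omega
  -- `w` is not small
  have hwF : w ∉ F := by
    intro h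
    apply a1
    simp only [Set.mem_iUnion]
    exact ⟨l, w, h, hzero⟩
  obtain ⟨m, hm, rfl⟩ : ∃ m : ℕ, 1 ≤ m ∧ w = H (xk m : ℂ) := by
    rcases hw0 w hw with h | h
    · exact absurd (Or.inl h) hwF
    · exact h
  have hmm0 : m0 ≤ m := by
    by_contra h
    push Not at h
    apply hwF
    right
    exact ⟨m, by simpa using h, rfl⟩
  have hLm : CC < Lk m := by
    unfold Lk
    have h1 := hm0 m hmm0
    rwa [Real.lt_log_iff_exp_lt ((Real.exp_pos CC).trans h1)]
  obtain ⟨a, b, hab, had, hbd, hC2⟩ := htwo l _ _ (H_xk_ne hk) (H_xk_ne hm) hzero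
  have hC3 := hC2.trans (hCl l)
  rw [norm_H_xk hk, norm_H_xk hm] at hC3
  change |(a : ℝ) * Lk k + b * Lk m| ≤ CC at hC3
  have had' : a.natAbs ≤ d := had.trans (hdl l)
  have hbd' : b.natAbs ≤ d := hbd.trans (hdl l)
  have hLk0 : 0 < Lk k := hCpos.trans a3
  have hLm0 : 0 < Lk m := hCpos.trans hLm
  -- the case of opposite signs
  have opp : ∀ p q : ℕ, 1 ≤ p → 1 ≤ q → p ≤ d → q ≤ d → ¬ |(p : ℝ) * Lk k - q * Lk m| ≤ CC := by
    intro p q hp hq hpd hqd hcon
    by_cases hpq : p = q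
    · subst hpq
      have hpr : (1 : ℝ) ≤ p := by exact_mod_cast hp
      have h1 : |Lk k - Lk m| ≤ CC := by
        rw [← mul_sub, abs_mul, abs_of_nonneg (by linarith : (0 : ℝ) ≤ p)] at hcon
        nlinarith [abs_nonneg (Lk k - Lk m)]
      have hmk : m = k := by
        by_contra hne
        rcases lt_or_gt_of_ne hne with h | h
        · have h2 := Lk_gr.mono hm (show m ≤ k - 1 by omega)
          have h3 := Lk_gr.lo (k - 1) (by omega)
          rw [Nat.sub_add_cancel hk] at h3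
          have := (abs_le.1 h1).2
          linarith
        · have h2 := Lk_gr.mono (j := k + 1) (by omega) (show k + 1 ≤ m by omega)
          have h3 := Lk_gr.lo k hk
          have h4 := log_mono (j := k - 1) (k := k) (by omega) (by omega)
          have := (abs_le.1 h1).1
          linarith
      subst hmk
      apply a2
      simp only [Set.mem_iUnion]
      refine ⟨l, ?_⟩
      show ((A l).eval X).eval (H (xk m : ℂ)) = 0
      rw [eval_diag]
      exact hzero
    · have := hwin k hkk1 hkJ m p q hm hp hpd hq hqd hpq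
      linarith
  rcases lt_trichotomy a 0 with ha | ha | ha
  · have ha' : (a : ℝ) = -(a.natAbs : ℝ) := natAbs_neg' ha
    have ha1 : 1 ≤ a.natAbs := by omega
    have ha1r : (1 : ℝ) ≤ a.natAbs := by exact_mod_cast ha1
    rcases lt_trichotomy b 0 with hb | hb | hb
    · have hb' : (b : ℝ) ≤ 0 := by exact_mod_cast hb.le
      rw [ha'] at hC3
      have := (abs_le.1 hC3).1
      nlinarith
    · rw [ha', hb] at hC3
      have := (abs_le.1 hC3).1
      push_cast at this
      nlinarith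
    · have hb' : (b : ℝ) = (b.natAbs : ℝ) := natAbs_pos' hb
      refine opp a.natAbs b.natAbs ha1 (by omega) had' hbd' ?_
      rw [ha', hb'] at hC3
      rw [← abs_neg]
      convert hC3 using 2
      ring
  · subst ha
    rcases hab with h | h
    · exact absurd rfl h
    · rw [Int.cast_zero, zero_mul, zero_add, abs_mul, abs_of_pos hLm0] at hC3
      have h1 : (1 : ℝ) ≤ |(b : ℝ)| := by
        have := Int.one_le_abs h
        exact_mod_cast this
      nlinarith
  · have ha' : (a : ℝ) = (a.natAbs : ℝ) := natAbs_pos' ha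
    have ha1 : 1 ≤ a.natAbs := by omega
    have ha1r : (1 : ℝ) ≤ a.natAbs := by exact_mod_cast ha1
    rcases lt_trichotomy b 0 with hb | hb | hb
    · have hb' : (b : ℝ) = -(b.natAbs : ℝ) := natAbs_neg' hb
      refine opp a.natAbs b.natAbs ha1 (by omega) had' hbd' ?_
      rw [ha', hb'] at hC3
      convert hC3 using 2
      ring
    · rw [ha', hb] at hC3
      have := (abs_le.1 hC3).2
      push_cast at this
      nlinarith
    · have hb' : (0 : ℝ) ≤ b := by exact_mod_cast hb.le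
      rw [ha'] at hC3
      have := (abs_le.1 hC3).2
      nlinarith

end Pool.Agent.H489.GI.G
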