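import Pool.Agent.H489.GI.G6
import Pool.Agent.H489.GI.Win3

open Filter Topology Polynomial
open scoped Polynomial.Bivariate ContDiff

namespace Pool.Agent.H489.GI.G

/-- evaluation of a polynomial in two variables -/
noncomputable def ev (A : ℂ[X][Y]) (x y : ℂ) : ℂ := A.evalEval x y

lemma ev_eq_sum (A : ℂ[X][Y]) (x y : ℂ) :
    ev A x y = ∑ j ∈ Finset.range (A.natDegree + 1), (A.coeff j).eval x * y ^ j := by
  unfold ev evalEval
  rw [eval_eq_sum_range (p := A), eval_finsetSum]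
  refine Finset.sum_congr rfl fun j _ => by simp

lemma ev_mul (A B : ℂ[X][Y]) (x y : ℂ) : ev (A * B) x y = ev A x y * ev B x y := by
  simp [ev, evalEval]

lemma ev_add (A B : ℂ[X][Y]) (x y : ℂ) : ev (A + B) x y = ev A x y + ev B x y := by
  simp [ev, evalEval]

lemma ev_C (q : ℂ[X]) (x y : ℂ) : ev (C q) x y = q.eval x := by
  simp [ev, evalEval]

lemma ev_X_sub_C (q : ℂ[X]) (x y : ℂ) : ev (X - C q) x y = y - q.eval x := by
  simp [ev, evalEval]

lemma ev_analytic (A : ℂ[X][Y]) (p : ℂ × ℂ) : AnalyticAt ℂ (fun p : ℂ × ℂ => ev A p.1 p.2) p := by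
  have h1 : (fun p : ℂ × ℂ => ev A p.1 p.2) =
      fun p => ∑ j ∈ Finset.range (A.natDegree + 1), (A.coeff j).eval p.1 * p.2 ^ j := by
    funext p; exact ev_eq_sum A _ _
  rw [h1]
  refine Finset.analyticAt_fun_sum _ fun j _ => ?_
  refine AnalyticAt.mul ?_ (analyticAt_snd.pow j)
  exact AnalyticAt.fun_comp ((A.coeff j).differentiable.analyticAt p.1) analyticAt_fst

lemma ev_continuous (A : ℂ[X][Y]) : Continuous (fun p : ℂ × ℂ => ev A p.1 p.2) :=
  continuous_iff_continuousAt.2 fun p => (ev_analytic A p).continuousAt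

lemma ev_germ (A : ℂ[X][Y]) {a b : ℂ → ℂ} {t : ℂ} (ha : AnalyticAt ℂ a t) (hb : AnalyticAt ℂ b t) :
    AnalyticAt ℂ (fun t => ev A (a t) (b t)) t :=
  AnalyticAt.fun_comp (g := fun p : ℂ × ℂ => ev A p.1 p.2) (f := fun t => (a t, b t))
    (ev_analytic A _) (ha.prod hb)

/-- two analytic functions with product zero -/
lemma mul_germ {f g : ℂ → ℂ} {t : ℂ} (hf : AnalyticAt ℂ f t) (hg : AnalyticAt ℂ g t)
    (h : ∀ᶠ s in 𝓝 t, f s * g s = 0) : (∀ᶠ s in 𝓝 t, f s = 0) ∨ ∀ᶠ s in 𝓝 t, g s = 0 := by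
  rcases hf.eventually_eq_zero_or_eventually_ne_zero with h1 | h1
  · exact Or.inl h1
  rcases hg.eventually_eq_zero_or_eventually_ne_zero with h2 | h2
  · exact Or.inr h2
  exfalso
  have h3 : ∀ᶠ s in 𝓝[≠] t, f s * g s = 0 := h.filter_mono nhdsWithin_le_nhds
  obtain ⟨s, ⟨h4, h5⟩, h6⟩ := ((h1.and h2).and h3).exists
  rcases mul_eq_zero.1 h6 with h | h
  · exact h4 h
  · exact h5 h

/-- an irreducible relation -/
lemma irr_factor {a b : ℂ → ℂ} {t : ℂ} (ha : AnalyticAt ℂ a t) (hb : AnalyticAt ℂ b t)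
    (Q : ℂ[X][Y]) : Q ≠ 0 → (∀ᶠ s in 𝓝 t, ev Q (a s) (b s) = 0) →
    ∃ A : ℂ[X][Y], Irreducible A ∧ ∀ᶠ s in 𝓝 t, ev A (a s) (b s) = 0 := by
  refine WfDvdMonoid.induction_on_irreducible Q ?_ ?_ ?_
  · intro h; exact absurd rfl h
  · intro u hu _ h
    exfalso
    obtain ⟨s, hs⟩ := h.exists
    have h1 : IsUnit (ev u (a s) (b s)) := by
      have := hu.map (evalEvalRingHom (a s) (b s))
      exact this
    rw [hs] at h1
    exact not_isUnit_zero h1
  · intro A i hA hi ih hne h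
    have h1 : ∀ᶠ s in 𝓝 t, ev i (a s) (b s) * ev A (a s) (b s) = 0 := by
      filter_upwards [h] with s hs
      rw [← ev_mul]; exact hs
    rcases mul_germ (ev_germ i ha hb) (ev_germ A ha hb) h1 with h2 | h2
    · exact ⟨i, hi, h2⟩
    · exact ih hA h2

/-- roots of an irreducible relation -/
lemma irr_root {A : ℂ[X][Y]} (hA : Irreducible A) {a b : ℂ → ℂ} {t : ℂ}
    (h : ∀ᶠ s in 𝓝 t, ev A (a s) (b s) = 0) {r : ℂ[X]} (hr : A.eval r = 0) :
    ∀ᶠ s in 𝓝 t, b s = r.eval (a s) := by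
  have h1 : (X - C r) ∣ A := dvd_iff_isRoot.2 hr
  have h2 : Associated (X - C r) A := (prime_X_sub_C r).irreducible.associated_of_dvd hA h1
  obtain ⟨u, hu⟩ := h2
  filter_upwards [h] with s hs
  rw [← hu, ev_mul, ev_X_sub_C] at hs
  have h3 : IsUnit (ev (u : ℂ[X][Y]) (a s) (b s)) := u.isUnit.map (evalEvalRingHom (a s) (b s))
  rcases mul_eq_zero.1 hs with h4 | h4
  · exact sub_eq_zero.1 h4
  · rw [h4] at h3
    exact absurd h3 not_isUnit_zero

/-- a continuous function with values in a finite set is locally constant -/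
lemma const_of_root {q : ℂ[X]} (hq : q ≠ 0) {a : ℂ → ℂ} {t : ℂ} (ha : ContinuousAt a t)
    (h : ∀ᶠ s in 𝓝 t, q.eval (a s) = 0) : ∀ᶠ s in 𝓝 t, a s = a t := by
  have hfin : ({v : ℂ | q.eval v = 0} \ {a t}).Finite := (zeros_finite hq).subset Set.sdiff_subset
  have h1 : ({v : ℂ | q.eval v = 0} \ {a t})ᶜ ∈ 𝓝 (a t) :=
    hfin.isClosed.isOpen_compl.mem_nhds (by simp)
  filter_upwards [ha.eventually h1, h] with s h2 h3
  by_contra h4
  exact h2 ⟨h3, h4⟩

lemma irr_deg {A : ℂ[X][Y]} (hA : Irreducible A) {a b : ℂ → ℂ} {t : ℂ} (ha : ContinuousAt a t)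
    (hac : ¬ ∀ᶠ s in 𝓝 t, a s = a t)
    (h : ∀ᶠ s in 𝓝 t, ev A (a s) (b s) = 0) : A.natDegree ≠ 0 := by
  intro hd
  apply hac
  have h1 := eq_C_of_natDegree_eq_zero hd
  have hq : A.coeff 0 ≠ 0 := by
    intro h2
    rw [h2, map_zero] at h1
    exact hA.ne_zero h1
  refine const_of_root hq ha ?_
  filter_upwards [h] with s hs
  rw [h1, ev_C] at hs
  exact hs

/-- Bezout relation with the derivative -/
lemma irr_bezout {A : ℂ[X][Y]} (hA : Irreducible A) (hd : A.natDegree ≠ 0) :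
    ∃ (S T : ℂ[X][Y]) (D : ℂ[X]), D ≠ 0 ∧ S * A + T * derivative A = C D := by
  have hprim : A.IsPrimitive := hA.isPrimitive hd
  have hirr : Irreducible (A.map (algebraMap ℂ[X] (FractionRing ℂ[X]))) :=
    (hprim.irreducible_iff_irreducible_map_fraction_map (K := FractionRing ℂ[X])).1 hA
  obtain ⟨s, r, hsr⟩ := hirr.separable
  obtain ⟨b1, hb1m, hb1⟩ := IsLocalization.integerNormalization_spec (nonZeroDivisors ℂ[X]) s
  obtain ⟨b2, hb2m, hb2⟩ := IsLocalization.integerNormalization_spec (nonZeroDivisors ℂ[X]) r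
  set S0 := IsLocalization.integerNormalization (nonZeroDivisors ℂ[X]) s with hS0
  set T0 := IsLocalization.integerNormalization (nonZeroDivisors ℂ[X]) r with hT0
  refine ⟨C (b2 : ℂ[X]) * S0, C (b1 : ℂ[X]) * T0, b1 * b2,
    mul_ne_zero (nonZeroDivisors.ne_zero hb1m) (nonZeroDivisors.ne_zero hb2m), ?_⟩
  apply map_injective (algebraMap ℂ[X] (FractionRing ℂ[X])) (IsFractionRing.injective _ _)
  have e1 : (S0.map (algebraMap ℂ[X] (FractionRing ℂ[X]))) =
      C (algebraMap ℂ[X] (FractionRing ℂ[X]) b1) * s := by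
    rw [hb1, Algebra.smul_def]
    rfl
  have e2 : (T0.map (algebraMap ℂ[X] (FractionRing ℂ[X]))) =
      C (algebraMap ℂ[X] (FractionRing ℂ[X]) b2) * r := by
    rw [hb2, Algebra.smul_def]
    rfl
  rw [Polynomial.map_add, Polynomial.map_mul, Polynomial.map_mul, Polynomial.map_mul,
    Polynomial.map_mul, map_C, map_C, map_C, e1, e2, ← derivative_map, map_mul, C_mul]
  linear_combination (C (algebraMap ℂ[X] (FractionRing ℂ[X]) b1) *
    C (algebraMap ℂ[X] (FractionRing ℂ[X]) b2)) * hsr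

/-- local solvability from the implicit function theorem -/
lemma LS_poly {A : ℂ[X][Y]} {v y : ℂ} (h0 : ev A v y = 0) (h1 : ev (derivative A) v y ≠ 0) :
    LS (ev A) v y := by
  set f : ℂ × ℂ → ℂ := fun p => ev A p.1 p.2 with hf
  have cdf : ContDiffAt ℂ ω f (v, y) := (ev_analytic A (v, y)).contDiffAt
  have hfd : HasFDerivAt f (fderiv ℂ f (v, y)) (v, y) :=
    (ev_analytic A (v, y)).differentiableAt.hasFDerivAt
  have hL : (fderiv ℂ f (v, y) ∘L .inr ℂ ℂ ℂ) 1 = ev (derivative A) v y := by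
    have e1 : HasDerivAt (fun k : ℂ => f (v, k)) ((fderiv ℂ f (v, y)) (0, 1)) y := by
      have h2 : HasDerivAt (fun k : ℂ => ((v, k) : ℂ × ℂ)) ((0, 1) : ℂ × ℂ) y :=
        (hasDerivAt_const y v).prodMk (hasDerivAt_id y)
      exact hfd.comp_hasDerivAt y h2
    have e2 : HasDerivAt (fun k : ℂ => f (v, k)) (ev (derivative A) v y) y := by
      have h3 : (fun k : ℂ => f (v, k)) = fun k => (A.map (evalRingHom v)).eval k := by
        funext k
        simp only [hf, ev]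
        rw [eval_map]
        unfold evalEval
        rw [eval_eq_sum_range (p := A), eval_finsetSum, eval₂_eq_sum_range]
        refine Finset.sum_congr rfl fun j _ => by simp
      have h4 : ev (derivative A) v y = (derivative (A.map (evalRingHom v))).eval y := by
        rw [derivative_map, eval_map]
        unfold ev evalEval
        rw [eval_eq_sum_range (p := derivative A), eval_finsetSum, eval₂_eq_sum_range]
        refine Finset.sum_congr rfl fun j _ => by simp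
      rw [h3, h4]
      exact (A.map (evalRingHom v)).hasDerivAt y
    have := e1.unique e2
    rw [← this]
    simp
  have hinv : (fderiv ℂ f (v, y) ∘L .inr ℂ ℂ ℂ).IsInvertible := by
    refine ⟨ContinuousLinearEquiv.unitsEquivAut ℂ (Units.mk0 _ h1), ?_⟩
    ext
    rw [hL]
    simp
  have hn : (ω : ℕ∞ω) ≠ 0 := by simp
  refine ⟨cdf.implicitFunction hn hinv, ?_, ?_, ?_, ?_⟩
  · exact (cdf.contDiffAt_implicitFunction hn hinv).analyticAt
  · exact cdf.implicitFunction_apply_self hn hinv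
  · filter_upwards [cdf.eventually_apply_implicitFunction hn hinv] with x hx
    simp only [hf] at hx
    rw [h0] at hx
    exact hx
  · filter_upwards [cdf.eventually_apply_eq_iff_implicitFunction hn hinv] with p hp hp0
    have h2 : f p = f (v, y) := by
      simp only [hf]
      rw [h0]; exact hp0
    exact (hp.1 h2).symm

/-- the roots are locally bounded -/
lemma bd_poly {A : ℂ[X][Y]} {v : ℂ} (h1 : A.leadingCoeff.eval v ≠ 0) :
    ∃ C : ℝ, ∀ᶠ v' in 𝓝 v, ∀ y, ev A v' y = 0 → ‖y‖ ≤ C := by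
  set a : ℂ[X] := A.leadingCoeff with ha
  set d := A.natDegree with hd
  set m : ℝ := ‖a.eval v‖ / 2 with hm
  have hmpos : 0 < m := by
    have := norm_pos_iff.2 h1
    rw [hm]; linarith
  set M : ℝ := ∑ j ∈ Finset.range d, (‖(A.coeff j).eval v‖ + 1) with hM
  have hM0 : 0 ≤ M := Finset.sum_nonneg fun j _ => by positivity
  refine ⟨1 + M / m, ?_⟩
  have e1 : ∀ᶠ v' in 𝓝 v, m < ‖a.eval v'‖ := by
    have h2 : Tendsto (fun v' => ‖a.eval v'‖) (𝓝 v) (𝓝 ‖a.eval v‖) :=
      (a.continuous.norm).tendsto v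
    refine h2.eventually (lt_mem_nhds ?_)
    have := norm_pos_iff.2 h1
    rw [hm]; linarith
  have e2 : ∀ᶠ v' in 𝓝 v, ∀ j ∈ Finset.range d, ‖(A.coeff j).eval v'‖ < ‖(A.coeff j).eval v‖ + 1 := by
    refine (Finset.eventually_all _).2 fun j _ => ?_
    have h2 : Tendsto (fun v' => ‖(A.coeff j).eval v'‖) (𝓝 v) (𝓝 ‖(A.coeff j).eval v‖) :=
      ((A.coeff j).continuous.norm).tendsto v
    exact h2.eventually (gt_mem_nhds (by linarith))
  filter_upwards [e1, e2] with v' h2 h3 y hy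
  by_contra hcon
  push Not at hcon
  have hy1 : 1 ≤ ‖y‖ := by
    have : 0 ≤ M / m := by positivity
    linarith
  rw [ev_eq_sum, Finset.sum_range_succ] at hy
  have h4 : ‖a.eval v'‖ * ‖y‖ ^ d ≤ M * ‖y‖ ^ (d - 1) := by
    have h5 : a.eval v' * y ^ d = -∑ j ∈ Finset.range d, (A.coeff j).eval v' * y ^ j := by
      have : a = A.coeff d := rfl
      rw [this]
      linear_combination hy
    have h6 : ‖a.eval v'‖ * ‖y‖ ^ d = ‖a.eval v' * y ^ d‖ := by rw [norm_mul, norm_pow]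
    rw [h6, h5, norm_neg, hM, Finset.sum_mul]
    refine (norm_sum_le _ _).trans (Finset.sum_le_sum fun j hj => ?_)
    rw [norm_mul, norm_pow]
    rw [Finset.mem_range] at hj
    have h7 : ‖y‖ ^ j ≤ ‖y‖ ^ (d - 1) := pow_le_pow_right₀ hy1 (by omega)
    exact mul_le_mul (h3 j (Finset.mem_range.2 hj)).le h7 (by positivity) (by positivity)
  rcases Nat.eq_zero_or_pos d with hd0 | hd0
  · rw [hd0] at h4 hM
    simp only [Finset.range_zero, Finset.sum_empty] at hM
    rw [hM] at h4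
    simp only [pow_zero, mul_one, zero_mul] at h4
    linarith
  · have h5 : ‖y‖ ^ d = ‖y‖ * ‖y‖ ^ (d - 1) := by
      rw [← pow_succ']
      congr 1
      omega
    rw [h5, ← mul_assoc] at h4
    have h6 : ‖a.eval v'‖ * ‖y‖ ≤ M := le_of_mul_le_mul_right h4 (by positivity)
    have h7 : m * ‖y‖ ≤ M := by nlinarith
    have h8 : ‖y‖ ≤ M / m := by
      rw [le_div_iff₀ hmpos]
      linarith
    linarith

/-- all but finitely many points are good -/
lemma good_poly {A : ℂ[X][Y]} (hA : Irreducible A) (hd : A.natDegree ≠ 0) :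
    {v | ¬ GoodPt (ev A) v}.Finite := by
  obtain ⟨S, T, D, hD, hbez⟩ := irr_bezout hA hd
  refine ((zeros_finite hD).union (zeros_finite (q := A.leadingCoeff)
    (leadingCoeff_ne_zero.2 hA.ne_zero))).subset ?_
  intro v hv
  by_contra hcon
  simp only [Set.mem_union, Set.mem_ofPred_eq, not_or] at hcon
  apply hv
  refine ⟨fun y hy => LS_poly hy ?_, bd_poly hcon.2⟩
  intro h1
  have h2 := congrArg (fun Q => ev Q v y) hbez
  simp only [ev_add, ev_mul, ev_C, hy, h1, mul_zero, add_zero] at h2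
  exact hcon.1 h2.symm

lemma ev_eq_eval (A : ℂ[X][Y]) (v y : ℂ) : ev A v y = (A.eval (C y)).eval v := rfl

/-- the exceptional set -/
def WW {ι : Type*} (A : ι → ℂ[X][Y]) : Set ℂ :=
  ⋃ l, ({v | ¬ GoodPt (ev (A l)) v} ∪ ({v | ev (A l) v 0 = 0} ∪ ⋃ w ∈ CV, {v | ev (A l) v w = 0}))

/-- the data of a family of algebraic functions -/
lemma data_poly {ι : Type*} [Finite ι] {A : ι → ℂ[X][Y]} {l0 : ι} (hl0 : A l0 = X - C X)
    (hA : ∀ l, Irreducible (A l)) (hd : ∀ l, (A l).natDegree ≠ 0)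
    (hc : ∀ l (y : ℂ), (A l).eval (C y) ≠ 0) : Data (WW A) (fun l => ev (A l)) l0 := by
  refine ⟨?_, ?_, ?_, ?_, ?_, ?_⟩
  · refine Set.countable_iUnion fun l => ?_
    refine (good_poly (hA l) (hd l)).countable.union ?_
    refine Set.Countable.union ?_ ?_
    · exact (zeros_finite (hc l 0)).countable
    · exact CV_countable.biUnion fun w _ => (zeros_finite (hc l w)).countable
  · intro l
    exact ev_continuous (A l)
  · intro v hv l
    by_contra h
    exact hv (Set.mem_iUnion.2 ⟨l, Or.inl h⟩)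
  · rintro v hv l y hy rfl
    exact hv (Set.mem_iUnion.2 ⟨l, Or.inr (Or.inl hy)⟩)
  · intro v hv l y hy hcv
    refine hv (Set.mem_iUnion.2 ⟨l, Or.inr (Or.inr ?_)⟩)
    simp only [Set.mem_iUnion]
    exact ⟨y, hcv, hy⟩
  · intro v y
    show ev (A l0) v y = 0 ↔ y = v
    rw [hl0, ev_X_sub_C, eval_X, sub_eq_zero]

/-- the windows of clean critical values -/
lemma clean_poly {ι : Type*} [Finite ι] {A : ι → ℂ[X][Y]} {l0 : ι}
    (hA : ∀ l, Irreducible (A l)) (hd : ∀ l, (A l).natDegree ≠ 0)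
    (hc : ∀ l (y : ℂ), (A l).eval (C y) ≠ 0) (hdiag : ∀ l, l ≠ l0 → (A l).eval X ≠ 0) (J : ℕ) :
    ∃ k1, ∀ k, k1 < k → k ≤ k1 + J → CleanAt (fun l => ev (A l)) l0 k := by
  obtain ⟨k0, hk0, huniq⟩ := crit_value_unique
  have hfin : (⋃ l, ({v | ¬ GoodPt (ev (A l)) v} ∪ {v | ev (A l) v 0 = 0})).Finite :=
    Set.finite_iUnion fun l => (good_poly (hA l) (hd l)).union (zeros_finite (hc l 0))
  obtain ⟨K1, hK1⟩ := eventually_atTop.1 (ev_notMem hfin)
  obtain ⟨k1, hk1, hwin⟩ := clean_window (ι := {l // l ≠ l0}) (A := fun l => A l.1)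
    (fun l => hdiag l.1 l.2) (fun l y => hc l.1 y) J (max k0 K1)
  refine ⟨k1, fun k hk hkJ => ?_⟩
  have h1 : k0 ≤ k := (le_max_left _ _).trans (hk1.trans hk.le)
  have h2 := hK1 k ((le_max_right k0 K1).trans (hk1.trans hk.le))
  refine ⟨hk0.trans h1, huniq k h1, ?_, ?_⟩
  · intro m
    by_contra h
    exact h2 (Set.mem_iUnion.2 ⟨m, Or.inl h⟩)
  · intro m hm y hy
    refine ⟨?_, ?_⟩
    · rintro rfl
      exact h2 (Set.mem_iUnion.2 ⟨m, Or.inr hy⟩)
    · intro hcv
      exact hwin k hk hkJ ⟨m, hm⟩ y hcv hy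

end Pool.Agent.H489.GI.G
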