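import Mathlib
import Pool.Graph.R_seed8.H370R2.Digamma

open Complex Filter Topology Set

namespace Pool.Agent.H489.GI

/-- the entire function `1 / Γ` -/
noncomputable def H (z : ℂ) : ℂ := (Complex.Gamma z)⁻¹

lemma H_diff : Differentiable ℂ H := differentiable_one_div_Gamma

lemma H_analytic (z : ℂ) : AnalyticAt ℂ H z := H_diff.analyticAt z

lemma H_rec (z : ℂ) : H z = z * H (z + 1) := one_div_Gamma_eq_self_mul_one_div_Gamma_add_one z

lemma H_eq_zero_iff (z : ℂ) : H z = 0 ↔ ∃ m : ℕ, z = -m := by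
  unfold H
  rw [inv_eq_zero, Gamma_eq_zero_iff]

lemma H_neg_nat (k : ℕ) : H (-k) = 0 := (H_eq_zero_iff _).2 ⟨k, rfl⟩

lemma deriv_H_rec (z : ℂ) : deriv H z = H (z + 1) + z * deriv H (z + 1) := by
  have h1 : HasDerivAt (fun w : ℂ => w * H (w + 1)) (1 * H (z + 1) + z * deriv H (z + 1)) z := by
    have h2 : HasDerivAt (fun w : ℂ => H (w + 1)) (deriv H (z + 1)) z := by
      have := (H_diff (z + 1)).hasDerivAt.comp_add_const z 1
      exact this
    exact (hasDerivAt_id z).mul h2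
  have h3 : H = fun w : ℂ => w * H (w + 1) := funext H_rec
  rw [one_mul] at h1
  rw [← h3] at h1
  exact h1.deriv

lemma H_one : H 1 = 1 := by simp [H]

lemma deriv_H_neg_nat (k : ℕ) : deriv H (-k) ≠ 0 := by
  induction k with
  | zero =>
    rw [deriv_H_rec]
    simp [H_one]
  | succ k ih =>
    rw [deriv_H_rec]
    have e : (-((k + 1 : ℕ) : ℂ)) + 1 = -k := by push_cast; ring
    rw [e, H_neg_nat, zero_add]
    refine mul_ne_zero ?_ ih
    exact neg_ne_zero.2 (by exact_mod_cast Nat.succ_ne_zero k)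

lemma Gamma_ne {z : ℂ} (hz : H z ≠ 0) : Gamma z ≠ 0 := by
  intro h
  apply hz
  unfold H
  rw [h, inv_zero]

lemma ne_neg {z : ℂ} (hz : H z ≠ 0) (m : ℕ) : z ≠ -m := by
  intro h
  exact hz ((H_eq_zero_iff z).2 ⟨m, h⟩)

/-- logarithmic derivative -/
lemma deriv_H {z : ℂ} (hz : H z ≠ 0) : deriv H z = - H z * digamma z := by
  have hG : DifferentiableAt ℂ Gamma z := differentiableAt_Gamma z (ne_neg hz)
  have h0 := Gamma_ne hz
  have h1 : HasDerivAt H (-(deriv Gamma z) / (Gamma z) ^ 2) z := hG.hasDerivAt.fun_inv h0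
  rw [h1.deriv, digamma_def, logDeriv_apply]
  unfold H
  field_simp

lemma deriv_H_eq_zero_iff {z : ℂ} (hz : H z ≠ 0) : deriv H z = 0 ↔ digamma z = 0 := by
  rw [deriv_H hz]
  constructor
  · intro h
    rcases mul_eq_zero.1 h with h | h
    · exact absurd (neg_eq_zero.1 h) hz
    · exact h
  · intro h
    rw [h, mul_zero]

/-- the points which are not poles -/
def NP (z : ℂ) : Prop := ∀ m : ℕ, z ≠ -m

lemma NP_iff (z : ℂ) : NP z ↔ H z ≠ 0 := by
  unfold NP
  rw [Ne, H_eq_zero_iff]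
  push Not
  rfl

lemma NP_add {z : ℂ} (hz : NP z) (n : ℕ) : NP (z + n) := by
  intro m h
  apply hz (m + n)
  push_cast
  linear_combination h

lemma digamma_add_nat {z : ℂ} (hz : NP z) (n : ℕ) :
    digamma (z + n) = digamma z + ∑ j ∈ Finset.range n, (z + j)⁻¹ := by
  induction n with
  | zero => simp
  | succ n ih =>
    rw [Finset.sum_range_succ, ← add_assoc, ← ih]
    have := digamma_apply_add_one (z + n) (NP_add hz n)
    rw [← this]
    congr 1
    push_cast
    ring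

/-- the imaginary part of `-1/s` -/
lemma im_neg_inv (s : ℂ) : (-(s⁻¹)).im = s.im / normSq s := by
  rw [neg_im, inv_im, neg_div, neg_neg]

lemma im_digamma_pos_re {s : ℂ} (hs : 0 < s.re) (him : 0 < s.im) :
    s.im / normSq s ≤ (digamma s).im := by
  rw [digamma_def, H370.DG.logDeriv_Gamma hs]
  have h1 : (∑' n, H370.DG.gd n s).im = ∑' n, (H370.DG.gd n s).im :=
    (Complex.hasSum_im (H370.DG.summable_gd (by linarith)).hasSum).tsum_eq.symm
  have h2 : 0 ≤ ∑' n, (H370.DG.gd n s).im := by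
    refine tsum_nonneg fun n => ?_
    unfold H370.DG.gd
    rw [one_div, sub_eq_add_neg, add_im, im_neg_inv, ofReal_im, zero_add]
    refine div_nonneg ?_ (normSq_nonneg _)
    simp
    exact him.le
  have h3 : 0 ≤ (-(1 / (s + 1))).im := by
    rw [one_div, im_neg_inv]
    refine div_nonneg ?_ (normSq_nonneg _)
    simp
    exact him.le
  have h4 : (-(1 / s)).im = s.im / normSq s := by rw [one_div, im_neg_inv]
  rw [add_im, h1, sub_eq_add_neg, add_im, h4]
  linarith

lemma im_digamma {s : ℂ} (him : 0 < s.im) : s.im / normSq s ≤ (digamma s).im := by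
  have hNP : NP s := by
    intro m h
    rw [h] at him
    simp at him
  obtain ⟨n, hn⟩ := exists_nat_gt (-s.re)
  have h1 := digamma_add_nat hNP (n + 1)
  have h2 : 0 < (s + ((n + 1 : ℕ) : ℂ)).re := by
    simp
    linarith
  have h3 : 0 < (s + ((n + 1 : ℕ) : ℂ)).im := by
    simp [him]
  have h4 := im_digamma_pos_re h2 h3
  have h5 : digamma s = digamma (s + ((n + 1 : ℕ) : ℂ)) + ∑ j ∈ Finset.range (n + 1), -(s + j)⁻¹ := by
    rw [h1, Finset.sum_neg_distrib]
    ring
  rw [h5, add_im]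
  have h6 : (∑ j ∈ Finset.range (n + 1), -(s + (j : ℂ))⁻¹).im =
      ∑ j ∈ Finset.range (n + 1), (-(s + (j : ℂ))⁻¹).im := by
    rw [im_sum]
  rw [h6, Finset.sum_range_succ']
  have h7 : 0 ≤ ∑ j ∈ Finset.range n, (-(s + ((j + 1 : ℕ) : ℂ))⁻¹).im := by
    refine Finset.sum_nonneg fun j _ => ?_
    rw [im_neg_inv]
    refine div_nonneg ?_ (normSq_nonneg _)
    simp
    exact him.le
  have h8 : (-(s + ((0 : ℕ) : ℂ))⁻¹).im = s.im / normSq s := by
    rw [Nat.cast_zero, add_zero, im_neg_inv]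
  have h9 : 0 ≤ (digamma (s + ((n + 1 : ℕ) : ℂ))).im := by
    refine le_trans ?_ h4
    refine div_nonneg h3.le (normSq_nonneg _)
  rw [h8]
  linarith

lemma digamma_eq {z : ℂ} (hz : H z ≠ 0) : digamma z = -(deriv H z) / H z := by
  rw [deriv_H hz]
  field_simp

lemma eventually_H_ne {z : ℂ} (hz : H z ≠ 0) : ∀ᶠ w in 𝓝 z, H w ≠ 0 :=
  (H_diff.continuous.continuousAt).eventually_ne hz

lemma digamma_analytic {z : ℂ} (hz : H z ≠ 0) : AnalyticAt ℂ digamma z := by
  have h1 : AnalyticAt ℂ (fun w => -(deriv H w) / H w) z :=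
    ((H_analytic z).deriv.neg).div (H_analytic z) hz
  refine h1.congr ?_
  filter_upwards [eventually_H_ne hz] with w hw
  exact (digamma_eq hw).symm

lemma H_conj (z : ℂ) : H ((starRingEnd ℂ) z) = (starRingEnd ℂ) (H z) := by
  unfold H
  rw [Gamma_conj, map_inv₀]

lemma deriv_H_conj (z : ℂ) : deriv H ((starRingEnd ℂ) z) = (starRingEnd ℂ) (deriv H z) := by
  have h := (H_diff z).hasDerivAt.conj_conj
  have e : (starRingEnd ℂ) ∘ H ∘ (starRingEnd ℂ) = H := by
    funext w
    simp only [Function.comp]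
    rw [H_conj]
    simp
  rw [e] at h
  exact h.deriv

lemma H_real (x : ℝ) : (H (x : ℂ)).im = 0 := by
  have := H_conj (x : ℂ)
  rw [conj_ofReal] at this
  exact (conj_eq_iff_im.1 this.symm)

lemma deriv_H_real (x : ℝ) : (deriv H (x : ℂ)).im = 0 := by
  have := deriv_H_conj (x : ℂ)
  rw [conj_ofReal] at this
  exact (conj_eq_iff_im.1 this.symm)

lemma digamma_real {x : ℝ} (hx : H (x : ℂ) ≠ 0) : (digamma (x : ℂ)).im = 0 := by
  rw [digamma_eq hx, div_im, neg_im, neg_re, H_real, deriv_H_real]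
  simp

lemma deriv_digamma_ge {x : ℝ} (hx : H (x : ℂ) ≠ 0) : 1 / x ^ 2 ≤ (deriv digamma (x : ℂ)).re := by
  have hd : HasDerivAt digamma (deriv digamma (x : ℂ)) (x : ℂ) :=
    (digamma_analytic hx).differentiableAt.hasDerivAt
  have hx0 : x ≠ 0 := by
    rintro rfl
    apply hx
    have := H_neg_nat 0
    simpa using this
  -- the function y ↦ digamma (x + i y)
  have h1 : HasDerivAt (fun y : ℝ => digamma ((x : ℂ) + y * I)) (deriv digamma (x : ℂ) * I) 0 := by
    have h2 : HasDerivAt (fun y : ℝ => (x : ℂ) + y * I) I 0 := by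
      have := ((Complex.ofRealCLM.hasDerivAt (x := (0:ℝ))).mul_const I).const_add (x : ℂ)
      simpa using this
    have h3 : HasDerivAt digamma (deriv digamma (x : ℂ)) ((x : ℂ) + ((0 : ℝ) : ℂ) * I) := by
      simpa using hd
    have := HasDerivAt.scomp (g₁ := digamma) (0 : ℝ) h3 h2
    simpa [mul_comm, Function.comp_def] using this
  have h4 : HasDerivAt (fun y : ℝ => (digamma ((x : ℂ) + y * I)).im) (deriv digamma (x : ℂ)).re 0 := by
    have := (Complex.imCLM.hasFDerivAt (x := digamma ((x : ℂ) + ((0 : ℝ) : ℂ) * I))).comp_hasDerivAt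
      (0 : ℝ) h1
    simpa [Function.comp_def] using this
  have h5 := h4.tendsto_slope_zero_right
  have h6 : Tendsto (fun y : ℝ => 1 / (x ^ 2 + y ^ 2)) (𝓝[>] 0) (𝓝 (1 / x ^ 2)) := by
    have : Tendsto (fun y : ℝ => 1 / (x ^ 2 + y ^ 2)) (𝓝 0) (𝓝 (1 / (x ^ 2 + 0 ^ 2))) := by
      apply Tendsto.div tendsto_const_nhds
      · exact tendsto_const_nhds.add ((continuous_pow 2).tendsto 0)
      · positivity
    simp only [ne_eq, OfNat.ofNat_ne_zero, not_false_eq_true, zero_pow, add_zero] at this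
    exact this.mono_left nhdsWithin_le_nhds
  refine le_of_tendsto_of_tendsto h6 h5 ?_
  filter_upwards [self_mem_nhdsWithin] with y hy
  have hy : 0 < y := hy
  have h7 := im_digamma (s := (x : ℂ) + y * I) (by simp [hy])
  have h8 : normSq ((x : ℂ) + y * I) = x ^ 2 + y ^ 2 := by
    rw [normSq_apply]; simp; ring
  have h9 : ((x : ℂ) + y * I).im = y := by simp
  rw [h8, h9] at h7
  have h10 : (digamma ((x : ℂ) + ((0 : ℝ) : ℂ) * I)).im = 0 := by simpa using digamma_real hx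
  simp only [zero_add]
  rw [h10, sub_zero, smul_eq_mul]
  have h11 : 1 / (x ^ 2 + y ^ 2) = y⁻¹ * (y / (x ^ 2 + y ^ 2)) := by field_simp
  rw [h11]
  exact mul_le_mul_of_nonneg_left h7 (inv_nonneg.2 hy.le)

/-- the digamma function on the real line -/
noncomputable def psi (x : ℝ) : ℝ := (digamma (x : ℂ)).re

lemma hasDerivAt_psi {x : ℝ} (hx : H (x : ℂ) ≠ 0) : HasDerivAt psi (deriv digamma (x : ℂ)).re x :=
  (digamma_analytic hx).differentiableAt.hasDerivAt.real_of_complex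

lemma psi_coe {x : ℝ} (hx : H (x : ℂ) ≠ 0) : ((psi x : ℝ) : ℂ) = digamma (x : ℂ) := by
  apply Complex.ext
  · rfl
  · rw [ofReal_im, digamma_real hx]

/-- `ψ` is strictly increasing between poles -/
lemma psi_strictMonoOn {s : Set ℝ} (hs : Convex ℝ s) (h : ∀ x ∈ s, H (x : ℂ) ≠ 0) :
    StrictMonoOn psi s := by
  refine strictMonoOn_of_deriv_pos hs ?_ ?_
  · intro x hx
    exact (hasDerivAt_psi (h x hx)).continuousAt.continuousWithinAt
  · intro x hx
    have hx' := interior_subset hx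
    rw [(hasDerivAt_psi (h x hx')).deriv]
    have hx0 : x ≠ 0 := by
      rintro rfl
      apply h 0 hx'
      have := H_neg_nat 0
      simpa using this
    have := deriv_digamma_ge (h x hx')
    have : 0 < 1 / x ^ 2 := by positivity
    linarith

/-- critical points are real -/
lemma crit_real {z : ℂ} (hz : H z ≠ 0) (h : deriv H z = 0) : z.im = 0 := by
  have hd := (deriv_H_eq_zero_iff hz).1 h
  rcases lt_trichotomy z.im 0 with h1 | h1 | h1
  · exfalso
    have h2 : 0 < ((starRingEnd ℂ) z).im := by simp [h1]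
    have h3 := im_digamma h2
    have h4 : digamma ((starRingEnd ℂ) z) = 0 := by
      have hz' : H ((starRingEnd ℂ) z) ≠ 0 := by
        rw [H_conj]
        simpa using hz
      rw [← deriv_H_eq_zero_iff hz', deriv_H_conj, h, map_zero]
    rw [h4, zero_im] at h3
    have h5 : 0 < normSq ((starRingEnd ℂ) z) := by
      rw [normSq_pos]
      intro h6
      rw [h6] at h2
      simp at h2
    have := div_pos h2 h5
    linarith
  · exact h1
  · exfalso
    have h3 := im_digamma h1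
    rw [hd, zero_im] at h3
    have h5 : 0 < normSq z := by
      rw [normSq_pos]
      intro h6
      rw [h6] at h1
      simp at h1
    have := div_pos h1 h5
    linarith

/-- the function `H` on the real line -/
noncomputable def h (x : ℝ) : ℝ := (H (x : ℂ)).re

lemma h_coe (x : ℝ) : ((h x : ℝ) : ℂ) = H (x : ℂ) := by
  apply Complex.ext
  · rfl
  · rw [ofReal_im, H_real]

lemma h_ne_iff (x : ℝ) : h x ≠ 0 ↔ H (x : ℂ) ≠ 0 := by
  rw [← h_coe]
  simp

lemma hasDerivAt_h (x : ℝ) : HasDerivAt h (deriv H (x : ℂ)).re x :=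
  (H_diff (x : ℂ)).hasDerivAt.real_of_complex

lemma h_continuous : Continuous h := by
  unfold h
  exact continuous_re.comp (H_diff.continuous.comp continuous_ofReal)

lemma deriv_h_eq {x : ℝ} (hx : H (x : ℂ) ≠ 0) : (deriv H (x : ℂ)).re = - h x * psi x := by
  rw [deriv_H hx, ← psi_coe hx, ← h_coe]
  simp

lemma h_rec (x : ℝ) : h x = x * h (x + 1) := by
  have := H_rec (x : ℂ)
  have e : (x : ℂ) + 1 = ((x + 1 : ℝ) : ℂ) := by push_cast; rfl
  rw [e, ← h_coe, ← h_coe] at this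
  exact_mod_cast this

lemma h_pos {x : ℝ} (hx : 0 < x) : 0 < h x := by
  unfold h H
  rw [Complex.Gamma_ofReal, ← ofReal_inv, ofReal_re]
  exact inv_pos.2 (Real.Gamma_pos_of_pos hx)

lemma sign_h (k : ℕ) : ∀ x : ℝ, -k < x → x < -k + 1 → 0 < (-1) ^ k * h x := by
  induction k with
  | zero =>
    intro x h1 h2
    simp only [CharP.cast_eq_zero, neg_zero] at h1
    simpa using h_pos h1
  | succ k ih =>
    intro x h1 h2
    push_cast at h1 h2
    have h3 := ih (x + 1) (by linarith) (by linarith)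
    rw [h_rec, pow_succ]
    have h4 : 0 < -x := by
      have : (0 : ℝ) ≤ k := Nat.cast_nonneg k
      linarith
    have := mul_pos h4 h3
    linarith [this]

lemma H_ne_of_mem {k : ℕ} {x : ℝ} (h1 : -(k : ℝ) < x) (h2 : x < -k + 1) : H (x : ℂ) ≠ 0 := by
  rw [← h_ne_iff]
  intro h3
  have := sign_h k x h1 h2
  rw [h3, mul_zero] at this
  exact lt_irrefl _ this

lemma h_neg_nat (k : ℕ) : h (-k) = 0 := by
  have := H_neg_nat k
  have e : (-(k : ℂ)) = ((-k : ℝ) : ℂ) := by push_cast; rfl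
  rw [e, ← h_coe] at this
  exact_mod_cast this

lemma h_neg_nat_succ {k : ℕ} (hk : 1 ≤ k) : h (-k + 1) = 0 := by
  obtain ⟨m, rfl⟩ : ∃ m, k = m + 1 := ⟨k - 1, by omega⟩
  have := h_neg_nat m
  have e : (-((m + 1 : ℕ) : ℝ) + 1) = -m := by push_cast; ring
  rw [e, this]

lemma exists_crit {k : ℕ} (hk : 1 ≤ k) :
    ∃ x : ℝ, -k < x ∧ x < -k + 1 ∧ (deriv H (x : ℂ)).re = 0 := by
  obtain ⟨c, hc, hc'⟩ := exists_hasDerivAt_eq_zero (f := h)
    (f' := fun x => (deriv H (x : ℂ)).re) (a := -(k : ℝ)) (b := -k + 1) (by linarith)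
    h_continuous.continuousOn (by rw [h_neg_nat, h_neg_nat_succ hk])
    (fun x _ => hasDerivAt_h x)
  exact ⟨c, hc.1, hc.2, hc'⟩

/-- the critical point between `-k` and `-k+1` -/
noncomputable def xk (k : ℕ) : ℝ := if hk : 1 ≤ k then (exists_crit hk).choose else 0

lemma xk_spec {k : ℕ} (hk : 1 ≤ k) :
    -(k : ℝ) < xk k ∧ xk k < -k + 1 ∧ (deriv H (xk k : ℂ)).re = 0 := by
  unfold xk
  rw [dif_pos hk]
  exact (exists_crit hk).choose_spec

lemma deriv_H_xk {k : ℕ} (hk : 1 ≤ k) : deriv H (xk k : ℂ) = 0 := by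
  apply Complex.ext
  · exact (xk_spec hk).2.2
  · exact deriv_H_real _

lemma H_xk_ne {k : ℕ} (hk : 1 ≤ k) : H (xk k : ℂ) ≠ 0 :=
  H_ne_of_mem (xk_spec hk).1 (xk_spec hk).2.1

lemma psi_xk {k : ℕ} (hk : 1 ≤ k) : psi (xk k) = 0 := by
  have h1 := deriv_h_eq (H_xk_ne hk)
  rw [(xk_spec hk).2.2] at h1
  have h2 := (h_ne_iff _).2 (H_xk_ne hk)
  have : h (xk k) * psi (xk k) = 0 := by linarith
  rcases mul_eq_zero.1 this with h3 | h3
  · exact absurd h3 h2
  · exact h3

lemma psi_mono_k (k : ℕ) : StrictMonoOn psi (Ioo (-(k : ℝ)) (-k + 1)) :=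
  psi_strictMonoOn (convex_Ioo _ _) fun _ hx => H_ne_of_mem hx.1 hx.2

lemma psi_mono_pos : StrictMonoOn psi (Ioi 0) :=
  psi_strictMonoOn (convex_Ioi _) fun x hx => (h_ne_iff x).1 (h_pos hx).ne'

lemma crit_unique {k : ℕ} (hk : 1 ≤ k) {x : ℝ} (h1 : -(k : ℝ) < x) (h2 : x < -k + 1)
    (h3 : deriv H (x : ℂ) = 0) : x = xk k := by
  have h4 : psi x = 0 := by
    have h5 := (deriv_H_eq_zero_iff (H_ne_of_mem h1 h2)).1 h3
    unfold psi
    rw [h5]
    simp
  exact (psi_mono_k k).injOn ⟨h1, h2⟩ ⟨(xk_spec hk).1, (xk_spec hk).2.1⟩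
    (by rw [h4, psi_xk hk])

/-- the function `(-1)^k H` increases up to the critical point -/
lemma mono_left {k : ℕ} (hk : 1 ≤ k) :
    StrictMonoOn (fun x => (-1) ^ k * h x) (Icc (-(k : ℝ)) (xk k)) := by
  refine strictMonoOn_of_deriv_pos (convex_Icc _ _) (continuous_const.mul h_continuous).continuousOn ?_
  intro x hx
  rw [interior_Icc] at hx
  have h1 : -(k : ℝ) < x := hx.1
  have h2 : x < -k + 1 := hx.2.trans (xk_spec hk).2.1
  rw [((hasDerivAt_h x).const_mul _).deriv, deriv_h_eq (H_ne_of_mem h1 h2)]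
  have h3 : psi x < 0 := by
    rw [← psi_xk hk]
    exact psi_mono_k k ⟨h1, h2⟩ ⟨(xk_spec hk).1, (xk_spec hk).2.1⟩ hx.2
  have h4 := sign_h k x h1 h2
  have := mul_pos_of_neg_of_neg h3 (neg_neg_of_pos h4)
  linarith

lemma anti_right {k : ℕ} (hk : 1 ≤ k) :
    StrictAntiOn (fun x => (-1) ^ k * h x) (Icc (xk k) (-(k : ℝ) + 1)) := by
  refine strictAntiOn_of_deriv_neg (convex_Icc _ _) (continuous_const.mul h_continuous).continuousOn ?_
  intro x hx
  rw [interior_Icc] at hx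
  have h1 : -(k : ℝ) < x := (xk_spec hk).1.trans hx.1
  have h2 : x < -k + 1 := hx.2
  rw [((hasDerivAt_h x).const_mul _).deriv, deriv_h_eq (H_ne_of_mem h1 h2)]
  have h3 : 0 < psi x := by
    rw [← psi_xk hk]
    exact psi_mono_k k ⟨(xk_spec hk).1, (xk_spec hk).2.1⟩ ⟨h1, h2⟩ hx.1
  have h4 := sign_h k x h1 h2
  have := mul_pos h3 h4
  linarith

/-- the absolute values of the critical values -/
noncomputable def Mk (k : ℕ) : ℝ := (-1) ^ k * h (xk k)

lemma Mk_pos {k : ℕ} (hk : 1 ≤ k) : 0 < Mk k := sign_h k _ (xk_spec hk).1 (xk_spec hk).2.1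

lemma le_Mk {k : ℕ} (hk : 1 ≤ k) {x : ℝ} (h1 : -(k : ℝ) ≤ x) (h2 : x ≤ -k + 1) :
    (-1) ^ k * h x ≤ Mk k := by
  rcases le_total x (xk k) with h3 | h3
  · exact (mono_left hk).monotoneOn ⟨h1, h3⟩ ⟨(xk_spec hk).1.le, le_rfl⟩ h3
  · exact (anti_right hk).antitoneOn ⟨le_rfl, (xk_spec hk).2.1.le⟩ ⟨h3, h2⟩ h3

lemma Mk_succ {k : ℕ} (hk : 1 ≤ k) : k * Mk k < Mk (k + 1) := by
  have hx := xk_spec hk
  have h1 : (-1) ^ (k + 1) * h (xk k - 1) ≤ Mk (k + 1) := by
    apply le_Mk (by omega)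
    · push_cast; linarith
    · push_cast; linarith
  have h2 : h (xk k - 1) = (xk k - 1) * h (xk k) := by
    rw [h_rec (xk k - 1)]
    congr 2
    ring
  rw [h2, pow_succ] at h1
  have h3 := Mk_pos hk
  have h4 : (k : ℝ) < 1 - xk k := by linarith
  have h5 : (k : ℝ) * Mk k < (1 - xk k) * Mk k := mul_lt_mul_of_pos_right h4 h3
  have h6 : (1 - xk k) * Mk k = (-1) ^ k * -1 * ((xk k - 1) * h (xk k)) := by
    unfold Mk; ring
  linarith

lemma Mk_strictMono {a b : ℕ} (ha : 1 ≤ a) (hab : a < b) : Mk a < Mk b := by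
  induction b, hab using Nat.le_induction with
  | base =>
    have h1 := Mk_succ ha
    have h2 := Mk_pos ha
    have h3 : (1 : ℝ) ≤ a := by exact_mod_cast ha
    nlinarith
  | succ b hb ih =>
    have hb' : 1 ≤ b := by omega
    have h1 := Mk_succ hb'
    have h2 := Mk_pos hb'
    have h3 : (1 : ℝ) ≤ b := by exact_mod_cast hb'
    nlinarith

lemma Mk_ge (k : ℕ) : 2 ^ k * Mk 2 ≤ Mk (k + 2) := by
  induction k with
  | zero => simp
  | succ k ih =>
    have h1 := Mk_succ (k := k + 2) (by omega)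
    have h2 := Mk_pos (k := k + 2) (by omega)
    have h3 : (2 : ℝ) ≤ ((k + 2 : ℕ) : ℝ) := by push_cast; linarith [Nat.cast_nonneg (α := ℝ) k]
    have h4 : 2 * Mk (k + 2) ≤ ((k + 2 : ℕ) : ℝ) * Mk (k + 2) := mul_le_mul_of_nonneg_right h3 h2.le
    have e : k + 1 + 2 = k + 2 + 1 := by ring
    rw [pow_succ, e]
    nlinarith

lemma Mk_large (C : ℝ) : ∃ k0, ∀ k, k0 ≤ k → C < Mk k := by
  have h0 := Mk_pos (k := 2) (by norm_num)
  obtain ⟨n, hn⟩ := pow_unbounded_of_one_lt (C / Mk 2) (one_lt_two (α := ℝ))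
  refine ⟨n + 2, fun k hk => ?_⟩
  rw [div_lt_iff₀ h0] at hn
  have h1 := Mk_ge n
  rcases eq_or_lt_of_le hk with h | h
  · rw [← h]; linarith
  · have := Mk_strictMono (by omega) h
    linarith

/-- a negative real number which is not a pole lies in one of the intervals -/
lemma exists_interval {x : ℝ} (hx : x < 0) (hH : H (x : ℂ) ≠ 0) :
    ∃ k : ℕ, 1 ≤ k ∧ -(k : ℝ) < x ∧ x < -k + 1 := by
  refine ⟨⌈-x⌉₊, Nat.one_le_iff_ne_zero.2 ?_, ?_, ?_⟩
  · exact (Nat.ceil_pos.2 (by linarith)).ne'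
  · have h1 := Nat.le_ceil (-x)
    rcases h1.lt_or_eq with h2 | h2
    · linarith
    · exfalso
      apply hH
      rw [H_eq_zero_iff]
      refine ⟨⌈-x⌉₊, ?_⟩
      have : x = -((⌈-x⌉₊ : ℕ) : ℝ) := by linarith
      exact_mod_cast this
  · have := Nat.ceil_lt_add_one (a := -x) (by linarith)
    linarith

/-- for large `k` the critical point `x_k` is the only one with its critical value -/
lemma crit_value_unique : ∃ k0 : ℕ, 1 ≤ k0 ∧ ∀ k, k0 ≤ k → ∀ z : ℂ, deriv H z = 0 →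
    H z = H (xk k : ℂ) → z = (xk k : ℂ) := by
  have key : ∃ C : ℝ, ∀ x : ℝ, 0 < x → deriv H (x : ℂ) = 0 → |h x| ≤ C := by
    by_cases hex : ∃ x : ℝ, 0 < x ∧ deriv H (x : ℂ) = 0
    · obtain ⟨y, hy, hy'⟩ := hex
      refine ⟨|h y|, fun x hx hx' => ?_⟩
      have e : x = y := by
        have e1 : psi x = 0 := by
          unfold psi
          rw [(deriv_H_eq_zero_iff ((h_ne_iff x).1 (h_pos hx).ne')).1 hx']
          simp
        have e2 : psi y = 0 := by
          unfold psi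
          rw [(deriv_H_eq_zero_iff ((h_ne_iff y).1 (h_pos hy).ne')).1 hy']
          simp
        exact psi_mono_pos.injOn hx hy (by rw [e1, e2])
      rw [e]
    · push Not at hex
      exact ⟨0, fun x hx hx' => absurd hx' (hex x hx)⟩
  obtain ⟨C, hC⟩ := key
  obtain ⟨k0, hk0⟩ := Mk_large C
  refine ⟨k0 + 1, by omega, fun k hk z hz hz' => ?_⟩
  have hk1 : 1 ≤ k := by omega
  have hzne : H z ≠ 0 := by
    rw [hz']
    exact H_xk_ne hk1
  have him := crit_real hzne hz
  obtain ⟨x, rfl⟩ : ∃ x : ℝ, z = x := ⟨z.re, by apply Complex.ext <;> simp [him]⟩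
  have habs : |h x| = Mk k := by
    have e1 : h x = h (xk k) := by
      unfold h
      rw [hz']
    rw [e1]
    have e2 := Mk_pos hk1
    unfold Mk at e2 ⊢
    rcases neg_one_pow_eq_or ℝ k with e3 | e3
    · rw [e3] at e2 ⊢
      rw [one_mul] at e2 ⊢
      exact abs_of_pos e2
    · rw [e3] at e2 ⊢
      rw [abs_of_neg (by linarith)]
      ring
  rcases lt_trichotomy x 0 with hx | hx | hx
  · obtain ⟨m, hm, hm1, hm2⟩ := exists_interval hx hzne
    have e1 := crit_unique hm hm1 hm2 hz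
    have e2 : |h x| = Mk m := by
      rw [e1]
      have e2 := Mk_pos hm
      unfold Mk at e2 ⊢
      rcases neg_one_pow_eq_or ℝ m with e3 | e3
      · rw [e3] at e2 ⊢
        rw [one_mul] at e2 ⊢
        exact abs_of_pos e2
      · rw [e3] at e2 ⊢
        rw [abs_of_neg (by linarith)]
        ring
    rw [habs] at e2
    have e3 : m = k := by
      rcases lt_trichotomy m k with h1 | h1 | h1
      · exact absurd e2.symm (Mk_strictMono hm h1).ne
      · exact h1
      · exact absurd e2 (Mk_strictMono hk1 h1).ne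
    rw [e1, e3]
  · exfalso
    apply hzne
    rw [hx]
    have := H_neg_nat 0
    simpa using this
  · exfalso
    have := hC x hx hz
    rw [habs] at this
    linarith [hk0 k (by omega)]

end Pool.Agent.H489.GI
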