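import Pool.Agent.H489.GI.Basic

open Complex Filter Topology Set

namespace Pool.Agent.H489.GI

lemma deriv_deriv_H_xk {k : ℕ} (hk : 1 ≤ k) : deriv (deriv H) (xk k : ℂ) ≠ 0 := by
  have hne := H_xk_ne hk
  have h1 : deriv H =ᶠ[𝓝 (xk k : ℂ)] fun z => - H z * digamma z := by
    filter_upwards [eventually_H_ne hne] with z hz using deriv_H hz
  rw [h1.deriv_eq]
  have h2 : HasDerivAt (fun z => - H z * digamma z)
      (-deriv H (xk k : ℂ) * digamma (xk k : ℂ) + - H (xk k : ℂ) * deriv digamma (xk k : ℂ))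
      (xk k : ℂ) :=
    ((H_diff _).hasDerivAt.neg).mul (digamma_analytic hne).differentiableAt.hasDerivAt
  rw [h2.deriv, deriv_H_xk hk, neg_zero, zero_mul, zero_add]
  refine mul_ne_zero (neg_ne_zero.2 hne) ?_
  intro h3
  have h4 := deriv_digamma_ge hne
  rw [h3, zero_re] at h4
  have h5 : xk k ≠ 0 := by
    intro h6
    have h7 := xk_spec hk
    have h8 : (1 : ℝ) ≤ k := by exact_mod_cast hk
    rw [h6] at h7
    linarith [h7.2.1]
  have : 0 < 1 / (xk k) ^ 2 := by positivity
  linarith

/-- the constant `ζ(2)` -/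
noncomputable def Z2 : ℝ := ∑' n : ℕ, 1 / ((n : ℝ) + 1) ^ 2

lemma Z2_nonneg : 0 ≤ Z2 := tsum_nonneg fun n => by positivity

lemma psi_right {s : ℂ} (hs : 0 < s.re) (h1 : 1 ≤ ‖s‖) :
    ‖digamma s - log (s + 2)‖ ≤ 2 + Z2 := by
  rw [digamma_def, H370.DG.logDeriv_Gamma' hs]
  have e : log (s + 2) - 1 / s - 1 / (s + 1) + ∑' n, H370.DG.er n s - log (s + 2) =
      -(1 / s) - 1 / (s + 1) + ∑' n, H370.DG.er n s := by ring
  rw [e]
  have b1 : ‖1 / s‖ ≤ 1 := by
    rw [norm_div, norm_one]
    exact (div_le_one (by linarith)).2 h1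
  have b2 : ‖1 / (s + 1)‖ ≤ 1 := by
    rw [norm_div, norm_one]
    have : 1 ≤ ‖s + 1‖ := by
      refine le_trans ?_ (re_le_norm _)
      simp
      linarith
    exact (div_le_one (by linarith)).2 this
  have b3 := H370.DG.norm_tsum_er hs
  calc _ ≤ ‖-(1 / s) - 1 / (s + 1)‖ + ‖∑' n, H370.DG.er n s‖ := norm_add_le _ _
    _ ≤ (‖-(1 / s)‖ + ‖1 / (s + 1)‖) + ‖∑' n, H370.DG.er n s‖ := by
        gcongr
        exact norm_sub_le _ _
    _ ≤ (1 + 1) + Z2 := by
        rw [norm_neg]
        gcongr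
        exact b3
    _ = 2 + Z2 := by ring

lemma psi_lower {s : ℂ} (hs : 0 < s.re) (h1 : 1 ≤ ‖s‖) :
    Real.log ‖s‖ - (2 + Z2) ≤ ‖digamma s‖ := by
  have h2 := psi_right hs h1
  have h3 : Real.log ‖s‖ ≤ ‖log (s + 2)‖ := by
    have h4 : ‖s‖ ≤ ‖s + 2‖ := by
      rw [← sq_le_sq₀ (norm_nonneg _) (norm_nonneg _), Complex.sq_norm, Complex.sq_norm,
        normSq_apply, normSq_apply]
      simp
      nlinarith
    have h5 : Real.log ‖s‖ ≤ Real.log ‖s + 2‖ := Real.log_le_log (by linarith) h4
    refine h5.trans ?_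
    rw [← Complex.log_re]
    exact re_le_norm _
  have h6 : ‖log (s + 2)‖ - ‖digamma s‖ ≤ ‖digamma s - log (s + 2)‖ := by
    rw [norm_sub_rev]
    exact norm_sub_norm_le _ _
  linarith

lemma psi_upper {s : ℂ} (hs : 0 < s.re) (h1 : 1 ≤ ‖s‖) :
    ‖digamma s‖ ≤ ‖s‖ + 2 + Real.pi + (2 + Z2) := by
  have h2 := psi_right hs h1
  have h3 : ‖log (s + 2)‖ ≤ ‖s‖ + 2 + Real.pi := by
    have h4 : ‖log (s + 2)‖ ≤ |Real.log ‖s + 2‖| + Real.pi := by
      refine (norm_le_abs_re_add_abs_im _).trans ?_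
      rw [log_re, log_im]
      gcongr
      exact abs_arg_le_pi _
    have h5 : 1 ≤ ‖s + 2‖ := by
      refine le_trans ?_ (re_le_norm _)
      simp
      linarith
    have h6 : |Real.log ‖s + 2‖| ≤ ‖s‖ + 2 := by
      rw [abs_of_nonneg (Real.log_nonneg h5)]
      have := Real.log_le_sub_one_of_pos (x := ‖s + 2‖) (by linarith)
      have h7 := norm_add_le s 2
      have h8 : ‖(2 : ℂ)‖ = 2 := by simp
      linarith
    linarith
  have h9 : ‖digamma s‖ - ‖log (s + 2)‖ ≤ ‖digamma s - log (s + 2)‖ := norm_sub_norm_le _ _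
  linarith

lemma H_mul (u : ℂ) : H u * H (1 - u) = sin (Real.pi * u) / Real.pi := by
  unfold H
  rw [← mul_inv, Complex.Gamma_mul_Gamma_one_sub]
  rw [inv_div]

lemma deriv_refl (u : ℂ) :
    deriv H u * H (1 - u) - H u * deriv H (1 - u) = cos (Real.pi * u) := by
  have h1 : HasDerivAt (fun z => H z * H (1 - z))
      (deriv H u * H (1 - u) + H u * (- deriv H (1 - u))) u := by
    have h2 : HasDerivAt (fun z : ℂ => H (1 - z)) (- deriv H (1 - u)) u := by
      have h3 := (H_diff (1 - u)).hasDerivAt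
      have h4 : HasDerivAt (fun z : ℂ => 1 - z) (-1) u := by
        simpa using (hasDerivAt_id u).const_sub 1
      have := h3.comp u h4
      simpa [Function.comp_def] using this
    exact (H_diff u).hasDerivAt.mul h2
  have h5 : HasDerivAt (fun z => sin (Real.pi * z) / Real.pi) (cos (Real.pi * u)) u := by
    have h6 : HasDerivAt (fun z : ℂ => (Real.pi : ℂ) * z) (Real.pi : ℂ) u := by
      simpa using (hasDerivAt_id u).const_mul (Real.pi : ℂ)
    have h7 := (Complex.hasDerivAt_sin (Real.pi * u)).comp u h6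
    have h8 := h7.div_const (Real.pi : ℂ)
    have hpi : (Real.pi : ℂ) ≠ 0 := by exact_mod_cast Real.pi_ne_zero
    have e : cos (Real.pi * u) * (Real.pi : ℂ) / (Real.pi : ℂ) = cos (Real.pi * u) := by
      field_simp
    rw [e] at h8
    exact h8
  have h9 : (fun z => H z * H (1 - z)) = fun z => sin (Real.pi * z) / Real.pi := funext H_mul
  rw [h9] at h1
  have := h1.unique h5
  linear_combination this

lemma H_bdd : ∃ M : ℝ, 0 < M ∧ ∀ v : ℂ, 1 ≤ v.re → |v.im| ≤ 1 → ‖H v‖ ≤ M := by
  obtain ⟨M, hM⟩ := (isCompact_closedBall (0 : ℂ) 4).exists_bound_of_continuousOn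
    (f := H) H_diff.continuous.continuousOn
  refine ⟨max M 1, by positivity, ?_⟩
  have key : ∀ n : ℕ, ∀ v : ℂ, 1 ≤ v.re → v.re ≤ n + 2 → |v.im| ≤ 1 → ‖H v‖ ≤ max M 1 := by
    intro n
    induction n with
    | zero =>
      intro v h1 h2 h3
      refine (hM v ?_).trans (le_max_left _ _)
      rw [mem_closedBall_zero_iff]
      refine (norm_le_abs_re_add_abs_im v).trans ?_
      rw [abs_of_nonneg (by linarith)]
      simp at h2
      linarith
    | succ n ih =>
      intro v h1 h2 h3
      push_cast at h2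
      rcases le_total v.re 2 with h4 | h4
      · exact ih v h1 (by linarith [Nat.cast_nonneg (α := ℝ) n]) h3
      · have h5 := H_rec (v - 1)
        rw [sub_add_cancel] at h5
        have h6 := ih (v - 1) (by simp; linarith) (by simp; linarith) (by simpa using h3)
        rw [h5, norm_mul] at h6
        have h7 : 1 ≤ ‖v - 1‖ := by
          refine le_trans ?_ (re_le_norm _)
          simp
          linarith
        refine le_trans ?_ h6
        exact le_mul_of_one_le_left (norm_nonneg _) h7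
  intro v h1 h2
  obtain ⟨n, hn⟩ := exists_nat_gt v.re
  exact key n v h1 (by linarith) h2

lemma norm_cos_le {u : ℂ} (h : 1 ≤ |u.im|) : ‖cos (Real.pi * u)‖ ≤ 2 * ‖sin (Real.pi * u)‖ := by
  -- `cos = (e^{iz} + e^{-iz})/2`
  have hpi := Real.pi_gt_three
  set z : ℂ := Real.pi * u with hz
  have him : z.im = Real.pi * u.im := by simp [hz]
  have hc : ‖cos z‖ ≤ (Real.exp z.im + Real.exp (-z.im)) / 2 := by
    rw [Complex.cos, norm_div]
    have : ‖(2 : ℂ)‖ = 2 := by simp
    rw [this]
    gcongr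
    refine (norm_add_le _ _).trans ?_
    rw [norm_exp, norm_exp]
    simp
    linarith
  have hs : |Real.exp z.im - Real.exp (-z.im)| / 2 ≤ ‖sin z‖ := by
    rw [Complex.sin, norm_div, norm_mul, norm_I, mul_one]
    have : ‖(2 : ℂ)‖ = 2 := by simp
    rw [this]
    gcongr
    have := abs_norm_sub_norm_le (cexp (-z * I)) (cexp (z * I))
    rw [norm_exp, norm_exp] at this
    simpa using this
  have h1 : Real.exp z.im + Real.exp (-z.im) ≤ 2 * |Real.exp z.im - Real.exp (-z.im)| := by
    rcases le_total 0 u.im with h2 | h2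
    · rw [abs_of_nonneg h2] at h
      have h3 : 3 ≤ z.im := by rw [him]; nlinarith
      have h4 : Real.exp (-z.im) ≤ 1 := Real.exp_le_one_iff.2 (by linarith)
      have h5 : z.im + 1 ≤ Real.exp z.im := Real.add_one_le_exp _
      rw [abs_of_nonneg (by linarith)]
      linarith
    · rw [abs_of_nonpos h2] at h
      have h3 : 3 ≤ -z.im := by rw [him]; nlinarith
      have h4 : Real.exp z.im ≤ 1 := Real.exp_le_one_iff.2 (by linarith)
      have h5 : -z.im + 1 ≤ Real.exp (-z.im) := Real.add_one_le_exp _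
      rw [abs_of_nonpos (by linarith)]
      linarith
  linarith

/-- far away, where `H` is bounded, the logarithmic derivative of `H` is bounded below -/
theorem no_escape (A : ℝ) (hA : 0 < A) : ∃ R : ℝ, ∀ u : ℂ, R ≤ ‖u‖ → ‖H u‖ ≤ A →
    ‖H u‖ ≤ ‖deriv H u‖ := by
  obtain ⟨M, hM0, hM⟩ := H_bdd
  have hZ := Z2_nonneg
  have hpi := Real.pi_gt_three
  set C : ℝ := 3 + Real.pi + (2 + Z2) with hC
  have hC0 : 0 < C := by positivity
  set R0 : ℝ := Real.exp (2 * Real.pi + 1 + (2 + Z2)) with hR0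
  set R1 : ℝ := 4 + 2 * A * M * (4 + C) with hR1
  have hR0' : 1 ≤ R0 := Real.one_le_exp (by positivity)
  have hR1' : 4 ≤ R1 := by
    have : 0 ≤ 2 * A * M * (4 + C) := by positivity
    linarith
  refine ⟨R0 + R1 + 2, ?_⟩
  intro u hu hHu
  by_cases hne : H u = 0
  · rw [hne, norm_zero]
    exact norm_nonneg _
  -- lower bound for the digamma function in the right half plane
  have low : ∀ s : ℂ, 0 < s.re → R0 ≤ ‖s‖ → 2 * Real.pi + 1 ≤ ‖digamma s‖ := by
    intro s hs hs'
    have h1 := psi_lower hs (hR0'.trans hs')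
    have h2 : 2 * Real.pi + 1 + (2 + Z2) ≤ Real.log ‖s‖ := by
      rw [Real.le_log_iff_exp_le (by linarith)]
      exact hs'
    linarith
  rcases lt_or_ge 0 u.re with hre | hre
  · have h1 := low u hre (by linarith)
    rw [deriv_H hne, norm_mul, norm_neg]
    exact le_mul_of_one_le_right (norm_nonneg _) (by linarith)
  · -- left half plane
    set v : ℂ := 1 - u with hv
    have hvre : 1 ≤ v.re := by simp [hv]; linarith
    have hvn : R0 + R1 + 1 ≤ ‖v‖ := by
      have h1 : ‖u‖ - ‖(1 : ℂ)‖ ≤ ‖u - 1‖ := norm_sub_norm_le u 1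
      have h2 : ‖u - 1‖ = ‖v‖ := by rw [hv, norm_sub_rev]
      rw [h2, norm_one] at h1
      linarith
    have hvH : H v ≠ 0 := by
      intro h
      obtain ⟨m, hm⟩ := (H_eq_zero_iff _).1 h
      rw [hm] at hvre
      simp at hvre
      linarith [Nat.cast_nonneg (α := ℝ) m]
    have e1 := H_mul u
    have e2 := deriv_refl u
    rw [← hv] at e1 e2
    have e3 : deriv H u * H v = cos (Real.pi * u) - sin (Real.pi * u) / Real.pi * digamma v := by
      rw [deriv_H hvH] at e2
      linear_combination e2 - digamma v * e1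
    have hvpos : 0 < ‖H v‖ := norm_pos_iff.2 hvH
    have e4 : ‖H u‖ * ‖H v‖ = ‖sin (Real.pi * u)‖ / Real.pi := by
      rw [← norm_mul, e1, norm_div]
      simp [abs_of_pos Real.pi_pos]
    suffices hs : ‖sin (Real.pi * u)‖ / Real.pi ≤
        ‖cos (Real.pi * u) - sin (Real.pi * u) / Real.pi * digamma v‖ by
      rw [← e3, ← e4, norm_mul] at hs
      exact le_of_mul_le_mul_right hs hvpos
    have e5 : ‖sin (Real.pi * u) / Real.pi * digamma v‖ =
        ‖sin (Real.pi * u)‖ / Real.pi * ‖digamma v‖ := by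
      rw [norm_mul, norm_div]
      simp [abs_of_pos Real.pi_pos]
    rcases le_or_gt 1 |u.im| with him | him
    · have h1 := norm_cos_le him
      have h2 := low v (by linarith) (by linarith)
      have h3 : ‖sin (Real.pi * u) / Real.pi * digamma v‖ - ‖cos (Real.pi * u)‖ ≤
          ‖cos (Real.pi * u) - sin (Real.pi * u) / Real.pi * digamma v‖ := by
        rw [norm_sub_rev]
        exact norm_sub_norm_le _ _
      rw [e5] at h3
      have h4 : ‖sin (Real.pi * u)‖ / Real.pi * (2 * Real.pi + 1) ≤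
          ‖sin (Real.pi * u)‖ / Real.pi * ‖digamma v‖ := by
        gcongr
      have h5 : ‖sin (Real.pi * u)‖ / Real.pi * (2 * Real.pi + 1) =
          2 * ‖sin (Real.pi * u)‖ + ‖sin (Real.pi * u)‖ / Real.pi := by
        field_simp
      linarith
    · have hvim : |v.im| ≤ 1 := by
        simp [hv]
        exact him.le
      have hv4 : 4 ≤ v.re := by
        have h1 := norm_le_abs_re_add_abs_im v
        rw [abs_of_nonneg (by linarith : 0 ≤ v.re)] at h1
        linarith
      -- decay of `H v`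
      have h1 : H (v - 2) = (v - 2) * ((v - 1) * H v) := by
        rw [H_rec (v - 2)]
        have : v - 2 + 1 = v - 1 := by ring
        rw [this, H_rec (v - 1)]
        have : v - 1 + 1 = v := by ring
        rw [this]
      have h2 := hM (v - 2) (by simp; linarith) (by simpa using hvim)
      rw [h1, norm_mul, norm_mul] at h2
      set y : ℝ := ‖v‖ - 2 with hy
      have hy1 : 1 ≤ y := by
        rw [hy]; linarith
      have h3 : y ≤ ‖v - 2‖ := by
        have := norm_sub_norm_le v 2
        have h8 : ‖(2 : ℂ)‖ = 2 := by simp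
        rw [h8] at this
        exact this
      have h4 : y ≤ ‖v - 1‖ := by
        have := norm_sub_norm_le v 1
        rw [norm_one] at this
        linarith
      have h5 : y * y * ‖H v‖ ≤ M := by
        refine le_trans ?_ h2
        rw [mul_assoc]
        gcongr
      have h6 : ‖digamma v‖ + 1 ≤ y + 2 + C := by
        have := psi_upper (s := v) (by linarith) (by linarith)
        rw [hy, hC]
        linarith
      have h7 : 2 * A * M * (4 + C) ≤ y := by
        rw [hy]; linarith
      have h8 : 2 * A * ‖H v‖ * (y + 2 + C) ≤ 1 := by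
        have h9 : y + 2 + C ≤ y * (4 + C) := by nlinarith
        have h10 : 2 * A * ‖H v‖ * (y + 2 + C) ≤ 2 * A * ‖H v‖ * (y * (4 + C)) := by gcongr
        have h11 : y * (2 * A * ‖H v‖ * (y * (4 + C))) ≤ 2 * A * M * (4 + C) := by
          have h12 : y * (2 * A * ‖H v‖ * (y * (4 + C))) = 2 * A * (y * y * ‖H v‖) * (4 + C) := by
            ring
          rw [h12]
          gcongr
        have h13 : y * (2 * A * ‖H v‖ * (y * (4 + C))) ≤ y * 1 := by linarith
        have h14 := le_of_mul_le_mul_left h13 (by linarith)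
        linarith
      have h9 : ‖sin (Real.pi * u)‖ / Real.pi ≤ A * ‖H v‖ := by
        rw [← e4]
        gcongr
      have h10 : ‖sin (Real.pi * u)‖ / Real.pi * (‖digamma v‖ + 1) ≤ 1 / 2 := by
        calc _ ≤ A * ‖H v‖ * (y + 2 + C) := by gcongr
          _ ≤ 1 / 2 := by linarith
      have h11 : ‖sin (Real.pi * u)‖ ≤ 1 / 2 := by
        have h12 : Real.pi ≤ ‖digamma v‖ + 1 := by
          have := low v (by linarith) (by linarith)
          linarith
        have h13 : ‖sin (Real.pi * u)‖ / Real.pi * Real.pi ≤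
            ‖sin (Real.pi * u)‖ / Real.pi * (‖digamma v‖ + 1) := by gcongr
        rw [div_mul_cancel₀ _ Real.pi_ne_zero] at h13
        linarith
      have h12 : 1 / 2 ≤ ‖cos (Real.pi * u)‖ := by
        have h13 := Complex.cos_sq_add_sin_sq (Real.pi * u)
        have h14 : (1 : ℝ) ≤ ‖cos (Real.pi * u)‖ ^ 2 + ‖sin (Real.pi * u)‖ ^ 2 := by
          rw [← norm_pow, ← norm_pow]
          calc (1 : ℝ) = ‖cos (Real.pi * u) ^ 2 + sin (Real.pi * u) ^ 2‖ := by rw [h13, norm_one]
            _ ≤ _ := norm_add_le _ _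
        nlinarith [norm_nonneg (cos (Real.pi * u)), norm_nonneg (sin (Real.pi * u))]
      have h13 : ‖cos (Real.pi * u)‖ - ‖sin (Real.pi * u) / Real.pi * digamma v‖ ≤
          ‖cos (Real.pi * u) - sin (Real.pi * u) / Real.pi * digamma v‖ := norm_sub_norm_le _ _
      rw [e5] at h13
      linarith

end Pool.Agent.H489.GI
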