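import Pool.Agent.H489.GI.Lift

open Complex Filter Topology Set

namespace Pool.Agent.H489.GI.G

/-- local solvability of `F w y = 0` near `(v, y)` -/
def LS (F : ℂ → ℂ → ℂ) (v y : ℂ) : Prop :=
  ∃ s : ℂ → ℂ, AnalyticAt ℂ s v ∧ s v = y ∧ (∀ᶠ w in 𝓝 v, F w (s w) = 0) ∧
    ∀ᶠ p : ℂ × ℂ in 𝓝 (v, y), F p.1 p.2 = 0 → p.2 = s p.1

lemma LS.iso {F : ℂ → ℂ → ℂ} {v y : ℂ} (h : LS F v y) : ∀ᶠ z in 𝓝[≠] y, F v z ≠ 0 := by
  obtain ⟨s, -, hs, -, h1⟩ := h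
  have h2 : Tendsto (fun z : ℂ => (v, z)) (𝓝 y) (𝓝 (v, y)) :=
    (Continuous.prodMk_right v).tendsto y
  rw [eventually_nhdsWithin_iff]
  filter_upwards [h2.eventually h1] with z h3 h4 h5
  exact h4 ((h3 h5).trans hs)

lemma LS_H {z : ℂ} (hz : deriv H z ≠ 0) : LS (fun w y => H y - w) (H z) z := by
  obtain ⟨s1, s2, s3, s4⟩ := sec_spec hz
  refine ⟨sec z, s1, s2, ?_, ?_⟩
  · filter_upwards [s3] with w hw
    rw [hw, sub_self]
  · have h1 : Tendsto (fun p : ℂ × ℂ => p.2) (𝓝 (H z, z)) (𝓝 z) :=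
      continuous_snd.tendsto _
    filter_upwards [h1.eventually s4] with p h2 h3
    rw [← sub_eq_zero.1 h3, h2]

/-- uniqueness of lifts -/
lemma unique_lift {X : Type*} [TopologicalSpace X] {s : Set X} (hs : IsPreconnected s)
    {F : ℂ → ℂ → ℂ} {γ : X → ℂ} (hγ : ContinuousOn γ s) {u u' : X → ℂ} (hu : ContinuousOn u s)
    (hu' : ContinuousOn u' s) (h : ∀ τ ∈ s, F (γ τ) (u τ) = 0)
    (h' : ∀ τ ∈ s, F (γ τ) (u' τ) = 0) (hc : ∀ τ ∈ s, LS F (γ τ) (u τ))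
    {c : X} (hcs : c ∈ s) (hcc : u c = u' c) : EqOn u u' s := by
  classical
  intro x hx
  have key : ContinuousOn (fun τ => if u τ = u' τ then (0 : ℕ) else 1) s := by
    intro τ0 hτ0
    have h2 : ∀ᶠ τ in 𝓝[s] τ0, (if u τ = u' τ then (0 : ℕ) else 1) =
        (if u τ0 = u' τ0 then (0 : ℕ) else 1) := by
      by_cases h3 : u τ0 = u' τ0
      · obtain ⟨σ, -, -, -, h1⟩ := hc τ0 hτ0
        have t1 : Tendsto (fun τ => (γ τ, u τ)) (𝓝[s] τ0) (𝓝 (γ τ0, u τ0)) :=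
          Tendsto.prodMk_nhds (hγ τ0 hτ0) (hu τ0 hτ0)
        have t2 : Tendsto (fun τ => (γ τ, u' τ)) (𝓝[s] τ0) (𝓝 (γ τ0, u τ0)) := by
          rw [h3]
          exact Tendsto.prodMk_nhds (hγ τ0 hτ0) (hu' τ0 hτ0)
        filter_upwards [t1.eventually h1, t2.eventually h1, self_mem_nhdsWithin] with τ h4 h5 h6
        rw [if_pos ((h4 (h τ h6)).trans (h5 (h' τ h6)).symm), if_pos h3]
      · have h4 : ∀ᶠ τ in 𝓝[s] τ0, u τ ≠ u' τ := by
          have h5 : ContinuousWithinAt (fun τ => u τ - u' τ) s τ0 :=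
            (hu τ0 hτ0).sub (hu' τ0 hτ0)
          have h6 := h5.eventually (ContinuousAt.eventually_ne (continuousAt_id)
            (sub_ne_zero.2 h3))
          filter_upwards [h6] with τ h7 h8
          exact h7 (sub_eq_zero.2 h8)
        filter_upwards [h4] with τ h5
        rw [if_neg h5, if_neg h3]
    exact tendsto_nhds_of_eventually_eq h2
  have h3 := hs.constant key hcs hx
  simp only [hcc, if_true] at h3
  by_contra h4
  rw [if_neg h4] at h3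
  exact absurd h3 (by norm_num)

/-- existence of the limit of a lift at the end of its interval -/
lemma limit_lift {F : ℂ → ℂ → ℂ} (hF : Continuous fun p : ℂ × ℂ => F p.1 p.2) {γ u : ℝ → ℂ}
    {b Bd : ℝ} (hb : 0 < b) (hγ : Tendsto γ (𝓝[<] b) (𝓝 (γ b)))
    (hu : ContinuousOn u (Ico 0 b)) (hH : ∀ τ ∈ Ico 0 b, F (γ τ) (u τ) = 0)
    (hbd : ∀ τ ∈ Ico 0 b, ‖u τ‖ ≤ Bd)
    (hiso : ∀ y, F (γ b) y = 0 → ∀ᶠ z in 𝓝[≠] y, F (γ b) z ≠ 0) :
    ∃ z, F (γ b) z = 0 ∧ Tendsto u (𝓝[<] b) (𝓝 z) := by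
  have hIco : ∀ᶠ τ in 𝓝[<] b, τ ∈ Ico 0 b := by
    filter_upwards [Ico_mem_nhdsLT hb] with τ hτ using hτ
  have h1 : ∃ᶠ τ in 𝓝[<] b, u τ ∈ Metric.closedBall (0 : ℂ) Bd := by
    apply Eventually.frequently
    filter_upwards [hIco] with τ hτ
    rw [mem_closedBall_zero_iff]
    exact hbd τ hτ
  obtain ⟨z, hz, hzc⟩ := (isCompact_closedBall (0 : ℂ) Bd).exists_mapClusterPt_of_frequently h1
  have hHz : F (γ b) z = 0 := by
    obtain ⟨U, hU1, hU2⟩ := mapClusterPt_iff_ultrafilter.1 hzc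
    have h3 : Tendsto (fun τ => (γ τ, u τ)) U (𝓝 (γ b, z)) :=
      Tendsto.prodMk_nhds (hγ.mono_left hU1) hU2
    have h4 : Tendsto (fun τ => F (γ τ) (u τ)) U (𝓝 (F (γ b) z)) :=
      (hF.tendsto (γ b, z)).comp h3
    have h5 : Tendsto (fun τ => F (γ τ) (u τ)) U (𝓝 0) := by
      refine tendsto_nhds_of_eventually_eq ?_
      filter_upwards [hU1 hIco] with τ hτ using hH τ hτ
    exact tendsto_nhds_unique h4 h5
  refine ⟨z, hHz, ?_⟩
  rw [Metric.tendsto_nhds]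
  intro ε hε
  -- choose a good radius
  obtain ⟨r, hr0, hrε, hr⟩ : ∃ r > 0, r < ε ∧ ∀ y, ‖y - z‖ = r → F (γ b) y ≠ 0 := by
    have h2 := hiso z hHz
    rw [eventually_nhdsWithin_iff, Metric.eventually_nhds_iff] at h2
    obtain ⟨δ, hδ, h3⟩ := h2
    refine ⟨min (δ / 2) (ε / 2), by positivity, ?_, ?_⟩
    · exact (min_le_right _ _).trans_lt (by linarith)
    · intro y hy
      have h4 : min (δ / 2) (ε / 2) < δ := (min_le_left _ _).trans_lt (by linarith)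
      refine h3 (by rw [dist_eq_norm, hy]; exact h4) ?_
      intro h5
      have h5 : y = z := h5
      rw [h5, sub_self, norm_zero] at hy
      have : 0 < min (δ / 2) (ε / 2) := by positivity
      linarith
  -- no zero on the circle for nearby base points
  have hcirc : ∀ᶠ w in 𝓝 (γ b), ∀ y ∈ Metric.sphere z r, F w y ≠ 0 := by
    refine (isCompact_sphere z r).eventually_forall_of_forall_eventually ?_
    intro y hy
    have h2 : F (γ b) y ≠ 0 := hr y (by simpa [dist_eq_norm] using hy)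
    exact (hF.continuousAt (x := (γ b, y))).eventually_ne h2
  have hev := (hγ.eventually hcirc).and hIco
  obtain ⟨a, hab, hIoo⟩ := mem_nhdsLT_iff_exists_Ioo_subset.1 hev
  have hab : a < b := hab
  have hnot : ∀ τ ∈ Ioo a b, ‖u τ - z‖ ≠ r := by
    intro τ hτ h2
    have h3 := hIoo hτ
    exact h3.1 (u τ) (by simpa [dist_eq_norm] using h2) (hH τ h3.2)
  have hIoom : Ioo a b ∈ 𝓝[<] b := Ioo_mem_nhdsLT hab
  -- some point is inside
  obtain ⟨τ1, hτ1, hτ1'⟩ : ∃ τ ∈ Ioo a b, ‖u τ - z‖ < r := by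
    have h2 := hzc.frequently (Metric.ball_mem_nhds z hr0)
    obtain ⟨τ, h3, h4⟩ := (h2.and_eventually hIoom).exists
    exact ⟨τ, h4, by simpa [dist_eq_norm] using h3⟩
  have hcont : ContinuousOn (fun τ => ‖u τ - z‖) (Ioo a b) := by
    refine (ContinuousOn.sub (hu.mono ?_) continuousOn_const).norm
    intro τ hτ
    exact (hIoo hτ).2
  filter_upwards [hIoom] with τ hτ
  rw [dist_eq_norm]
  refine lt_trans ?_ hrε
  by_contra hcon
  push Not at hcon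
  have h5 : r ∈ (fun τ => ‖u τ - z‖) '' (Ioo a b) := by
    have := isPreconnected_Ioo.intermediate_value hτ1 hτ hcont
    exact this ⟨hτ1'.le, hcon⟩
  obtain ⟨τ2, hτ2, h6⟩ := h5
  exact hnot τ2 hτ2 h6

/-- **Abstract lifting theorem.** -/
theorem lift_abs {F : ℂ → ℂ → ℂ} (hF : Continuous fun p : ℂ × ℂ => F p.1 p.2) {γ : ℝ → ℂ}
    (hγ : ContinuousOn γ (Icc 0 1))
    (hLS : ∀ τ ∈ Ico (0 : ℝ) 1, ∀ y, F (γ τ) y = 0 → LS F (γ τ) y)
    (hiso : ∀ y, F (γ 1) y = 0 → ∀ᶠ z in 𝓝[≠] y, F (γ 1) z ≠ 0)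
    {u0 : ℂ} (hu0 : F (γ 0) u0 = 0)
    (hbd : ∃ Bd : ℝ, ∀ (b : ℝ) (u : ℝ → ℂ), b ≤ 1 → ContinuousOn u (Ico 0 b) →
      (∀ τ ∈ Ico 0 b, F (γ τ) (u τ) = 0) → u 0 = u0 → ∀ τ ∈ Ico 0 b, ‖u τ‖ ≤ Bd) :
    ∃ u : ℝ → ℂ, ContinuousOn u (Icc 0 1) ∧ u 0 = u0 ∧ ∀ τ ∈ Icc (0 : ℝ) 1, F (γ τ) (u τ) = 0 := by
  classical
  set S : Set ℝ := {b | ∃ u : ℝ → ℂ, ContinuousOn u (Icc 0 b) ∧ u 0 = u0 ∧
    ∀ τ ∈ Icc (0 : ℝ) b, F (γ τ) (u τ) = 0} with hS
  suffices h : Icc (0 : ℝ) 1 ⊆ S from h ⟨zero_le_one, le_rfl⟩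
  have hdown : ∀ b ∈ S, ∀ c, c ≤ b → c ∈ S := by
    rintro b ⟨u, h1, h2, h3⟩ c hc
    exact ⟨u, h1.mono (Icc_subset_Icc_right hc), h2, fun τ hτ => h3 τ ⟨hτ.1, hτ.2.trans hc⟩⟩
  have hzero : (0 : ℝ) ∈ S := by
    refine ⟨fun _ => u0, continuousOn_const, rfl, ?_⟩
    intro τ hτ
    have : τ = 0 := le_antisymm hτ.2 hτ.1
    rw [this]
    exact hu0
  refine IsClosed.Icc_subset_of_forall_mem_nhdsWithin ?_ hzero ?_
  · -- closed
    rw [← closure_subset_iff_isClosed]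
    intro b hb
    have hb01 : b ∈ Icc (0 : ℝ) 1 := by
      have := closure_mono (inter_subset_right (s := S) (t := Icc (0 : ℝ) 1)) hb
      rwa [isClosed_Icc.closure_eq] at this
    refine ⟨?_, hb01⟩
    by_contra hbS
    have hlt : ∀ c < b, c ∈ S := by
      intro c hc
      rw [mem_closure_iff_nhds] at hb
      obtain ⟨x, hx1, hx2, -⟩ := hb (Ioi c) (Ioi_mem_nhds hc)
      exact hdown x hx2 c (le_of_lt hx1)
    have hb0 : 0 < b := by
      rcases hb01.1.lt_or_eq with h | h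
      · exact h
      · exfalso
        apply hbS
        rw [← h]
        exact hzero
    choose! L hL1 hL2 hL3 using hlt
    -- lifts agree
    have agree : ∀ c < b, ∀ d < b, 0 ≤ c → c ≤ d → EqOn (L c) (L d) (Icc 0 c) := by
      intro c hc d hd h0c hcd
      refine unique_lift (F := F) (γ := γ) isPreconnected_Icc
        (hγ.mono (Icc_subset_Icc_right (hc.le.trans hb01.2))) (hL1 c hc)
        ((hL1 d hd).mono (Icc_subset_Icc_right hcd)) (hL3 c hc)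
        (fun τ hτ => hL3 d hd τ ⟨hτ.1, hτ.2.trans hcd⟩) ?_ (c := 0) ⟨le_rfl, h0c⟩ ?_
      · intro τ hτ
        exact hLS τ ⟨hτ.1, (hτ.2.trans_lt hc).trans_le hb01.2⟩ _ (hL3 c hc τ hτ)
      · rw [hL2 c hc, hL2 d hd]
    set U : ℝ → ℂ := fun x => L x x with hU
    have hUL : ∀ d < b, ∀ x ∈ Icc 0 d, U x = L d x := by
      intro d hd x hx
      exact agree x (hx.2.trans_lt hd) d hd hx.1 hx.2 ⟨hx.1, le_rfl⟩
    have hUc : ContinuousOn U (Ico 0 b) := by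
      intro x hx
      obtain ⟨d, hd1, hd2⟩ := exists_between hx.2
      have h1 : ContinuousWithinAt (L d) (Icc 0 d) x := hL1 d hd2 x ⟨hx.1, hd1.le⟩
      have h2 : ContinuousWithinAt U (Icc 0 d) x :=
        h1.congr (fun y hy => hUL d hd2 y hy) (hUL d hd2 x ⟨hx.1, hd1.le⟩)
      have h3 : Icc 0 d ∈ 𝓝[Ico 0 b] x := by
        rw [mem_nhdsWithin]
        exact ⟨Iio d, isOpen_Iio, hd1, fun y hy => ⟨hy.2.1, le_of_lt hy.1⟩⟩
      exact h2.mono_of_mem_nhdsWithin h3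
    have hUH : ∀ τ ∈ Ico 0 b, F (γ τ) (U τ) = 0 := by
      intro τ hτ
      exact hL3 τ hτ.2 τ ⟨hτ.1, le_rfl⟩
    have hU0 : U 0 = u0 := hL2 0 hb0
    obtain ⟨Bd, hBd⟩ := hbd
    have hγb : Tendsto γ (𝓝[<] b) (𝓝 (γ b)) := by
      refine (hγ b hb01).mono_left (nhdsWithin_le_of_mem ?_)
      filter_upwards [Ico_mem_nhdsLT hb0] with y hy
      exact ⟨hy.1, hy.2.le.trans hb01.2⟩
    have hisob : ∀ y, F (γ b) y = 0 → ∀ᶠ z in 𝓝[≠] y, F (γ b) z ≠ 0 := by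
      intro y hy
      rcases hb01.2.lt_or_eq with h | h
      · exact (hLS b ⟨hb01.1, h⟩ y hy).iso
      · rw [h] at hy ⊢
        exact hiso y hy
    obtain ⟨z, hz1, hz2⟩ := limit_lift hF hb0 hγb hUc hUH (hBd b U hb01.2 hUc hUH hU0) hisob
    apply hbS
    refine ⟨fun x => if x < b then U x else z, ?_, by simp [hb0, hU0], ?_⟩
    · intro x hx
      rcases hx.2.lt_or_eq with h1 | h1
      · have h2 := hUc x ⟨hx.1, h1⟩
        have h3 : Ico 0 b ∈ 𝓝[Icc 0 b] x := by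
          rw [mem_nhdsWithin]
          exact ⟨Iio b, isOpen_Iio, h1, fun y hy => ⟨hy.2.1, hy.1⟩⟩
        have h4 : ContinuousWithinAt U (Icc 0 b) x := h2.mono_of_mem_nhdsWithin h3
        refine h4.congr_of_eventuallyEq ?_ ?_
        · filter_upwards [h3] with y hy
          rw [if_pos hy.2]
        · rw [if_pos h1]
      · rw [h1]
        rw [ContinuousWithinAt]
        simp only [lt_irrefl, if_false]
        have h2 : 𝓝[Icc 0 b] b ≤ 𝓝[<] b ⊔ pure b := by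
          have h3 : Icc 0 b ⊆ Iio b ∪ {b} := by
            intro y hy
            rcases hy.2.lt_or_eq with h | h
            · exact Or.inl h
            · exact Or.inr h
          refine (nhdsWithin_mono b h3).trans ?_
          rw [nhdsWithin_union, nhdsWithin_singleton]
        refine Tendsto.mono_left ?_ h2
        refine Tendsto.sup ?_ ?_
        · refine hz2.congr' ?_
          filter_upwards [self_mem_nhdsWithin] with y hy
          rw [if_pos (mem_Iio.1 hy)]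
        · rw [tendsto_pure_left]
          intro s hs
          simp only [lt_irrefl, if_false]
          exact mem_of_mem_nhds hs
    · intro τ hτ
      rcases hτ.2.lt_or_eq with h1 | h1
      · simp only [h1, if_true]
        exact hUH τ ⟨hτ.1, h1⟩
      · simp only [h1, lt_irrefl, if_false]
        exact hz1
  · -- open
    rintro b ⟨⟨u, h1, h2, h3⟩, hb⟩
    obtain ⟨s, s1, s2, s3, s4⟩ := hLS b hb (u b) (h3 b ⟨hb.1, le_rfl⟩)
    have hγc : Tendsto γ (𝓝[Icc 0 1] b) (𝓝 (γ b)) := hγ b ⟨hb.1, hb.2.le⟩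
    have e1 : ∀ᶠ τ in 𝓝[Icc 0 1] b, F (γ τ) (s (γ τ)) = 0 := hγc.eventually s3
    have e2 : ∀ᶠ τ in 𝓝[Icc 0 1] b, ContinuousAt s (γ τ) :=
      hγc.eventually (s1.eventually_analyticAt.mono fun w hw => hw.continuousAt)
    obtain ⟨δ, hδ, hδ'⟩ := Metric.mem_nhdsWithin_iff.1 (e1.and e2)
    have hmem : Ioo b (b + min δ (1 - b)) ∈ 𝓝[>] b := by
      apply Ioo_mem_nhdsGT
      have : 0 < min δ (1 - b) := lt_min hδ (by linarith [hb.2])
      linarith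
    refine mem_of_superset hmem ?_
    intro c hc
    have hc1 : c < b + δ := hc.2.trans_le (by linarith [min_le_left δ (1 - b)])
    have hc2 : c < 1 := by
      have := hc.2.trans_le (add_le_add_right (min_le_right δ (1 - b)) b)
      linarith
    have hgood : ∀ τ ∈ Icc b c, F (γ τ) (s (γ τ)) = 0 ∧ ContinuousAt s (γ τ) := by
      intro τ hτ
      apply hδ'
      refine ⟨?_, hb.1.trans hτ.1, hτ.2.trans hc2.le⟩
      rw [Metric.mem_ball, Real.dist_eq, abs_of_nonneg (by linarith [hτ.1])]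
      linarith [hτ.2]
    refine ⟨fun x => if x ≤ b then u x else s (γ x), ?_, by simp [hb.1, h2], ?_⟩
    · have hun : Icc 0 c = Icc 0 b ∪ Icc b c := (Icc_union_Icc_eq_Icc hb.1 hc.1.le).symm
      rw [hun]
      refine ContinuousOn.union_of_isClosed ?_ ?_ isClosed_Icc isClosed_Icc
      · refine h1.congr ?_
        intro x hx
        simp only [hx.2, if_true]
      · have h4 : ContinuousOn (fun x => s (γ x)) (Icc b c) := by
          intro x hx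
          have h5 : ContinuousWithinAt γ (Icc b c) x :=
            (hγ x ⟨hb.1.trans hx.1, hx.2.trans hc2.le⟩).mono
              (Icc_subset_Icc hb.1 hc2.le)
          exact ContinuousAt.comp_continuousWithinAt (g := s) (hgood x hx).2 h5
        refine h4.congr ?_
        intro x hx
        rcases hx.1.lt_or_eq with h5 | h5
        · simp only [not_le.2 h5, if_false]
        · simp only [← h5, le_refl, if_true]
          exact s2.symm
    · intro τ hτ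
      by_cases h4 : τ ≤ b
      · simp only [h4, if_true]
        exact h3 τ ⟨hτ.1, h4⟩
      · simp only [h4, if_false]
        exact (hgood τ ⟨(not_le.1 h4).le, hτ.2⟩).1

/-- good points of a sheet relation -/
structure GoodPt (F : ℂ → ℂ → ℂ) (v : ℂ) : Prop where
  loc : ∀ y, F v y = 0 → LS F v y
  bd : ∃ C : ℝ, ∀ᶠ v' in 𝓝 v, ∀ y, F v' y = 0 → ‖y‖ ≤ C

/-- lifting a path to a sheet -/
theorem sheet_lift {F : ℂ → ℂ → ℂ} (hF : Continuous fun p : ℂ × ℂ => F p.1 p.2) {γ : ℝ → ℂ}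
    (hγ : ContinuousOn γ (Icc 0 1)) (hg : ∀ τ ∈ Icc (0 : ℝ) 1, GoodPt F (γ τ))
    {u0 : ℂ} (hu0 : F (γ 0) u0 = 0) :
    ∃ u : ℝ → ℂ, ContinuousOn u (Icc 0 1) ∧ u 0 = u0 ∧ ∀ τ ∈ Icc (0 : ℝ) 1, F (γ τ) (u τ) = 0 := by
  have m1 : (1 : ℝ) ∈ Icc (0 : ℝ) 1 := ⟨zero_le_one, le_rfl⟩
  refine lift_abs hF hγ (fun τ hτ => (hg τ ⟨hτ.1, hτ.2.le⟩).loc) (fun y hy => ((hg 1 m1).loc y hy).iso)
    hu0 ?_
  have hC : ∃ C : ℝ, ∀ τ ∈ Icc (0 : ℝ) 1, ∀ y, F (γ τ) y = 0 → ‖y‖ ≤ C := by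
    refine isCompact_Icc.induction_on (p := fun s => ∃ C : ℝ, ∀ τ ∈ s, ∀ y, F (γ τ) y = 0 → ‖y‖ ≤ C)
      ?_ ?_ ?_ ?_
    · exact ⟨0, fun τ hτ => absurd hτ (notMem_empty τ)⟩
    · rintro s t hst ⟨C, hC⟩
      exact ⟨C, fun τ hτ => hC τ (hst hτ)⟩
    · rintro s t ⟨C, hC⟩ ⟨C', hC'⟩
      refine ⟨max C C', fun τ hτ y hy => ?_⟩
      rcases hτ with h | h
      · exact (hC τ h y hy).trans (le_max_left _ _)
      · exact (hC' τ h y hy).trans (le_max_right _ _)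
    · intro τ hτ
      obtain ⟨C, hC⟩ := (hg τ hτ).bd
      have h1 : ∀ᶠ τ' in 𝓝[Icc 0 1] τ, ∀ y, F (γ τ') y = 0 → ‖y‖ ≤ C :=
        (hγ τ hτ).eventually hC
      exact ⟨_, h1, C, fun τ' hτ' => hτ'⟩
  obtain ⟨C, hC⟩ := hC
  exact ⟨C, fun b u hb _ hu _ τ hτ => hC τ ⟨hτ.1, (hτ.2.trans_le hb).le⟩ _ (hu τ hτ)⟩

/-- a path for the lifting theorem -/
structure Nice (γ : ℝ → ℂ) : Prop where
  cont : ContinuousOn γ (Icc 0 1)
  der : ∃ (γ' : ℝ → ℂ) (D : ℝ), ∀ τ ∈ Ico (0 : ℝ) 1,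
    HasDerivWithinAt γ (γ' τ) (Ici τ) τ ∧ ‖γ' τ‖ ≤ D
  ne0 : ∀ τ ∈ Icc (0 : ℝ) 1, γ τ ≠ 0
  ncv : ∀ τ ∈ Ico (0 : ℝ) 1, γ τ ∉ CV

/-- a uniform bound for the lifts of a nice path -/
lemma lift_bound {γ : ℝ → ℂ} (hγ : Nice γ) (u0 : ℂ) : ∃ Bd : ℝ, ∀ (b : ℝ) (u : ℝ → ℂ),
    b ≤ 1 → ContinuousOn u (Ico 0 b) → (∀ τ ∈ Ico 0 b, H (u τ) = γ τ) → u 0 = u0 →
    ∀ τ ∈ Ico 0 b, ‖u τ‖ ≤ Bd := by
  obtain ⟨A0, hA0⟩ := isCompact_Icc.exists_bound_of_continuousOn hγ.cont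
  obtain ⟨γ', D, hD⟩ := hγ.der
  set A := max A0 1 with hA
  obtain ⟨R, hR⟩ := no_escape A (by positivity)
  -- lower bound of `γ`
  obtain ⟨m, hm, hm'⟩ : ∃ m > 0, ∀ τ ∈ Icc (0 : ℝ) 1, m ≤ ‖γ τ‖ := by
    obtain ⟨τ0, hτ0, hmin⟩ := isCompact_Icc.exists_isMinOn (nonempty_Icc.2 zero_le_one)
      (f := fun τ => ‖γ τ‖) hγ.cont.norm
    exact ⟨‖γ τ0‖, norm_pos_iff.2 (hγ.ne0 τ0 hτ0), fun τ hτ => hmin hτ⟩
  have hD0 : 0 ≤ D := (norm_nonneg _).trans (hD 0 ⟨le_rfl, zero_lt_one⟩).2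
  refine ⟨max ‖u0‖ R + (D / m + 1), ?_⟩
  intro b u hb hu hH hu0 τ hτ
  -- work on `[0, τ]`
  have hsub : Icc 0 τ ⊆ Ico 0 b := fun x hx => ⟨hx.1, hx.2.trans_lt hτ.2⟩
  have hder : ∀ x ∈ Ico 0 τ, HasDerivWithinAt u (γ' x / deriv H (u x)) (Ici x) x := by
    intro x hx
    have hxb : x ∈ Ico 0 b := ⟨hx.1, hx.2.trans hτ.2⟩
    have hx1 : x ∈ Ico (0 : ℝ) 1 := ⟨hx.1, hxb.2.trans_le hb⟩
    have hxcv : γ x ∉ CV := hγ.ncv x hx1
    have hz : deriv H (u x) ≠ 0 := not_crit (hH x hxb) hxcv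
    obtain ⟨s1, s2, s3, s4⟩ := sec_spec hz
    have h1 : HasDerivWithinAt (fun t => sec (u x) (γ t)) (γ' x / deriv H (u x)) (Ici x) x := by
      have h2 : HasDerivAt (sec (u x)) (deriv H (u x))⁻¹ (H (u x)) := by
        have h3 := (H_diff (u x)).hasDerivAt
        have h4 := s1.differentiableAt.hasDerivAt
        have h5 : deriv (sec (u x)) (H (u x)) * deriv H (u x) = 1 := by
          have h6 := h4.comp (u x) h3
          have h7 : HasDerivAt (sec (u x) ∘ H) 1 (u x) := by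
            refine (hasDerivAt_id (u x)).congr_of_eventuallyEq ?_
            filter_upwards [s4] with y hy using hy
          exact h6.unique h7
        have h6 : deriv (sec (u x)) (H (u x)) = (deriv H (u x))⁻¹ := eq_inv_of_mul_eq_one_left h5
        rw [h6] at h4
        exact h4
      rw [hH x hxb] at h2
      have h3 := (hD x hx1).1
      have h4 := HasDerivAt.scomp_hasDerivWithinAt (g₁ := sec (u x)) x h2 h3
      rw [smul_eq_mul] at h4
      rw [div_eq_mul_inv]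
      exact h4
    refine h1.congr_of_eventuallyEq_of_mem ?_ (mem_Ici.2 le_rfl)
    have h5 : Tendsto u (𝓝[≥] x) (𝓝 (u x)) := by
      have h6 := hu x hxb
      have h7 : Ico 0 b ∈ 𝓝[≥] x := by
        refine mem_of_superset (Ico_mem_nhdsGE hxb.2) ?_
        exact fun y hy => ⟨hx.1.trans hy.1, hy.2⟩
      exact h6.mono_left (nhdsWithin_le_of_mem h7)
    have h8 : Ico x b ∈ 𝓝[≥] x := Ico_mem_nhdsGE hxb.2
    filter_upwards [h5.eventually s4, h8] with y hy hy2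
    rw [← hy, hH y ⟨hx.1.trans hy2.1, hy2.2⟩]
  have key := image_norm_le_of_norm_deriv_right_lt_deriv_boundary' (a := 0) (b := τ) (f := u)
    (f' := fun x => γ' x / deriv H (u x)) (hu.mono hsub) hder
    (B := fun x => max ‖u0‖ R + (D / m + 1) * x) (B' := fun _ => D / m + 1)
    (by simp [hu0]) (by fun_prop) ?_ ?_ (x := τ) ⟨hτ.1, le_rfl⟩
  · refine key.trans ?_
    have h1 : τ ≤ 1 := (hτ.2.trans_le hb).le
    have h2 : 0 ≤ D / m + 1 := by positivity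
    have h3 : (D / m + 1) * τ ≤ (D / m + 1) * 1 := mul_le_mul_of_nonneg_left h1 h2
    linarith
  · intro x _
    have := ((hasDerivAt_id x).const_mul (D / m + 1)).const_add (max ‖u0‖ R)
    simpa using this.hasDerivWithinAt
  · intro x hx hxe
    have hxb : x ∈ Ico 0 b := ⟨hx.1, hx.2.trans hτ.2⟩
    have hx1 : x ∈ Icc (0 : ℝ) 1 := ⟨hx.1, (hxb.2.trans_le hb).le⟩
    have hx1' : x ∈ Ico (0 : ℝ) 1 := ⟨hx.1, hxb.2.trans_le hb⟩
    have h1 : R ≤ ‖u x‖ := by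
      rw [hxe]
      have : 0 ≤ (D / m + 1) * x := mul_nonneg (by positivity) hx.1
      linarith [le_max_right ‖u0‖ R]
    have h2 : ‖H (u x)‖ ≤ A := by
      rw [hH x hxb]
      exact (hA0 x hx1).trans (le_max_left _ _)
    have h3 := hR (u x) h1 h2
    rw [hH x hxb] at h3
    have h4 := (hm' x hx1).trans h3
    rw [norm_div]
    have h5 : ‖γ' x‖ / ‖deriv H (u x)‖ ≤ D / m := by
      have := (hD x hx1').2
      gcongr
    linarith

/-- **Lifting of paths through `H`.** -/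
theorem lift_exists {γ : ℝ → ℂ} (hγ : Nice γ) (u0 : ℂ) (hu0 : H u0 = γ 0) :
    ∃ u : ℝ → ℂ, ContinuousOn u (Icc 0 1) ∧ u 0 = u0 ∧ ∀ τ ∈ Icc (0 : ℝ) 1, H (u τ) = γ τ := by
  have hF : Continuous fun p : ℂ × ℂ => (fun w y : ℂ => H y - w) p.1 p.2 :=
    (H_diff.continuous.comp continuous_snd).sub continuous_fst
  have h := lift_abs (F := fun w y : ℂ => H y - w) hF hγ.cont ?_ ?_ (u0 := u0)
    (sub_eq_zero.2 hu0) ?_
  · obtain ⟨u, h1, h2, h3⟩ := h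
    exact ⟨u, h1, h2, fun τ hτ => sub_eq_zero.1 (h3 τ hτ)⟩
  · intro τ hτ y hy
    have hy' : H y = γ τ := sub_eq_zero.1 hy
    rw [← hy']
    exact LS_H (not_crit hy' (hγ.ncv τ hτ))
  · intro y _
    filter_upwards [eventually_ne_val y (γ 1)] with z hz
    exact sub_ne_zero.2 hz
  · obtain ⟨Bd, hBd⟩ := lift_bound hγ u0
    refine ⟨Bd, fun b u hb hu hH hu0 => hBd b u hb hu (fun τ hτ => sub_eq_zero.1 (hH τ hτ)) hu0⟩

/-- lifts to a sheet of a smooth path have bounded right derivatives -/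
theorem sheet_der {F : ℂ → ℂ → ℂ} {v : ℝ → ℂ} (hv : ContDiff ℝ 1 v)
    {y : ℝ → ℂ} (hy : ContinuousOn y (Icc 0 1)) (hFy : ∀ τ ∈ Icc (0 : ℝ) 1, F (v τ) (y τ) = 0)
    (hLS : ∀ τ ∈ Icc (0 : ℝ) 1, LS F (v τ) (y τ)) :
    ∃ (y' : ℝ → ℂ) (D : ℝ), ∀ τ ∈ Ico (0 : ℝ) 1,
      HasDerivWithinAt y (y' τ) (Ici τ) τ ∧ ‖y' τ‖ ≤ D := by
  classical
  choose! s s1 s2 s3 s4 using hLS
  have hvc := hv.continuous
  set y' : ℝ → ℂ := fun τ => deriv (s τ) (v τ) * deriv v τ with hy'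
  -- near `τ0`, the lift is `s τ0 ∘ v`
  have loc : ∀ τ0 ∈ Icc (0 : ℝ) 1, ∀ᶠ τ in 𝓝[Icc 0 1] τ0, y τ = s τ0 (v τ) := by
    intro τ0 h0
    have h1 : Tendsto (fun τ => (v τ, y τ)) (𝓝[Icc 0 1] τ0) (𝓝 (v τ0, y τ0)) :=
      Tendsto.prodMk_nhds (hvc.continuousAt.tendsto.mono_left nhdsWithin_le_nhds) (hy τ0 h0)
    filter_upwards [h1.eventually (s4 τ0 h0), self_mem_nhdsWithin] with τ h2 h3
    exact h2 (hFy τ h3)
  have hcont : ContinuousOn y' (Icc 0 1) := by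
    intro τ0 h0
    have h1 : ContinuousWithinAt (fun τ => deriv (s τ0) (v τ) * deriv v τ) (Icc 0 1) τ0 := by
      have h2 : ContinuousAt (fun τ => deriv (s τ0) (v τ)) τ0 :=
        ContinuousAt.comp (g := deriv (s τ0)) (s1 τ0 h0).deriv.continuousAt hvc.continuousAt
      exact (h2.mul (hv.continuous_deriv le_rfl).continuousAt).continuousWithinAt
    refine h1.congr_of_eventuallyEq_of_mem ?_ h0
    -- for `τ` near `τ0` the sections agree
    have h3 : ∀ᶠ τ in 𝓝[Icc 0 1] τ0, ∀ᶠ w in 𝓝 (v τ), F w (s τ0 w) = 0 :=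
      (hvc.continuousAt.tendsto.mono_left nhdsWithin_le_nhds).eventually (s3 τ0 h0).eventually_nhds
    have h4 : ∀ᶠ τ in 𝓝[Icc 0 1] τ0, ContinuousAt (s τ0) (v τ) :=
      (hvc.continuousAt.tendsto.mono_left nhdsWithin_le_nhds).eventually
        ((s1 τ0 h0).eventually_analyticAt.mono fun w hw => hw.continuousAt)
    filter_upwards [h3, h4, loc τ0 h0, self_mem_nhdsWithin] with τ h5 h6 h7 h8
    have h9 : s τ =ᶠ[𝓝 (v τ)] s τ0 := by
      have h10 : Tendsto (fun w => (w, s τ0 w)) (𝓝 (v τ)) (𝓝 (v τ, y τ)) := by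
        rw [h7]
        exact Tendsto.prodMk_nhds tendsto_id h6
      filter_upwards [h10.eventually (s4 τ h8), h5] with w h11 h12
      exact (h11 h12).symm
    simp only [hy']
    rw [h9.deriv_eq]
  obtain ⟨D, hD⟩ := isCompact_Icc.exists_bound_of_continuousOn hcont
  refine ⟨y', D, fun τ hτ => ⟨?_, hD τ ⟨hτ.1, hτ.2.le⟩⟩⟩
  have hτ' : τ ∈ Icc (0 : ℝ) 1 := ⟨hτ.1, hτ.2.le⟩
  have h1 : HasDerivAt (fun t => s τ (v t)) (y' τ) τ := by
    have h2 := (s1 τ hτ').differentiableAt.hasDerivAt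
    have h3 : HasDerivAt v (deriv v τ) τ := (hv.differentiable (by norm_num) τ).hasDerivAt
    have h4 := HasDerivAt.scomp (g₁ := s τ) τ h2 h3
    rw [smul_eq_mul, mul_comm] at h4
    exact h4
  refine h1.hasDerivWithinAt.congr_of_eventuallyEq_of_mem ?_ (mem_Ici.2 le_rfl)
  have h5 : Icc (0 : ℝ) 1 ∈ 𝓝[≥] τ := by
    refine mem_of_superset (Ico_mem_nhdsGE hτ.2) ?_
    exact fun y hy => ⟨hτ.1.trans hy.1, hy.2.le⟩
  have h6 := (loc τ hτ').filter_mono (nhdsWithin_le_of_mem h5)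
  exact h6

end Pool.Agent.H489.GI.G
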