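import Pool.Agent.H489.GI.G1

open Complex Filter Topology Set

namespace Pool.Agent.H489.GI.G

variable {ι : Type*} {n : ℕ}

/-- `P` is analytic along analytic curves -/
def AnP (P : (ι → ℂ) → (Fin n → ℂ) → ℂ) : Prop :=
  ∀ (t0 : ℂ) (β : ι → ℂ → ℂ) (σ : Fin n → ℂ → ℂ), (∀ l, AnalyticAt ℂ (β l) t0) →
    (∀ i, AnalyticAt ℂ (σ i) t0) → AnalyticAt ℂ (fun t => P (fun l => β l t) (fun i => σ i t)) t0

/-- The data of a family of sheets over the `v`-plane. -/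
structure Data (W : Set ℂ) (A : ι → ℂ → ℂ → ℂ) (l0 : ι) : Prop where
  cnt : W.Countable
  cont : ∀ l, Continuous fun p : ℂ × ℂ => A l p.1 p.2
  good : ∀ v, v ∉ W → ∀ l, GoodPt (A l) v
  ne0 : ∀ v, v ∉ W → ∀ l y, A l v y = 0 → y ≠ 0
  ncv : ∀ v, v ∉ W → ∀ l y, A l v y = 0 → y ∉ CV
  base : ∀ v y, A l0 v y = 0 ↔ y = v

/-- configurations -/
structure Conf (A : ι → ℂ → ℂ → ℂ) (l : Fin n → ι) (v : ℂ) (b : ι → ℂ) (u : Fin n → ℂ) :
    Prop where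
  hb : ∀ m, A m v (b m) = 0
  hu : ∀ i, H (u i) = b (l i)

/-- germs of a configuration -/
structure CG (A : ι → ℂ → ℂ → ℂ) (l : Fin n → ι) (v : ℂ) (b : ι → ℂ) (u : Fin n → ℂ)
    (β : ι → ℂ → ℂ) (σ : Fin n → ℂ → ℂ) : Prop where
  bc : ∀ m, ContinuousAt (β m) v
  bv : ∀ m, β m v = b m
  bA : ∀ m, ∀ᶠ w in 𝓝 v, A m w (β m w) = 0
  sc : ∀ i, ContinuousAt (σ i) v
  sv : ∀ i, σ i v = u i
  sH : ∀ i, ∀ᶠ w in 𝓝 v, H (σ i w) = β (l i) w

/-- the configuration satisfies, if it moves with `v`, the relation `P` -/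
def Rel (A : ι → ℂ → ℂ → ℂ) (P : (ι → ℂ) → (Fin n → ℂ) → ℂ) (l : Fin n → ι) (v : ℂ)
    (b : ι → ℂ) (u : Fin n → ℂ) : Prop :=
  ∃ β σ, CG A l v b u β σ ∧ ∀ᶠ w in 𝓝 v, P (fun m => β m w) (fun i => σ i w) = 0

/-- uniqueness of sections of `H` -/
lemma sec_eq {η σ : ℂ → ℂ} {v z : ℂ} (hz : deriv H z ≠ 0) (hσ : ContinuousAt σ v)
    (hσv : σ v = z) (hH : ∀ᶠ w in 𝓝 v, H (σ w) = η w) : ∀ᶠ w in 𝓝 v, sec z (η w) = σ w := by
  obtain ⟨-, -, -, s4⟩ := sec_spec hz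
  rw [← hσv] at s4
  filter_upwards [hσ.eventually s4, hH] with v' h1 h2
  rw [← h2]
  rw [hσv] at h1
  exact h1

lemma CG.unique {A : ι → ℂ → ℂ → ℂ} {l : Fin n → ι} {v : ℂ} {b : ι → ℂ} {u : Fin n → ℂ}
    (hLS : ∀ m, LS (A m) v (b m)) (hu : ∀ i, deriv H (u i) ≠ 0)
    {β β' : ι → ℂ → ℂ} {σ σ' : Fin n → ℂ → ℂ} (h1 : CG A l v b u β σ) (h2 : CG A l v b u β' σ') :
    (∀ m, ∀ᶠ w in 𝓝 v, β m w = β' m w) ∧ (∀ i, ∀ᶠ w in 𝓝 v, σ i w = σ' i w) := by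
  have hb : ∀ m, ∀ᶠ w in 𝓝 v, β m w = β' m w := by
    intro m
    obtain ⟨s, -, -, -, hs⟩ := hLS m
    have t1 : Tendsto (fun w => (w, β m w)) (𝓝 v) (𝓝 (v, b m)) := by
      rw [← h1.bv m]; exact Tendsto.prodMk_nhds tendsto_id (h1.bc m)
    have t2 : Tendsto (fun w => (w, β' m w)) (𝓝 v) (𝓝 (v, b m)) := by
      rw [← h2.bv m]; exact Tendsto.prodMk_nhds tendsto_id (h2.bc m)
    filter_upwards [t1.eventually hs, t2.eventually hs, h1.bA m, h2.bA m] with w a1 a2 a3 a4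
    exact (a1 a3).trans (a2 a4).symm
  refine ⟨hb, fun i => ?_⟩
  have e1 := sec_eq (hu i) (h1.sc i) (h1.sv i) (h1.sH i)
  have e2 := sec_eq (hu i) (h2.sc i) (h2.sv i) (h2.sH i)
  filter_upwards [e1, e2, hb (l i)] with w a1 a2 a3
  rw [← a1, ← a2, a3]

variable [Finite ι]

lemma rel_iff {A : ι → ℂ → ℂ → ℂ} {P : (ι → ℂ) → (Fin n → ℂ) → ℂ} {l : Fin n → ι} {v : ℂ}
    {b : ι → ℂ} {u : Fin n → ℂ} (hLS : ∀ m, LS (A m) v (b m)) (hu : ∀ i, deriv H (u i) ≠ 0)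
    {β : ι → ℂ → ℂ} {σ : Fin n → ℂ → ℂ} (h1 : CG A l v b u β σ) :
    Rel A P l v b u ↔ ∀ᶠ w in 𝓝 v, P (fun m => β m w) (fun i => σ i w) = 0 := by
  constructor
  · rintro ⟨β', σ', h2, h3⟩
    obtain ⟨e1, e2⟩ := h1.unique hLS hu h2
    filter_upwards [eventually_all.2 e1, eventually_all.2 e2, h3] with w a1 a2 a3
    rw [← a3]
    congr 1
    · funext m; exact a1 m
    · funext i; exact a2 i
  · intro h2
    exact ⟨β, σ, h1, h2⟩

omit [Finite ι] in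
/-- existence of analytic germs -/
lemma exists_germ {A : ι → ℂ → ℂ → ℂ} {l : Fin n → ι} {v : ℂ}
    {b : ι → ℂ} {u : Fin n → ℂ} (hLS : ∀ m, LS (A m) v (b m)) (hu : ∀ i, deriv H (u i) ≠ 0)
    (hc : Conf A l v b u) : ∃ β σ, CG A l v b u β σ ∧ (∀ m, AnalyticAt ℂ (β m) v) ∧
      ∀ i, AnalyticAt ℂ (σ i) v := by
  choose β b1 b2 b3 b4 using hLS
  have hs1 : ∀ i, AnalyticAt ℂ (sec (u i)) (β (l i) v) := fun i => by
    rw [b2, ← hc.hu i]; exact (sec_spec (hu i)).1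
  refine ⟨β, fun i w => sec (u i) (β (l i) w), ⟨fun m => (b1 m).continuousAt, b2, b3, ?_, ?_, ?_⟩,
    b1, ?_⟩
  · intro i
    exact ((hs1 i).comp (b1 (l i))).continuousAt
  · intro i
    rw [b2, ← hc.hu i]
    exact (sec_spec (hu i)).2.1
  · intro i
    have h1 : ∀ᶠ w in 𝓝 (β (l i) v), H (sec (u i) w) = w := by
      rw [b2, ← hc.hu i]; exact (sec_spec (hu i)).2.2.1
    exact (b1 (l i)).continuousAt.eventually h1
  · intro i
    exact (hs1 i).comp (b1 (l i))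

/-- germs are germs of configurations at nearby points, and nearby configurations come from the
germ -/
lemma germ_near {A : ι → ℂ → ℂ → ℂ} {l : Fin n → ι} {v : ℂ}
    {b : ι → ℂ} {u : Fin n → ℂ} (hLS : ∀ m, LS (A m) v (b m)) (hu : ∀ i, deriv H (u i) ≠ 0)
    {β : ι → ℂ → ℂ} {σ : Fin n → ℂ → ℂ} (h1 : CG A l v b u β σ)
    (hβ : ∀ m, AnalyticAt ℂ (β m) v) (hσ : ∀ i, AnalyticAt ℂ (σ i) v) :
    ∀ᶠ p : ℂ × (ι → ℂ) × (Fin n → ℂ) in 𝓝 (v, b, u), Conf A l p.1 p.2.1 p.2.2 →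
      CG A l p.1 p.2.1 p.2.2 β σ := by
  have c1 : Tendsto (fun p : ℂ × (ι → ℂ) × (Fin n → ℂ) => p.1) (𝓝 (v, b, u)) (𝓝 v) :=
    continuous_fst.tendsto _
  have e1 : ∀ᶠ p : ℂ × (ι → ℂ) × (Fin n → ℂ) in 𝓝 (v, b, u), ∀ m, ContinuousAt (β m) p.1 ∧
      (∀ᶠ w in 𝓝 p.1, A m w (β m w) = 0) :=
    c1.eventually (eventually_all.2 fun m =>
      ((hβ m).eventually_analyticAt.mono fun y hy => hy.continuousAt).and
        (h1.bA m).eventually_nhds)
  have e2 : ∀ᶠ p : ℂ × (ι → ℂ) × (Fin n → ℂ) in 𝓝 (v, b, u), ∀ i, ContinuousAt (σ i) p.1 ∧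
      (∀ᶠ w in 𝓝 p.1, H (σ i w) = β (l i) w) :=
    c1.eventually (eventually_all.2 fun i =>
      ((hσ i).eventually_analyticAt.mono fun y hy => hy.continuousAt).and
        (h1.sH i).eventually_nhds)
  have e3 : ∀ᶠ p : ℂ × (ι → ℂ) × (Fin n → ℂ) in 𝓝 (v, b, u), ∀ m,
      (A m p.1 (p.2.1 m) = 0 → p.2.1 m = β m p.1) := by
    refine eventually_all.2 fun m => ?_
    obtain ⟨s, s1, s2, s3, s4⟩ := hLS m
    have t1 : Tendsto (fun p : ℂ × (ι → ℂ) × (Fin n → ℂ) => (p.1, p.2.1 m)) (𝓝 (v, b, u))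
        (𝓝 (v, b m)) := by
      have : Continuous (fun p : ℂ × (ι → ℂ) × (Fin n → ℂ) => (p.1, p.2.1 m)) := by fun_prop
      exact this.tendsto (v, b, u)
    have t2 : Tendsto (fun w => (w, β m w)) (𝓝 v) (𝓝 (v, b m)) := by
      rw [← h1.bv m]; exact Tendsto.prodMk_nhds tendsto_id (h1.bc m)
    have t3 : ∀ᶠ w in 𝓝 v, β m w = s w := by
      filter_upwards [t2.eventually s4, h1.bA m] with w a1 a2 using a1 a2
    filter_upwards [t1.eventually s4, c1.eventually t3] with p a1 a2 a3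
    rw [a2]
    exact a1 a3
  have e4 : ∀ᶠ p : ℂ × (ι → ℂ) × (Fin n → ℂ) in 𝓝 (v, b, u), ∀ i,
      sec (u i) (H (p.2.2 i)) = p.2.2 i ∧ sec (u i) (β (l i) p.1) = σ i p.1 := by
    refine eventually_all.2 fun i => ?_
    have t1 : Tendsto (fun p : ℂ × (ι → ℂ) × (Fin n → ℂ) => p.2.2 i) (𝓝 (v, b, u))
        (𝓝 (u i)) := by
      have : Continuous (fun p : ℂ × (ι → ℂ) × (Fin n → ℂ) => p.2.2 i) := by fun_prop
      exact this.tendsto (v, b, u)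
    exact (t1.eventually (sec_spec (hu i)).2.2.2).and
      (c1.eventually (sec_eq (hu i) (h1.sc i) (h1.sv i) (h1.sH i)))
  filter_upwards [e1, e2, e3, e4] with p a1 a2 a3 a4 hc
  have hbv : ∀ m, β m p.1 = p.2.1 m := fun m => (a3 m (hc.hb m)).symm
  refine ⟨fun m => (a1 m).1, hbv, fun m => (a1 m).2, fun i => (a2 i).1, ?_, fun i => (a2 i).2⟩
  intro i
  rw [← (a4 i).2, ← (a4 i).1, hc.hu i, hbv]

/-- local constancy of the relation -/
lemma rel_local {W : Set ℂ} {A : ι → ℂ → ℂ → ℂ} {l0 : ι} (hd : Data W A l0)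
    {P : (ι → ℂ) → (Fin n → ℂ) → ℂ} (hP : AnP P)
    {l : Fin n → ι} {v : ℂ} (hv : v ∉ W) {b : ι → ℂ} {u : Fin n → ℂ} (hc : Conf A l v b u) :
    ∀ᶠ p : ℂ × (ι → ℂ) × (Fin n → ℂ) in 𝓝 (v, b, u), p.1 ∉ W → Conf A l p.1 p.2.1 p.2.2 →
      (Rel A P l p.1 p.2.1 p.2.2 ↔ Rel A P l v b u) := by
  have hLS : ∀ m, LS (A m) v (b m) := fun m => (hd.good v hv m).loc _ (hc.hb m)
  have hcr : ∀ i, deriv H (u i) ≠ 0 := fun i => not_crit (hc.hu i) (hd.ncv v hv _ _ (hc.hb _))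
  obtain ⟨β, σ, h1, hβ, hσ⟩ := exists_germ hLS hcr hc
  have hF : AnalyticAt ℂ (fun w => P (fun m => β m w) (fun i => σ i w)) v := hP v β σ hβ hσ
  obtain ⟨r, hr, hr'⟩ := Metric.eventually_nhds_iff_ball.1 hF.eventually_analyticAt
  have hAn : AnalyticOnNhd ℂ (fun w => P (fun m => β m w) (fun i => σ i w))
      (Metric.ball v r) := fun y hy => hr' y hy
  have hpc : IsPreconnected (Metric.ball v r) := (convex_ball v r).isPreconnected
  have c1 : Tendsto (fun p : ℂ × (ι → ℂ) × (Fin n → ℂ) => p.1) (𝓝 (v, b, u)) (𝓝 v) :=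
    continuous_fst.tendsto _
  filter_upwards [germ_near hLS hcr h1 hβ hσ, c1.eventually (Metric.ball_mem_nhds v hr)]
    with p hp1 hp2 hpW hpc'
  have h2 := hp1 hpc'
  have hLS' : ∀ m, LS (A m) p.1 (p.2.1 m) := fun m => (hd.good _ hpW m).loc _ (hpc'.hb m)
  have hcr' : ∀ i, deriv H (p.2.2 i) ≠ 0 :=
    fun i => not_crit (hpc'.hu i) (hd.ncv _ hpW _ _ (hpc'.hb _))
  rw [rel_iff hLS' hcr' h2, rel_iff hLS hcr h1]
  constructor
  · intro h2
    have h3 := hAn.eqOn_zero_of_preconnected_of_eventuallyEq_zero hpc hp2 h2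
    filter_upwards [Metric.ball_mem_nhds v hr] with y hy using h3 hy
  · intro h2
    have h3 := hAn.eqOn_zero_of_preconnected_of_eventuallyEq_zero hpc
      (Metric.mem_ball_self hr) h2
    filter_upwards [Metric.isOpen_ball.mem_nhds hp2] with y hy using h3 hy

/-- **Continuation of relations along paths.** -/
theorem rel_path {W : Set ℂ} {A : ι → ℂ → ℂ → ℂ} {l0 : ι} (hd : Data W A l0)
    {P : (ι → ℂ) → (Fin n → ℂ) → ℂ} (hP : AnP P) {l : Fin n → ι} {s : Set ℝ}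
    (hs : IsPreconnected s) {v : ℝ → ℂ} (hv : ContinuousOn v s)
    (hvW : ∀ τ ∈ s, v τ ∉ W) {B : ι → ℝ → ℂ} {u : Fin n → ℝ → ℂ}
    (hB : ∀ m, ContinuousOn (B m) s) (hu : ∀ i, ContinuousOn (u i) s)
    (hA : ∀ m, ∀ τ ∈ s, A m (v τ) (B m τ) = 0)
    (hH : ∀ i, ∀ τ ∈ s, H (u i τ) = B (l i) τ) {a b : ℝ} (ha : a ∈ s) (hb : b ∈ s) :
    Rel A P l (v a) (fun m => B m a) (fun i => u i a) →
      Rel A P l (v b) (fun m => B m b) (fun i => u i b) := by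
  classical
  intro hrel
  have key : ContinuousOn (fun τ => if Rel A P l (v τ) (fun m => B m τ) (fun i => u i τ)
      then (0 : ℕ) else 1) s := by
    intro τ0 hτ0
    have h1 : Tendsto (fun τ => (v τ, (fun m => B m τ), fun i => u i τ)) (𝓝[s] τ0)
        (𝓝 (v τ0, (fun m => B m τ0), fun i => u i τ0)) := by
      refine Tendsto.prodMk_nhds (hv τ0 hτ0) (Tendsto.prodMk_nhds ?_ ?_)
      · exact tendsto_pi_nhds.2 fun m => hB m τ0 hτ0
      · exact tendsto_pi_nhds.2 fun i => hu i τ0 hτ0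
    have hconf : ∀ τ ∈ s, Conf A l (v τ) (fun m => B m τ) (fun i => u i τ) := fun τ hτ =>
      ⟨fun m => hA m τ hτ, fun i => hH i τ hτ⟩
    have h2 := h1.eventually (rel_local hd hP (l := l) (hvW τ0 hτ0) (hconf τ0 hτ0))
    have h3 : ∀ᶠ τ in 𝓝[s] τ0, (if Rel A P l (v τ) (fun m => B m τ) (fun i => u i τ)
        then (0 : ℕ) else 1) = (if Rel A P l (v τ0) (fun m => B m τ0) (fun i => u i τ0)
        then (0 : ℕ) else 1) := by
      filter_upwards [h2, self_mem_nhdsWithin] with τ h4 h5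
      have h6 := h4 (hvW τ h5) (hconf τ h5)
      by_cases h7 : Rel A P l (v τ0) (fun m => B m τ0) (fun i => u i τ0)
      · rw [if_pos h7, if_pos (h6.2 h7)]
      · rw [if_neg h7, if_neg (fun h8 => h7 (h6.1 h8))]
    exact tendsto_nhds_of_eventually_eq h3
  have h3 := hs.constant key ha hb
  simp only [hrel, if_true] at h3
  by_contra h4
  rw [if_neg h4] at h3
  exact absurd h3 (by norm_num)

/-- a path with a possibly exceptional end point -/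
structure EPath (W : Set ℂ) (A : ι → ℂ → ℂ → ℂ) (v : ℝ → ℂ) : Prop where
  cd : ContDiff ℝ 1 v
  mem : ∀ τ ∈ Ico (0 : ℝ) 1, v τ ∉ W
  good : ∀ m, GoodPt (A m) (v 1)
  ne0 : ∀ m y, A m (v 1) y = 0 → y ≠ 0

omit [Finite ι] in
/-- lifting of a configuration -/
theorem full_lift {W : Set ℂ} {A : ι → ℂ → ℂ → ℂ} {l0 : ι} (hd : Data W A l0) {l : Fin n → ι}
    {v : ℝ → ℂ} (hv : EPath W A v) {b : ι → ℂ} {u : Fin n → ℂ} (hc : Conf A l (v 0) b u) :
    ∃ (B : ι → ℝ → ℂ) (U : Fin n → ℝ → ℂ), (∀ m, ContinuousOn (B m) (Icc 0 1)) ∧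
      (∀ i, ContinuousOn (U i) (Icc 0 1)) ∧ (∀ m, B m 0 = b m) ∧ (∀ i, U i 0 = u i) ∧
      (∀ m, ∀ τ ∈ Icc (0 : ℝ) 1, A m (v τ) (B m τ) = 0) ∧
      (∀ i, ∀ τ ∈ Icc (0 : ℝ) 1, H (U i τ) = B (l i) τ) := by
  have hg : ∀ m, ∀ τ ∈ Icc (0 : ℝ) 1, GoodPt (A m) (v τ) := by
    intro m τ hτ
    rcases hτ.2.lt_or_eq with h | h
    · exact hd.good _ (hv.mem τ ⟨hτ.1, h⟩) m
    · rw [h]; exact hv.good m
  have hB := fun m => sheet_lift (hd.cont m) hv.cd.continuous.continuousOn (hg m) (hc.hb m)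
  choose B B1 B2 B3 using hB
  have hU : ∀ i, ∃ U : ℝ → ℂ, ContinuousOn U (Icc 0 1) ∧ U 0 = u i ∧
      ∀ τ ∈ Icc (0 : ℝ) 1, H (U τ) = B (l i) τ := by
    intro i
    refine lift_exists ⟨B1 _, ?_, ?_, ?_⟩ (u i) (by rw [B2]; exact hc.hu i)
    · exact sheet_der hv.cd (B1 _) (B3 _) (fun τ hτ => (hg _ τ hτ).loc _ (B3 _ τ hτ))
    · intro τ hτ
      rcases hτ.2.lt_or_eq with h | h
      · exact hd.ne0 _ (hv.mem τ ⟨hτ.1, h⟩) _ _ (B3 _ τ hτ)
      · have := B3 (l i) τ hτ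
        rw [h] at this ⊢
        exact hv.ne0 _ _ this
    · intro τ hτ
      exact hd.ncv _ (hv.mem τ hτ) _ _ (B3 _ τ ⟨hτ.1, hτ.2.le⟩)
  choose U U1 U2 U3 using hU
  exact ⟨B, U, B1, U1, B2, U2, B3, U3⟩

/-- a base path -/
structure BPath (W : Set ℂ) (v : ℝ → ℂ) : Prop where
  cd : ContDiff ℝ 1 v
  mem : ∀ τ ∈ Icc (0 : ℝ) 1, v τ ∉ W

omit [Finite ι] in
lemma BPath.epath {W : Set ℂ} {A : ι → ℂ → ℂ → ℂ} {l0 : ι} (hd : Data W A l0)
    {v : ℝ → ℂ} (hv : BPath W v) : EPath W A v :=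
  ⟨hv.cd, fun τ hτ => hv.mem τ ⟨hτ.1, hτ.2.le⟩, hd.good _ (hv.mem 1 ⟨zero_le_one, le_rfl⟩),
    hd.ne0 _ (hv.mem 1 ⟨zero_le_one, le_rfl⟩)⟩

open Classical in
/-- exchange two values for the indices of type `l0` -/
noncomputable def swp (l : Fin n → ι) (l0 : ι) (p q : ℂ) (u : Fin n → ℂ) : Fin n → ℂ :=
  fun i => if l i = l0 then Equiv.swap p q (u i) else u i

/-- the exchange of `p` and `q` preserves the relation at `v` -/
def Swap (A : ι → ℂ → ℂ → ℂ) (P : (ι → ℂ) → (Fin n → ℂ) → ℂ) (l : Fin n → ι) (l0 : ι)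
    (v p q : ℂ) : Prop :=
  ∀ (b : ι → ℂ) (u : Fin n → ℂ), Conf A l v b u → Rel A P l v b u →
    Rel A P l v b (swp l l0 p q u)

/-- transport of the exchange property along a path -/
theorem swap_path {W : Set ℂ} {A : ι → ℂ → ℂ → ℂ} {l0 : ι} (hd : Data W A l0)
    {P : (ι → ℂ) → (Fin n → ℂ) → ℂ} (hP : AnP P)
    {l : Fin n → ι} {v : ℝ → ℂ} (hv : BPath W v) {p q : ℝ → ℂ}
    (hp : ContinuousOn p (Icc 0 1)) (hq : ContinuousOn q (Icc 0 1))
    (hpH : ∀ τ ∈ Icc (0 : ℝ) 1, H (p τ) = v τ)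
    (hqH : ∀ τ ∈ Icc (0 : ℝ) 1, H (q τ) = v τ)
    (h1 : Swap A P l l0 (v 1) (p 1) (q 1)) : Swap A P l l0 (v 0) (p 0) (q 0) := by
  classical
  intro b u hc hrel
  have m0 : (0 : ℝ) ∈ Icc (0 : ℝ) 1 := ⟨le_rfl, zero_le_one⟩
  have m1 : (1 : ℝ) ∈ Icc (0 : ℝ) 1 := ⟨zero_le_one, le_rfl⟩
  obtain ⟨B, U, B1, U1, B2, U2, B3, U3⟩ := full_lift hd (hv.epath hd) hc
  have hB0 : (fun m => B m 0) = b := funext B2
  have hBl : ∀ τ ∈ Icc (0 : ℝ) 1, B l0 τ = v τ := fun τ hτ => (hd.base _ _).1 (B3 l0 τ hτ)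
  have hrel1 : Rel A P l (v 1) (fun m => B m 1) (fun i => U i 1) := by
    refine rel_path hd hP isPreconnected_Icc hv.cd.continuous.continuousOn hv.mem B1 U1 B3 U3
      m0 m1 ?_
    have : (fun i => U i 0) = u := funext U2
    rw [this, hB0]
    exact hrel
  have hrel2 := h1 _ (fun i => U i 1) ⟨fun m => B3 m 1 m1, fun i => U3 i 1 m1⟩ hrel1
  -- uniqueness
  have huniq : ∀ i, l i = l0 → ∀ (r : ℝ → ℂ), ContinuousOn r (Icc 0 1) →
      (∀ τ ∈ Icc (0 : ℝ) 1, H (r τ) = v τ) → (U i 1 = r 1 ↔ u i = r 0) := by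
    intro i hi r hr hrH
    have hc : ∀ τ ∈ Icc (0 : ℝ) 1, deriv H (U i τ) ≠ 0 := fun τ hτ =>
      not_crit (U3 i τ hτ) (hd.ncv _ (hv.mem τ hτ) _ _ (B3 _ τ hτ))
    have he : ∀ τ ∈ Icc (0 : ℝ) 1, H (U i τ) = H (r τ) := fun τ hτ => by
      rw [U3 i τ hτ, hrH τ hτ, hi, hBl τ hτ]
    constructor
    · intro h2
      have := lift_unique isPreconnected_Icc (U1 i) hr he hc m1 h2 m0
      rw [← U2 i]
      exact this
    · intro h2
      rw [← U2 i] at h2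
      exact lift_unique isPreconnected_Icc (U1 i) hr he hc m0 h2 m1
  set V : Fin n → ℝ → ℂ := fun i => if l i = l0 then (if u i = p 0 then q else
    if u i = q 0 then p else U i) else U i with hV
  have hVc : ∀ i, ContinuousOn (V i) (Icc 0 1) := by
    intro i
    simp only [hV]
    split_ifs
    · exact hq
    · exact hp
    · exact U1 i
    · exact U1 i
  have hVH : ∀ i, ∀ τ ∈ Icc (0 : ℝ) 1, H (V i τ) = B (l i) τ := by
    intro i τ hτ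
    simp only [hV]
    split_ifs with h2 h3 h4
    · rw [h2, hBl τ hτ]; exact hqH τ hτ
    · rw [h2, hBl τ hτ]; exact hpH τ hτ
    · exact U3 i τ hτ
    · exact U3 i τ hτ
  have hV1 : (fun i => V i 1) = swp l l0 (p 1) (q 1) (fun i => U i 1) := by
    funext i
    simp only [hV, swp]
    by_cases h2 : l i = l0
    · simp only [h2, if_true]
      by_cases h3 : u i = p 0
      · simp only [h3, if_true]
        rw [(huniq i h2 p hp hpH).2 h3, Equiv.swap_apply_left]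
      · simp only [h3, if_false]
        have h3' : U i 1 ≠ p 1 := fun h => h3 ((huniq i h2 p hp hpH).1 h)
        by_cases h4 : u i = q 0
        · simp only [h4, if_true]
          rw [(huniq i h2 q hq hqH).2 h4, Equiv.swap_apply_right]
        · simp only [h4, if_false]
          have h4' : U i 1 ≠ q 1 := fun h => h4 ((huniq i h2 q hq hqH).1 h)
          rw [Equiv.swap_apply_of_ne_of_ne h3' h4']
    · simp only [h2, if_false]
  have hV0 : (fun i => V i 0) = swp l l0 (p 0) (q 0) u := by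
    funext i
    simp only [hV, swp]
    by_cases h2 : l i = l0
    · simp only [h2, if_true]
      by_cases h3 : u i = p 0
      · simp only [h3, if_true]
        rw [Equiv.swap_apply_left]
      · simp only [h3, if_false]
        by_cases h4 : u i = q 0
        · simp only [h4, if_true]
          rw [Equiv.swap_apply_right]
        · simp only [h4, if_false]
          rw [Equiv.swap_apply_of_ne_of_ne h3 h4, U2 i]
    · simp only [h2, if_false]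
      exact U2 i
  rw [← hV0, ← hB0]
  rw [← hV1] at hrel2
  exact rel_path hd hP isPreconnected_Icc hv.cd.continuous.continuousOn hv.mem B1 hVc B3 hVH
    m1 m0 hrel2

end Pool.Agent.H489.GI.G
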