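import Pool.Agent.H489.GI.G2
import Pool.Agent.H489.GI.Util

open Complex Filter Topology Set

namespace Pool.Agent.H489.GI.G

variable {ι : Type*} {n : ℕ} [Finite ι]

/-- the exchange property in a convex open set on which both sections exist -/
theorem swap_convex {W : Set ℂ} {A : ι → ℂ → ℂ → ℂ} {l0 : ι} (hd : Data W A l0)
    {P : (ι → ℂ) → (Fin n → ℂ) → ℂ} (hP : AnP P)
    {l : Fin n → ι} {D : Set ℂ} (hD : Convex ℝ D) (hDo : IsOpen D) {p q : ℂ → ℂ}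
    (hp : ContinuousOn p D) (hq : ContinuousOn q D) (hpH : ∀ v ∈ D, H (p v) = v)
    (hqH : ∀ v ∈ D, H (q v) = v) {a b : ℂ} (ha : a ∈ D) (hb : b ∈ D) (haW : a ∉ W)
    (hbW : b ∉ W) (h1 : Swap A P l l0 b (p b) (q b)) : Swap A P l l0 a (p a) (q a) := by
  obtain ⟨c, hc, h2, h3⟩ := two_seg hd.cnt hD hDo ha hb haW hbW
  have step : ∀ x y, x ∈ D → y ∈ D → (∀ τ ∈ Icc (0 : ℝ) 1, seg x y τ ∉ W) →
      Swap A P l l0 y (p y) (q y) → Swap A P l l0 x (p x) (q x) := by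
    intro x y hx hy hxy h4
    have h5 := swap_path hd hP (l := l) (v := seg x y) ⟨seg_cd x y, hxy⟩
      (p := fun τ => p (seg x y τ)) (q := fun τ => q (seg x y τ))
      (hp.comp (seg_cd x y).continuous.continuousOn fun τ hτ => seg_mem hD hx hy hτ)
      (hq.comp (seg_cd x y).continuous.continuousOn fun τ hτ => seg_mem hD hx hy hτ)
      (fun τ hτ => hpH _ (seg_mem hD hx hy hτ)) (fun τ hτ => hqH _ (seg_mem hD hx hy hτ))
      (by simp only [seg_one]; exact h4)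
    simp only [seg_zero] at h5
    exact h5
  exact step a c ha hc h2 (step c b hc hb h3 h1)

/-- the exchange property for the sections through `z1` and `z2`, near the common value `H z1` -/
def TP (W : Set ℂ) (A : ι → ℂ → ℂ → ℂ) (P : (ι → ℂ) → (Fin n → ℂ) → ℂ) (l : Fin n → ι) (l0 : ι)
    (z1 z2 : ℂ) : Prop :=
  ∀ᶠ v in 𝓝 (H z1), v ∉ W → Swap A P l l0 v (sec z1 v) (sec z2 v)

/-- one point is enough -/
lemma TP_ball {W : Set ℂ} {A : ι → ℂ → ℂ → ℂ} {l0 : ι} (hd : Data W A l0)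
    {P : (ι → ℂ) → (Fin n → ℂ) → ℂ} (hP : AnP P)
    {l : Fin n → ι} {z1 z2 : ℂ} (h1 : deriv H z1 ≠ 0)
    (h2 : deriv H z2 ≠ 0) (h12 : H z1 = H z2) :
    ∃ r > 0, (∀ v ∈ Metric.ball (H z1) r, ∀ v' ∈ Metric.ball (H z1) r, v ∉ W → v' ∉ W →
      Swap A P l l0 v (sec z1 v) (sec z2 v) → Swap A P l l0 v' (sec z1 v') (sec z2 v')) := by
  obtain ⟨a1, a2, a3, a4⟩ := sec_spec h1
  obtain ⟨b1, b2, b3, b4⟩ := sec_spec h2
  rw [← h12] at b1 b2 b3
  obtain ⟨r, hr, hr'⟩ := Metric.eventually_nhds_iff_ball.1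
    ((a1.eventually_analyticAt.and b1.eventually_analyticAt).and (a3.and b3))
  refine ⟨r, hr, ?_⟩
  intro v hv v' hv' hvW hv'W hs
  exact swap_convex hd hP (convex_ball _ _) Metric.isOpen_ball
    (fun y hy => (hr' y hy).1.1.continuousAt.continuousWithinAt)
    (fun y hy => (hr' y hy).1.2.continuousAt.continuousWithinAt)
    (fun y hy => (hr' y hy).2.1) (fun y hy => (hr' y hy).2.2)
    hv' hv hv'W hvW hs

lemma TP_of_swap {W : Set ℂ} {A : ι → ℂ → ℂ → ℂ} {l0 : ι} (hd : Data W A l0)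
    {P : (ι → ℂ) → (Fin n → ℂ) → ℂ} (hP : AnP P)
    {l : Fin n → ι} {z1 z2 : ℂ} (h1 : deriv H z1 ≠ 0)
    (h2 : deriv H z2 ≠ 0) (h12 : H z1 = H z2) (hW : H z1 ∉ W)
    (hs : Swap A P l l0 (H z1) z1 z2) : TP W A P l l0 z1 z2 := by
  obtain ⟨r, hr, hr'⟩ := TP_ball hd hP (l := l) h1 h2 h12
  unfold TP
  filter_upwards [Metric.ball_mem_nhds (H z1) hr] with v hv hvW
  refine hr' (H z1) (Metric.mem_ball_self hr) v hv hW hvW ?_
  have e1 : sec z1 (H z1) = z1 := (sec_spec h1).2.1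
  have e2 : sec z2 (H z1) = z2 := by rw [h12]; exact (sec_spec h2).2.1
  rw [e1, e2]
  exact hs

/-- `TP` is locally constant -/
lemma TP_local {W : Set ℂ} {A : ι → ℂ → ℂ → ℂ} {l0 : ι} (hd : Data W A l0)
    {P : (ι → ℂ) → (Fin n → ℂ) → ℂ} (hP : AnP P)
    {l : Fin n → ι} {z1 z2 : ℂ} (h1 : deriv H z1 ≠ 0)
    (h2 : deriv H z2 ≠ 0) (h12 : H z1 = H z2) :
    ∀ᶠ y in 𝓝 (z1, z2), H y.1 = H y.2 → (TP W A P l l0 y.1 y.2 ↔ TP W A P l l0 z1 z2) := by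
  obtain ⟨r, hr, hr'⟩ := TP_ball hd hP (l := l) h1 h2 h12
  obtain ⟨a1, a2, a3, a4⟩ := sec_spec h1
  obtain ⟨b1, b2, b3, b4⟩ := sec_spec h2
  have c1 : ∀ᶠ y in 𝓝 z1, (sec z1 (H y) = y ∧ deriv H y ≠ 0) ∧
      (H y ∈ Metric.ball (H z1) r ∧ ContinuousAt (sec z1) (H y) ∧
        ∀ᶠ w in 𝓝 (H y), H (sec z1 w) = w) := by
    refine (a4.and ((H_analytic z1).deriv.continuousAt.eventually_ne h1)).and ?_
    have hc := (H_diff.continuous.continuousAt (x := z1))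
    refine (hc.eventually (Metric.ball_mem_nhds _ hr)).and ?_
    exact (hc.eventually (a1.eventually_analyticAt.mono fun w hw => hw.continuousAt)).and
      (hc.eventually a3.eventually_nhds)
  have c2 : ∀ᶠ y in 𝓝 z2, (sec z2 (H y) = y ∧ deriv H y ≠ 0) ∧
      (ContinuousAt (sec z2) (H y) ∧ ∀ᶠ w in 𝓝 (H y), H (sec z2 w) = w) := by
    refine (b4.and ((H_analytic z2).deriv.continuousAt.eventually_ne h2)).and ?_
    have hc := (H_diff.continuous.continuousAt (x := z2))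
    exact (hc.eventually (b1.eventually_analyticAt.mono fun w hw => hw.continuousAt)).and
      (hc.eventually b3.eventually_nhds)
  have c3 : ∀ᶠ y in 𝓝 (z1, z2), ((sec z1 (H y.1) = y.1 ∧ deriv H y.1 ≠ 0) ∧
      (H y.1 ∈ Metric.ball (H z1) r ∧ ContinuousAt (sec z1) (H y.1) ∧
        ∀ᶠ w in 𝓝 (H y.1), H (sec z1 w) = w)) ∧ ((sec z2 (H y.2) = y.2 ∧ deriv H y.2 ≠ 0) ∧
      (ContinuousAt (sec z2) (H y.2) ∧ ∀ᶠ w in 𝓝 (H y.2), H (sec z2 w) = w)) := by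
    rw [nhds_prod_eq]
    exact c1.prod_mk c2
  filter_upwards [c3] with y hy h3
  obtain ⟨⟨⟨d1, d2⟩, d3, d4, d5⟩, ⟨e1, e2⟩, e4, e5⟩ := hy
  rw [← h3] at e4 e5 e1
  -- near `H y.1` the sections agree
  have f1 : ∀ᶠ v in 𝓝 (H y.1), sec y.1 v = sec z1 v :=
    sec_eq (η := id) d2 d4 d1 d5
  have f2 : ∀ᶠ v in 𝓝 (H y.1), sec y.2 v = sec z2 v :=
    sec_eq (η := id) e2 e4 e1 e5
  have g1 : TP W A P l l0 y.1 y.2 ↔
      ∀ᶠ v in 𝓝 (H y.1), v ∉ W → Swap A P l l0 v (sec z1 v) (sec z2 v) := by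
    unfold TP
    constructor
    · intro h4
      filter_upwards [f1, f2, h4] with v g1 g2 g3 g4
      rw [← g1, ← g2]
      exact g3 g4
    · intro h4
      filter_upwards [f1, f2, h4] with v g1 g2 g3 g4
      rw [g1, g2]
      exact g3 g4
  rw [g1]
  unfold TP
  constructor
  · intro h4
    obtain ⟨v, hv1, hv2⟩ := exists_notMem hd.cnt (h4.and (Metric.isOpen_ball.mem_nhds d3))
    filter_upwards [Metric.ball_mem_nhds (H z1) hr] with v' hv' hv'W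
    exact hr' v hv1.2 v' hv' hv2 hv'W (hv1.1 hv2)
  · intro h4
    obtain ⟨v, hv1, hv2⟩ := exists_notMem hd.cnt (h4.and (Metric.ball_mem_nhds (H z1) hr))
    filter_upwards [Metric.isOpen_ball.mem_nhds d3] with v' hv' hv'W
    exact hr' v hv1.2 v' hv' hv2 hv'W (hv1.1 hv2)

end Pool.Agent.H489.GI.G
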