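import Pool.Agent.H489.GI.G3

open Complex Filter Topology Set

namespace Pool.Agent.H489.GI.G

variable {ι : Type*} {n : ℕ} [Finite ι]

/-- **Exchange at a critical value.** -/
theorem crit_swap {W : Set ℂ} {A : ι → ℂ → ℂ → ℂ} {l0 : ι} (hd : Data W A l0)
    {P : (ι → ℂ) → (Fin n → ℂ) → ℂ} (hP : AnP P)
    {l : Fin n → ι} {x : ℂ} (hx0 : H x ≠ 0)
    (huniq : ∀ z, deriv H z = 0 → H z = H x → z = x)
    (hgood : ∀ m, GoodPt (A m) (H x))
    (hclean : ∀ m, m ≠ l0 → ∀ y, A m (H x) y = 0 → y ≠ 0 ∧ y ∉ CV)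
    {φ ζ : ℂ → ℂ} {ρ : ℝ}
    (hφ : ∀ s, ‖s‖ < ρ → AnalyticAt ℂ φ s)
    (hφH : ∀ s, ‖s‖ < ρ → H (φ s) = H x - s ^ 2)
    (hζ2 : ∀ᶠ y in 𝓝 x, ζ y ^ 2 = H x - H y) (hφζ : ∀ᶠ y in 𝓝 x, φ (ζ y) = y)
    {s0 : ℂ} (hs0 : s0 ≠ 0) (hs0ρ : ‖s0‖ < ρ)
    (hray : ∀ r : ℝ, 0 < r → r ≤ 1 → H x - ((r : ℂ) * s0) ^ 2 ∉ W) :
    Swap A P l l0 (H x - s0 ^ 2) (φ s0) (φ (-s0)) := by
  classical
  intro b u hc hrel
  set v : ℝ → ℂ := fun τ => H x - (((1 - τ : ℝ) : ℂ) * s0) ^ 2 with hv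
  have hvcd : ContDiff ℝ 1 v := by
    have h1 : ContDiff ℝ 1 (fun τ : ℝ => ((1 - τ : ℝ) : ℂ)) :=
      ofRealCLM.contDiff.comp (contDiff_const.sub contDiff_id)
    exact contDiff_const.sub ((h1.mul contDiff_const).pow 2)
  have hv0 : v 0 = H x - s0 ^ 2 := by simp [hv]
  have hv1 : v 1 = H x := by simp [hv]
  have hvW : ∀ τ ∈ Ico (0 : ℝ) 1, v τ ∉ W := fun τ hτ =>
    hray (1 - τ) (by linarith [hτ.2]) (by linarith [hτ.1])
  have m0 : (0 : ℝ) ∈ Ico (0 : ℝ) 1 := ⟨le_rfl, zero_lt_one⟩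
  have hnorm : ∀ τ ∈ Icc (0 : ℝ) 1, ‖((1 - τ : ℝ) : ℂ) * s0‖ < ρ := by
    intro τ hτ
    rw [norm_mul, Complex.norm_real, Real.norm_eq_abs, abs_of_nonneg (by linarith [hτ.2])]
    refine lt_of_le_of_lt ?_ hs0ρ
    exact mul_le_of_le_one_left (norm_nonneg _) (by linarith [hτ.1])
  -- the lifts
  have hE : EPath W A v := by
    refine ⟨hvcd, hvW, ?_, ?_⟩
    · intro m; rw [hv1]; exact hgood m
    · intro m y hy
      rw [hv1] at hy
      by_cases hm : m = l0
      · rw [hm] at hy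
        rw [(hd.base _ _).1 hy]
        exact hx0
      · exact (hclean m hm y hy).1
  obtain ⟨B, U, B1, U1, B2, U2, B3, U3⟩ := full_lift hd (l := l) hE (b := b) (u := u)
    (by rw [hv0]; exact hc)
  have hB0 : (fun m => B m 0) = b := funext B2
  have hBl : ∀ τ ∈ Icc (0 : ℝ) 1, B l0 τ = v τ := fun τ hτ => (hd.base _ _).1 (B3 l0 τ hτ)
  set p : ℝ → ℂ := fun τ => φ (((1 - τ : ℝ) : ℂ) * s0) with hp
  set q : ℝ → ℂ := fun τ => φ (-(((1 - τ : ℝ) : ℂ) * s0)) with hq
  have hpc : ContinuousOn p (Icc 0 1) := by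
    intro τ hτ
    have h1 : ContinuousAt (fun τ : ℝ => ((1 - τ : ℝ) : ℂ) * s0) τ := by fun_prop
    exact (ContinuousAt.comp (g := φ) (f := fun τ : ℝ => ((1 - τ : ℝ) : ℂ) * s0)
      (hφ _ (hnorm τ hτ)).continuousAt h1).continuousWithinAt
  have hqc : ContinuousOn q (Icc 0 1) := by
    intro τ hτ
    have h1 : ContinuousAt (fun τ : ℝ => -(((1 - τ : ℝ) : ℂ) * s0)) τ := by fun_prop
    have h2 : ‖-(((1 - τ : ℝ) : ℂ) * s0)‖ < ρ := by rw [norm_neg]; exact hnorm τ hτ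
    exact (ContinuousAt.comp (g := φ) (f := fun τ : ℝ => -(((1 - τ : ℝ) : ℂ) * s0))
      (hφ _ h2).continuousAt h1).continuousWithinAt
  have hpH : ∀ τ ∈ Icc (0 : ℝ) 1, H (p τ) = v τ := fun τ hτ => hφH _ (hnorm τ hτ)
  have hqH : ∀ τ ∈ Icc (0 : ℝ) 1, H (q τ) = v τ := fun τ hτ => by
    have h2 : ‖-(((1 - τ : ℝ) : ℂ) * s0)‖ < ρ := by rw [norm_neg]; exact hnorm τ hτ
    simp only [hq, hv]
    rw [hφH _ h2]
    ring
  have hp0 : p 0 = φ s0 := by simp [hp]
  have hq0 : q 0 = φ (-s0) := by simp [hq]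
  have hIco : Ico (0 : ℝ) 1 ⊆ Icc 0 1 := Ico_subset_Icc_self
  -- uniqueness of lifts on `[0,1)`
  have huniqL : ∀ i, l i = l0 → ∀ (r : ℝ → ℂ), ContinuousOn r (Icc 0 1) →
      (∀ τ ∈ Icc (0 : ℝ) 1, H (r τ) = v τ) → ∀ τ ∈ Ico (0 : ℝ) 1, (U i τ = r τ ↔ u i = r 0) := by
    intro i hi r hr hrH τ hτ
    have hc : ∀ τ ∈ Ico (0 : ℝ) 1, deriv H (U i τ) ≠ 0 := fun τ hτ =>
      not_crit (U3 i τ (hIco hτ)) (hd.ncv _ (hvW τ hτ) _ _ (B3 _ τ (hIco hτ)))
    have he : ∀ τ ∈ Ico (0 : ℝ) 1, H (U i τ) = H (r τ) := fun τ hτ => by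
      rw [U3 i τ (hIco hτ), hrH τ (hIco hτ), hi, hBl τ (hIco hτ)]
    constructor
    · intro h2
      have := lift_unique isPreconnected_Ico ((U1 i).mono hIco) (hr.mono hIco) he hc hτ h2 m0
      rw [← U2 i]
      exact this
    · intro h2
      rw [← U2 i] at h2
      exact lift_unique isPreconnected_Ico ((U1 i).mono hIco) (hr.mono hIco) he hc m0 h2 hτ
  -- the third kind of index
  set C : Fin n → Prop := fun i => ¬ (l i = l0 ∧ (u i = p 0 ∨ u i = q 0)) with hC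
  have m1 : (1 : ℝ) ∈ Icc (0 : ℝ) 1 := ⟨zero_le_one, le_rfl⟩
  have hIccmem : Icc (0 : ℝ) 1 ∈ 𝓝[<] (1 : ℝ) := mem_of_superset (Ico_mem_nhdsLT zero_lt_one) hIco
  have hlim : ∀ i, Tendsto (U i) (𝓝[<] 1) (𝓝 (U i 1)) := by
    intro i
    exact (U1 i 1 m1).mono_left (nhdsWithin_le_of_mem hIccmem)
  have hlimB : ∀ m, Tendsto (B m) (𝓝[<] 1) (𝓝 (B m 1)) := by
    intro m
    exact (B1 m 1 m1).mono_left (nhdsWithin_le_of_mem hIccmem)
  have hIcoev : ∀ᶠ τ in 𝓝[<] (1 : ℝ), τ ∈ Ico (0 : ℝ) 1 := Ico_mem_nhdsLT zero_lt_one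
  have hCz : ∀ i, C i → deriv H (U i 1) ≠ 0 := by
    intro i hi
    by_cases hl : l i = l0
    · intro hcr
      have h1 : H (U i 1) = H x := by rw [U3 i 1 m1, hl, hBl 1 m1, hv1]
      have h2 := huniq _ hcr h1
      have h3 := hlim i
      rw [h2] at h3
      obtain ⟨τ, ⟨h4, h5⟩, h6⟩ := (((h3.eventually hζ2).and (h3.eventually hφζ)).and
        hIcoev).exists
      have h7 : ζ (U i τ) ^ 2 = (((1 - τ : ℝ) : ℂ) * s0) ^ 2 := by
        rw [h4, U3 i τ (hIco h6), hl, hBl τ (hIco h6)]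
        simp only [hv]
        ring
      apply hi
      refine ⟨hl, ?_⟩
      rcases sq_eq_sq_iff_eq_or_eq_neg.1 h7 with h8 | h8
      · left
        rw [h8] at h5
        exact (huniqL i hl p hpc hpH τ h6).1 h5.symm
      · right
        rw [h8] at h5
        exact (huniqL i hl q hqc hqH τ h6).1 h5.symm
    · refine not_crit (w := B (l i) 1) (U3 i 1 m1) ?_
      have h1 := B3 (l i) 1 m1
      rw [hv1] at h1
      exact (hclean _ hl _ h1).2
  -- the sections of the sheets at the critical value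
  have hLS : ∀ m, LS (A m) (H x) (B m 1) := fun m => by
    have h1 := B3 m 1 m1
    rw [hv1] at h1
    exact (hgood m).loc _ h1
  choose sm s1 s2 s3 s4 using hLS
  have hsm0 : ∀ᶠ w in 𝓝 (H x), sm l0 w = w := by
    filter_upwards [s3 l0] with w hw using (hd.base _ _).1 hw
  have hsqan : ∀ t : ℂ, AnalyticAt ℂ (fun s : ℂ => H x - s ^ 2) t := fun t =>
    analyticAt_const.sub (analyticAt_id.pow 2)
  have hsq0 : Tendsto (fun s : ℂ => H x - s ^ 2) (𝓝 0) (𝓝 (H x)) := by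
    have := (hsqan 0).continuousAt.tendsto
    simpa using this
  have hbm : ∀ m, AnalyticAt ℂ (fun s : ℂ => sm m (H x - s ^ 2)) 0 := by
    intro m
    have h1 : AnalyticAt ℂ (sm m) (H x - 0 ^ 2) := by simpa using s1 m
    exact AnalyticAt.comp (g := sm m) (f := fun s : ℂ => H x - s ^ 2) h1 (hsqan 0)
  have hH1 : ∀ i, H (U i 1) = sm (l i) (H x) := fun i => by rw [U3 i 1 m1, s2]
  -- the analytic functions of `s`
  set ξ : Fin n → ℂ → ℂ := fun i => if l i = l0 ∧ u i = p 0 then φ else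
    if l i = l0 ∧ u i = q 0 then (fun s => φ (-s)) else
      (fun s => sec (U i 1) (sm (l i) (H x - s ^ 2))) with hξ
  have hξC : ∀ i, C i → ξ i = fun s => sec (U i 1) (sm (l i) (H x - s ^ 2)) := by
    intro i hi
    simp only [hξ]
    rw [if_neg (fun h => hi ⟨h.1, Or.inl h.2⟩), if_neg (fun h => hi ⟨h.1, Or.inr h.2⟩)]
  have hρ : 0 < ρ := (norm_nonneg _).trans_lt hs0ρ
  have hξan : ∀ i, AnalyticAt ℂ (ξ i) 0 := by
    intro i
    simp only [hξ]
    split_ifs with h1 h2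
    · exact hφ 0 (by simpa using hρ)
    · have : AnalyticAt ℂ φ (-0) := hφ _ (by simpa using hρ)
      exact AnalyticAt.comp (f := fun s : ℂ => -s) this analyticAt_id.neg
    · have hi : C i := by
        rintro ⟨h3, h4 | h4⟩
        · exact h1 ⟨h3, h4⟩
        · exact h2 ⟨h3, h4⟩
      have h3 : AnalyticAt ℂ (sec (U i 1)) (sm (l i) (H x - 0 ^ 2)) := by
        have := (sec_spec (hCz i hi)).1
        rw [hH1 i] at this
        simpa using this
      exact AnalyticAt.comp (g := sec (U i 1)) (f := fun s : ℂ => sm (l i) (H x - s ^ 2)) h3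
        (hbm (l i))
  have hG : AnalyticAt ℂ (fun s => P (fun m => sm m (H x - s ^ 2)) (fun i => ξ i s)) 0 :=
    hP 0 (fun m s => sm m (H x - s ^ 2)) ξ hbm hξan
  have hξH : ∀ᶠ s in 𝓝 (0 : ℂ), ∀ i, H (ξ i s) = sm (l i) (H x - s ^ 2) := by
    refine eventually_all.2 fun i => ?_
    have hball : ∀ᶠ s in 𝓝 (0 : ℂ), ‖s‖ < ρ := by
      filter_upwards [Metric.ball_mem_nhds (0 : ℂ) hρ] with s hs
      simpa using hs
    by_cases h1 : l i = l0 ∧ u i = p 0
    · filter_upwards [hball, hsq0.eventually hsm0] with s hs hs'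
      simp only [hξ]
      rw [if_pos h1, hφH s hs, h1.1, hs']
    · by_cases h2 : l i = l0 ∧ u i = q 0
      · filter_upwards [hball, hsq0.eventually hsm0] with s hs hs'
        simp only [hξ]
        rw [if_neg h1, if_pos h2, hφH (-s) (by rwa [norm_neg]), h2.1, hs']
        ring
      · have hi : C i := by
          rintro ⟨h3, h4 | h4⟩
          · exact h1 ⟨h3, h4⟩
          · exact h2 ⟨h3, h4⟩
        rw [hξC i hi]
        have h3 := (sec_spec (hCz i hi)).2.2.1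
        rw [hH1 i] at h3
        have h4 : Tendsto (fun s : ℂ => sm (l i) (H x - s ^ 2)) (𝓝 0) (𝓝 (sm (l i) (H x))) :=
          (s1 (l i)).continuousAt.tendsto.comp hsq0
        exact h4.eventually h3
  have hsm : ∀ᶠ s in 𝓝 (0 : ℂ), ∀ m, ContinuousAt (sm m) (H x - s ^ 2) ∧
      ∀ᶠ w in 𝓝 (H x - s ^ 2), A m w (sm m w) = 0 :=
    eventually_all.2 fun m => hsq0.eventually
      (((s1 m).eventually_analyticAt.mono fun w hw => hw.continuousAt).and (s3 m).eventually_nhds)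
  obtain ⟨ρ', hρ', hball'⟩ := Metric.eventually_nhds_iff_ball.1
    (((hG.eventually_analyticAt.and hξH).and
      (eventually_all.2 fun i => (hξan i).eventually_analyticAt)).and hsm)
  -- choose `τ` close to `1`
  have hBsm : ∀ m, ∀ᶠ τ in 𝓝[<] (1 : ℝ), B m τ = sm m (v τ) := by
    intro m
    have h1 : Tendsto v (𝓝[<] 1) (𝓝 (H x)) := by
      rw [← hv1]
      exact hvcd.continuous.continuousAt.tendsto.mono_left nhdsWithin_le_nhds
    have h2 : Tendsto (fun τ => (v τ, B m τ)) (𝓝[<] 1) (𝓝 (H x, B m 1)) :=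
      Tendsto.prodMk_nhds h1 (hlimB m)
    filter_upwards [h2.eventually (s4 m), hIcoev] with τ h3 h4
    exact h3 (B3 m τ (hIco h4))
  have hτex : ∃ τ ∈ Ico (0 : ℝ) 1, ‖((1 - τ : ℝ) : ℂ) * s0‖ < ρ' ∧
      (∀ i, U i τ = ξ i (((1 - τ : ℝ) : ℂ) * s0)) ∧ ∀ m, B m τ = sm m (v τ) := by
    have h1 : ∀ᶠ τ in 𝓝[<] (1 : ℝ), ‖((1 - τ : ℝ) : ℂ) * s0‖ < ρ' := by
      have h2 : Tendsto (fun τ : ℝ => ‖((1 - τ : ℝ) : ℂ) * s0‖) (𝓝 1) (𝓝 0) := by
        have : Continuous (fun τ : ℝ => ‖((1 - τ : ℝ) : ℂ) * s0‖) := by fun_prop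
        have h3 := this.tendsto 1
        simpa using h3
      exact (h2.mono_left nhdsWithin_le_nhds).eventually (gt_mem_nhds hρ')
    have h2 : ∀ᶠ τ in 𝓝[<] (1 : ℝ), ∀ i, U i τ = ξ i (((1 - τ : ℝ) : ℂ) * s0) := by
      refine eventually_all.2 fun i => ?_
      by_cases h1 : l i = l0 ∧ u i = p 0
      · filter_upwards [hIcoev] with τ hτ
        simp only [hξ]
        rw [if_pos h1]
        exact (huniqL i h1.1 p hpc hpH τ hτ).2 h1.2
      · by_cases h2 : l i = l0 ∧ u i = q 0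
        · filter_upwards [hIcoev] with τ hτ
          simp only [hξ]
          rw [if_neg h1, if_pos h2]
          exact (huniqL i h2.1 q hqc hqH τ hτ).2 h2.2
        · have hi : C i := by
            rintro ⟨h3, h4 | h4⟩
            · exact h1 ⟨h3, h4⟩
            · exact h2 ⟨h3, h4⟩
          rw [hξC i hi]
          have h3 := (sec_spec (hCz i hi)).2.2.2
          filter_upwards [(hlim i).eventually h3, hIcoev, hBsm (l i)] with τ h4 h5 h6
          rw [← h4, U3 i τ (hIco h5), h6]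
    obtain ⟨τ, ⟨⟨h3, h4⟩, h5⟩, h6⟩ := (((h1.and h2).and hIcoev).and (eventually_all.2 hBsm)).exists
    exact ⟨τ, h5, h3, h4, h6⟩
  obtain ⟨τ, hτ, hτρ, hUξ, hBτ⟩ := hτex
  set sτ : ℂ := ((1 - τ : ℝ) : ℂ) * s0 with hsτ
  have hsτ0 : sτ ≠ 0 := by
    refine mul_ne_zero ?_ hs0
    rw [Complex.ofReal_ne_zero]
    linarith [hτ.2]
  have hvτ : v τ = H x - sτ ^ 2 := rfl
  have hmemτ : sτ ∈ Metric.ball (0 : ℂ) ρ' := by simpa using hτρ
  -- local inverse of `s ↦ H x - s²` at `sτ`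
  have hder : deriv (fun s : ℂ => H x - s ^ 2) sτ ≠ 0 := by
    have h1 : HasDerivAt (fun s : ℂ => H x - s ^ 2) (-(2 * sτ)) sτ := by
      have := (hasDerivAt_pow 2 sτ).const_sub (H x)
      simpa using this
    rw [h1.deriv]
    simp [hsτ0]
  obtain ⟨κ, k1, k2, k3, k4⟩ := exists_sec (hsqan sτ) hder
  rw [← hvτ] at k1 k2 k3
  -- relation along the path up to `τ`
  have hrelτ : Rel A P l (v τ) (fun m => B m τ) (fun i => U i τ) := by
    refine rel_path hd hP isPreconnected_Ico hvcd.continuous.continuousOn hvW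
      (fun m => (B1 m).mono hIco) (fun i => (U1 i).mono hIco) (fun m t ht => B3 m t (hIco ht))
      (fun i t ht => U3 i t (hIco ht)) m0 hτ ?_
    have : (fun i => U i 0) = u := funext U2
    rw [this, hv0, hB0]
    exact hrel
  have hLSτ : ∀ m, LS (A m) (v τ) (B m τ) := fun m =>
    (hd.good _ (hvW τ hτ) m).loc _ (B3 m τ (hIco hτ))
  have hcrτ : ∀ i, ∀ z, H z = B (l i) τ → deriv H z ≠ 0 := fun i z hz =>
    not_crit hz (hd.ncv _ (hvW τ hτ) _ _ (B3 _ τ (hIco hτ)))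
  -- sections built from `ξ` and a sign
  have hsecs : ∀ ε : ℂ, (ε = 1 ∨ ε = -1) → ∀ w : Fin n → ℂ, (∀ i, w i = ξ i (ε * sτ)) →
      (Rel A P l (v τ) (fun m => B m τ) w ↔
        ∀ᶠ v' in 𝓝 (v τ), P (fun m => sm m v') (fun i => ξ i (ε * κ v')) = 0) := by
    intro ε hε w hw
    have hε2 : ε ^ 2 = 1 := by rcases hε with h | h <;> rw [h] <;> ring
    have hεn : ‖ε‖ = 1 := by rcases hε with h | h <;> rw [h] <;> simp
    have hmem : ε * sτ ∈ Metric.ball (0 : ℂ) ρ' := by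
      simpa [hεn] using hτρ
    have hb' := hball' _ hmem
    have hsqε : H x - (ε * sτ) ^ 2 = v τ := by rw [mul_pow, hε2, one_mul]
    have hwH : ∀ i, H (w i) = B (l i) τ := by
      intro i
      rw [hw i, hb'.1.1.2 i, hsqε, hBτ]
    refine rel_iff hLSτ (fun i => hcrτ i _ (hwH i)) (β := sm) (σ := fun i v' => ξ i (ε * κ v'))
      ⟨?_, ?_, ?_, ?_, ?_, ?_⟩
    · intro m
      have := (hb'.2 m).1
      rwa [hsqε] at this
    · intro m
      exact (hBτ m).symm
    · intro m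
      have := (hb'.2 m).2
      rwa [hsqε] at this
    · intro i
      have h1 : ContinuousAt (ξ i) (ε * κ (v τ)) := by
        rw [k2]; exact (hb'.1.2 i).continuousAt
      exact ContinuousAt.comp (g := ξ i) (f := fun v' => ε * κ v') h1
        (continuousAt_const.mul k1.continuousAt)
    · intro i
      rw [k2, hw i]
    · intro i
      have h1 : Tendsto (fun v' => ε * κ v') (𝓝 (v τ)) (𝓝 (ε * sτ)) := by
        have h2 := (tendsto_const_nhds (x := ε)).mul k1.continuousAt.tendsto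
        rwa [k2] at h2
      have h2 : ∀ᶠ v' in 𝓝 (v τ), ε * κ v' ∈ Metric.ball (0 : ℂ) ρ' :=
        h1.eventually (Metric.isOpen_ball.mem_nhds hmem)
      filter_upwards [h2, k3] with v' h3 h4
      rw [(hball' _ h3).1.1.2 i, mul_pow, hε2, one_mul, h4]
  -- `G` vanishes near `sτ`
  have hG1 : ∀ᶠ s in 𝓝 sτ, P (fun m => sm m (H x - s ^ 2)) (fun i => ξ i s) = 0 := by
    have h1 := (hsecs 1 (Or.inl rfl) (fun i => U i τ) (fun i => by rw [one_mul]; exact hUξ i)).1
      hrelτ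
    have h2 : Tendsto (fun s : ℂ => H x - s ^ 2) (𝓝 sτ) (𝓝 (v τ)) := (hsqan sτ).continuousAt
    filter_upwards [h2.eventually h1, k4] with s h3 h4
    rw [h4] at h3
    simpa using h3
  have hG2 : ∀ s ∈ Metric.ball (0 : ℂ) ρ',
      P (fun m => sm m (H x - s ^ 2)) (fun i => ξ i s) = 0 := by
    have hAn : AnalyticOnNhd ℂ (fun s => P (fun m => sm m (H x - s ^ 2)) (fun i => ξ i s))
        (Metric.ball (0 : ℂ) ρ') := fun y hy => (hball' y hy).1.1.1
    exact fun s hs => hAn.eqOn_zero_of_preconnected_of_eventuallyEq_zero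
      (convex_ball _ _).isPreconnected hmemτ hG1 hs
  -- the relation for the exchanged tuple at `v τ`
  have hrel2 : Rel A P l (v τ) (fun m => B m τ) (fun i => ξ i (-1 * sτ)) := by
    refine (hsecs (-1) (Or.inr rfl) _ (fun i => rfl)).2 ?_
    have h1 : Tendsto (fun v' => (-1 : ℂ) * κ v') (𝓝 (v τ)) (𝓝 (-1 * sτ)) := by
      have h2 := (tendsto_const_nhds (x := (-1 : ℂ))).mul k1.continuousAt.tendsto
      rwa [k2] at h2
    have hmem : (-1 : ℂ) * sτ ∈ Metric.ball (0 : ℂ) ρ' := by simpa using hτρ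
    have h2 : ∀ᶠ v' in 𝓝 (v τ), (-1 : ℂ) * κ v' ∈ Metric.ball (0 : ℂ) ρ' :=
      h1.eventually (Metric.isOpen_ball.mem_nhds hmem)
    filter_upwards [h2, k3] with v' h3 h4
    have h5 := hG2 _ h3
    rw [mul_pow] at h5
    norm_num at h5
    rw [h4] at h5
    simpa using h5
  -- go back
  set V : Fin n → ℝ → ℂ := fun i => if l i = l0 then (if u i = p 0 then q else
    if u i = q 0 then p else U i) else U i with hV
  have hVc : ∀ i, ContinuousOn (V i) (Icc 0 1) := by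
    intro i
    simp only [hV]
    split_ifs
    · exact hqc
    · exact hpc
    · exact U1 i
    · exact U1 i
  have hVH : ∀ i, ∀ τ ∈ Icc (0 : ℝ) 1, H (V i τ) = B (l i) τ := by
    intro i τ hτ
    simp only [hV]
    split_ifs with h2 h3 h4
    · rw [h2, hBl τ hτ]; exact hqH τ hτ
    · rw [h2, hBl τ hτ]; exact hpH τ hτ
    · exact U3 i τ hτ
    · exact U3 i τ hτ
  have hVτ : (fun i => V i τ) = fun i => ξ i (-1 * sτ) := by
    funext i
    by_cases h2 : l i = l0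
    · by_cases h3 : u i = p 0
      · simp only [hV, hξ]
        simp only [h2, h3, if_true, and_self]
        simp only [hq, hsτ]
        congr 1
        ring
      · by_cases h4 : u i = q 0
        · simp only [hV, hξ]
          have h5 : ¬ (q 0 = p 0) := fun h => h3 (h4.trans h)
          simp only [h2, h4, h5, if_true, if_false, and_self, and_false]
          simp only [hp, hsτ]
          congr 1
          ring
        · have hi : C i := by
            rintro ⟨-, h5 | h5⟩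
            · exact h3 h5
            · exact h4 h5
          have h5 := hUξ i
          rw [hξC i hi] at h5 ⊢
          simp only [hV]
          simp only [h3, h4, if_false, ite_self]
          rw [h5]
          show sec (U i 1) (sm (l i) (H x - sτ ^ 2)) = sec (U i 1) (sm (l i) (H x - (-1 * sτ) ^ 2))
          rw [show (-1 * sτ) ^ 2 = sτ ^ 2 by ring]
    · have hi : C i := fun h => h2 h.1
      have h5 := hUξ i
      rw [hξC i hi] at h5 ⊢
      simp only [hV]
      simp only [h2, if_false]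
      rw [h5]
      show sec (U i 1) (sm (l i) (H x - sτ ^ 2)) = sec (U i 1) (sm (l i) (H x - (-1 * sτ) ^ 2))
      rw [show (-1 * sτ) ^ 2 = sτ ^ 2 by ring]
  have hV0 : (fun i => V i 0) = swp l l0 (φ s0) (φ (-s0)) u := by
    funext i
    simp only [hV, swp]
    rw [← hp0, ← hq0]
    by_cases h2 : l i = l0
    · simp only [h2, if_true]
      by_cases h3 : u i = p 0
      · simp only [h3, if_true]
        rw [Equiv.swap_apply_left]
      · simp only [h3, if_false]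
        by_cases h4 : u i = q 0
        · simp only [h4, if_true]
          rw [Equiv.swap_apply_right]
        · simp only [h4, if_false]
          rw [Equiv.swap_apply_of_ne_of_ne h3 h4, U2 i]
    · simp only [h2, if_false]
      exact U2 i
  rw [← hV0, ← hv0, ← hB0]
  rw [← hVτ] at hrel2
  exact rel_path hd hP isPreconnected_Ico hvcd.continuous.continuousOn hvW
    (fun m => (B1 m).mono hIco) (fun i => (hVc i).mono hIco) (fun m t ht => B3 m t (hIco ht))
    (fun i t ht => hVH i t (hIco ht)) hτ m0 hrel2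

/-- near a critical point exchanging the two solutions preserves relations -/
theorem crit_TP {W : Set ℂ} {A : ι → ℂ → ℂ → ℂ} {l0 : ι} (hd : Data W A l0)
    {P : (ι → ℂ) → (Fin n → ℂ) → ℂ} (hP : AnP P)
    {l : Fin n → ι} {x : ℂ} (hx1 : deriv H x = 0)
    (hx2 : deriv (deriv H) x ≠ 0) (hx0 : H x ≠ 0)
    (huniq : ∀ z, deriv H z = 0 → H z = H x → z = x)
    (hgood : ∀ m, GoodPt (A m) (H x))
    (hclean : ∀ m, m ≠ l0 → ∀ y, A m (H x) y = 0 → y ≠ 0 ∧ y ∉ CV) :
    ∀ᶠ y in 𝓝 (x, x), y.1 ≠ y.2 → H y.1 = H y.2 → TP W A P l l0 y.1 y.2 := by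
  obtain ⟨φ, ζ, p1, p2, z1, z2, q1, q2, q3, q4⟩ := morse (H_analytic x) hx1 hx2
  -- a radius
  obtain ⟨ρ, hρ, hρ'⟩ := Metric.eventually_nhds_iff_ball.1
    ((p1.eventually_analyticAt.and q1).and q2)
  have hφ : ∀ s, ‖s‖ < ρ → AnalyticAt ℂ φ s := fun s hs => (hρ' s (by simpa using hs)).1.1
  have hφH : ∀ s, ‖s‖ < ρ → H (φ s) = H x - s ^ 2 := fun s hs => (hρ' s (by simpa using hs)).1.2
  have hφζ' : ∀ s, ‖s‖ < ρ → ζ (φ s) = s := fun s hs => (hρ' s (by simpa using hs)).2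
  -- noncritical points
  have hnc : ∀ s, ‖s‖ < ρ → s ≠ 0 → deriv H (φ s) ≠ 0 := by
    intro s hs hs0 h
    have h1 : HasDerivAt (fun t => H (φ t)) (deriv H (φ s) * deriv φ s) s :=
      (H_diff (φ s)).hasDerivAt.comp s (hφ s hs).differentiableAt.hasDerivAt
    have h2 : HasDerivAt (fun t => H x - t ^ 2) (-(2 * s)) s := by
      have := (hasDerivAt_pow 2 s).const_sub (H x)
      simpa using this
    have h3 : (fun t => H (φ t)) =ᶠ[𝓝 s] fun t => H x - t ^ 2 := by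
      filter_upwards [Metric.isOpen_ball.mem_nhds
        (show s ∈ Metric.ball (0 : ℂ) ρ by simpa using hs)] with t ht
      exact hφH t (by simpa using ht)
    have h4 := (h1.congr_of_eventuallyEq h3.symm).unique h2
    rw [h, zero_mul] at h4
    have : (2 : ℂ) * s = 0 := by linear_combination h4
    simp [hs0] at this
  -- the claim for `φ s`
  have claim : ∀ s, s ≠ 0 → ‖s‖ < ρ → TP W A P l l0 (φ s) (φ (-s)) := by
    intro s1 hs1 hs1ρ
    have hs1ρ' : ‖-s1‖ < ρ := by rwa [norm_neg]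
    have hH12 : H (φ s1) = H (φ (-s1)) := by
      rw [hφH _ hs1ρ, hφH _ hs1ρ']; ring
    have hloc := TP_local hd hP (l := l) (hnc s1 hs1ρ hs1) (hnc (-s1) hs1ρ' (neg_ne_zero.2 hs1)) hH12
    -- the family of points `s1 (1 + i θ)`
    set c : ℝ → ℂ := fun θ => s1 * (1 + θ * I) with hc
    have hcc : Continuous c := by fun_prop
    have hc0 : c 0 = s1 := by simp [hc]
    have e1 : ∀ᶠ θ in 𝓝 (0 : ℝ), ‖c θ‖ < ρ := by
      have : Tendsto (fun θ => ‖c θ‖) (𝓝 0) (𝓝 ‖c 0‖) := hcc.norm.tendsto 0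
      rw [hc0] at this
      exact this.eventually (gt_mem_nhds hs1ρ)
    have e2 : ∀ᶠ θ in 𝓝 (0 : ℝ), c θ ≠ 0 := by
      have := hcc.continuousAt (x := (0 : ℝ))
      exact this.eventually_ne (by rw [hc0]; exact hs1)
    have e3 : ∀ᶠ θ in 𝓝 (0 : ℝ), H (φ (c θ)) = H (φ (-(c θ))) →
        (TP W A P l l0 (φ (c θ)) (φ (-(c θ))) ↔ TP W A P l l0 (φ s1) (φ (-s1))) := by
      have h1 : ContinuousAt (fun θ => (φ (c θ), φ (-(c θ)))) (0 : ℝ) := by
        refine ContinuousAt.prodMk ?_ ?_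
        · refine ContinuousAt.comp (g := φ) (f := c) ?_ hcc.continuousAt
          rw [hc0]
          exact (hφ _ hs1ρ).continuousAt
        · refine ContinuousAt.comp (g := φ) (f := fun θ => -(c θ)) ?_ hcc.neg.continuousAt
          rw [hc0]
          exact (hφ _ hs1ρ').continuousAt
      have h2 := h1.tendsto
      simp only [hc0] at h2
      exact h2.eventually hloc
    -- the bad parameters
    have hbad : {θ : ℝ | ∃ w ∈ W, ∃ r : ℝ, 0 < r ∧ H x - ((r : ℂ) * c θ) ^ 2 = w}.Countable := by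
      have : {θ : ℝ | ∃ w ∈ W, ∃ r : ℝ, 0 < r ∧ H x - ((r : ℂ) * c θ) ^ 2 = w} =
          ⋃ w ∈ W, {θ : ℝ | ∃ r : ℝ, 0 < r ∧ H x - ((r : ℂ) * c θ) ^ 2 = w} := by
        ext s; simp
      rw [this]
      refine hd.cnt.biUnion fun w hw => Set.Subsingleton.countable ?_
      rintro θ ⟨r, hr, h1⟩ θ' ⟨r', hr', h2⟩
      have h3 : ((r : ℂ) * c θ) ^ 2 = ((r' : ℂ) * c θ') ^ 2 := by linear_combination h2 - h1
      have h4 : ∀ ε : ℝ, (ε = 1 ∨ ε = -1) → (r : ℂ) * (1 + θ * I) = ε * (r' * (1 + θ' * I)) →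
          θ = θ' := by
        intro ε hε h5
        have hre := congrArg re h5
        have him := congrArg im h5
        simp at hre him
        rcases hε with h6 | h6
        · rw [h6] at hre him
          rw [one_mul] at hre him
          rw [← hre] at him
          exact mul_left_cancel₀ hr.ne' him
        · exfalso
          rw [h6] at hre
          linarith
      rcases sq_eq_sq_iff_eq_or_eq_neg.1 h3 with h5 | h5
      · refine h4 1 (Or.inl rfl) ?_
        apply mul_left_cancel₀ hs1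
        simp only [hc] at h5
        push_cast
        linear_combination h5
      · refine h4 (-1) (Or.inr rfl) ?_
        apply mul_left_cancel₀ hs1
        simp only [hc] at h5
        push_cast
        linear_combination h5
    obtain ⟨θ, hθ1, ⟨hθ2, hθ3⟩, hθ4⟩ := (hbad.dense_compl ℝ).inter_nhds_nonempty ((e1.and e2).and e3)
    set s0 := c θ with hs0
    have hs0ρ' : ‖-s0‖ < ρ := by rwa [norm_neg]
    have hH0 : H (φ s0) = H (φ (-s0)) := by
      rw [hφH _ hθ2, hφH _ hs0ρ']; ring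
    refine (hθ4 hH0).1 ?_
    have hray : ∀ r : ℝ, 0 < r → r ≤ 1 → H x - ((r : ℂ) * s0) ^ 2 ∉ W := by
      intro r hr _ hW
      exact hθ1 ⟨_, hW, r, hr, rfl⟩
    have hsw := crit_swap hd hP (l := l) hx0 huniq hgood hclean hφ hφH q4 q3 hθ3 hθ2 hray
    refine TP_of_swap hd hP (hnc s0 hθ2 hθ3) (hnc (-s0) hs0ρ' (neg_ne_zero.2 hθ3)) hH0 ?_ ?_
    · rw [hφH _ hθ2]
      have := hray 1 one_pos le_rfl
      simpa using this
    · rw [hφH _ hθ2]
      exact hsw
  -- conclusion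
  have hz : Tendsto ζ (𝓝 x) (𝓝 0) := by
    have := z1.continuousAt.tendsto
    rwa [z2] at this
  have hn : ∀ᶠ y in 𝓝 x, (φ (ζ y) = y ∧ ζ y ^ 2 = H x - H y) ∧ ‖ζ y‖ < ρ := by
    refine (q3.and q4).and ?_
    have := hz.norm
    rw [norm_zero] at this
    exact this.eventually (gt_mem_nhds hρ)
  rw [nhds_prod_eq]
  filter_upwards [hn.prod_mk hn] with y hy hne hHy
  obtain ⟨⟨⟨a1, a2⟩, a3⟩, ⟨b1, b2⟩, b3⟩ := hy
  have h5 : ζ y.2 ^ 2 = ζ y.1 ^ 2 := by rw [a2, b2, hHy]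
  rcases sq_eq_sq_iff_eq_or_eq_neg.1 h5 with h6 | h6
  · exfalso
    apply hne
    rw [← a1, ← b1, h6]
  · have h7 : ζ y.1 ≠ 0 := by
      intro h8
      rw [h8, neg_zero] at h6
      apply hne
      rw [← a1, ← b1, h6, h8]
    have h8 := claim (ζ y.1) h7 a3
    rw [← h6, a1, b1] at h8
    exact h8

end Pool.Agent.H489.GI.G
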