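import Pool.Agent.H489.GI.G4

open Complex Filter Topology Set

namespace Pool.Agent.H489.GI.G

/-- `(-1)^k H` on the real line -/
noncomputable def gk (k : ℕ) (x : ℝ) : ℝ := (-1) ^ k * h x

lemma gk_continuous (k : ℕ) : Continuous (gk k) := continuous_const.mul h_continuous

lemma gk_inj (k : ℕ) {x y : ℝ} (hxy : gk k x = gk k y) : h x = h y := by
  unfold gk at hxy
  rcases neg_one_pow_eq_or ℝ k with h1 | h1
  · rw [h1] at hxy; linarith
  · rw [h1] at hxy; linarith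

lemma gk_end {k : ℕ} (hk : 1 ≤ k) : gk k (-k + 1) = 0 := by
  unfold gk
  rw [h_neg_nat_succ hk, mul_zero]

lemma gk_start (k : ℕ) : gk k (-k) = 0 := by
  unfold gk
  rw [h_neg_nat, mul_zero]

lemma exists_partner {k : ℕ} (hk : 1 ≤ k) {a : ℝ} (ha : a ∈ Icc (-(k : ℝ)) (xk k)) :
    ∃ b ∈ Icc (xk k) (-(k : ℝ) + 1), gk k b = gk k a := by
  have h1 : gk k a ≤ gk k (xk k) :=
    (mono_left hk).monotoneOn ha ⟨(xk_spec hk).1.le, le_rfl⟩ ha.2
  have h2 : gk k (-k + 1) ≤ gk k a := by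
    rw [gk_end hk, ← gk_start k]
    exact (mono_left hk).monotoneOn ⟨le_rfl, (xk_spec hk).1.le⟩ ha ha.1
  have := intermediate_value_Icc' (xk_spec hk).2.1.le (gk_continuous k).continuousOn
  obtain ⟨b, hb, hb'⟩ := this ⟨h2, h1⟩
  exact ⟨b, hb, hb'⟩

/-- the partner function -/
noncomputable def Bk (k : ℕ) (a : ℝ) : ℝ :=
  if h : 1 ≤ k ∧ a ∈ Icc (-(k : ℝ)) (xk k) then (exists_partner h.1 h.2).choose else 0

lemma Bk_spec {k : ℕ} (hk : 1 ≤ k) {a : ℝ} (ha : a ∈ Icc (-(k : ℝ)) (xk k)) :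
    Bk k a ∈ Icc (xk k) (-(k : ℝ) + 1) ∧ gk k (Bk k a) = gk k a := by
  unfold Bk
  rw [dif_pos ⟨hk, ha⟩]
  exact (exists_partner hk ha).choose_spec

lemma Bk_unique {k : ℕ} (hk : 1 ≤ k) {a b : ℝ} (ha : a ∈ Icc (-(k : ℝ)) (xk k))
    (hb : b ∈ Icc (xk k) (-(k : ℝ) + 1)) (hab : gk k b = gk k a) : Bk k a = b := by
  obtain ⟨h1, h2⟩ := Bk_spec hk ha
  exact (anti_right hk).injOn h1 hb (h2.trans hab.symm)

lemma Bk_continuousOn {k : ℕ} (hk : 1 ≤ k) : ContinuousOn (Bk k) (Icc (-(k : ℝ)) (xk k)) := by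
  intro a0 ha0
  obtain ⟨h1, h2⟩ := Bk_spec hk ha0
  rw [ContinuousWithinAt, Metric.tendsto_nhds]
  intro ε hε
  have hg : Tendsto (gk k) (𝓝[Icc (-(k : ℝ)) (xk k)] a0) (𝓝 (gk k a0)) :=
    (gk_continuous k).continuousAt.tendsto.mono_left nhdsWithin_le_nhds
  have low : ∀ᶠ a in 𝓝[Icc (-(k : ℝ)) (xk k)] a0, Bk k a0 - ε < Bk k a := by
    rcases lt_or_ge (Bk k a0 - ε) (xk k) with h3 | h3
    · filter_upwards [self_mem_nhdsWithin] with a ha
      exact h3.trans_le (Bk_spec hk ha).1.1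
    · have h4 : gk k (Bk k a0) < gk k (Bk k a0 - ε) :=
        anti_right hk ⟨h3, by linarith [h1.2]⟩ h1 (by linarith)
      rw [h2] at h4
      filter_upwards [self_mem_nhdsWithin, hg.eventually (gt_mem_nhds h4)] with a ha h5
      obtain ⟨h6, h7⟩ := Bk_spec hk ha
      by_contra h8
      push Not at h8
      have h9 : gk k (Bk k a0 - ε) ≤ gk k (Bk k a) :=
        (anti_right hk).antitoneOn h6 ⟨h3, by linarith [h1.2]⟩ h8
      linarith
  have up : ∀ᶠ a in 𝓝[Icc (-(k : ℝ)) (xk k)] a0, Bk k a < Bk k a0 + ε := by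
    rcases lt_or_ge (-(k : ℝ) + 1) (Bk k a0 + ε) with h3 | h3
    · filter_upwards [self_mem_nhdsWithin] with a ha
      exact (Bk_spec hk ha).1.2.trans_lt h3
    · have h4 : gk k (Bk k a0 + ε) < gk k (Bk k a0) :=
        anti_right hk h1 ⟨by linarith [h1.1], h3⟩ (by linarith)
      rw [h2] at h4
      filter_upwards [self_mem_nhdsWithin, hg.eventually (lt_mem_nhds h4)] with a ha h5
      obtain ⟨h6, h7⟩ := Bk_spec hk ha
      by_contra h8
      push Not at h8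
      have h9 : gk k (Bk k a) ≤ gk k (Bk k a0 + ε) :=
        (anti_right hk).antitoneOn ⟨by linarith [h1.1], h3⟩ h6 h8
      linarith
  filter_upwards [low, up] with a h3 h4
  rw [Real.dist_eq, abs_lt]
  constructor <;> linarith

lemma noncrit_left {k : ℕ} (hk : 1 ≤ k) {a : ℝ} (ha : a ∈ Ico (-(k : ℝ)) (xk k)) :
    deriv H (a : ℂ) ≠ 0 := by
  rcases ha.1.lt_or_eq with h1 | h1
  · intro h2
    have := crit_unique hk h1 (ha.2.trans (xk_spec hk).2.1) h2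
    linarith [ha.2]
  · rw [← h1]
    have := deriv_H_neg_nat k
    push_cast
    exact this

lemma noncrit_right {k : ℕ} (hk : 1 ≤ k) {b : ℝ} (hb : b ∈ Ioc (xk k) (-(k : ℝ) + 1)) :
    deriv H (b : ℂ) ≠ 0 := by
  rcases hb.2.lt_or_eq with h1 | h1
  · intro h2
    have := crit_unique hk ((xk_spec hk).1.trans hb.1) h1 h2
    linarith [hb.1]
  · rw [h1]
    obtain ⟨m, rfl⟩ : ∃ m, k = m + 1 := ⟨k - 1, by omega⟩
    have := deriv_H_neg_nat m
    push_cast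
    rw [neg_add_rev, neg_add_cancel_comm] 
    exact this

lemma Bk_right {k : ℕ} (hk : 1 ≤ k) {a : ℝ} (ha : a ∈ Ico (-(k : ℝ)) (xk k)) :
    Bk k a ∈ Ioc (xk k) (-(k : ℝ) + 1) := by
  obtain ⟨h1, h2⟩ := Bk_spec hk ⟨ha.1, ha.2.le⟩
  refine ⟨lt_of_le_of_ne h1.1 ?_, h1.2⟩
  intro h3
  rw [← h3] at h2
  have h4 : gk k a < gk k (xk k) :=
    mono_left hk ⟨ha.1, ha.2.le⟩ ⟨(xk_spec hk).1.le, le_rfl⟩ ha.2
  linarith

lemma H_Bk {k : ℕ} (hk : 1 ≤ k) {a : ℝ} (ha : a ∈ Icc (-(k : ℝ)) (xk k)) :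
    H ((Bk k a : ℝ) : ℂ) = H (a : ℂ) := by
  rw [← h_coe, ← h_coe, gk_inj k (Bk_spec hk ha).2]


variable {ι : Type*} {n : ℕ} [Finite ι]

/-- what is needed of a critical value -/
structure CleanAt (A : ι → ℂ → ℂ → ℂ) (l0 : ι) (k : ℕ) : Prop where
  pos : 1 ≤ k
  uniq : ∀ z, deriv H z = 0 → H z = H (xk k : ℂ) → z = (xk k : ℂ)
  good : ∀ m, GoodPt (A m) (H (xk k : ℂ))
  cl : ∀ m, m ≠ l0 → ∀ y, A m (H (xk k : ℂ)) y = 0 → y ≠ 0 ∧ y ∉ CV

/-- **The chain.** The branches with values `-k` and `-k+1` at `0` can be exchanged. -/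
theorem chain {W : Set ℂ} {A : ι → ℂ → ℂ → ℂ} {l0 : ι} (hd : Data W A l0)
    {P : (ι → ℂ) → (Fin n → ℂ) → ℂ} (hP : AnP P)
    {l : Fin n → ι} {k : ℕ} (hcl : CleanAt A l0 k) :
    TP W A P l l0 (-(k : ℂ)) (-(k : ℂ) + 1) := by
  classical
  have hk := hcl.pos
  have hcr := crit_TP hd hP (l := l) (deriv_H_xk hk) (deriv_deriv_H_xk hk) (H_xk_ne hk) hcl.uniq
    hcl.good hcl.cl
  -- eventually near `x_k`
  have hxk : xk k ∈ Icc (-(k : ℝ)) (xk k) := ⟨(xk_spec hk).1.le, le_rfl⟩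
  have hBx : Bk k (xk k) = xk k :=
    Bk_unique hk hxk ⟨le_rfl, (xk_spec hk).2.1.le⟩ rfl
  have h1 : Tendsto (fun a : ℝ => ((a : ℂ), ((Bk k a : ℝ) : ℂ)))
      (𝓝[Icc (-(k : ℝ)) (xk k)] (xk k)) (𝓝 ((xk k : ℂ), (xk k : ℂ))) := by
    refine Tendsto.prodMk_nhds ?_ ?_
    · exact (continuous_ofReal.tendsto _).mono_left nhdsWithin_le_nhds
    · have := (Bk_continuousOn hk) (xk k) hxk
      rw [ContinuousWithinAt, hBx] at this
      exact (continuous_ofReal.tendsto _).comp this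
  have h2 : ∀ᶠ a : ℝ in 𝓝[<] (xk k), TP W A P l l0 (a : ℂ) ((Bk k a : ℝ) : ℂ) := by
    have h3 : 𝓝[<] (xk k) ≤ 𝓝[Icc (-(k : ℝ)) (xk k)] (xk k) :=
      nhdsWithin_le_of_mem (mem_of_superset (Ico_mem_nhdsLT (xk_spec hk).1) Ico_subset_Icc_self)
    have h4 := (h1.mono_left h3).eventually hcr
    filter_upwards [h4, Ico_mem_nhdsLT (xk_spec hk).1] with a h5 h6
    refine h5 ?_ (H_Bk hk ⟨h6.1, h6.2.le⟩).symm
    intro h7
    have h8 := (Bk_right hk h6).1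
    have h9 : a = Bk k a := by exact_mod_cast h7
    linarith [h6.2]
  obtain ⟨a1, h3, h4⟩ := (h2.and (Ico_mem_nhdsLT (xk_spec hk).1)).exists
  -- local constancy
  have key : ContinuousOn (fun a : ℝ => if TP W A P l l0 (a : ℂ) ((Bk k a : ℝ) : ℂ) then (0 : ℕ)
      else 1) (Ico (-(k : ℝ)) (xk k)) := by
    intro a0 ha0
    have hloc := TP_local hd hP (l := l) (noncrit_left hk ha0) (noncrit_right hk (Bk_right hk ha0))
      (H_Bk hk ⟨ha0.1, ha0.2.le⟩).symm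
    have h5 : Tendsto (fun a : ℝ => ((a : ℂ), ((Bk k a : ℝ) : ℂ)))
        (𝓝[Ico (-(k : ℝ)) (xk k)] a0) (𝓝 ((a0 : ℂ), ((Bk k a0 : ℝ) : ℂ))) := by
      refine Tendsto.prodMk_nhds ?_ ?_
      · exact (continuous_ofReal.tendsto _).mono_left nhdsWithin_le_nhds
      · have := ((Bk_continuousOn hk).mono Ico_subset_Icc_self) a0 ha0
        exact (continuous_ofReal.tendsto _).comp this
    refine tendsto_nhds_of_eventually_eq ?_
    filter_upwards [h5.eventually hloc, self_mem_nhdsWithin] with a h6 h7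
    have h8 := h6 (H_Bk hk ⟨h7.1, h7.2.le⟩).symm
    by_cases h9 : TP W A P l l0 (a0 : ℂ) ((Bk k a0 : ℝ) : ℂ)
    · rw [if_pos h9, if_pos (h8.2 h9)]
    · rw [if_neg h9, if_neg (fun h => h9 (h8.1 h))]
  have hst : -(k : ℝ) ∈ Ico (-(k : ℝ)) (xk k) := ⟨le_rfl, (xk_spec hk).1⟩
  have h5 := isPreconnected_Ico.constant key h4 hst
  simp only [h3, if_true] at h5
  have h6 : TP W A P l l0 ((-(k : ℝ) : ℝ) : ℂ) ((Bk k (-(k : ℝ)) : ℝ) : ℂ) := by
    by_contra h7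
    rw [if_neg h7] at h5
    exact absurd h5 (by norm_num)
  have h7 : Bk k (-(k : ℝ)) = -(k : ℝ) + 1 :=
    Bk_unique hk ⟨le_rfl, (xk_spec hk).1.le⟩ ⟨(xk_spec hk).2.1.le, le_rfl⟩
      (by rw [gk_end hk, gk_start])
  rw [h7] at h6
  push_cast at h6
  exact h6

end Pool.Agent.H489.GI.G
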