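import Pool.Agent.H489.GI.G5

open Complex Filter Topology Set

namespace Pool.Agent.H489.GI.G

variable {ι : Type*} {n : ℕ} [Finite ι]

/-- distinct solutions of the same type -/
def Dist (l : Fin n → ι) (u : Fin n → ℂ) : Prop := ∀ i j, i ≠ j → l i = l j → u i ≠ u j

/-- moving a configuration along a segment in the plane of one of the solutions -/
lemma move_seg {W : Set ℂ} {A : ι → ℂ → ℂ → ℂ} {l0 : ι} (hd : Data W A l0)
    {l : Fin n → ι} {i0 : Fin n} (hi0 : l i0 = l0) {v z : ℂ} {b : ι → ℂ}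
    {u : Fin n → ℂ} (hc : Conf A l v b u) (hdist : Dist l u)
    (hseg : ∀ τ ∈ Icc (0 : ℝ) 1, H (seg (u i0) z τ) ∉ W) :
    ∃ (b' : ι → ℂ) (u' : Fin n → ℂ), Conf A l (H z) b' u' ∧ Dist l u' ∧
      (∀ Q, AnP Q → (Rel A Q l (H z) b' u' ↔ Rel A Q l v b u)) ∧ u' i0 = z := by
  classical
  set w : ℝ → ℂ := fun τ => H (seg (u i0) z τ) with hw
  have m0 : (0 : ℝ) ∈ Icc (0 : ℝ) 1 := ⟨le_rfl, zero_le_one⟩
  have m1 : (1 : ℝ) ∈ Icc (0 : ℝ) 1 := ⟨zero_le_one, le_rfl⟩
  have hbv : b l0 = v := (hd.base _ _).1 (hc.hb l0)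
  have hv : v = H (u i0) := by rw [hc.hu i0, hi0, hbv]
  have hw0 : w 0 = v := by simp only [hw, seg_zero, hv]
  have hw1 : w 1 = H z := by simp only [hw, seg_one]
  have hcd : ContDiff ℝ 1 w :=
    (H_diff.contDiff (n := 1)).restrict_scalars ℝ |>.comp (seg_cd _ _)
  have hB : BPath W w := ⟨hcd, hseg⟩
  obtain ⟨B, U, B1, U1, B2, U2, B3, U3⟩ := full_lift hd (l := l) (hB.epath hd) (b := b) (u := u)
    (by rw [hw0]; exact hc)
  have hBl : ∀ τ ∈ Icc (0 : ℝ) 1, B l0 τ = w τ := fun τ hτ => (hd.base _ _).1 (B3 l0 τ hτ)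
  have hcr : ∀ i, ∀ τ ∈ Icc (0 : ℝ) 1, deriv H (U i τ) ≠ 0 := fun i τ hτ =>
    not_crit (U3 i τ hτ) (hd.ncv _ (hseg τ hτ) _ _ (B3 _ τ hτ))
  have hb0 : (fun m => B m 0) = b := funext B2
  have hu0 : (fun i => U i 0) = u := funext U2
  refine ⟨fun m => B m 1, fun i => U i 1, ⟨?_, ?_⟩, ?_, ?_, ?_⟩
  · intro m
    rw [← hw1]; exact B3 m 1 m1
  · intro i
    exact U3 i 1 m1
  · intro i j hij hl h1
    apply hdist i j hij hl
    have he : ∀ τ ∈ Icc (0 : ℝ) 1, H (U i τ) = H (U j τ) := fun τ hτ => by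
      rw [U3 i τ hτ, U3 j τ hτ, hl]
    have := lift_unique isPreconnected_Icc (U1 i) (U1 j) he (hcr i) m1 h1 m0
    rw [← U2 i, ← U2 j]
    exact this
  · intro Q hQ
    have h1 := rel_path hd hQ (l := l) isPreconnected_Icc hcd.continuous.continuousOn hseg B1 U1 B3 U3
      m0 m1
    have h2 := rel_path hd hQ (l := l) isPreconnected_Icc hcd.continuous.continuousOn hseg B1 U1 B3 U3
      m1 m0
    rw [hw0, hw1, hb0, hu0] at h1 h2
    exact ⟨h2, h1⟩
  · have he : ∀ τ ∈ Icc (0 : ℝ) 1, H (U i0 τ) = H (seg (u i0) z τ) := fun τ hτ => by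
      rw [U3 i0 τ hτ, hi0, hBl τ hτ]
    have := lift_unique isPreconnected_Icc (U1 i0) (seg_cd _ _).continuous.continuousOn he (hcr i0)
      m0 (by rw [U2 i0, seg_zero]) m1
    simp only
    rw [this, seg_one]

lemma move {W : Set ℂ} {A : ι → ℂ → ℂ → ℂ} {l0 : ι} (hd : Data W A l0)
    {l : Fin n → ι} {i0 : Fin n} (hi0 : l i0 = l0) {v z : ℂ} {b : ι → ℂ}
    (hv : v ∉ W) (hz : H z ∉ W)
    {u : Fin n → ℂ} (hc : Conf A l v b u) (hdist : Dist l u) :
    ∃ (b' : ι → ℂ) (u' : Fin n → ℂ), Conf A l (H z) b' u' ∧ Dist l u' ∧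
      (∀ Q, AnP Q → (Rel A Q l (H z) b' u' ↔ Rel A Q l v b u)) ∧ u' i0 = z := by
  have hbv : b l0 = v := (hd.base _ _).1 (hc.hb l0)
  have hu0 : H (u i0) ∉ W := by rw [hc.hu i0, hi0, hbv]; exact hv
  obtain ⟨c, -, h1, h2⟩ := two_seg (H_preimage_countable hd.cnt) convex_univ isOpen_univ
    (mem_univ (u i0)) (mem_univ z) hu0 hz
  obtain ⟨b1, u1, a1, a2, a3, a4⟩ := move_seg hd hi0 hc hdist (z := c) h1
  rw [← a4] at h2
  obtain ⟨b2, u2, c1, c2, c3, c4⟩ := move_seg hd hi0 a1 a2 h2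
  exact ⟨b2, u2, c1, c2, fun Q hQ => (c3 Q hQ).trans (a3 Q hQ), c4⟩

omit [Finite ι] in
lemma swp_conf {A : ι → ℂ → ℂ → ℂ} {l : Fin n → ι} {l0 : ι} {v p q : ℂ} {b : ι → ℂ}
    (hp : H p = b l0) (hq : H q = b l0) {u : Fin n → ℂ} (hu : Conf A l v b u) :
    Conf A l v b (swp l l0 p q u) := by
  classical
  refine ⟨hu.hb, fun i => ?_⟩
  unfold swp
  split_ifs with h1
  · rcases eq_or_ne (u i) p with h2 | h2
    · rw [h2, Equiv.swap_apply_left, hq, h1]
    · rcases eq_or_ne (u i) q with h3 | h3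
      · rw [h3, Equiv.swap_apply_right, hp, h1]
      · rw [Equiv.swap_apply_of_ne_of_ne h2 h3]
        exact hu.hu i
  · exact hu.hu i

omit [Finite ι] in
lemma swap_trans {W : Set ℂ} {A : ι → ℂ → ℂ → ℂ} {l0 : ι} (hd : Data W A l0)
    {P : (ι → ℂ) → (Fin n → ℂ) → ℂ} {l : Fin n → ι}
    {v x y z : ℂ} (hx : H x = v) (hy : H y = v) (hz : H z = v) (hxy : x ≠ y)
    (hxz : x ≠ z) (h1 : Swap A P l l0 v x y) (h2 : Swap A P l l0 v y z) :
    Swap A P l l0 v x z := by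
  classical
  intro b u hu hrel
  have hbv : v = b l0 := ((hd.base _ _).1 (hu.hb l0)).symm
  have a1 := swp_conf (l := l) (hy.trans hbv) (hz.trans hbv) hu
  have b1 := h2 b u hu hrel
  have a2 := swp_conf (l := l) (hx.trans hbv) (hy.trans hbv) a1
  have b2 := h1 b _ a1 b1
  have b3 := h2 b _ a2 b2
  have e : swp l l0 y z (swp l l0 x y (swp l l0 y z u)) = swp l l0 x z u := by
    funext i
    unfold swp
    split_ifs with h3
    · have h4 := Equiv.swap_mul_swap_mul_swap (x := x) (y := y) (z := z) hxy hxz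
      have h5 := congrArg (fun σ : Equiv.Perm ℂ => σ (u i)) h4
      simp only [Equiv.Perm.mul_apply] at h5
      rw [h5, Equiv.swap_comm]
    · rfl
  rw [e] at b3
  exact b3

/-- the branch of the inverse of `H` with value `-k` at `0` -/
noncomputable def sk (k : ℕ) : ℂ → ℂ := sec (-(k : ℂ))

lemma sk_spec (k : ℕ) : AnalyticAt ℂ (sk k) 0 ∧ sk k 0 = -k ∧ ∀ᶠ w in 𝓝 0, H (sk k w) = w := by
  obtain ⟨h1, h2, h3, -⟩ := sec_spec (deriv_H_neg_nat k)
  rw [H_neg_nat] at h1 h2 h3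
  exact ⟨h1, h2, h3⟩

lemma sk_ne {j k : ℕ} (hjk : j ≠ k) : ∀ᶠ w in 𝓝 0, sk j w ≠ sk k w := by
  obtain ⟨h1, h2, -⟩ := sk_spec j
  obtain ⟨h3, h4, -⟩ := sk_spec k
  have h5 : Tendsto (fun w => sk j w - sk k w) (𝓝 0) (𝓝 (-(j : ℂ) - -(k : ℂ))) := by
    rw [← h2, ← h4]
    exact h1.continuousAt.tendsto.sub h3.continuousAt.tendsto
  have h6 : (-(j : ℂ) - -(k : ℂ)) ≠ 0 := by
    intro h
    apply hjk
    have : (j : ℂ) = k := by linear_combination -h
    exact_mod_cast this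
  filter_upwards [h5.eventually_ne h6] with w h7 h8
  exact h7 (sub_eq_zero.2 h8)

/-- **Core lemma.** -/
theorem core {W : Set ℂ} {A : ι → ℂ → ℂ → ℂ} {l0 : ι} (hd : Data W A l0)
    {P : (ι → ℂ) → (Fin n → ℂ) → ℂ} (hP : AnP P)
    {l : Fin n → ι} {i0 : Fin n} (hi0 : l i0 = l0)
    {k1 N : ℕ} (hk : ∀ k, k1 < k → k ≤ k1 + (N + n) + 1 → CleanAt A l0 k) {v : ℂ} (hv : v ∉ W)
    {b : ι → ℂ} {u : Fin n → ℂ}
    (hu : Conf A l v b u) (hdist : Dist l u) (hrel : Rel A P l v b u) :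
    ∃ v1, v1 ∉ W ∧ ∃ (b1 : ι → ℂ) (u1 : Fin n → ℂ), Conf A l v1 b1 u1 ∧ Dist l u1 ∧
      (∀ Q, AnP Q → (Rel A Q l v1 b1 u1 ↔ Rel A Q l v b u)) ∧ ∃ Z : Finset ℂ, N ≤ Z.card ∧
      ∀ z ∈ Z, H z = v1 ∧ Rel A P l v1 b1 (Function.update u1 i0 z) := by
  classical
  set J := N + n with hJ
  have e1 : ∀ᶠ w in 𝓝 (0 : ℂ), ∀ k ∈ Finset.range (J + 1),
      (w ∉ W → Swap A P l l0 w (sk (k1 + k) w) (sk (k1 + k + 1) w)) := by
    refine (Finset.eventually_all _).2 fun k hkr => ?_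
    rw [Finset.mem_range] at hkr
    have hc := hk (k1 + k + 1) (by omega) (by omega)
    have h1 := chain hd hP (l := l) hc
    unfold TP at h1
    have e : (-((k1 + k + 1 : ℕ) : ℂ)) + 1 = -((k1 + k : ℕ) : ℂ) := by push_cast; ring
    rw [H_neg_nat, e] at h1
    filter_upwards [h1] with w h2 h3 b' u' hu' hrel'
    have h4 := h2 h3 b' u' hu' hrel'
    have h5 : swp l l0 (sk (k1 + k) w) (sk (k1 + k + 1) w) u' =
        swp l l0 (sec (-((k1 + k + 1 : ℕ) : ℂ)) w) (sec (-((k1 + k : ℕ) : ℂ)) w) u' := by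
      funext i
      unfold swp sk
      rw [Equiv.swap_comm]
    rw [h5]
    exact h4
  have e2 : ∀ᶠ w in 𝓝 (0 : ℂ), ∀ j ∈ Finset.range (J + 2), ∀ k ∈ Finset.range (J + 2),
      (j ≠ k → sk (k1 + j) w ≠ sk (k1 + k) w) := by
    refine (Finset.eventually_all _).2 fun j _ => (Finset.eventually_all _).2 fun k _ => ?_
    by_cases hjk : j = k
    · exact Eventually.of_forall fun w h => absurd hjk h
    · filter_upwards [sk_ne (show k1 + j ≠ k1 + k by omega)] with w hw _ using hw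
  have e3 : ∀ᶠ w in 𝓝 (0 : ℂ), ∀ k ∈ Finset.range (J + 2), H (sk (k1 + k) w) = w :=
    (Finset.eventually_all _).2 fun k _ => (sk_spec (k1 + k)).2.2
  obtain ⟨v1, ⟨⟨h1, h2⟩, h3⟩, hv1⟩ := exists_notMem hd.cnt ((e1.and e2).and e3)
  simp only [Finset.mem_range] at h1 h2 h3
  -- all exchanges
  have hsw : ∀ k, k < J + 1 → Swap A P l l0 v1 (sk k1 v1) (sk (k1 + (k + 1)) v1) := by
    intro k
    induction k with
    | zero =>
      intro _
      have := h1 0 (by omega) hv1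
      simpa using this
    | succ k ih =>
      intro hk'
      have h4 := ih (by omega)
      have h5 := h1 (k + 1) (by omega) hv1
      refine swap_trans hd ?_ ?_ ?_ ?_ ?_ h4 (by simpa [add_assoc] using h5)
      · have := h3 0 (by omega)
        simpa using this
      · exact h3 (k + 1) (by omega)
      · exact h3 (k + 1 + 1) (by omega)
      · have := h2 0 (by omega) (k + 1) (by omega) (by omega)
        simpa using this
      · have := h2 0 (by omega) (k + 1 + 1) (by omega) (by omega)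
        simpa using this
  -- move
  have hz1 : H (sk k1 v1) = v1 := by simpa using h3 0 (by omega)
  obtain ⟨b1, u1, a1, a2, a3, a4⟩ := move hd hi0 hv (z := sk k1 v1) (by rw [hz1]; exact hv1)
    hu hdist
  rw [hz1] at a1 a3
  have hrel1 : Rel A P l v1 b1 u1 := (a3 P hP).2 hrel
  refine ⟨v1, hv1, b1, u1, a1, a2, a3, ?_⟩
  set Z0 : Finset ℂ := (Finset.range (J + 1)).image (fun k => sk (k1 + k) v1) with hZ0
  have hZ0c : Z0.card = J + 1 := by
    rw [hZ0, Finset.card_image_of_injOn, Finset.card_range]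
    intro j hj k hk' hjk
    by_contra hne
    simp only [Finset.coe_range, mem_Iio] at hj hk'
    exact h2 j (by omega) k (by omega) hne hjk
  set Z : Finset ℂ := Z0 \ (Finset.univ.erase i0).image u1 with hZ
  refine ⟨Z, ?_, ?_⟩
  · have h4 : ((Finset.univ.erase i0).image u1).card ≤ n := by
      refine Finset.card_image_le.trans ?_
      refine (Finset.card_le_univ _).trans ?_
      simp
    have h5 := Finset.le_card_sdiff ((Finset.univ.erase i0).image u1) Z0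
    rw [hZ]
    omega
  · intro z hz
    rw [hZ, Finset.mem_sdiff, hZ0, Finset.mem_image] at hz
    obtain ⟨⟨k, hk', rfl⟩, hz2⟩ := hz
    rw [Finset.mem_range] at hk'
    have hzne : ∀ i, i ≠ i0 → u1 i ≠ sk (k1 + k) v1 := by
      intro i hi h4
      apply hz2
      rw [Finset.mem_image]
      exact ⟨i, by simp [hi], h4⟩
    refine ⟨h3 k (by omega), ?_⟩
    rcases Nat.eq_zero_or_pos k with h4 | h4
    · subst h4
      have : Function.update u1 i0 (sk (k1 + 0) v1) = u1 := by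
        rw [add_zero, ← a4]
        exact Function.update_eq_self i0 u1
      rw [this]
      exact hrel1
    · obtain ⟨m, rfl⟩ : ∃ m, k = m + 1 := ⟨k - 1, by omega⟩
      have h5 := hsw m (by omega) b1 u1 a1 hrel1
      have h6 : swp l l0 (sk k1 v1) (sk (k1 + (m + 1)) v1) u1 =
          Function.update u1 i0 (sk (k1 + (m + 1)) v1) := by
        funext i
        unfold swp
        rcases eq_or_ne i i0 with h7 | h7
        · subst h7
          rw [if_pos hi0, a4, Equiv.swap_apply_left, Function.update_self]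
        · rw [Function.update_of_ne h7]
          split_ifs with h8
          · refine Equiv.swap_apply_of_ne_of_ne ?_ (hzne i h7)
            rw [← a4]
            exact a2 i i0 h7 (h8.trans hi0.symm)
          · rfl
      rw [← h6]
      exact h5

end Pool.Agent.H489.GI.G
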