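import Pool.Agent.H489.GI.Alg

open Filter Topology Polynomial
open scoped Polynomial.Bivariate

namespace Pool.Agent.H489.GI.G

variable {ι : Type*} {n : ℕ}

/-- coefficient functions: analytic along analytic curves -/
def AnC (c : (ι → ℂ) → ℂ) : Prop :=
  ∀ (t0 : ℂ) (β : ι → ℂ → ℂ), (∀ l, AnalyticAt ℂ (β l) t0) →
    AnalyticAt ℂ (fun t => c (fun l => β l t)) t0

/-- evaluation of a polynomial with functions as coefficients -/
noncomputable def evH (b : ι → ℂ) (u : Fin n → ℂ) : MvPolynomial (Fin n) ((ι → ℂ) → ℂ) →+* ℂ :=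
  (MvPolynomial.eval u).comp (MvPolynomial.map (Pi.evalRingHom (fun _ : ι → ℂ => ℂ) b))

lemma evH_eq_sum (b : ι → ℂ) (u : Fin n → ℂ) (P : MvPolynomial (Fin n) ((ι → ℂ) → ℂ)) :
    evH b u P = ∑ d ∈ P.support, (P.coeff d) b * ∏ i, u i ^ d i := by
  unfold evH
  rw [RingHom.comp_apply, MvPolynomial.eval_map, MvPolynomial.eval₂_eq']
  rfl

lemma evH_an {P : MvPolynomial (Fin n) ((ι → ℂ) → ℂ)} (hP : ∀ m, AnC (P.coeff m)) :
    AnP (fun b u => evH b u P) := by
  intro t0 β σ hβ hσ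
  have h1 : (fun t => evH (fun l => β l t) (fun i => σ i t) P) =
      fun t => ∑ d ∈ P.support, (P.coeff d) (fun l => β l t) * ∏ i, σ i t ^ d i := by
    funext t; exact evH_eq_sum _ _ _
  show AnalyticAt ℂ (fun t => evH (fun l => β l t) (fun i => σ i t) P) t0
  rw [h1]
  refine Finset.analyticAt_fun_sum _ fun d _ => ?_
  refine (hP d t0 β hβ).mul ?_
  exact Finset.analyticAt_fun_prod _ fun i _ => (hσ i).pow _

lemma evH_cons (b : ι → ℂ) (y : ℂ) (u : Fin n → ℂ)
    (P : MvPolynomial (Fin (n + 1)) ((ι → ℂ) → ℂ)) :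
    evH b (Fin.cons y u : Fin (n + 1) → ℂ) P =
      ((MvPolynomial.finSuccEquiv _ n P).map (evH b u)).eval y := by
  unfold evH
  rw [RingHom.comp_apply, MvPolynomial.eval_eq_eval_mv_eval', ← Polynomial.map_map]
  congr 2
  ext j m
  rw [MvPolynomial.finSuccEquiv_coeff_coeff, MvPolynomial.coeff_map, Polynomial.coeff_map,
    MvPolynomial.coeff_map, MvPolynomial.finSuccEquiv_coeff_coeff]

lemma back {f : ℂ → ℂ} {t0 t1 : ℂ} {r : ℝ} (hf : ∀ t ∈ Metric.ball t0 r, AnalyticAt ℂ f t)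
    (ht1 : t1 ∈ Metric.ball t0 r) (h : ∀ᶠ s in 𝓝 t1, f s = 0) : ∀ᶠ s in 𝓝 t0, f s = 0 := by
  have hr : 0 < r := Metric.pos_of_mem_ball ht1
  have h1 : Set.EqOn f 0 (Metric.ball t0 r) :=
    AnalyticOnNhd.eqOn_zero_of_preconnected_of_eventuallyEq_zero (fun y hy => hf y hy)
      (convex_ball t0 r).isPreconnected ht1 h
  filter_upwards [Metric.ball_mem_nhds t0 hr] with s hs using h1 hs

lemma forth {f : ℂ → ℂ} {t0 t1 : ℂ} {r : ℝ} (hf : ∀ t ∈ Metric.ball t0 r, AnalyticAt ℂ f t)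
    (ht1 : t1 ∈ Metric.ball t0 r) (h : ∀ᶠ s in 𝓝 t0, f s = 0) : ∀ᶠ s in 𝓝 t1, f s = 0 := by
  have hr : 0 < r := Metric.pos_of_mem_ball ht1
  have h1 : Set.EqOn f 0 (Metric.ball t0 r) :=
    AnalyticOnNhd.eqOn_zero_of_preconnected_of_eventuallyEq_zero (fun y hy => hf y hy)
      (convex_ball t0 r).isPreconnected (Metric.mem_ball_self hr) h
  filter_upwards [Metric.isOpen_ball.mem_nhds ht1] with s hs using h1 hs

/-- the hypotheses on germs -/
structure GH (t0 : ℂ) (β : ι → ℂ → ℂ) (l : Fin n → ι) (σ : Fin n → ℂ → ℂ) : Prop where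
  hβ : ∀ m, AnalyticAt ℂ (β m) t0
  nc : ∀ m (c : ℂ), ¬ ∀ᶠ s in 𝓝 t0, β m s = c
  ds : ∀ m m', m ≠ m' → ¬ ∀ᶠ s in 𝓝 t0, β m s = β m' s
  dep : ∀ m m', ∃ Q : ℂ[X][Y], Q ≠ 0 ∧ ∀ᶠ s in 𝓝 t0, ev Q (β m s) (β m' s) = 0
  hσ : ∀ i, AnalyticAt ℂ (σ i) t0
  hH : ∀ i, ∀ᶠ s in 𝓝 t0, H (σ i s) = β (l i) s
  sd : ∀ i j, i ≠ j → ¬ ∀ᶠ s in 𝓝 t0, σ i s = σ j s

/-- two germs satisfying the same relations -/
def EqG (t0 : ℂ) (β : ι → ℂ → ℂ) (σ : Fin n → ℂ → ℂ) (t1 : ℂ) (β' : ι → ℂ → ℂ)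
    (σ' : Fin n → ℂ → ℂ) : Prop :=
  ∀ F : (ι → ℂ) → (Fin n → ℂ) → ℂ, AnP F →
    ((∀ᶠ s in 𝓝 t0, F (fun m => β m s) (fun i => σ i s) = 0) ↔
      ∀ᶠ s in 𝓝 t1, F (fun m => β' m s) (fun i => σ' i s) = 0)

lemma EqG.trans {t0 t1 t2 : ℂ} {β β' β'' : ι → ℂ → ℂ} {σ σ' σ'' : Fin n → ℂ → ℂ}
    (h1 : EqG t0 β σ t1 β' σ') (h2 : EqG t1 β' σ' t2 β'' σ'') : EqG t0 β σ t2 β'' σ'' :=
  fun F hF => (h1 F hF).trans (h2 F hF)

lemma GH.transfer {t0 t1 : ℂ} {β β' : ι → ℂ → ℂ} {l : Fin n → ι} {σ σ' : Fin n → ℂ → ℂ}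
    (h : GH t0 β l σ) (he : EqG t0 β σ t1 β' σ') (hβ' : ∀ m, AnalyticAt ℂ (β' m) t1)
    (hσ' : ∀ i, AnalyticAt ℂ (σ' i) t1) : GH t1 β' l σ' := by
  refine ⟨hβ', ?_, ?_, ?_, hσ', ?_, ?_⟩
  · intro m c hc
    apply h.nc m c
    have h1 := he (fun b _ => b m - c) (fun t0 β σ hβ _ => (hβ m).sub analyticAt_const)
    have h2 := h1.2 (by filter_upwards [hc] with s hs; rw [hs, sub_self])
    filter_upwards [h2] with s hs using sub_eq_zero.1 hs
  · intro m m' hm hc
    apply h.ds m m' hm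
    have h1 := he (fun b _ => b m - b m') (fun t0 β σ hβ _ => (hβ m).sub (hβ m'))
    have h2 := h1.2 (by filter_upwards [hc] with s hs; rw [hs, sub_self])
    filter_upwards [h2] with s hs using sub_eq_zero.1 hs
  · intro m m'
    obtain ⟨Q, hQ, hQ'⟩ := h.dep m m'
    exact ⟨Q, hQ, (he (fun b _ => ev Q (b m) (b m'))
      (fun t0 β σ hβ _ => ev_germ Q (hβ m) (hβ m'))).1 hQ'⟩
  · intro i
    have h1 := he (fun b u => H (u i) - b (l i))
      (fun t0 β σ hβ hσ => ((H_analytic _).comp (hσ i)).sub (hβ (l i)))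
    have h2 := h1.1 (by filter_upwards [h.hH i] with s hs; rw [hs, sub_self])
    filter_upwards [h2] with s hs using sub_eq_zero.1 hs
  · intro i j hij hc
    apply h.sd i j hij
    have h1 := he (fun _ u => u i - u j) (fun t0 β σ _ hσ => (hσ i).sub (hσ j))
    have h2 := h1.2 (by filter_upwards [hc] with s hs; rw [hs, sub_self])
    filter_upwards [h2] with s hs using sub_eq_zero.1 hs

lemma eqG_move [Finite ι] {t0 : ℂ} {β : ι → ℂ → ℂ} {σ : Fin n → ℂ → ℂ}
    (hβ : ∀ m, AnalyticAt ℂ (β m) t0) (hσ : ∀ i, AnalyticAt ℂ (σ i) t0) :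
    ∀ᶠ t1 in 𝓝 t0, EqG t0 β σ t1 β σ ∧ (∀ m, AnalyticAt ℂ (β m) t1) ∧
      ∀ i, AnalyticAt ℂ (σ i) t1 := by
  have h1 : ∀ᶠ t in 𝓝 t0, (∀ m, AnalyticAt ℂ (β m) t) ∧ ∀ i, AnalyticAt ℂ (σ i) t :=
    (eventually_all.2 fun m => (hβ m).eventually_analyticAt).and
      (eventually_all.2 fun i => (hσ i).eventually_analyticAt)
  obtain ⟨r, hr, hr'⟩ := Metric.eventually_nhds_iff_ball.1 h1
  filter_upwards [Metric.ball_mem_nhds t0 hr] with t1 ht1
  refine ⟨fun F hF => ?_, (hr' t1 ht1).1, (hr' t1 ht1).2⟩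
  have hf : ∀ t ∈ Metric.ball t0 r,
      AnalyticAt ℂ (fun s => F (fun m => β m s) (fun i => σ i s)) t := fun t ht =>
    hF t β σ (hr' t ht).1 (hr' t ht).2
  exact ⟨forth hf ht1, back hf ht1⟩

/-- change of coordinate -/
lemma eqG_coord {t1 : ℂ} {β : ι → ℂ → ℂ} {σ : Fin n → ℂ → ℂ}
    (hβ : ∀ m, AnalyticAt ℂ (β m) t1) (hσ : ∀ i, AnalyticAt ℂ (σ i) t1) {l0 : ι}
    (hd : deriv (β l0) t1 ≠ 0) :
    ∃ (v : ℂ) (b : ι → ℂ → ℂ) (u : Fin n → ℂ → ℂ), (∀ m, AnalyticAt ℂ (b m) v) ∧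
      (∀ i, AnalyticAt ℂ (u i) v) ∧ EqG t1 β σ v b u ∧ ∀ᶠ w in 𝓝 v, b l0 w = w := by
  obtain ⟨s, s1, s2, s3, s4⟩ := exists_sec (hβ l0) hd
  have hβ' : ∀ m, AnalyticAt ℂ (β m) (s (β l0 t1)) := fun m => by rw [s2]; exact hβ m
  have hσ' : ∀ i, AnalyticAt ℂ (σ i) (s (β l0 t1)) := fun i => by rw [s2]; exact hσ i
  have t1' : Tendsto s (𝓝 (β l0 t1)) (𝓝 t1) := by
    have := s1.continuousAt.tendsto
    rwa [s2] at this
  refine ⟨β l0 t1, fun m w => β m (s w), fun i w => σ i (s w), ?_, ?_, ?_, s3⟩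
  · intro m
    exact AnalyticAt.fun_comp (hβ' m) s1
  · intro i
    exact AnalyticAt.fun_comp (hσ' i) s1
  · intro F _
    constructor
    · intro h
      exact t1'.eventually h
    · intro h
      have h2 := (hβ l0).continuousAt.eventually h
      filter_upwards [h2, s4] with x h3 h4
      rw [h4] at h3
      exact h3

lemma exists_deriv_ne {f : ℂ → ℂ} {t0 : ℂ} (hf : AnalyticAt ℂ f t0)
    (hnc : ¬ ∀ᶠ s in 𝓝 t0, f s = f t0) : ∃ᶠ t in 𝓝 t0, deriv f t ≠ 0 := by
  intro h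
  simp only [not_not] at h
  apply hnc
  obtain ⟨r, hr, hr'⟩ := Metric.eventually_nhds_iff_ball.1 (hf.eventually_analyticAt.and h)
  filter_upwards [Metric.ball_mem_nhds t0 hr] with s hs
  exact Metric.isOpen_ball.is_const_of_deriv_eq_zero (convex_ball t0 r).isPreconnected
    (fun y hy => (hr' y hy).1.differentiableAt.differentiableWithinAt)
    (fun y hy => (hr' y hy).2) hs (Metric.mem_ball_self hr)

lemma GH.tail {t0 : ℂ} {β : ι → ℂ → ℂ} {l : Fin (n + 1) → ι} {σ : Fin (n + 1) → ℂ → ℂ}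
    (h : GH t0 β l σ) : GH t0 β (fun i => l i.succ) (fun i => σ i.succ) :=
  ⟨h.hβ, h.nc, h.ds, h.dep, fun i => h.hσ _, fun i => h.hH _,
    fun i j hij => h.sd _ _ (fun h' => hij (Fin.succ_injective n h'))⟩

/-- **The induction.** -/
theorem main_germ [Finite ι] : ∀ (n : ℕ) (t0 : ℂ) (β : ι → ℂ → ℂ) (l : Fin n → ι)
    (σ : Fin n → ℂ → ℂ), GH t0 β l σ → ∀ P : MvPolynomial (Fin n) ((ι → ℂ) → ℂ),
    (∀ m, AnC (P.coeff m)) →
    (∀ᶠ s in 𝓝 t0, evH (fun m => β m s) (fun i => σ i s) P = 0) →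
    ∀ m, ∀ᶠ s in 𝓝 t0, P.coeff m (fun l => β l s) = 0 := by
  intro n
  induction n with
  | zero =>
    intro t0 β l σ _ P _ hrel m
    filter_upwards [hrel] with s hs
    rw [evH_eq_sum] at hs
    simp only [Finset.univ_eq_empty, Finset.prod_empty, mul_one] at hs
    by_cases hm : m ∈ P.support
    · have h1 : P.support = {m} := by
        ext d
        simp only [Finset.mem_singleton]
        constructor
        · intro _; exact Subsingleton.elim _ _
        · rintro rfl; exact hm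
      rw [h1, Finset.sum_singleton] at hs
      exact hs
    · rw [MvPolynomial.notMem_support_iff.1 hm]
      rfl
  | succ n ih =>
    classical
    intro t0 β l σ hG P hP hrel
    set l0 := l 0 with hl0
    -- change of coordinate
    have hmove := eqG_move hG.hβ hG.hσ
    obtain ⟨t1, ht1, ht2, ht3, ht4⟩ := ((exists_deriv_ne (hG.hβ l0) (hG.nc l0 _)).and_eventually
      hmove).exists
    obtain ⟨v', b, u, hb, hu, hE1, hbl0⟩ := eqG_coord ht3 ht4 (l0 := l0) ht1
    have hE0 := ht2.trans hE1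
    have hG1 : GH v' b l u := hG.transfer hE0 hb hu
    -- the polynomials
    have hAex : ∀ m, ∃ A : ℂ[X][Y], (m = l0 → A = X - C X) ∧ Irreducible A ∧
        ∀ᶠ w in 𝓝 v', ev A (b l0 w) (b m w) = 0 := by
      intro m
      by_cases hm : m = l0
      · refine ⟨X - C X, fun _ => rfl, (prime_X_sub_C _).irreducible, ?_⟩
        refine Eventually.of_forall fun w => ?_
        rw [ev_X_sub_C, eval_X, hm, sub_self]
      · obtain ⟨Q, hQ, hQ'⟩ := hG1.dep l0 m
        obtain ⟨A, hA, hA'⟩ := irr_factor (hb l0) (hb m) Q hQ hQ'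
        exact ⟨A, fun h => absurd h hm, hA, hA'⟩
    choose A hA0 hA1 hA2 using hAex
    have hdeg : ∀ m, (A m).natDegree ≠ 0 := fun m =>
      irr_deg (hA1 m) (hb l0).continuousAt (hG1.nc l0 _) (hA2 m)
    have hc : ∀ m (y : ℂ), (A m).eval (C y) ≠ 0 := by
      intro m y hy
      have h1 := irr_root (hA1 m) (hA2 m) hy
      apply hG1.nc m y
      filter_upwards [h1] with s hs
      rw [hs, eval_C]
    have hdiag : ∀ m, m ≠ l0 → (A m).eval X ≠ 0 := by
      intro m hm hy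
      have h1 := irr_root (hA1 m) (hA2 m) hy
      apply hG1.ds m l0 hm
      filter_upwards [h1] with s hs
      rw [hs, eval_X]
    have hd := data_poly (hA0 l0 rfl) hA1 hdeg hc
    set N := (MvPolynomial.finSuccEquiv _ n P).natDegree + 1 with hN
    obtain ⟨k1, hk1⟩ := clean_poly (l0 := l0) hA1 hdeg hc hdiag (N + (n + 1) + 1)
    -- a base point off the exceptional set
    have hA2' : ∀ᶠ w in 𝓝 v', ∀ m, ev (A m) w (b m w) = 0 := by
      refine eventually_all.2 fun m => ?_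
      filter_upwards [hA2 m, hbl0] with w h1 h2
      rwa [h2] at h1
    obtain ⟨v1, ⟨⟨hE2, hb1, hu1⟩, hA3⟩, hv1⟩ := exists_notMem hd.cnt
      ((eqG_move hb hu).and hA2'.eventually_nhds)
    have hG2 : GH v1 b l u := hG1.transfer hE2 hb1 hu1
    have hE3 := hE0.trans hE2
    have hconf : Conf (fun m => ev (A m)) l v1 (fun m => b m v1) (fun i => u i v1) :=
      ⟨fun m => hA3.self_of_nhds m, fun i => (hG2.hH i).self_of_nhds⟩
    have hLS1 : ∀ m, LS (ev (A m)) v1 (b m v1) := fun m =>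
      (hd.good v1 hv1 m).loc _ (hconf.hb m)
    have hcr1 : ∀ i, deriv H (u i v1) ≠ 0 := fun i =>
      not_crit (hconf.hu i) (hd.ncv v1 hv1 _ _ (hconf.hb _))
    have hCG1 : CG (fun m => ev (A m)) l v1 (fun m => b m v1) (fun i => u i v1) b u := by
      refine ⟨fun m => (hb1 m).continuousAt, fun m => rfl, ?_, fun i => (hu1 i).continuousAt,
        fun i => rfl, hG2.hH⟩
      intro m
      filter_upwards [hA3] with w hw using hw m
    have hdist : Dist l (fun i => u i v1) := by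
      intro i j hij hlij heq
      apply hG2.sd i j hij
      have e1 := sec_eq (hcr1 i) (hu1 i).continuousAt rfl (hG2.hH i)
      have e2 := sec_eq (hcr1 j) (hu1 j).continuousAt rfl (hG2.hH j)
      simp only at heq
      rw [← heq, ← hlij] at e2
      filter_upwards [e1, e2] with w h1 h2
      rw [← h1, ← h2]
    have hPan := evH_an hP
    have hrel1 : Rel (fun m => ev (A m)) (fun b u => evH b u P) l v1 (fun m => b m v1)
        (fun i => u i v1) := by
      rw [rel_iff hLS1 hcr1 hCG1]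
      exact (hE3 _ hPan).1 hrel
    obtain ⟨v2, hv2, b2, u2, hconf2, hdist2, htr, Z, hZ1, hZ2⟩ :=
      core hd hPan (l := l) (i0 := 0) rfl (N := N) (k1 := k1)
        (fun k h1 h2 => hk1 k h1 (by omega)) hv1 hconf hdist hrel1
    have hLS2 : ∀ m, LS (ev (A m)) v2 (b2 m) := fun m =>
      (hd.good v2 hv2 m).loc _ (hconf2.hb m)
    have hcr2 : ∀ i, deriv H (u2 i) ≠ 0 := fun i =>
      not_crit (hconf2.hu i) (hd.ncv v2 hv2 _ _ (hconf2.hb _))
    obtain ⟨β2, σ2, hCG2, hβ2, hσ2⟩ := exists_germ hLS2 hcr2 hconf2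
    have hE4 : EqG v1 b u v2 β2 σ2 := by
      intro F hF
      rw [← rel_iff hLS1 hcr1 hCG1, ← rel_iff hLS2 hcr2 hCG2]
      exact (htr F hF).symm
    have hE5 := hE3.trans hE4
    have hG3 : GH v2 β2 l σ2 := hG2.transfer hE4 hβ2 hσ2
    -- the polynomial in the first variable vanishes
    have hb2l0 : b2 l0 = v2 := (hd.base _ _).1 (hconf2.hb l0)
    have hβ2l0 : ∀ᶠ w in 𝓝 v2, β2 l0 w = w := by
      filter_upwards [hCG2.bA l0] with w hw
      exact (hd.base _ _).1 hw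
    have hzcr : ∀ z ∈ Z, deriv H z ≠ 0 := fun z hz =>
      not_crit ((hZ2 z hz).1.trans hb2l0.symm) (hd.ncv v2 hv2 _ _ (hconf2.hb _))
    have hzrel : ∀ z ∈ Z, ∀ᶠ w in 𝓝 v2,
        evH (fun m => β2 m w) (Fin.cons (sec z w) (fun i : Fin n => σ2 i.succ w) : Fin (n + 1) → ℂ)
          P = 0 := by
      intro z hz
      obtain ⟨hz1, hz2⟩ := hZ2 z hz
      obtain ⟨s1, s2, s3, -⟩ := sec_spec (hzcr z hz)
      rw [hz1] at s1 s2 s3
      have hcz : ∀ i, deriv H (Function.update u2 0 z i) ≠ 0 := by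
        intro i
        rcases eq_or_ne i 0 with h | h
        · rw [h, Function.update_self]; exact hzcr z hz
        · rw [Function.update_of_ne h]; exact hcr2 i
      have hCGz : CG (fun m => ev (A m)) l v2 b2 (Function.update u2 0 z) β2
          (Function.update σ2 0 (sec z)) := by
        refine ⟨hCG2.bc, hCG2.bv, hCG2.bA, ?_, ?_, ?_⟩
        · intro i
          rcases eq_or_ne i 0 with h | h
          · rw [h, Function.update_self]; exact s1.continuousAt
          · rw [Function.update_of_ne h]; exact hCG2.sc i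
        · intro i
          rcases eq_or_ne i 0 with h | h
          · rw [h, Function.update_self, Function.update_self]; exact s2
          · rw [Function.update_of_ne h, Function.update_of_ne h]; exact hCG2.sv i
        · intro i
          rcases eq_or_ne i 0 with h | h
          · rw [h, Function.update_self]
            filter_upwards [s3, hβ2l0] with w h1 h2
            rw [h1, ← hl0, h2]
          · rw [Function.update_of_ne h]; exact hCG2.sH i
      have h3 := (rel_iff hLS2 hcz hCGz).1 hz2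
      filter_upwards [h3] with w hw
      have h4 : (fun i => Function.update σ2 0 (sec z) i w) =
          (Fin.cons (sec z w) (fun i : Fin n => σ2 i.succ w) : Fin (n + 1) → ℂ) := by
        funext i
        refine Fin.cases ?_ (fun j => ?_) i
        · rw [Function.update_self, Fin.cons_zero]
        · rw [Function.update_of_ne (Fin.succ_ne_zero j), Fin.cons_succ]
      rw [h4] at hw
      exact hw
    have hzinj : ∀ᶠ w in 𝓝 v2, ∀ z ∈ Z, ∀ z' ∈ Z, (z ≠ z' → sec z w ≠ sec z' w) := by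
      refine (Finset.eventually_all _).2 fun z hz => (Finset.eventually_all _).2 fun z' hz' => ?_
      by_cases hzz : z = z'
      · exact Eventually.of_forall fun w h => absurd hzz h
      · obtain ⟨s1, s2, -, -⟩ := sec_spec (hzcr z hz)
        obtain ⟨r1, r2, -, -⟩ := sec_spec (hzcr z' hz')
        rw [(hZ2 z hz).1] at s1 s2
        rw [(hZ2 z' hz').1] at r1 r2
        have h5 : Tendsto (fun w => sec z w - sec z' w) (𝓝 v2) (𝓝 (z - z')) := by
          have := s1.continuousAt.tendsto.sub r1.continuousAt.tendsto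
          rwa [s2, r2] at this
        filter_upwards [h5.eventually_ne (sub_ne_zero.2 hzz)] with w h7 _ h8
        exact h7 (sub_eq_zero.2 h8)
    have hslice : ∀ᶠ w in 𝓝 v2, ∀ j, evH (fun m => β2 m w) (fun i : Fin n => σ2 i.succ w)
        ((MvPolynomial.finSuccEquiv _ n P).coeff j) = 0 := by
      filter_upwards [(Finset.eventually_all Z).2 hzrel, hzinj] with w h1 h2 j
      set q : ℂ[X] := (MvPolynomial.finSuccEquiv _ n P).map
        (evH (fun m => β2 m w) (fun i : Fin n => σ2 i.succ w)) with hq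
      have hq0 : q = 0 := by
        refine eq_zero_of_natDegree_lt_card_of_eval_eq_zero' q (Z.image fun z => sec z w) ?_ ?_
        · intro y hy
          rw [Finset.mem_image] at hy
          obtain ⟨z, hz, rfl⟩ := hy
          have := h1 z hz
          rw [evH_cons] at this
          exact this
        · rw [Finset.card_image_of_injOn]
          · have : q.natDegree ≤ (MvPolynomial.finSuccEquiv _ n P).natDegree := natDegree_map_le
            omega
          · intro z hz z' hz' h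
            by_contra hne
            exact h2 z hz z' hz' hne h
      have := congrArg (fun q : ℂ[X] => q.coeff j) hq0
      simp only [hq, coeff_map, coeff_zero] at this
      exact this
    -- induction
    intro m
    have hcoeff : ∀ j m', ((MvPolynomial.finSuccEquiv ((ι → ℂ) → ℂ) n P).coeff j).coeff m' =
        P.coeff (m'.cons j) := fun j m' => MvPolynomial.finSuccEquiv_coeff_coeff m' P j
    have h5 := ih v2 β2 (fun i => l i.succ) (fun i => σ2 i.succ) hG3.tail
      ((MvPolynomial.finSuccEquiv _ n P).coeff (m 0))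
      (fun m' => by rw [hcoeff]; exact hP _)
      (by filter_upwards [hslice] with w hw using hw (m 0)) m.tail
    rw [hcoeff, Finsupp.cons_tail] at h5
    exact (hE5 (fun b _ => P.coeff m b) (fun t0 β σ hβ _ => hP m t0 β hβ)).2 h5

end Pool.Agent.H489.GI.G
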