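import Pool.Agent.H489.GI.Escape

open Complex Filter Topology Set

namespace Pool.Agent.H489.GI

/-- critical values of `H` -/
def CV : Set ℂ := {w | ∃ z, deriv H z = 0 ∧ H z = w}

lemma not_crit {z w : ℂ} (h : H z = w) (hw : w ∉ CV) : deriv H z ≠ 0 := fun h' => hw ⟨z, h', h⟩

/-- local section of an analytic function through a noncritical point -/
lemma exists_sec {f : ℂ → ℂ} {z : ℂ} (hf : AnalyticAt ℂ f z) (hz : deriv f z ≠ 0) :
    ∃ s : ℂ → ℂ, AnalyticAt ℂ s (f z) ∧ s (f z) = z ∧ (∀ᶠ w in 𝓝 (f z), f (s w) = w) ∧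
      ∀ᶠ y in 𝓝 z, s (f y) = y :=
  ⟨hf.hasStrictDerivAt.localInverse _ _ _ hz, hf.analyticAt_localInverse hz,
    HasStrictFDerivAt.localInverse_apply_image .., hf.hasStrictDerivAt.eventually_right_inverse _,
    hf.hasStrictDerivAt.eventually_left_inverse _⟩

/-- local section of `H` -/
noncomputable def sec (z : ℂ) : ℂ → ℂ :=
  if hz : deriv H z ≠ 0 then (exists_sec (H_analytic z) hz).choose else fun _ => z

lemma sec_spec {z : ℂ} (hz : deriv H z ≠ 0) :
    AnalyticAt ℂ (sec z) (H z) ∧ sec z (H z) = z ∧ (∀ᶠ w in 𝓝 (H z), H (sec z w) = w) ∧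
      ∀ᶠ y in 𝓝 z, sec z (H y) = y := by
  unfold sec
  rw [dif_pos hz]
  exact (exists_sec (H_analytic z) hz).choose_spec

/-- local injectivity -/
lemma loc_inj {z : ℂ} (hz : deriv H z ≠ 0) :
    ∀ᶠ p in 𝓝 z ×ˢ 𝓝 z, H p.1 = H p.2 → p.1 = p.2 := by
  obtain ⟨-, -, -, h⟩ := sec_spec hz
  filter_upwards [h.prod_inl (𝓝 z), h.prod_inr (𝓝 z)] with p h1 h2 h3
  rw [← h1, ← h2, h3]

/-- two continuous functions into the noncritical points, with the same composition with `H`,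
which agree at one point of a preconnected set, agree on this set -/
lemma lift_unique {X : Type*} [TopologicalSpace X] {s : Set X} (hs : IsPreconnected s)
    {u u' : X → ℂ} (hu : ContinuousOn u s)
    (hu' : ContinuousOn u' s) (h : ∀ τ ∈ s, H (u τ) = H (u' τ)) (hc : ∀ τ ∈ s, deriv H (u τ) ≠ 0)
    {c : X} (hcs : c ∈ s) (hcc : u c = u' c) : EqOn u u' s := by
  classical
  intro x hx
  have key : ContinuousOn (fun τ => if u τ = u' τ then (0 : ℕ) else 1) s := by
    intro τ0 hτ0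
    have h1 : Tendsto (fun τ => (u τ, u' τ)) (𝓝[s] τ0) (𝓝 (u τ0) ×ˢ 𝓝 (u' τ0)) :=
      Tendsto.prodMk (hu τ0 hτ0) (hu' τ0 hτ0)
    have h2 : ∀ᶠ τ in 𝓝[s] τ0, (if u τ = u' τ then (0 : ℕ) else 1) =
        (if u τ0 = u' τ0 then (0 : ℕ) else 1) := by
      by_cases h3 : u τ0 = u' τ0
      · rw [← h3] at h1
        filter_upwards [h1.eventually (loc_inj (hc τ0 hτ0)), self_mem_nhdsWithin] with τ h4 h5
        rw [if_pos (h4 (h τ h5)), if_pos h3]
      · have h4 : ∀ᶠ τ in 𝓝[s] τ0, u τ ≠ u' τ := by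
          have h5 : ContinuousWithinAt (fun τ => u τ - u' τ) s τ0 :=
            (hu τ0 hτ0).sub (hu' τ0 hτ0)
          have h6 := h5.eventually (ContinuousAt.eventually_ne (continuousAt_id)
            (sub_ne_zero.2 h3))
          filter_upwards [h6] with τ h7 h8
          exact h7 (sub_eq_zero.2 h8)
        filter_upwards [h4] with τ h5
        rw [if_neg h5, if_neg h3]
    exact tendsto_nhds_of_eventually_eq h2
  have h3 := hs.constant key hcs hx
  simp only [hcc, if_true] at h3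
  by_contra h4
  rw [if_neg h4] at h3
  exact absurd h3 (by norm_num)

/-- `H` is not locally constant -/
lemma eventually_ne_val (z w : ℂ) : ∀ᶠ y in 𝓝[≠] z, H y ≠ w := by
  have h1 : AnalyticAt ℂ (fun y => H y - w) z := (H_analytic z).sub analyticAt_const
  rcases h1.eventually_eq_zero_or_eventually_ne_zero with h2 | h2
  · exfalso
    have h3 : AnalyticOnNhd ℂ (fun y => H y - w) univ :=
      fun y _ => (H_analytic y).sub analyticAt_const
    have h4 : AnalyticOnNhd ℂ (fun _ : ℂ => (0 : ℂ)) univ := fun y _ => analyticAt_const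
    have h5 := h3.eq_of_eventuallyEq h4 h2
    have h6 := congrFun h5 1
    have h7 := congrFun h5 0
    have h8 := H_neg_nat 0
    simp only [CharP.cast_eq_zero, neg_zero] at h8
    simp only [H_one] at h6
    simp only [h8] at h7
    have : (1 : ℂ) = 0 := by linear_combination h6 - h7
    exact one_ne_zero this
  · filter_upwards [h2] with y hy h3
    exact hy (by rw [h3, sub_self])

/-- existence of the limit of a lift at the end of its interval -/
lemma lift_limit {γ u : ℝ → ℂ} {b Bd : ℝ} (hb : 0 < b) (hγ : ContinuousAt γ b)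
    (hu : ContinuousOn u (Ico 0 b)) (hH : ∀ τ ∈ Ico 0 b, H (u τ) = γ τ)
    (hbd : ∀ τ ∈ Ico 0 b, ‖u τ‖ ≤ Bd) : ∃ z, H z = γ b ∧ Tendsto u (𝓝[<] b) (𝓝 z) := by
  have hIco : ∀ᶠ τ in 𝓝[<] b, τ ∈ Ico 0 b := by
    filter_upwards [Ico_mem_nhdsLT hb] with τ hτ using hτ
  have h1 : ∃ᶠ τ in 𝓝[<] b, u τ ∈ Metric.closedBall (0 : ℂ) Bd := by
    apply Eventually.frequently
    filter_upwards [hIco] with τ hτ
    rw [mem_closedBall_zero_iff]
    exact hbd τ hτ
  obtain ⟨z, hz, hzc⟩ := (isCompact_closedBall (0 : ℂ) Bd).exists_mapClusterPt_of_frequently h1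
  have hHz : H z = γ b := by
    have h2 : MapClusterPt (H z) (𝓝[<] b) (fun τ => H (u τ)) :=
      hzc.continuousAt_comp (H_diff.continuous.continuousAt)
    have h3 : Tendsto (fun τ => H (u τ)) (𝓝[<] b) (𝓝 (γ b)) := by
      have h4 : Tendsto γ (𝓝[<] b) (𝓝 (γ b)) := hγ.tendsto.mono_left nhdsWithin_le_nhds
      refine h4.congr' ?_
      filter_upwards [hIco] with τ hτ using (hH τ hτ).symm
    exact eq_of_nhds_neBot (ClusterPt.mono h2 h3)
  refine ⟨z, hHz, ?_⟩
  rw [Metric.tendsto_nhds]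
  intro ε hε
  -- choose a good radius
  obtain ⟨r, hr0, hrε, hr⟩ : ∃ r > 0, r < ε ∧ ∀ y, ‖y - z‖ = r → H y ≠ γ b := by
    have h2 := eventually_ne_val z (γ b)
    rw [eventually_nhdsWithin_iff, Metric.eventually_nhds_iff] at h2
    obtain ⟨δ, hδ, h3⟩ := h2
    refine ⟨min (δ / 2) (ε / 2), by positivity, ?_, ?_⟩
    · exact (min_le_right _ _).trans_lt (by linarith)
    · intro y hy
      have h4 : min (δ / 2) (ε / 2) < δ := (min_le_left _ _).trans_lt (by linarith)
      refine h3 (by rw [dist_eq_norm, hy]; exact h4) ?_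
      intro h5
      have h5 : y = z := h5
      rw [h5, sub_self, norm_zero] at hy
      have : 0 < min (δ / 2) (ε / 2) := by positivity
      linarith
  -- `H` stays away from `γ b` on the circle
  obtain ⟨η, hη, hη'⟩ : ∃ η > 0, ∀ y, ‖y - z‖ = r → η ≤ ‖H y - γ b‖ := by
    have hcomp : IsCompact (Metric.sphere z r) := isCompact_sphere z r
    have hne : (Metric.sphere z r).Nonempty := NormedSpace.sphere_nonempty.2 hr0.le
    obtain ⟨y0, hy0, hmin⟩ := hcomp.exists_isMinOn hne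
      (f := fun y => ‖H y - γ b‖) ((H_diff.continuous.sub continuous_const).norm.continuousOn)
    refine ⟨‖H y0 - γ b‖, norm_pos_iff.2 (sub_ne_zero.2 (hr y0 ?_)), ?_⟩
    · simpa [dist_eq_norm] using hy0
    · intro y hy
      exact hmin (by simpa [dist_eq_norm] using hy)
  -- near `b` the path `γ` is within `η` of `γ b`
  obtain ⟨δ, hδ, hδ'⟩ := Metric.continuousAt_iff.1 hγ η hη
  set a : ℝ := max 0 (b - δ) with ha
  have hab : a < b := max_lt hb (by linarith)
  have hnot : ∀ τ ∈ Ioo a b, ‖u τ - z‖ ≠ r := by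
    intro τ hτ h2
    have h3 := hη' (u τ) h2
    have hτ' : τ ∈ Ico 0 b := ⟨(le_max_left _ _).trans hτ.1.le, hτ.2⟩
    rw [hH τ hτ'] at h3
    have h4 : dist τ b < δ := by
      rw [Real.dist_eq, abs_sub_comm, abs_of_pos (by linarith [hτ.2])]
      have := (le_max_right 0 (b - δ)).trans_lt hτ.1
      linarith
    have := hδ' h4
    rw [dist_eq_norm] at this
    linarith
  have hIoo : Ioo a b ∈ 𝓝[<] b := Ioo_mem_nhdsLT hab
  -- some point is inside
  obtain ⟨τ1, hτ1, hτ1'⟩ : ∃ τ ∈ Ioo a b, ‖u τ - z‖ < r := by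
    have h2 := hzc.frequently (Metric.ball_mem_nhds z hr0)
    obtain ⟨τ, h3, h4⟩ := (h2.and_eventually hIoo).exists
    exact ⟨τ, h4, by simpa [dist_eq_norm] using h3⟩
  have hcont : ContinuousOn (fun τ => ‖u τ - z‖) (Ioo a b) := by
    refine (ContinuousOn.sub (hu.mono ?_) continuousOn_const).norm
    intro τ hτ
    exact ⟨(le_max_left _ _).trans hτ.1.le, hτ.2⟩
  filter_upwards [hIoo] with τ hτ
  rw [dist_eq_norm]
  refine lt_trans ?_ hrε
  by_contra hcon
  push Not at hcon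
  have h5 : r ∈ (fun τ => ‖u τ - z‖) '' (Ioo a b) := by
    have := isPreconnected_Ioo.intermediate_value hτ1 hτ hcont
    exact this ⟨hτ1'.le, hcon⟩
  obtain ⟨τ2, hτ2, h6⟩ := h5
  exact hnot τ2 hτ2 h6

/-- a path for the lifting theorem -/
structure Nice (γ : ℝ → ℂ) : Prop where
  diff : ∀ τ ∈ Icc (0 : ℝ) 1, DifferentiableAt ℝ γ τ
  cont : ContinuousOn (deriv γ) (Icc 0 1)
  ne0 : ∀ τ ∈ Icc (0 : ℝ) 1, γ τ ≠ 0
  ncv : ∀ τ ∈ Ico (0 : ℝ) 1, γ τ ∉ CV

lemma Nice.continuousOn {γ : ℝ → ℂ} (h : Nice γ) : ContinuousOn γ (Icc 0 1) :=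
  fun τ hτ => (h.diff τ hτ).continuousAt.continuousWithinAt

/-- a uniform bound for the lifts of a nice path -/
lemma lift_bound {γ : ℝ → ℂ} (hγ : Nice γ) (u0 : ℂ) : ∃ Bd : ℝ, ∀ (b : ℝ) (u : ℝ → ℂ),
    b ≤ 1 → ContinuousOn u (Ico 0 b) → (∀ τ ∈ Ico 0 b, H (u τ) = γ τ) → u 0 = u0 →
    ∀ τ ∈ Ico 0 b, ‖u τ‖ ≤ Bd := by
  obtain ⟨A0, hA0⟩ := isCompact_Icc.exists_bound_of_continuousOn hγ.continuousOn
  obtain ⟨D, hD⟩ := isCompact_Icc.exists_bound_of_continuousOn hγ.cont
  set A := max A0 1 with hA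
  obtain ⟨R, hR⟩ := no_escape A (by positivity)
  -- lower bound of `γ`
  obtain ⟨m, hm, hm'⟩ : ∃ m > 0, ∀ τ ∈ Icc (0 : ℝ) 1, m ≤ ‖γ τ‖ := by
    obtain ⟨τ0, hτ0, hmin⟩ := isCompact_Icc.exists_isMinOn (nonempty_Icc.2 zero_le_one)
      (f := fun τ => ‖γ τ‖) hγ.continuousOn.norm
    exact ⟨‖γ τ0‖, norm_pos_iff.2 (hγ.ne0 τ0 hτ0), fun τ hτ => hmin hτ⟩
  have hD0 : 0 ≤ D := (norm_nonneg _).trans (hD 0 ⟨le_rfl, zero_le_one⟩)
  refine ⟨max ‖u0‖ R + (D / m + 1), ?_⟩
  intro b u hb hu hH hu0 τ hτ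
  -- work on `[0, τ]`
  have hsub : Icc 0 τ ⊆ Ico 0 b := fun x hx => ⟨hx.1, hx.2.trans_lt hτ.2⟩
  have hder : ∀ x ∈ Ico 0 τ, HasDerivWithinAt u (deriv γ x / deriv H (u x)) (Ici x) x := by
    intro x hx
    have hxb : x ∈ Ico 0 b := ⟨hx.1, hx.2.trans hτ.2⟩
    have hx1 : x ∈ Icc (0 : ℝ) 1 := ⟨hx.1, (hxb.2.trans_le hb).le⟩
    have hxcv : γ x ∉ CV := hγ.ncv x ⟨hx.1, hxb.2.trans_le hb⟩
    have hz : deriv H (u x) ≠ 0 := not_crit (hH x hxb) hxcv
    obtain ⟨s1, s2, s3, s4⟩ := sec_spec hz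
    have h1 : HasDerivAt (fun t => sec (u x) (γ t)) (deriv γ x / deriv H (u x)) x := by
      have h2 : HasDerivAt (sec (u x)) (deriv H (u x))⁻¹ (H (u x)) := by
        have h3 := (H_diff (u x)).hasDerivAt
        have h4 := s1.differentiableAt.hasDerivAt
        have h5 : deriv (sec (u x)) (H (u x)) * deriv H (u x) = 1 := by
          have h6 := h4.comp (u x) h3
          have h7 : HasDerivAt (sec (u x) ∘ H) 1 (u x) := by
            refine (hasDerivAt_id (u x)).congr_of_eventuallyEq ?_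
            filter_upwards [s4] with y hy using hy
          exact h6.unique h7
        have h6 : deriv (sec (u x)) (H (u x)) = (deriv H (u x))⁻¹ := eq_inv_of_mul_eq_one_left h5
        rw [h6] at h4
        exact h4
      rw [hH x hxb] at h2
      have h3 := (hγ.diff x hx1).hasDerivAt
      have h4 := HasDerivAt.scomp (g₁ := sec (u x)) x h2 h3
      rw [smul_eq_mul] at h4
      rw [div_eq_mul_inv]
      exact h4
    refine h1.hasDerivWithinAt.congr_of_eventuallyEq_of_mem ?_ (mem_Ici.2 le_rfl)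
    have h5 : Tendsto u (𝓝[≥] x) (𝓝 (u x)) := by
      have h6 := hu x hxb
      have h7 : Ico 0 b ∈ 𝓝[≥] x := by
        refine mem_of_superset (Ico_mem_nhdsGE hxb.2) ?_
        exact fun y hy => ⟨hx.1.trans hy.1, hy.2⟩
      exact h6.mono_left (nhdsWithin_le_of_mem h7)
    have h8 : Ico x b ∈ 𝓝[≥] x := Ico_mem_nhdsGE hxb.2
    filter_upwards [h5.eventually s4, h8] with y hy hy2
    rw [← hy, hH y ⟨hx.1.trans hy2.1, hy2.2⟩]
  have key := image_norm_le_of_norm_deriv_right_lt_deriv_boundary' (a := 0) (b := τ) (f := u)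
    (f' := fun x => deriv γ x / deriv H (u x)) (hu.mono hsub) hder
    (B := fun x => max ‖u0‖ R + (D / m + 1) * x) (B' := fun _ => D / m + 1)
    (by simp [hu0]) (by fun_prop) ?_ ?_ (x := τ) ⟨hτ.1, le_rfl⟩
  · refine key.trans ?_
    have h1 : τ ≤ 1 := (hτ.2.trans_le hb).le
    have h2 : 0 ≤ D / m + 1 := by positivity
    have h3 : (D / m + 1) * τ ≤ (D / m + 1) * 1 := mul_le_mul_of_nonneg_left h1 h2
    linarith
  · intro x _
    have := ((hasDerivAt_id x).const_mul (D / m + 1)).const_add (max ‖u0‖ R)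
    simpa using this.hasDerivWithinAt
  · intro x hx hxe
    have hxb : x ∈ Ico 0 b := ⟨hx.1, hx.2.trans hτ.2⟩
    have hx1 : x ∈ Icc (0 : ℝ) 1 := ⟨hx.1, (hxb.2.trans_le hb).le⟩
    have h1 : R ≤ ‖u x‖ := by
      rw [hxe]
      have : 0 ≤ (D / m + 1) * x := mul_nonneg (by positivity) hx.1
      linarith [le_max_right ‖u0‖ R]
    have h2 : ‖H (u x)‖ ≤ A := by
      rw [hH x hxb]
      exact (hA0 x hx1).trans (le_max_left _ _)
    have h3 := hR (u x) h1 h2
    rw [hH x hxb] at h3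
    have h4 := (hm' x hx1).trans h3
    rw [norm_div]
    have h5 : ‖deriv γ x‖ / ‖deriv H (u x)‖ ≤ D / m := by
      have := hD x hx1
      gcongr
    linarith

/-- **Lifting of paths.** -/
theorem lift_exists {γ : ℝ → ℂ} (hγ : Nice γ) (u0 : ℂ) (hu0 : H u0 = γ 0) :
    ∃ u : ℝ → ℂ, ContinuousOn u (Icc 0 1) ∧ u 0 = u0 ∧ ∀ τ ∈ Icc (0 : ℝ) 1, H (u τ) = γ τ := by
  classical
  set S : Set ℝ := {b | ∃ u : ℝ → ℂ, ContinuousOn u (Icc 0 b) ∧ u 0 = u0 ∧
    ∀ τ ∈ Icc (0 : ℝ) b, H (u τ) = γ τ} with hS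
  suffices h : Icc (0 : ℝ) 1 ⊆ S from h ⟨zero_le_one, le_rfl⟩
  have hdown : ∀ b ∈ S, ∀ c, c ≤ b → c ∈ S := by
    rintro b ⟨u, h1, h2, h3⟩ c hc
    exact ⟨u, h1.mono (Icc_subset_Icc_right hc), h2, fun τ hτ => h3 τ ⟨hτ.1, hτ.2.trans hc⟩⟩
  refine IsClosed.Icc_subset_of_forall_mem_nhdsWithin ?_ ?_ ?_
  · -- closed
    rw [← closure_subset_iff_isClosed]
    intro b hb
    have hb01 : b ∈ Icc (0 : ℝ) 1 := by
      have := closure_mono (inter_subset_right (s := S) (t := Icc (0 : ℝ) 1)) hb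
      rwa [isClosed_Icc.closure_eq] at this
    refine ⟨?_, hb01⟩
    by_contra hbS
    have hlt : ∀ c < b, c ∈ S := by
      intro c hc
      rw [mem_closure_iff_nhds] at hb
      obtain ⟨x, hx1, hx2, -⟩ := hb (Ioi c) (Ioi_mem_nhds hc)
      exact hdown x hx2 c (le_of_lt hx1)
    have hb0 : 0 < b := by
      rcases hb01.1.lt_or_eq with h | h
      · exact h
      · exfalso
        apply hbS
        rw [← h]
        refine ⟨fun _ => u0, continuousOn_const, rfl, ?_⟩
        intro τ hτ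
        have : τ = 0 := le_antisymm hτ.2 hτ.1
        rw [this]
        exact hu0
    choose! L hL1 hL2 hL3 using hlt
    -- lifts agree
    have agree : ∀ c < b, ∀ d < b, 0 ≤ c → c ≤ d → EqOn (L c) (L d) (Icc 0 c) := by
      intro c hc d hd h0c hcd
      refine lift_unique isPreconnected_Icc (hL1 c hc) ((hL1 d hd).mono (Icc_subset_Icc_right hcd))
        ?_ ?_ (c := 0) ⟨le_rfl, h0c⟩ ?_
      · intro τ hτ
        rw [hL3 c hc τ hτ, hL3 d hd τ ⟨hτ.1, hτ.2.trans hcd⟩]
      · intro τ hτ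
        refine not_crit (hL3 c hc τ hτ) (hγ.ncv τ ⟨hτ.1, ?_⟩)
        exact (hτ.2.trans_lt hc).trans_le hb01.2
      · rw [hL2 c hc, hL2 d hd]
    set U : ℝ → ℂ := fun x => L x x with hU
    have hUL : ∀ d < b, ∀ x ∈ Icc 0 d, U x = L d x := by
      intro d hd x hx
      exact agree x (hx.2.trans_lt hd) d hd hx.1 hx.2 ⟨hx.1, le_rfl⟩
    have hUc : ContinuousOn U (Ico 0 b) := by
      intro x hx
      obtain ⟨d, hd1, hd2⟩ := exists_between hx.2
      have h1 : ContinuousWithinAt (L d) (Icc 0 d) x := hL1 d hd2 x ⟨hx.1, hd1.le⟩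
      have h2 : ContinuousWithinAt U (Icc 0 d) x :=
        h1.congr (fun y hy => hUL d hd2 y hy) (hUL d hd2 x ⟨hx.1, hd1.le⟩)
      have h3 : Icc 0 d ∈ 𝓝[Ico 0 b] x := by
        rw [mem_nhdsWithin]
        exact ⟨Iio d, isOpen_Iio, hd1, fun y hy => ⟨hy.2.1, le_of_lt hy.1⟩⟩
      exact h2.mono_of_mem_nhdsWithin h3
    have hUH : ∀ τ ∈ Ico 0 b, H (U τ) = γ τ := by
      intro τ hτ
      exact hL3 τ hτ.2 τ ⟨hτ.1, le_rfl⟩
    have hU0 : U 0 = u0 := hL2 0 hb0
    obtain ⟨Bd, hBd⟩ := lift_bound hγ u0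
    obtain ⟨z, hz1, hz2⟩ := lift_limit hb0 (hγ.diff b hb01).continuousAt hUc hUH
      (hBd b U hb01.2 hUc hUH hU0)
    apply hbS
    refine ⟨fun x => if x < b then U x else z, ?_, by simp [hb0, hU0], ?_⟩
    · intro x hx
      rcases hx.2.lt_or_eq with h1 | h1
      · have h2 := hUc x ⟨hx.1, h1⟩
        have h3 : Ico 0 b ∈ 𝓝[Icc 0 b] x := by
          rw [mem_nhdsWithin]
          exact ⟨Iio b, isOpen_Iio, h1, fun y hy => ⟨hy.2.1, hy.1⟩⟩
        have h4 : ContinuousWithinAt U (Icc 0 b) x := h2.mono_of_mem_nhdsWithin h3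
        refine h4.congr_of_eventuallyEq ?_ ?_
        · filter_upwards [h3] with y hy
          rw [if_pos hy.2]
        · rw [if_pos h1]
      · rw [h1]
        rw [ContinuousWithinAt]
        simp only [lt_irrefl, if_false]
        have h2 : 𝓝[Icc 0 b] b ≤ 𝓝[<] b ⊔ pure b := by
          have h3 : Icc 0 b ⊆ Iio b ∪ {b} := by
            intro y hy
            rcases hy.2.lt_or_eq with h | h
            · exact Or.inl h
            · exact Or.inr h
          refine (nhdsWithin_mono b h3).trans ?_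
          rw [nhdsWithin_union, nhdsWithin_singleton]
        refine Tendsto.mono_left ?_ h2
        refine Tendsto.sup ?_ ?_
        · refine hz2.congr' ?_
          filter_upwards [self_mem_nhdsWithin] with y hy
          rw [if_pos (mem_Iio.1 hy)]
        · rw [tendsto_pure_left]
          intro s hs
          simp only [lt_irrefl, if_false]
          exact mem_of_mem_nhds hs
    · intro τ hτ
      rcases hτ.2.lt_or_eq with h1 | h1
      · simp only [h1, if_true]
        exact hUH τ ⟨hτ.1, h1⟩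
      · simp only [h1, lt_irrefl, if_false]
        exact hz1
  · -- `0 ∈ S`
    refine ⟨fun _ => u0, continuousOn_const, rfl, ?_⟩
    intro τ hτ
    have : τ = 0 := le_antisymm hτ.2 hτ.1
    rw [this]
    exact hu0
  · -- open
    rintro b ⟨⟨u, h1, h2, h3⟩, hb⟩
    have hz : deriv H (u b) ≠ 0 := not_crit (h3 b ⟨hb.1, le_rfl⟩) (hγ.ncv b hb)
    obtain ⟨s1, s2, s3, s4⟩ := sec_spec hz
    rw [h3 b ⟨hb.1, le_rfl⟩] at s1 s2 s3
    have hγc : ContinuousAt γ b := (hγ.diff b ⟨hb.1, hb.2.le⟩).continuousAt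
    have e1 : ∀ᶠ τ in 𝓝 b, H (sec (u b) (γ τ)) = γ τ := hγc.eventually s3
    have e2 : ∀ᶠ τ in 𝓝 b, ContinuousAt (sec (u b)) (γ τ) :=
      hγc.eventually (s1.eventually_analyticAt.mono fun w hw => hw.continuousAt)
    obtain ⟨δ, hδ, hδ'⟩ := Metric.eventually_nhds_iff.1 (e1.and e2)
    have hmem : Ioo b (b + min δ (1 - b)) ∈ 𝓝[>] b := by
      apply Ioo_mem_nhdsGT
      have : 0 < min δ (1 - b) := lt_min hδ (by linarith [hb.2])
      linarith
    refine mem_of_superset hmem ?_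
    intro c hc
    have hc1 : c < b + δ := hc.2.trans_le (by linarith [min_le_left δ (1 - b)])
    have hc2 : c < 1 := by
      have := hc.2.trans_le (add_le_add_right (min_le_right δ (1 - b)) b)
      linarith
    have hgood : ∀ τ ∈ Icc b c, H (sec (u b) (γ τ)) = γ τ ∧ ContinuousAt (sec (u b)) (γ τ) := by
      intro τ hτ
      apply hδ'
      rw [Real.dist_eq, abs_of_nonneg (by linarith [hτ.1])]
      linarith [hτ.2]
    refine ⟨fun x => if x ≤ b then u x else sec (u b) (γ x), ?_, by simp [hb.1, h2], ?_⟩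
    · have hun : Icc 0 c = Icc 0 b ∪ Icc b c := (Icc_union_Icc_eq_Icc hb.1 hc.1.le).symm
      rw [hun]
      refine ContinuousOn.union_of_isClosed ?_ ?_ isClosed_Icc isClosed_Icc
      · refine h1.congr ?_
        intro x hx
        simp only [hx.2, if_true]
      · have h4 : ContinuousOn (fun x => sec (u b) (γ x)) (Icc b c) := by
          intro x hx
          have h5 : ContinuousAt γ x :=
            (hγ.diff x ⟨hb.1.trans hx.1, hx.2.trans hc2.le⟩).continuousAt
          exact (ContinuousAt.comp (g := sec (u b)) (hgood x hx).2 h5).continuousWithinAt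
        refine h4.congr ?_
        intro x hx
        rcases hx.1.lt_or_eq with h5 | h5
        · simp only [not_le.2 h5, if_false]
        · simp only [← h5, le_refl, if_true]
          exact s2.symm
    · intro τ hτ
      by_cases h4 : τ ≤ b
      · simp only [h4, if_true]
        exact h3 τ ⟨hτ.1, h4⟩
      · simp only [h4, if_false]
        exact (hgood τ ⟨(not_le.1 h4).le, hτ.2⟩).1

end Pool.Agent.H489.GI
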