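import Pool.Agent.H489.GI.Ind
import Pool.Graph.R_seed8.W175.GF.Final

open Filter Topology Polynomial
open scoped Polynomial.Bivariate

namespace Pool.Agent.H489.GI.G

open Pool.Agent.W175.GF (AlgDep)

/-- values of a polynomial with polynomial coefficients are analytic along analytic curves -/
lemma eval₂_an {σ : Type*} [Fintype σ] (q : MvPolynomial σ ℂ[X]) {a : ℂ → ℂ} {h : σ → ℂ → ℂ} {t : ℂ}
    (ha : AnalyticAt ℂ a t) (hh : ∀ j, AnalyticAt ℂ (h j) t) :
    AnalyticAt ℂ (fun t => MvPolynomial.eval₂ (evalRingHom (a t)) (fun j => h j t) q) t := by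
  have h1 : (fun t => MvPolynomial.eval₂ (evalRingHom (a t)) (fun j => h j t) q) =
      fun t => ∑ d ∈ q.support, (q.coeff d).eval (a t) * ∏ j, h j t ^ d j := by
    funext t
    rw [MvPolynomial.eval₂_eq']
    rfl
  rw [h1]
  refine Finset.analyticAt_fun_sum _ fun d _ => ?_
  refine AnalyticAt.mul ?_ (Finset.analyticAt_fun_prod _ fun j _ => (hh j).pow _)
  exact AnalyticAt.fun_comp ((q.coeff d).differentiable.analyticAt (a t)) ha

/-- two analytic functions on a ball which agree near a point agree -/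
lemma ball_eq {f g : ℂ → ℂ} {c t : ℂ} {r : ℝ} (hf : ∀ t ∈ Metric.ball c r, AnalyticAt ℂ f t)
    (hg : ∀ t ∈ Metric.ball c r, AnalyticAt ℂ g t) (ht : t ∈ Metric.ball c r)
    (h : ∀ᶠ s in 𝓝 t, f s = g s) : ∀ s ∈ Metric.ball c r, f s = g s :=
  AnalyticOnNhd.eqOn_of_preconnected_of_eventuallyEq (fun y hy => hf y hy) (fun y hy => hg y hy)
    (convex_ball c r).isPreconnected ht h

/-- `H ∘ s` is not constant if `s` is not -/
lemma H_comp_nc {s : ℂ → ℂ} {t v : ℂ} (hs : ContinuousAt s t) (h : ∀ᶠ x in 𝓝 t, H (s x) = v) :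
    ∀ᶠ x in 𝓝 t, s x = s t := by
  have h1 := eventually_ne_val (s t) v
  rw [eventually_nhdsWithin_iff] at h1
  filter_upwards [hs.eventually h1, h] with x h2 h3
  by_contra h4
  exact h2 h4 h3

/-- **Mixed theorem in one variable.** -/
theorem mix1 {J : Type} [Fintype J] {n : ℕ} {r : ℝ} (hr : 0 < r)
    {y : J → ℂ → ℂ} {σ : Fin n → ℂ → ℂ}
    (hy : ∀ j, ∀ t ∈ Metric.ball (0 : ℂ) r, AnalyticAt ℂ (y j) t)
    (hσ : ∀ i, ∀ t ∈ Metric.ball (0 : ℂ) r, AnalyticAt ℂ (σ i) t)
    (hya : ∀ j, ∃ Q : ℂ[X][Y], Q ≠ 0 ∧ ∀ t ∈ Metric.ball (0 : ℂ) r, ev Q t (y j t) = 0)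
    (hσa : ∀ i, ∃ Q : ℂ[X][Y], Q ≠ 0 ∧ ∀ t ∈ Metric.ball (0 : ℂ) r, ev Q t (H (σ i t)) = 0)
    (hyn : ∀ j, ∀ v : ℂ, ¬ ∀ t ∈ Metric.ball (0 : ℂ) r, y j t = v)
    (hσn : ∀ i, ∀ v : ℂ, ¬ ∀ t ∈ Metric.ball (0 : ℂ) r, σ i t = v)
    (hH : ∀ i j, i ≠ j → ∀ p q : ℚ, ¬ ∀ t ∈ Metric.ball (0 : ℂ) r, y i t = p * y j t + q)
    (hσd : ∀ i i', i ≠ i' → ¬ ∀ t ∈ Metric.ball (0 : ℂ) r, σ i t = σ i' t)
    (P : MvPolynomial (Fin n ⊕ J) ℂ[X])
    (hP : ∀ t ∈ Metric.ball (0 : ℂ) r, MvPolynomial.eval₂ (evalRingHom t)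
      (Sum.elim (fun i => σ i t) (fun j => H (y j t))) P = 0) : P = 0 := by
  classical
  set B := Metric.ball (0 : ℂ) r with hB
  have h0B : (0 : ℂ) ∈ B := Metric.mem_ball_self hr
  have hBn : ∀ᶠ t in 𝓝 (0 : ℂ), t ∈ B := Metric.ball_mem_nhds 0 hr
  -- the raw functions
  let κ := Option (Fin n ⊕ J)
  let f : κ → ℂ → ℂ := fun a => a.elim id (Sum.elim (fun i t => H (σ i t)) y)
  have hf : ∀ a, ∀ t ∈ B, AnalyticAt ℂ (f a) t := by
    rintro (_ | i | j) t ht
    · exact analyticAt_id
    · have h1 : AnalyticAt ℂ (fun t => H (σ i t)) t :=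
        AnalyticAt.fun_comp (H_analytic _) (hσ i t ht)
      exact h1
    · exact hy j t ht
  have hfn : ∀ a, ∀ v : ℂ, ¬ ∀ᶠ t in 𝓝 (0 : ℂ), f a t = v := by
    rintro (_ | i | j) v h
    · have h1 : ∀ᶠ t in 𝓝 (0 : ℂ), t = v := h
      have h2 : ({v} : Set ℂ) ∈ 𝓝 (0 : ℂ) := h1
      have h3 := h1.self_of_nhds
      subst h3
      exact (infinite_of_mem_nhds 0 h2) (Set.finite_singleton 0)
    · have h1 := H_comp_nc (hσ i 0 h0B).continuousAt h
      exact hσn i _ (ball_eq (hσ i) (fun t _ => analyticAt_const) h0B h1)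
    · exact hyn j _ (ball_eq (hy j) (fun t _ => analyticAt_const) h0B h)
  have hfa : ∀ a, AlgDep B id (f a) := by
    rintro (_ | i | j)
    · refine ⟨X - C X, (prime_X_sub_C _).ne_zero, fun t _ => ?_⟩
      have := ev_X_sub_C X t t
      rw [eval_X, sub_self] at this
      exact this
    · exact hσa i
    · exact hya j
  have hdep : ∀ a b, ∃ Q : ℂ[X][Y], Q ≠ 0 ∧ ∀ t ∈ B, ev Q (f a t) (f b t) = 0 := by
    intro a b
    have hd : ∀ a, DifferentiableOn ℂ (f a) B := fun a t ht =>
      (hf a t ht).differentiableAt.differentiableWithinAt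
    exact Pool.Agent.W462.GF.alg B id (f a) (f b) Metric.isOpen_ball
      (convex_ball 0 r).isPreconnected ⟨0, h0B⟩ differentiableOn_id (hd a) (hd b)
      (fun v h => hfn none v (by filter_upwards [hBn] with t ht using h t ht))
      (fun v h => hfn a v (by filter_upwards [hBn] with t ht using h t ht)) (hfa a) (hfa b)
  -- the quotient
  let S : Setoid κ := ⟨fun a b => ∀ᶠ t in 𝓝 (0 : ℂ), f a t = f b t,
    ⟨fun a => Eventually.of_forall fun _ => rfl, fun h => h.mono fun _ h => h.symm,
      fun h1 h2 => (h1.and h2).mono fun _ h => h.1.trans h.2⟩⟩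
  let ι := Quotient S
  have hfin : Finite ι := Quotient.finite S
  let β : ι → ℂ → ℂ := fun q => f (Quotient.out q)
  have hβf : ∀ a : κ, ∀ᶠ t in 𝓝 (0 : ℂ), β (Quotient.mk S a) t = f a t := fun a =>
    Quotient.mk_out (s := S) a
  have hG : GH 0 β (fun i => Quotient.mk S (some (Sum.inl i))) σ := by
    refine ⟨fun q => hf _ 0 h0B, fun q c => hfn _ c, ?_, ?_, fun i => hσ i 0 h0B, ?_, ?_⟩
    · intro q q' hqq h
      apply hqq
      rw [← Quotient.out_eq q, ← Quotient.out_eq q']
      exact Quotient.sound h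
    · intro q q'
      obtain ⟨Q, h1, h2⟩ := hdep (Quotient.out q) (Quotient.out q')
      exact ⟨Q, h1, by filter_upwards [hBn] with t ht using h2 t ht⟩
    · intro i
      filter_upwards [hβf (some (Sum.inl i))] with t ht
      rw [ht]
      rfl
    · intro i i' hii h
      exact hσd i i' hii (ball_eq (hσ i) (hσ i') h0B h)
  -- the polynomial
  let q0 : ι := Quotient.mk S none
  let qy : J → ι := fun j => Quotient.mk S (some (Sum.inr j))
  let Φ : MvPolynomial J ℂ[X] →+* ((ι → ℂ) → ℂ) := RingHom.pi fun b =>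
    MvPolynomial.eval₂Hom (evalRingHom (b q0)) (fun j => H (b (qy j)))
  have hΦ : ∀ q b, Φ q b = MvPolynomial.eval₂ (evalRingHom (b q0)) (fun j => H (b (qy j))) q :=
    fun q b => rfl
  set Q := MvPolynomial.sumAlgEquiv ℂ[X] (Fin n) J P with hQ
  have hcoe : ∀ m, (MvPolynomial.map Φ Q).coeff m = Φ (Q.coeff m) := fun m =>
    MvPolynomial.coeff_map _ _ _
  have hAn : ∀ m, AnC ((MvPolynomial.map Φ Q).coeff m) := by
    intro m t0 b hb
    rw [hcoe]
    show AnalyticAt ℂ (fun t => Φ (Q.coeff m) (fun l => b l t)) t0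
    simp only [hΦ]
    exact eval₂_an (Q.coeff m) (hb q0) (h := fun j t => H (b (qy j) t))
      (fun j => AnalyticAt.fun_comp (H_analytic _) (hb (qy j)))
  -- evaluation
  have hev : ∀ (b : ι → ℂ) (u : Fin n → ℂ), evH b u (MvPolynomial.map Φ Q) =
      MvPolynomial.eval₂ (evalRingHom (b q0)) (Sum.elim u (fun j => H (b (qy j)))) P := by
    intro b u
    have h1 : ((evH b u).comp (MvPolynomial.map Φ)).comp
        (MvPolynomial.sumAlgEquiv ℂ[X] (Fin n) J).toRingEquiv.toRingHom =
        MvPolynomial.eval₂Hom (evalRingHom (b q0)) (Sum.elim u (fun j => H (b (qy j)))) := by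
      apply MvPolynomial.ringHom_ext
      · intro c
        simp only [RingHom.comp_apply]
        have h2 : (MvPolynomial.sumAlgEquiv ℂ[X] (Fin n) J).toRingEquiv.toRingHom
            (MvPolynomial.C c) = MvPolynomial.C (MvPolynomial.C c) := by
          simp
        rw [h2, MvPolynomial.map_C, MvPolynomial.eval₂Hom_C]
        unfold evH
        rw [RingHom.comp_apply, MvPolynomial.map_C, MvPolynomial.eval_C]
        show Φ (MvPolynomial.C c) b = _
        rw [hΦ, MvPolynomial.eval₂_C]
      · intro x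
        simp only [RingHom.comp_apply]
        rcases x with i | j
        · have h2 : (MvPolynomial.sumAlgEquiv ℂ[X] (Fin n) J).toRingEquiv.toRingHom
            (MvPolynomial.X (Sum.inl i)) = MvPolynomial.X i := by
            simp
          rw [h2, MvPolynomial.map_X, MvPolynomial.eval₂Hom_X']
          unfold evH
          rw [RingHom.comp_apply, MvPolynomial.map_X, MvPolynomial.eval_X]
          rfl
        · have h2 : (MvPolynomial.sumAlgEquiv ℂ[X] (Fin n) J).toRingEquiv.toRingHom
            (MvPolynomial.X (Sum.inr j)) = MvPolynomial.C (MvPolynomial.X j) := by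
            simp
          rw [h2, MvPolynomial.map_C, MvPolynomial.eval₂Hom_X']
          unfold evH
          rw [RingHom.comp_apply, MvPolynomial.map_C, MvPolynomial.eval_C]
          show Φ (MvPolynomial.X j) b = _
          rw [hΦ, MvPolynomial.eval₂_X]
          rfl
    exact congrArg (fun g : MvPolynomial (Fin n ⊕ J) ℂ[X] →+* ℂ => g P) h1
  have hrel : ∀ᶠ t in 𝓝 (0 : ℂ), evH (fun q => β q t) (fun i => σ i t) (MvPolynomial.map Φ Q) = 0 := by
    filter_upwards [hBn, hβf none, eventually_all.2 fun j : J => hβf (some (Sum.inr j))]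
      with t ht h1 h2
    rw [hev]
    have h3 : β q0 t = t := h1
    have h4 : (fun j => H (β (qy j) t)) = fun j => H (y j t) := by
      funext j
      rw [show β (qy j) t = y j t from h2 j]
    rw [h3, h4]
    exact hP t ht
  have hmain := main_germ n 0 β _ σ hG (MvPolynomial.map Φ Q) hAn hrel
  -- the theorem for algebraic functions
  have hq : ∀ m, Q.coeff m = 0 := by
    intro m
    set q := Q.coeff m with hqdef
    have h1 : ∀ᶠ t in 𝓝 (0 : ℂ), MvPolynomial.eval₂ (evalRingHom t) (fun j => H (y j t)) q = 0 := by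
      filter_upwards [hmain m, hβf none, eventually_all.2 fun j : J => hβf (some (Sum.inr j))]
        with t h0 h1 h2
      rw [hcoe, hΦ] at h0
      have h3 : β q0 t = t := h1
      have h4 : (fun j => H (β (qy j) t)) = fun j => H (y j t) := by
        funext j
        rw [show β (qy j) t = y j t from h2 j]
      rw [h3, h4] at h0
      exact h0
    have h2 : ∀ t ∈ B, MvPolynomial.eval₂ (evalRingHom t) (fun j => H (y j t)) q = 0 :=
      ball_eq (fun t ht => eval₂_an q analyticAt_id (h := fun j t => H (y j t))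
        (fun j => AnalyticAt.fun_comp (H_analytic _) (hy j t ht))) (fun t _ => analyticAt_const)
        h0B h1
    have key := Pool.Agent.W175.GF.gtF J B id y (q.support.image fun d : J →₀ ℕ => (fun j => d j : J → ℕ))
      (fun k t => (q.coeff (Finsupp.equivFunOnFinite.symm k)).eval t) Metric.isOpen_ball
      (convex_ball 0 r).isPreconnected ⟨0, h0B⟩ differentiableOn_id
      (fun j t ht => (hy j t ht).differentiableAt.differentiableWithinAt)
      (fun k _ => (Polynomial.differentiable _).differentiableOn)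
      (fun v h => hfn none v (by filter_upwards [hBn] with t ht using h t ht)) hyn
      (fun j => hya j) ?_ hH ?_
    · ext d : 1
      rw [MvPolynomial.coeff_zero]
      by_cases hd : d ∈ q.support
      · have h3 := key (fun j => d j) (Finset.mem_image_of_mem _ hd)
        have h4 : (Finsupp.equivFunOnFinite.symm (fun j => d j : J → ℕ)) = d :=
          Finsupp.equivFunOnFinite_symm_coe d
        rw [h4] at h3
        by_contra hne
        have h5 := zeros_finite hne
        have h6 : B ⊆ {v : ℂ | (q.coeff d).eval v = 0} := fun t ht => h3 t ht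
        exact (infinite_of_mem_nhds (0 : ℂ) hBn) (h5.subset h6)
      · exact MvPolynomial.notMem_support_iff.1 hd
    · intro k _
      refine ⟨X - C (q.coeff (Finsupp.equivFunOnFinite.symm k)), (prime_X_sub_C _).ne_zero,
        fun t _ => ?_⟩
      have := ev_X_sub_C (q.coeff (Finsupp.equivFunOnFinite.symm k)) t
        ((q.coeff (Finsupp.equivFunOnFinite.symm k)).eval t)
      rw [sub_self] at this
      exact this
    · intro t ht
      have h3 := h2 t ht
      rw [MvPolynomial.eval₂_eq'] at h3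
      rw [Finset.sum_image (fun a _ b _ hab => Finsupp.ext fun j => congrFun hab j)]
      rw [← h3]
      refine Finset.sum_congr rfl fun d _ => ?_
      have h4 : (Finsupp.equivFunOnFinite.symm (fun j => d j : J → ℕ)) = d :=
        Finsupp.equivFunOnFinite_symm_coe d
      rw [h4]
      rfl
  have hQ0 : Q = 0 := by
    ext m : 1
    rw [hq m, MvPolynomial.coeff_zero]
  exact (map_eq_zero_iff _ (MvPolynomial.sumAlgEquiv ℂ[X] (Fin n) J).injective).1 hQ0

end Pool.Agent.H489.GI.G
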