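import Pool.Agent.H489.GI.Mix1
import Pool.Graph.R_seed8.W253.GF.GTD

open Filter Topology

namespace Pool.Agent.H489.GI.G

open Pool.Agent.W253.GF (exists_generic poly_ne exists_dir res eval_res)

/-- **Mixed theorem in several variables.** -/
theorem mixD {d n : ℕ} {J : Type} [Fintype J] {Ω : Set (Fin d → ℂ)} (hΩo : IsOpen Ω)
    (hΩp : IsPreconnected Ω) (hΩn : Ω.Nonempty)
    {y : J → (Fin d → ℂ) → ℂ} {σ : Fin n → (Fin d → ℂ) → ℂ}
    (hy : ∀ j, AnalyticOnNhd ℂ (y j) Ω) (hσ : ∀ i, AnalyticOnNhd ℂ (σ i) Ω)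
    (hya : ∀ j, ∃ Q : Polynomial (MvPolynomial (Fin d) ℂ), Q ≠ 0 ∧
      ∀ t ∈ Ω, (Q.map (MvPolynomial.eval t)).eval (y j t) = 0)
    (hσa : ∀ i, ∃ Q : Polynomial (MvPolynomial (Fin d) ℂ), Q ≠ 0 ∧
      ∀ t ∈ Ω, (Q.map (MvPolynomial.eval t)).eval (H (σ i t)) = 0)
    (hyn : ∀ j, ∀ v : ℂ, ¬ ∀ t ∈ Ω, y j t = v) (hσn : ∀ i, ∀ v : ℂ, ¬ ∀ t ∈ Ω, σ i t = v)
    (hH : ∀ i j, i ≠ j → ∀ p q : ℚ, ¬ ∀ t ∈ Ω, y i t = p * y j t + q)
    (hσd : ∀ i i', i ≠ i' → ¬ ∀ t ∈ Ω, σ i t = σ i' t)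
    (P : MvPolynomial (Fin n ⊕ J) (MvPolynomial (Fin d) ℂ)) (hP : P ≠ 0) :
    ∃ t ∈ Ω, MvPolynomial.eval (Sum.elim (fun i => σ i t) (fun j => H (y j t)))
      (P.map (MvPolynomial.eval t)) ≠ 0 := by
  classical
  by_contra hcon
  push Not at hcon
  -- direction
  let z : Fin n ⊕ J → (Fin d → ℂ) → ℂ := Sum.elim σ y
  have hz : ∀ k, AnalyticOnNhd ℂ (z k) Ω := by
    rintro (i | j)
    · exact hσ i
    · exact hy j
  have hzn : ∀ k, ∀ v : ℂ, ¬ ∀ t ∈ Ω, z k t = v := by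
    rintro (i | j)
    · exact hσn i
    · exact hyn j
  let e := Fintype.equivFin (Fin n ⊕ J)
  obtain ⟨v, hv'⟩ := exists_dir hΩo hΩp (fun k => z (e.symm k)) (fun k => hz _) (fun k => hzn _)
  have hv : ∀ k, ∃ t ∈ Ω, fderiv ℂ (z k) t v ≠ 0 := by
    intro k
    have := hv' (e k)
    simpa using this
  choose Qy hQy0 hQye using hya
  choose Qs hQs0 hQse using hσa
  -- a coefficient of `P`
  obtain ⟨k0, hk0⟩ := MvPolynomial.ne_zero_iff.1 hP
  have hq : ∀ Q : Polynomial (MvPolynomial (Fin d) ℂ), Q ≠ 0 → ∃ m, Q.coeff m ≠ 0 := by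
    intro Q hQ
    by_contra hc
    push Not at hc
    exact hQ (Polynomial.ext (fun m => by rw [hc m, Polynomial.coeff_zero]))
  choose my hmy using fun j => hq (Qy j) (hQy0 j)
  choose ms hms using fun i => hq (Qs i) (hQs0 i)
  -- generic point
  let HH : Set ((Fin d → ℂ) → ℂ) :=
    Set.range (fun k : Fin n ⊕ J => fun t => fderiv ℂ (z k) t v) ∪
    (Set.range (fun x : {ij : J × J // ij.1 ≠ ij.2} × ℚ × ℚ => fun t =>
      y x.1.1.1 t - ((x.2.1 : ℂ) * y x.1.1.2 t + (x.2.2 : ℂ))) ∪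
    (Set.range (fun x : {ij : Fin n × Fin n // ij.1 ≠ ij.2} => fun t =>
      σ x.1.1 t - σ x.1.2 t) ∪
    ({fun t => MvPolynomial.eval t (P.coeff k0)} ∪
    (Set.range (fun j : J => fun t => MvPolynomial.eval t ((Qy j).coeff (my j))) ∪
    Set.range (fun i : Fin n => fun t => MvPolynomial.eval t ((Qs i).coeff (ms i)))))))
  have hHc : HH.Countable :=
    (Set.countable_range _).union ((Set.countable_range _).union
      ((Set.countable_range _).union ((Set.countable_singleton _).union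
        ((Set.countable_range _).union (Set.countable_range _)))))
  have hpoly : ∀ p : MvPolynomial (Fin d) ℂ,
      AnalyticOnNhd ℂ (fun t : Fin d → ℂ => MvPolynomial.eval t p) Ω := fun p =>
    (AnalyticOnNhd.eval_mvPolynomial p).mono (Set.subset_univ _)
  obtain ⟨t0, ht0Ω, ht0⟩ := exists_generic hΩo hΩp hΩn HH hHc (by
    rintro h (⟨i, rfl⟩ | ⟨x, rfl⟩ | ⟨x, rfl⟩ | rfl | ⟨i, rfl⟩ | ⟨i, rfl⟩)
    · exact (ContinuousLinearMap.apply ℂ ℂ v).comp_analyticOnNhd (hz i).fderiv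
    · exact (hy _).sub ((analyticOnNhd_const.mul (hy _)).add analyticOnNhd_const)
    · exact (hσ _).sub (hσ _)
    · exact hpoly _
    · exact hpoly _
    · exact hpoly _) (by
    rintro h (⟨i, rfl⟩ | ⟨x, rfl⟩ | ⟨x, rfl⟩ | rfl | ⟨i, rfl⟩ | ⟨i, rfl⟩)
    · exact hv i
    · have h1 := hH x.1.1.1 x.1.1.2 x.1.2 x.2.1 x.2.2
      push Not at h1
      obtain ⟨t, ht, ht2⟩ := h1
      exact ⟨t, ht, sub_ne_zero.2 ht2⟩
    · have h1 := hσd x.1.1 x.1.2 x.2
      push Not at h1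
      obtain ⟨t, ht, ht2⟩ := h1
      exact ⟨t, ht, sub_ne_zero.2 ht2⟩
    · exact poly_ne hΩo hΩn _ hk0
    · exact poly_ne hΩo hΩn _ (hmy i)
    · exact poly_ne hΩo hΩn _ (hms i))
  have g1 : ∀ k, fderiv ℂ (z k) t0 v ≠ 0 := fun k => ht0 _ (Or.inl ⟨k, rfl⟩)
  have g2 : ∀ i j, i ≠ j → ∀ p q : ℚ, y i t0 ≠ p * y j t0 + q := by
    intro i j hij p q
    have := ht0 _ (Or.inr (Or.inl ⟨(⟨(i, j), hij⟩, p, q), rfl⟩))
    exact sub_ne_zero.1 this
  have g3 : ∀ i i', i ≠ i' → σ i t0 ≠ σ i' t0 := by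
    intro i i' hii
    have := ht0 _ (Or.inr (Or.inr (Or.inl ⟨⟨(i, i'), hii⟩, rfl⟩)))
    exact sub_ne_zero.1 this
  have g4 : MvPolynomial.eval t0 (P.coeff k0) ≠ 0 :=
    ht0 _ (Or.inr (Or.inr (Or.inr (Or.inl rfl))))
  have g5 : ∀ j, MvPolynomial.eval t0 ((Qy j).coeff (my j)) ≠ 0 := fun i =>
    ht0 _ (Or.inr (Or.inr (Or.inr (Or.inr (Or.inl ⟨i, rfl⟩)))))
  have g6 : ∀ i, MvPolynomial.eval t0 ((Qs i).coeff (ms i)) ≠ 0 := fun i =>
    ht0 _ (Or.inr (Or.inr (Or.inr (Or.inr (Or.inr ⟨i, rfl⟩)))))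
  -- the line
  let ℓ : ℂ → (Fin d → ℂ) := fun u => t0 + u • v
  have hℓ0 : ℓ 0 = t0 := by simp [ℓ]
  have hℓd : Differentiable ℂ ℓ := by
    intro u
    exact (differentiableAt_id.smul_const v).const_add t0
  have hℓa : ∀ u, AnalyticAt ℂ ℓ u := fun u => hℓd.analyticAt u
  have hℓc : Continuous ℓ := hℓd.continuous
  have hnear : ∀ᶠ u in 𝓝 (0 : ℂ), ℓ u ∈ Ω :=
    hℓc.continuousAt.preimage_mem_nhds (hΩo.mem_nhds (by rw [hℓ0]; exact ht0Ω))
  obtain ⟨r, hr0, hr⟩ := Metric.eventually_nhds_iff_ball.1 hnear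
  have h0B : (0 : ℂ) ∈ Metric.ball (0 : ℂ) r := Metric.mem_ball_self hr0
  have hnc : ∀ k, ∀ w : ℂ, ¬ ∀ u ∈ Metric.ball (0 : ℂ) r, z k (ℓ u) = w := by
    intro k w hw
    have h1 : HasDerivAt (fun u => z k (ℓ u)) (fderiv ℂ (z k) t0 v) 0 := by
      have h2 : HasFDerivAt (z k) (fderiv ℂ (z k) t0) (ℓ 0) := by
        rw [hℓ0]
        exact ((hz k) t0 ht0Ω).differentiableAt.hasFDerivAt
      have h3 : HasDerivAt ℓ v 0 := by
        have h := (hasDerivAt_id (0 : ℂ)).smul_const v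
        rw [one_smul] at h
        exact h.const_add t0
      exact h2.comp_hasDerivAt 0 h3
    have h4 : (fun u => z k (ℓ u)) =ᶠ[𝓝 0] fun _ => w := by
      filter_upwards [Metric.ball_mem_nhds (0 : ℂ) hr0] with u hu
      exact hw u hu
    have h5 := h4.hasDerivAt_iff.1 h1
    exact g1 k (h5.unique (hasDerivAt_const 0 w))
  have hrel : ∀ (Q : Polynomial (MvPolynomial (Fin d) ℂ)) (m : ℕ) (w : (Fin d → ℂ) → ℂ),
      MvPolynomial.eval t0 (Q.coeff m) ≠ 0 →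
      (∀ t ∈ Ω, (Q.map (MvPolynomial.eval t)).eval (w t) = 0) →
      ∃ Q' : Polynomial (Polynomial ℂ), Q' ≠ 0 ∧
        ∀ u ∈ Metric.ball (0 : ℂ) r, ev Q' u (w (ℓ u)) = 0 := by
    intro Q m w hm hw
    refine ⟨Q.map (res t0 v : MvPolynomial (Fin d) ℂ →+* Polynomial ℂ), ?_, ?_⟩
    · intro h
      have h1 := congrArg (fun p => Polynomial.coeff p m) h
      simp only [Polynomial.coeff_map, Polynomial.coeff_zero] at h1
      have h2 := eval_res t0 v (Q.coeff m) 0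
      have h3 : res t0 v (Q.coeff m) = 0 := h1
      rw [h3, Polynomial.eval_zero, zero_smul, add_zero] at h2
      exact hm h2.symm
    · intro u hu
      have h1 := hw (ℓ u) (hr u hu)
      have h2 : Polynomial.map (Polynomial.evalRingHom u)
          (Q.map (res t0 v : MvPolynomial (Fin d) ℂ →+* Polynomial ℂ)) =
          Q.map (MvPolynomial.eval (ℓ u)) := by
        rw [Polynomial.map_map]
        congr 1
        apply RingHom.ext
        intro p
        exact eval_res t0 v p u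
      unfold ev
      rw [← Polynomial.map_evalRingHom_eval]
      show ((Polynomial.map (Polynomial.evalRingHom u)
          (Q.map (res t0 v : MvPolynomial (Fin d) ℂ →+* Polynomial ℂ))).eval (w (ℓ u))) = 0
      rw [h2, h1]
  have key := mix1 hr0 (y := fun j u => y j (ℓ u)) (σ := fun i u => σ i (ℓ u))
    (fun j u hu => AnalyticAt.fun_comp (hy j (ℓ u) (hr u hu)) (hℓa u))
    (fun i u hu => AnalyticAt.fun_comp (hσ i (ℓ u) (hr u hu)) (hℓa u))
    (fun j => hrel (Qy j) (my j) (y j) (g5 j) (hQye j))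
    (fun i => hrel (Qs i) (ms i) (fun t => H (σ i t)) (g6 i) (hQse i))
    (fun j => hnc (Sum.inr j)) (fun i => hnc (Sum.inl i))
    (fun i j hij p q h => g2 i j hij p q (by
      have h1 := h 0 h0B
      simp only [hℓ0] at h1
      exact h1))
    (fun i i' hii h => g3 i i' hii (by
      have h1 := h 0 h0B
      simp only [hℓ0] at h1
      exact h1))
    (P.map (res t0 v : MvPolynomial (Fin d) ℂ →+* Polynomial ℂ)) (by
      intro u hu
      have h1 := hcon (ℓ u) (hr u hu)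
      rw [MvPolynomial.eval₂_eq_eval_map, MvPolynomial.map_map]
      have h2 : (Polynomial.evalRingHom u).comp
          (res t0 v : MvPolynomial (Fin d) ℂ →+* Polynomial ℂ) = MvPolynomial.eval (ℓ u) := by
        apply RingHom.ext
        intro p
        exact eval_res t0 v p u
      rw [h2]
      exact h1)
  have h1 := congrArg (MvPolynomial.coeff k0) key
  rw [MvPolynomial.coeff_map, MvPolynomial.coeff_zero] at h1
  have h2 := eval_res t0 v (P.coeff k0) 0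
  have h3 : res t0 v (P.coeff k0) = 0 := h1
  rw [h3, Polynomial.eval_zero, zero_smul, add_zero] at h2
  exact g4 h2.symm

end Pool.Agent.H489.GI.G
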