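import Pool.Agent.H489.GI.MixD
import Pool.Graph.R_seed8.TH814.GD.AlgMain

open Filter Topology Set Module
open scoped Polynomial

namespace Pool.Agent.H489.GI.G

open Pool.Agent.TH814.GD (Thin thin_union thin_local thin_univ thin_zero rs rs_cont HH S3 S3_graph
  const_alg2 reindex_rel sum_eval' indep_le simple_rel exists_rel mvc pc)
open Pool.Agent.TH814.GS (charZero_of)

variable {n m : ℕ}

/-- the parameters: `1 / Γ(z_i)` for `i ∈ S` and `z_i` for the other `i` -/
noncomputable def wS (S : Finset (Fin n)) (z : Fin n → ℂ) : Fin n → ℂ :=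
  fun i => if i ∈ S then H (z i) else z i

/-- the other functions: `z_i` for `i ∈ S` and `1 / Γ(z_i)` for the other `i` -/
noncomputable def wT (S : Finset (Fin n)) (z : Fin n → ℂ) : Fin n → ℂ :=
  fun i => if i ∈ S then z i else H (z i)

lemma H_cont : Continuous H := H_diff.continuous

lemma wS_cont (S : Finset (Fin n)) : Continuous (wS S) := by
  refine continuous_pi fun i => ?_
  unfold wS
  by_cases h : i ∈ S
  · simp only [h, if_true]
    exact H_cont.comp (continuous_apply i)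
  · simp only [h, if_false]
    exact continuous_apply i

lemma local_thin' {I : Finset (Fin n)} {ρ : (Fin n → ℂ) → (↥I → ℂ)} (hρ : Continuous ρ)
    {z : Fin n → ℂ} {Ψ : (↥I → ℂ) → (Fin n → ℂ)}
    (hΨ : AnalyticAt ℂ Ψ (ρ z)) {S : Set (Fin n → ℂ)} {T : Set (↥I → ℂ)}
    (h1 : ∀ᶠ z' in 𝓝 z, z' ∈ S → Ψ (ρ z') = z' ∧ ρ z' ∈ T) (hT : Thin m T) :
    ∃ t ∈ 𝓝[S] z, Thin m t := by
  obtain ⟨ε, hε, hball⟩ := Metric.eventually_nhds_iff_ball.1 hΨ.eventually_analyticAt
  have h2 : ∀ᶠ z' in 𝓝 z, ρ z' ∈ Metric.ball (ρ z) ε :=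
    hρ.continuousAt.eventually (Metric.ball_mem_nhds _ hε)
  refine ⟨_, inter_mem (mem_nhdsWithin_of_mem_nhds (h1.and h2)) self_mem_nhdsWithin,
    (hT.image Metric.isOpen_ball (fun x hx => hball x hx)).mono ?_⟩
  rintro z' ⟨⟨h3, h4⟩, h5⟩
  exact ⟨ρ z', ⟨(h3 h5).2, h4⟩, (h3 h5).1⟩

variable {F : Type} [Field F] [Algebra F ℂ]

/-- points over given graphs of algebraic functions, with given critical coordinates -/
def S5 (S D : Finset (Fin n)) (c : Fin n → ℂ) (I : Finset (Fin n))
    (P : Fin n → (MvPolynomial ↥I F)[X]) : Set (Fin n → ℂ) :=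
  {z | wS S z ∈ S3 I P ∧ (∀ i ∈ D, z i = c i) ∧ ∀ i ∈ S, i ∉ D → deriv H (z i) ≠ 0}

lemma S5_graph {S D : Finset (Fin n)} {c : Fin n → ℂ} {I : Finset (Fin n)}
    {P : Fin n → (MvPolynomial ↥I F)[X]} {z : Fin n → ℂ} (hz : z ∈ S5 S D c I P) :
    ∃ (Θ Ψ : (↥I → ℂ) → (Fin n → ℂ)), AnalyticAt ℂ Θ (rs I (wS S z)) ∧
      AnalyticAt ℂ Ψ (rs I (wS S z)) ∧ Θ (rs I (wS S z)) = wS S z ∧ Ψ (rs I (wS S z)) = z ∧
      (∀ᶠ z' in 𝓝 z, z' ∈ S5 S D c I P → Θ (rs I (wS S z')) = wS S z' ∧
        Ψ (rs I (wS S z')) = z') ∧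
      (∀ x, ∀ i : ↥I, Θ x i = x i) ∧
      (∀ᶠ x in 𝓝 (rs I (wS S z)), (∀ j, j ∉ I → HH (P j) (x, Θ x j) = 0) ∧
        ∀ i, i ∉ D → (i ∈ S → H (Ψ x i) = Θ x i) ∧ (i ∉ S → Ψ x i = Θ x i)) := by
  classical
  obtain ⟨Θ, h1, h2, h3, h4, h5⟩ := S3_graph hz.1
  have hΘ : ∀ i, AnalyticAt ℂ (fun x => Θ x i) (rs I (wS S z)) := fun i =>
    (analyticAt_pi_iff.1 h1) i
  have hΘz : ∀ i, i ∈ S → Θ (rs I (wS S z)) i = H (z i) := by
    intro i hi
    rw [h2]
    simp only [wS, hi, if_true]
  refine ⟨Θ, fun x i => if i ∈ D then c i else if i ∈ S then sec (z i) (Θ x i) else Θ x i,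
    h1, ?_, h2, ?_, ?_, h4, ?_⟩
  · rw [analyticAt_pi_iff]
    intro i
    by_cases hD : i ∈ D
    · simp only [hD, if_true]
      exact analyticAt_const
    · by_cases hS : i ∈ S
      · simp only [hD, hS, if_true, if_false]
        have h6 := (sec_spec (hz.2.2 i hS hD)).1
        rw [← hΘz i hS] at h6
        exact AnalyticAt.fun_comp h6 (hΘ i)
      · simp only [hD, hS, if_false]
        exact hΘ i
  · funext i
    by_cases hD : i ∈ D
    · simp only [hD, if_true]
      exact (hz.2.1 i hD).symm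
    · by_cases hS : i ∈ S
      · simp only [hD, hS, if_true, if_false]
        rw [hΘz i hS]
        exact (sec_spec (hz.2.2 i hS hD)).2.1
      · simp only [hD, hS, if_false]
        rw [h2]
        simp only [wS, hS, if_false]
  · have e1 : ∀ᶠ z' in 𝓝 z, wS S z' ∈ S3 I P → Θ (rs I (wS S z')) = wS S z' :=
      (wS_cont S).continuousAt.eventually h3
    have e2 : ∀ᶠ z' in 𝓝 z, ∀ i, i ∈ S → i ∉ D → sec (z i) (H (z' i)) = z' i := by
      rw [eventually_all]
      intro i
      by_cases hS : i ∈ S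
      · by_cases hD : i ∈ D
        · exact Eventually.of_forall fun _ _ h => absurd hD h
        · have h6 := (sec_spec (hz.2.2 i hS hD)).2.2.2
          filter_upwards [(continuous_apply i).continuousAt.eventually h6] with z' hz' _ _ using hz'
      · exact Eventually.of_forall fun _ h => absurd h hS
    filter_upwards [e1, e2] with z' a1 a2 hz'
    have a3 := a1 hz'.1
    refine ⟨a3, ?_⟩
    funext i
    by_cases hD : i ∈ D
    · simp only [hD, if_true]
      exact (hz'.2.1 i hD).symm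
    · by_cases hS : i ∈ S
      · simp only [hD, hS, if_true, if_false]
        rw [a3]
        simp only [wS, hS, if_true]
        exact a2 i hS hD
      · simp only [hD, hS, if_false]
        rw [a3]
        simp only [wS, hS, if_false]
  · have e1 : ∀ᶠ x in 𝓝 (rs I (wS S z)), ∀ i, i ∈ S → i ∉ D → H (sec (z i) (Θ x i)) = Θ x i := by
      rw [eventually_all]
      intro i
      by_cases hS : i ∈ S
      · by_cases hD : i ∈ D
        · exact Eventually.of_forall fun _ _ h => absurd hD h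
        · have h6 := (sec_spec (hz.2.2 i hS hD)).2.2.1
          rw [← hΘz i hS] at h6
          filter_upwards [(hΘ i).continuousAt.eventually h6] with x hx _ _ using hx
      · exact Eventually.of_forall fun _ h => absurd h hS
    filter_upwards [h5, e1] with x a1 a2
    refine ⟨a1, fun i hD => ⟨fun hS => ?_, fun hS => ?_⟩⟩
    · simp only [hD, hS, if_true, if_false]
      exact a2 i hS hD
    · simp only [hD, hS, if_false]

lemma S5_thin (S D : Finset (Fin n)) (c : Fin n → ℂ) (I : Finset (Fin n))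
    (P : Fin n → (MvPolynomial ↥I F)[X]) (hI : I.card ≤ m) : Thin m (S5 S D c I P) := by
  apply thin_local
  intro z hz
  obtain ⟨Θ, Ψ, -, h1, -, -, h3, -, -⟩ := S5_graph hz
  refine local_thin' (ρ := fun z => rs I (wS S z)) ((rs_cont I).comp (wS_cont S)) h1
    (T := univ) ?_ (thin_univ ↥I (by rwa [Fintype.card_coe]))
  filter_upwards [h3] with z' hz' h
  exact ⟨(hz' h).2, mem_univ _⟩

/-- the values of the functions under consideration -/
noncomputable def gw (S I T : Finset (Fin n)) (z : Fin n → ℂ) : ↥I ⊕ ↥T → ℂ :=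
  Sum.elim (rs I (wS S z)) (fun t => wT S z t)

/-- points on given graphs of algebraic functions with one relation more -/
def S6 (S D : Finset (Fin n)) (c : Fin n → ℂ) (I T : Finset (Fin n))
    (P : Fin n → (MvPolynomial ↥I F)[X]) (Q : MvPolynomial (↥I ⊕ ↥T) F) : Set (Fin n → ℂ) :=
  {z | z ∈ S5 S D c I P ∧ (∀ t ∈ T, ¬ IsAlgebraic F (wS S z t)) ∧
    (∀ i j, i ≠ j → i ∉ S → j ∉ S → ∀ p q : ℚ, z i ≠ p * z j + q) ∧
    (∀ i j, i ≠ j → i ∈ S → j ∈ S → z i ≠ z j) ∧ MvPolynomial.aeval (gw S I T z) Q = 0}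

lemma S6_thin {S D : Finset (Fin n)} (hDS : D ⊆ S) {c : Fin n → ℂ} {I T : Finset (Fin n)}
    (hI : I.card ≤ m + 1) (P : Fin n → (MvPolynomial ↥I F)[X])
    {Q : MvPolynomial (↥I ⊕ ↥T) F} (hQ : Q ≠ 0) : Thin m (S6 S D c I T P Q) := by
  classical
  have hIc : Fintype.card ↥I ≤ m + 1 := by rwa [Fintype.card_coe]
  apply thin_local
  rintro z ⟨hz, hz1, hz2, hz4, hz3⟩
  obtain ⟨Θ, Ψ, a0, a1, b2, a2, a3, a4, a5⟩ := S5_graph hz
  obtain ⟨ε, hε, hball⟩ := Metric.eventually_nhds_iff_ball.1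
    ((a0.eventually_analyticAt.and a1.eventually_analyticAt).and a5)
  set x0 : ↥I → ℂ := rs I (wS S z) with hx0
  set V := Metric.ball x0 ε with hVdef
  have hV : IsOpen V := Metric.isOpen_ball
  have hVc : Convex ℝ V := convex_ball _ _
  have hVp : IsPreconnected V := hVc.isPreconnected
  have hzV : x0 ∈ V := Metric.mem_ball_self hε
  have hρc : Continuous (fun z => rs I (wS S z)) := (rs_cont I).comp (wS_cont S)
  have hθ : ∀ j, AnalyticOnNhd ℂ (fun x => Θ x j) V := fun j x hx =>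
    (analyticAt_pi_iff.1 (hball x hx).1.1) j
  have hψ : ∀ j, AnalyticOnNhd ℂ (fun x => Ψ x j) V := fun j x hx =>
    (analyticAt_pi_iff.1 (hball x hx).1.2) j
  have hVn : ∀ᶠ z' in 𝓝 z, rs I (wS S z') ∈ V :=
    hρc.continuousAt.eventually (hV.mem_nhds hzV)
  -- relations for all `Θ x j`
  set P' : Fin n → (MvPolynomial ↥I F)[X] := fun j =>
    if hj : j ∈ I then Polynomial.X - Polynomial.C (MvPolynomial.X ⟨j, hj⟩) else P j with hP'
  have hP'0 : ∀ j, P' j ≠ 0 := by
    intro j
    by_cases hj : j ∈ I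
    · simp only [hP', hj, dite_true]
      exact Polynomial.X_sub_C_ne_zero _
    · simp only [hP', hj, dite_false]
      exact (hz.1 j hj).1
  have hP'e : ∀ j, ∀ x ∈ V, HH (P' j) (x, Θ x j) = 0 := by
    intro j x hx
    by_cases hj : j ∈ I
    · have e1 := a4 x ⟨j, hj⟩
      simp only [hP', hj, dite_true]
      unfold HH
      rw [Polynomial.eval₂_sub, Polynomial.eval₂_X, Polynomial.eval₂_C]
      simp only at e1
      rw [e1]
      simp
    · simp only [hP', hj, dite_false]
      exact (hball x hx).2.1 j hj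
  have hΘc : ∀ t ∈ T, ∀ v : ℂ, ¬ ∀ x ∈ V, Θ x t = v := by
    intro t ht v hv
    apply hz1 t ht
    have hv0 : v = wS S z t := by
      have := hv x0 hzV
      rw [b2] at this
      exact this.symm
    rw [← hv0]
    refine const_alg2 hV ⟨_, hzV⟩ (hP'0 t) ?_
    intro x hx
    have h1 := hP'e t x hx
    rw [hv x hx] at h1
    exact h1
  -- a critical coordinate
  by_cases hTD : ∃ t ∈ T, t ∈ D
  · obtain ⟨t, htT, htD⟩ := hTD
    have h1 : ∃ x ∈ V, Θ x t - H (c t) ≠ 0 := by
      by_contra hcon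
      push Not at hcon
      exact hΘc t htT (H (c t)) fun x hx => sub_eq_zero.1 (hcon x hx)
    refine local_thin' hρc a1 ?_ (thin_zero hV hVp
      ((hθ t).sub (fun x _ => analyticAt_const)) h1 hIc)
    filter_upwards [a3, hVn] with z' b1 b2 hz'
    have b3 := b1 hz'.1
    refine ⟨b3.2, b2, ?_⟩
    show Θ (rs I (wS S z')) t - H (c t) = 0
    rw [b3.1]
    simp only [wS, hDS htD, if_true]
    rw [hz'.1.2.1 t htD, sub_self]
  push Not at hTD
  -- the function
  set G : (↥I → ℂ) → (↥I ⊕ ↥T → ℂ) := fun x => Sum.elim (fun i => Θ x i)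
    (fun t => if (t : Fin n) ∈ S then Ψ x t else H (Θ x t)) with hG
  have hh : AnalyticOnNhd ℂ (fun x : ↥I → ℂ => MvPolynomial.aeval (G x) Q) V := by
    refine AnalyticOnNhd.aeval_mvPolynomial (A := F) ?_ Q
    rintro (i | t)
    · exact hθ i
    · by_cases ht : (t : Fin n) ∈ S
      · simp only [hG, Sum.elim_inr, ht, if_true]
        exact hψ t
      · simp only [hG, Sum.elim_inr, ht, if_false]
        exact fun x hx => AnalyticAt.fun_comp (H_analytic _) (hθ t x hx)
  by_cases hA : ∃ x ∈ V, MvPolynomial.aeval (G x) Q ≠ 0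
  · refine local_thin' hρc a1 ?_ (thin_zero hV hVp hh hA hIc)
    filter_upwards [a3, hVn] with z' b1 b2 hz'
    have b3 := b1 hz'.1
    refine ⟨b3.2, b2, ?_⟩
    have h1 : G (rs I (wS S z')) = gw S I T z' := by
      funext s
      rcases s with i | t
      · simp only [hG, gw, Sum.elim_inl]
        rw [b3.1]
        rfl
      · by_cases ht : (t : Fin n) ∈ S
        · simp only [hG, gw, Sum.elim_inr, ht, if_true, wT]
          rw [b3.2]
        · simp only [hG, gw, Sum.elim_inr, ht, if_false, wT]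
          rw [b3.1]
          simp only [wS, ht, if_false]
    show MvPolynomial.aeval (G (rs I (wS S z'))) Q = 0
    rw [h1]
    exact hz'.2.2.2.2
  exfalso
  push Not at hA
  -- reindexing
  set eI : Fin I.card ≃ ↥I := I.equivFin.symm with heI
  set K := {t : ↥T // (t : Fin n) ∈ S} with hK
  set eK : Fin (Fintype.card K) ≃ K := (Fintype.equivFin K).symm with heK
  set J := {t : ↥T // (t : Fin n) ∉ S} with hJ
  set ρ : (Fin I.card → ℂ) → (↥I → ℂ) := fun t i => t (eI.symm i) with hρ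
  have hρc' : Continuous ρ := continuous_pi fun i => continuous_apply _
  have hρa : AnalyticOnNhd ℂ ρ univ := by
    intro t _
    rw [analyticAt_pi_iff]
    intro i
    exact (ContinuousLinearMap.proj (R := ℂ) (φ := fun _ : Fin I.card => ℂ)
      (eI.symm i)).analyticAt _
  have hΩc : Convex ℝ (ρ ⁻¹' V) := by
    intro s hs t ht a b ha hb hab
    have e1 : ρ (a • s + b • t) = a • ρ s + b • ρ t := rfl
    change ρ (a • s + b • t) ∈ V
    rw [e1]
    exact hVc hs ht ha hb hab
  have hρs : ∀ x : ↥I → ℂ, ρ (fun k => x (eI k)) = x := by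
    intro x
    funext i
    simp only [hρ, Equiv.apply_symm_apply]
  have hbV : (fun k => x0 (eI k)) ∈ ρ ⁻¹' V := by
    rw [Set.mem_preimage, hρs]
    exact hzV
  set e : ↥I ⊕ ↥T → (Fin (Fintype.card K) ⊕ J) ⊕ Fin I.card := fun s =>
    Sum.elim (fun i : ↥I => Sum.inr (eI.symm i)) (fun t : ↥T => if ht : (t : Fin n) ∈ S then
      Sum.inl (Sum.inl (eK.symm ⟨t, ht⟩)) else Sum.inl (Sum.inr ⟨t, ht⟩)) s with he
  have hei : Function.Injective e := by
    rintro (i | i) (j | j) h
    · simp only [he, Sum.elim_inl, Sum.inr.injEq] at h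
      rw [eI.symm.injective h]
    · by_cases hj : (j : Fin n) ∈ S <;> simp [he, hj] at h
    · by_cases hi : (i : Fin n) ∈ S <;> simp [he, hi] at h
    · by_cases hi : (i : Fin n) ∈ S <;> by_cases hj : (j : Fin n) ∈ S
      · simp only [he, Sum.elim_inr, hi, hj, dite_true, Sum.inl.injEq] at h
        have h2 := congrArg Subtype.val (eK.symm.injective h)
        exact congrArg Sum.inr h2
      · simp [he, hi, hj] at h
      · simp [he, hi, hj] at h
      · simp only [he, Sum.elim_inr, hi, hj, dite_false, Sum.inl.injEq, Sum.inr.injEq] at h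
        exact congrArg Sum.inr (congrArg Subtype.val h)
  have hQ' : MvPolynomial.map (algebraMap F ℂ) Q ≠ 0 := fun h => hQ
      ((map_eq_zero_iff _ (MvPolynomial.map_injective _ (algebraMap F ℂ).injective)).1 h)
  have hR : MvPolynomial.sumAlgEquiv ℂ (Fin (Fintype.card K) ⊕ J) (Fin I.card)
      (MvPolynomial.rename e (MvPolynomial.map (algebraMap F ℂ) Q)) ≠ 0 := by
    intro h
    apply hQ'
    apply (map_eq_zero_iff _ (MvPolynomial.rename_injective _ hei)).1
    exact (map_eq_zero_iff _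
      (MvPolynomial.sumAlgEquiv ℂ (Fin (Fintype.card K) ⊕ J) (Fin I.card)).injective).1 h
  have halg : ∀ j, ∃ Q : Polynomial (MvPolynomial (Fin I.card) ℂ), Q ≠ 0 ∧
      ∀ t ∈ ρ ⁻¹' V, (Q.map (MvPolynomial.eval t)).eval (Θ (ρ t) j) = 0 := by
    intro j
    obtain ⟨Q', h1, h2⟩ := reindex_rel eI (hP'0 j)
    refine ⟨Q', h1, fun t ht => ?_⟩
    rw [h2]
    exact hP'e j (ρ t) ht
  have hTDn : ∀ t : ↥T, (t : Fin n) ∉ D := fun t => hTD t t.2
  obtain ⟨t, htΩ, hval⟩ := mixD (d := I.card) (J := J) (Ω := ρ ⁻¹' V) (hV.preimage hρc')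
    hΩc.isPreconnected ⟨_, hbV⟩
    (y := fun j t => Θ (ρ t) j.1) (σ := fun k t => Ψ (ρ t) (eK k).1)
    (fun j t ht => AnalyticAt.fun_comp (hθ j.1 (ρ t) ht) (hρa t (mem_univ _)))
    (fun k t ht => AnalyticAt.fun_comp (hψ (eK k).1 (ρ t) ht) (hρa t (mem_univ _)))
    (fun j => halg _)
    (by
      intro k
      obtain ⟨Q1, h1, h2⟩ := halg (eK k).1
      refine ⟨Q1, h1, fun t ht => ?_⟩
      rw [((hball (ρ t) ht).2.2 _ (hTDn _)).1 (eK k).2]
      exact h2 t ht)
    (by
      intro j v hv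
      refine hΘc j.1 j.1.2 v fun x hx => ?_
      have h1 := hv (fun k => x (eI k)) (by
        rw [Set.mem_preimage, hρs]
        exact hx)
      rw [hρs] at h1
      exact h1)
    (by
      intro k v hv
      refine hΘc (eK k).1 (eK k).1.2 (H v) fun x hx => ?_
      have h1 := hv (fun k => x (eI k)) (by
        rw [Set.mem_preimage, hρs]
        exact hx)
      rw [hρs] at h1
      rw [← ((hball x hx).2.2 _ (hTDn _)).1 (eK k).2, h1])
    (by
      intro i j hij p q h
      have h1 := h _ hbV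
      rw [hρs] at h1
      have h2 : ∀ i : J, Θ x0 i.1 = z i.1 := by
        intro i
        rw [b2]
        have := i.2
        simp only [wS, this, if_false]
      rw [h2, h2] at h1
      refine hz2 i.1 j.1 ?_ i.2 j.2 p q h1
      intro h3
      exact hij (Subtype.ext (Subtype.ext h3)))
    (by
      intro i j hij h
      have h1 := h _ hbV
      rw [hρs, a2] at h1
      refine hz4 (eK i).1 (eK j).1 ?_ (eK i).2 (eK j).2 h1
      intro h3
      exact hij (eK.injective (Subtype.ext (Subtype.ext h3))))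
    _ hR
  apply hval
  rw [sum_eval', MvPolynomial.eval_rename]
  have hfin : (Sum.elim (Sum.elim (fun k => Ψ (ρ t) (eK k).1) (fun j : J => H (Θ (ρ t) j.1))) t) ∘ e
      = G (ρ t) := by
    funext s
    rcases s with i | u
    · show t (eI.symm i) = Θ (ρ t) i
      rw [a4]
    · by_cases hu : (u : Fin n) ∈ S
      · simp only [he, hG, Function.comp, Sum.elim_inr, hu, dite_true, if_true, Sum.elim_inl,
          Equiv.apply_symm_apply]
      · simp only [he, hG, Function.comp, Sum.elim_inr, hu, dite_false, if_false, Sum.elim_inl]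
  rw [hfin, MvPolynomial.eval_map]
  exact hA (ρ t) htΩ

end Pool.Agent.H489.GI.G
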