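import Pool.Agent.H489.GI.Num

open Filter Topology Set Module
open scoped Polynomial

namespace Pool.Agent.H489.GI.G

open Pool.Agent.TH814.GD (Thin thin_union rs HH S3 indep_le simple_rel exists_rel mvc pc)

lemma crit_countable : {z : ℂ | deriv H z = 0}.Countable := by
  refine zeros_countable ?_ ⟨-(0 : ℕ), deriv_H_neg_nat 0⟩
  intro z
  exact (H_analytic z).deriv.differentiableAt

/-- `Γ(z_i)` for `i ∈ S` and `z_i` for the other `i`. -/
noncomputable def wG {n : ℕ} (S : Finset (Fin n)) (z : Fin n → ℂ) : Fin n → ℂ :=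
  fun i => if i ∈ S then Complex.Gamma (z i) else z i

lemma wS_eq {n : ℕ} (S : Finset (Fin n)) (z : Fin n → ℂ) (i : Fin n) :
    wS S z i = if i ∈ S then (wG S z i)⁻¹ else wG S z i := by
  by_cases h : i ∈ S <;> simp [wS, wG, h, H]

lemma wS_alg {F : Type} [Field F] [Algebra F ℂ] {n : ℕ} (S : Finset (Fin n)) (z : Fin n → ℂ)
    (i : Fin n) : IsAlgebraic F (wS S z i) ↔ IsAlgebraic F (wG S z i) := by
  rw [wS_eq]
  by_cases h : i ∈ S
  · simp only [h, if_true]
    exact IsAlgebraic.inv_iff
  · simp only [h, if_false]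

theorem main_num (F : Type) [Field F] [Algebra F ℂ] [Countable F] (n m : ℕ)
    (S : Finset (Fin n)) :
    Thin m {z : Fin n → ℂ |
      Algebra.trdeg F (IntermediateField.adjoin F (Set.range (wG S z))) ≤
        ((m + 1 : ℕ) : Cardinal) ∧
      (∀ i j, i ≠ j → i ∉ S → j ∉ S → ∀ p q : ℚ, z i ≠ p * z j + q) ∧
      (∀ i j, i ≠ j → i ∈ S → j ∈ S → z i ≠ z j) ∧
      Algebra.trdeg F (IntermediateField.adjoin F
        (Set.range z ∪ Set.range fun i => Complex.Gamma (z i))) <
          ((Nat.card {i // ¬ IsAlgebraic F (wG S z i)} + (m + 1) : ℕ) : Cardinal)} := by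
  classical
  have hcount : Countable {z : ℂ // deriv H z = 0} := by
    have := crit_countable
    exact this.to_subtype
  have hsub : {z : Fin n → ℂ |
      Algebra.trdeg F (IntermediateField.adjoin F (Set.range (wG S z))) ≤
        ((m + 1 : ℕ) : Cardinal) ∧
      (∀ i j, i ≠ j → i ∉ S → j ∉ S → ∀ p q : ℚ, z i ≠ p * z j + q) ∧
      (∀ i j, i ≠ j → i ∈ S → j ∈ S → z i ≠ z j) ∧
      Algebra.trdeg F (IntermediateField.adjoin F
        (Set.range z ∪ Set.range fun i => Complex.Gamma (z i))) <
          ((Nat.card {i // ¬ IsAlgebraic F (wG S z i)} + (m + 1) : ℕ) : Cardinal)} ⊆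
      ⋃ I : Finset (Fin n), ⋃ P : Fin n → (MvPolynomial ↥I F)[X], ⋃ D : Finset (Fin n),
        ⋃ (_ : D ⊆ S), ⋃ c : Fin n → Option {z : ℂ // deriv H z = 0},
        ((⋃ (_ : I.card ≤ m), S5 S D (fun i => (c i).elim 0 (fun x => x.1)) I P) ∪
          (⋃ T : Finset (Fin n), ⋃ Q : MvPolynomial (↥I ⊕ ↥T) F,
            ⋃ (_ : I.card = m + 1 ∧ Q ≠ 0),
              S6 S D (fun i => (c i).elim 0 (fun x => x.1)) I T P Q)) := by
    rintro z ⟨htr1, hz, hz', htr2⟩
    set K' := IntermediateField.adjoin F (Set.range (wG S z)) with hK'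
    set K := IntermediateField.adjoin F (Set.range z ∪ Set.range fun i => Complex.Gamma (z i))
      with hK
    have hwK' : ∀ i, wS S z i ∈ K' := by
      intro i
      have h1 : wG S z i ∈ K' := IntermediateField.subset_adjoin _ _ ⟨i, rfl⟩
      rw [wS_eq]
      by_cases h : i ∈ S
      · simp only [h, if_true]
        exact K'.inv_mem h1
      · simp only [h, if_false]
        exact h1
    have hzK : ∀ i, z i ∈ K := fun i => IntermediateField.subset_adjoin _ _ (Or.inl ⟨i, rfl⟩)
    have hGK : ∀ i, Complex.Gamma (z i) ∈ K := fun i =>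
      IntermediateField.subset_adjoin _ _ (Or.inr ⟨i, rfl⟩)
    have hHK : ∀ i, H (z i) ∈ K := fun i => K.inv_mem (hGK i)
    obtain ⟨I, hI, hmax⟩ := Finset.exists_max_image
      (Finset.univ.filter (fun I : Finset (Fin n) => AlgebraicIndependent F (rs I (wS S z))))
      Finset.card ⟨∅, by
        rw [Finset.mem_filter]
        refine ⟨Finset.mem_univ _, ?_⟩
        have : IsEmpty ↥(∅ : Finset (Fin n)) :=
          ⟨fun i => absurd i.2 (Finset.notMem_empty _)⟩
        exact algebraicIndependent_empty_type⟩
    rw [Finset.mem_filter] at hI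
    have hPj : ∀ j, j ∉ I → ∃ P : (MvPolynomial ↥I F)[X], P ≠ 0 ∧
        HH P (rs I (wS S z), wS S z j) = 0 ∧
        HH (Polynomial.derivative P) (rs I (wS S z), wS S z j) ≠ 0 := by
      intro j hj
      refine simple_rel hI.2 ?_
      intro h2
      have h3 := hmax (insert j I) (by
        rw [Finset.mem_filter]
        refine ⟨Finset.mem_univ _, ?_⟩
        have h4 : rs (insert j I) (wS S z) =
            (fun o : Option ↥I => o.elim (wS S z j) (rs I (wS S z))) ∘
            (fun i : ↥(insert j I) => if h : (i : Fin n) = j then none else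
              some ⟨i, (Finset.mem_insert.1 i.2).resolve_left h⟩) := by
          funext ⟨i, hi⟩
          by_cases h : i = j
          · subst h
            simp [rs]
          · simp [rs, h]
        rw [h4]
        refine h2.comp _ ?_
        rintro ⟨a, ha⟩ ⟨b, hb⟩ h
        by_cases h1 : a = j <;> by_cases h2 : b = j <;> simp_all)
      rw [Finset.card_insert_of_notMem hj] at h3
      omega
    choose! P hP using hPj
    have hS3 : wS S z ∈ S3 I P := fun j hj => hP j hj
    have hcard : I.card ≤ m + 1 := by
      have h1 := (indep_le K' (fun i : ↥I => hwK' i) hI.2).trans htr1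
      rw [Fintype.card_coe] at h1
      exact_mod_cast h1
    set D : Finset (Fin n) := S.filter (fun i => deriv H (z i) = 0) with hD
    set c : Fin n → Option {z : ℂ // deriv H z = 0} := fun i =>
      if h : deriv H (z i) = 0 then some ⟨z i, h⟩ else none with hc
    have hS5 : z ∈ S5 S D (fun i => (c i).elim 0 (fun x => x.1)) I P := by
      refine ⟨hS3, ?_, ?_⟩
      · intro i hi
        have h1 : deriv H (z i) = 0 := (Finset.mem_filter.1 hi).2
        simp only [hc, h1, dite_true, Option.elim_some]
      · intro i hiS hiD h1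
        exact hiD (Finset.mem_filter.2 ⟨hiS, h1⟩)
    refine mem_iUnion.2 ⟨I, mem_iUnion.2 ⟨P, mem_iUnion.2 ⟨D, mem_iUnion.2
      ⟨Finset.filter_subset _ _, mem_iUnion.2 ⟨c, ?_⟩⟩⟩⟩⟩
    by_cases hIm : I.card ≤ m
    · exact Or.inl (mem_iUnion.2 ⟨hIm, hS5⟩)
    · right
      have hIc : I.card = m + 1 := by omega
      set T : Finset (Fin n) := Finset.univ.filter (fun i => ¬ IsAlgebraic F (wS S z i)) with hT
      have hTc : T.card = Nat.card {i // ¬ IsAlgebraic F (wG S z i)} := by
        rw [Nat.card_eq_fintype_card, Fintype.card_subtype]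
        congr 1
        ext i
        simp only [hT, Finset.mem_filter, Finset.mem_univ, true_and, wS_alg]
      have hdep : ¬ AlgebraicIndependent F (gw S I T z) := by
        intro h
        have h1 := indep_le K (x := gw S I T z) (by
          rintro (i | t)
          · show wS S z i ∈ K
            unfold wS
            by_cases h : (i : Fin n) ∈ S
            · simp only [h, if_true]
              exact hHK _
            · simp only [h, if_false]
              exact hzK _
          · show wT S z t ∈ K
            unfold wT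
            by_cases h : (t : Fin n) ∈ S
            · simp only [h, if_true]
              exact hzK _
            · simp only [h, if_false]
              exact hHK _) h
        have h2 := h1.trans_lt htr2
        rw [Fintype.card_sum, Fintype.card_coe, Fintype.card_coe, hTc, hIc] at h2
        have h3 : m + 1 + Nat.card {i // ¬ IsAlgebraic F (wG S z i)} <
            Nat.card {i // ¬ IsAlgebraic F (wG S z i)} + (m + 1) := by exact_mod_cast h2
        omega
      obtain ⟨Q, hQ, hQ0⟩ := exists_rel hdep
      refine mem_iUnion.2 ⟨T, mem_iUnion.2 ⟨Q, mem_iUnion.2 ⟨⟨hIc, hQ⟩, hS5, ?_, hz, hz',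
        hQ0⟩⟩⟩
      intro t ht
      exact (Finset.mem_filter.1 ht).2
  refine Thin.mono ?_ hsub
  refine thin_union fun I => ?_
  have e1 : Countable (MvPolynomial ↥I F) := mvc _
  have e2 : Countable (MvPolynomial ↥I F)[X] := pc _
  refine thin_union fun P => thin_union fun D => thin_union fun hDS => thin_union fun c => ?_
  rw [union_eq_iUnion]
  refine thin_union fun b => ?_
  cases b
  · refine thin_union fun T => ?_
    have e3 : Countable (MvPolynomial (↥I ⊕ ↥T) F) := mvc _
    refine thin_union fun Q => thin_union fun h => S6_thin hDS h.1.le P h.2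
  · exact thin_union fun hI => S5_thin S D _ I P hI

end Pool.Agent.H489.GI.G
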