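import Pool.Agent.H489.GI.NumMain
import Pool.Graph.R_pool_sql_team_seeded_843ab51a.V11273.PV.G20

open Filter Topology Set Module
open scoped Polynomial

namespace Pool.Agent.H489.GI.G

open Pool.Agent.TH814.GD (invert sum_eval')
open Pool.Agent.Y890.MV (evM)

/-- `z_i` for `i ∈ S` and `Γ(z_i)` for the other `i`. -/
noncomputable def wC {n : ℕ} (S : Finset (Fin n)) (z : Fin n → ℂ) : Fin n → ℂ :=
  fun i => if i ∈ S then z i else Complex.Gamma (z i)

/-- **Mixed theorem, with the values of `Γ`.** -/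
theorem mixG {d n : ℕ} {Ω : Set (Fin d → ℂ)} (hΩo : IsOpen Ω) (hΩp : IsPreconnected Ω)
    (hΩn : Ω.Nonempty) (S : Finset (Fin n)) {z : Fin n → (Fin d → ℂ) → ℂ}
    (hz : ∀ i, AnalyticOnNhd ℂ (z i) Ω) (hpole : ∀ i, ∀ x ∈ Ω, ∀ m : ℕ, z i x ≠ -m)
    (halg : ∀ i, ∃ Q : Polynomial (MvPolynomial (Fin d) ℂ), Q ≠ 0 ∧
      ∀ t ∈ Ω, Q.eval₂ (MvPolynomial.eval t) (wG S (fun i => z i t) i) = 0)
    (hnc : ∀ i, ∀ v : ℂ, ∃ t ∈ Ω, z i t ≠ v)
    (hH : ∀ i j, i ≠ j → i ∉ S → j ∉ S → ∀ p q : ℚ, ∃ t ∈ Ω, z i t ≠ p * z j t + q)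
    (hD : ∀ i j, i ≠ j → i ∈ S → j ∈ S → ∃ t ∈ Ω, z i t ≠ z j t)
    (p : MvPolynomial (Fin n) (MvPolynomial (Fin d) ℂ))
    (hp : ∀ x ∈ Ω, evM (fun i x => wC S (fun i => z i x) i) x p = 0) : p = 0 := by
  classical
  by_contra hp0
  -- one polynomial in all variables
  set P₁ := (MvPolynomial.sumAlgEquiv ℂ (Fin n) (Fin d)).symm p with hP₁
  have hP₁0 : P₁ ≠ 0 := fun h => hp0 ((map_eq_zero_iff _
    (MvPolynomial.sumAlgEquiv ℂ (Fin n) (Fin d)).symm.injective).1 h)
  have hP₁e : ∀ (a : Fin n → ℂ) (b : Fin d → ℂ), MvPolynomial.eval (Sum.elim a b) P₁ =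
      MvPolynomial.eval a (p.map (MvPolynomial.eval b)) := by
    intro a b
    rw [← sum_eval', hP₁, AlgEquiv.apply_symm_apply]
  obtain ⟨P₂, hP₂0, hP₂⟩ := invert (fun s : Fin n ⊕ Fin d => ∃ i, i ∉ S ∧ s = Sum.inl i) P₁ hP₁0
  -- the relation between the values of `1 / Γ`
  have hrel : ∀ x ∈ Ω, MvPolynomial.eval (Sum.elim (wT S (fun i => z i x)) x) P₂ = 0 := by
    intro x hx
    refine hP₂ (Sum.elim (wC S (fun i => z i x)) x) _ ?_ ?_ ?_
    · rintro s ⟨i, hi, rfl⟩
      simp only [Sum.elim_inl, wT, wC, hi, if_false, H]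
      exact inv_mul_cancel₀ (Complex.Gamma_ne_zero (hpole i x hx))
    · rintro (i | i) hs
      · have hi : i ∈ S := by
          by_contra h
          exact hs ⟨i, h, rfl⟩
        simp only [Sum.elim_inl, wT, wC, hi, if_true]
      · rfl
    · rw [hP₁e]
      have h1 := hp x hx
      unfold evM at h1
      rw [MvPolynomial.eval₂_eq_eval_map] at h1
      exact h1
  -- reindexing
  set K := {i : Fin n // i ∈ S} with hK
  set eK : Fin (Fintype.card K) ≃ K := (Fintype.equivFin K).symm with heK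
  set J := {i : Fin n // i ∉ S} with hJ
  set e : Fin n ⊕ Fin d → (Fin (Fintype.card K) ⊕ J) ⊕ Fin d := fun s =>
    Sum.elim (fun i : Fin n => if h : i ∈ S then Sum.inl (Sum.inl (eK.symm ⟨i, h⟩)) else
      Sum.inl (Sum.inr ⟨i, h⟩)) (fun i : Fin d => Sum.inr i) s with he
  have hei : Function.Injective e := by
    rintro (i | i) (j | j) h
    · by_cases hi : i ∈ S <;> by_cases hj : j ∈ S
      · simp only [he, Sum.elim_inl, hi, hj, dite_true, Sum.inl.injEq] at h
        have h2 := congrArg Subtype.val (eK.symm.injective h)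
        exact congrArg Sum.inl h2
      · simp [he, hi, hj] at h
      · simp [he, hi, hj] at h
      · simp only [he, Sum.elim_inl, hi, hj, dite_false, Sum.inl.injEq, Sum.inr.injEq] at h
        exact congrArg Sum.inl (congrArg Subtype.val h)
    · by_cases hi : i ∈ S <;> simp [he, hi] at h
    · by_cases hj : j ∈ S <;> simp [he, hj] at h
    · simp only [he, Sum.elim_inr, Sum.inr.injEq] at h
      rw [h]
  have hR : MvPolynomial.sumAlgEquiv ℂ (Fin (Fintype.card K) ⊕ J) (Fin d)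
      (MvPolynomial.rename e P₂) ≠ 0 := by
    intro h
    apply hP₂0
    apply (map_eq_zero_iff _ (MvPolynomial.rename_injective _ hei)).1
    exact (map_eq_zero_iff _
      (MvPolynomial.sumAlgEquiv ℂ (Fin (Fintype.card K) ⊕ J) (Fin d)).injective).1 h
  have halg' : ∀ i, ∃ Q : Polynomial (MvPolynomial (Fin d) ℂ), Q ≠ 0 ∧
      ∀ t ∈ Ω, (Q.map (MvPolynomial.eval t)).eval (wG S (fun i => z i t) i) = 0 := by
    intro i
    obtain ⟨Q, h1, h2⟩ := halg i
    refine ⟨Q, h1, fun t ht => ?_⟩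
    rw [Polynomial.eval_map]
    exact h2 t ht
  obtain ⟨t, htΩ, hval⟩ := mixD (d := d) (J := J) (Ω := Ω) hΩo hΩp hΩn
    (y := fun j t => z j.1 t) (σ := fun k t => z (eK k).1 t)
    (fun j => hz _) (fun k => hz _)
    (by
      intro j
      obtain ⟨Q, h1, h2⟩ := halg' j.1
      refine ⟨Q, h1, fun t ht => ?_⟩
      have h3 := h2 t ht
      simp only [wG, j.2, if_false] at h3
      exact h3)
    (by
      intro k
      obtain ⟨Q, h1, h2⟩ := halg' (eK k).1
      refine ⟨Q.reverse, ?_, fun t ht => ?_⟩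
      · rw [Ne, Polynomial.reverse_eq_zero]
        exact h1
      · have h3 := h2 t ht
        simp only [wG, (eK k).2, if_true] at h3
        have h4 : Complex.Gamma (z (eK k).1 t) ≠ 0 := Complex.Gamma_ne_zero (hpole _ t ht)
        rw [Polynomial.eval_map] at h3 ⊢
        have h5 : H (z (eK k).1 t) = (Complex.Gamma (z (eK k).1 t))⁻¹ := rfl
        rw [h5]
        let _ : Invertible (Complex.Gamma (z (eK k).1 t)) := invertibleOfNonzero h4
        have h6 := (Polynomial.eval₂_reverse_eq_zero_iff (MvPolynomial.eval t)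
          ((Complex.Gamma (z (eK k).1 t))) Q).2 h3
        rwa [invOf_eq_inv] at h6)
    (by
      intro j v hv
      obtain ⟨t, ht, h⟩ := hnc j.1 v
      exact h (hv t ht))
    (by
      intro k v hv
      obtain ⟨t, ht, h⟩ := hnc (eK k).1 v
      exact h (hv t ht))
    (by
      intro i j hij p q h
      obtain ⟨t, ht, h1⟩ := hH i.1 j.1 (fun h => hij (Subtype.ext h)) i.2 j.2 p q
      exact h1 (h t ht))
    (by
      intro i j hij h
      obtain ⟨t, ht, h1⟩ := hD (eK i).1 (eK j).1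
        (fun h => hij (eK.injective (Subtype.ext h))) (eK i).2 (eK j).2
      exact h1 (h t ht))
    _ hR
  apply hval
  rw [sum_eval', MvPolynomial.eval_rename]
  have hfin : (Sum.elim (Sum.elim (fun k => z (eK k).1 t) (fun j : J => H (z j.1 t))) t) ∘ e
      = Sum.elim (wT S (fun i => z i t)) t := by
    funext s
    rcases s with i | u
    · by_cases hu : i ∈ S
      · simp only [he, Function.comp, Sum.elim_inl, hu, dite_true, Equiv.apply_symm_apply, wT,
          if_true]
      · simp only [he, Function.comp, Sum.elim_inl, Sum.elim_inr, hu, dite_false, wT, if_false]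
    · rfl
  rw [hfin]
  exact hrel t htΩ

end Pool.Agent.H489.GI.G
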