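import Pool.Agent.H489.GI.Basic

open Filter Topology

namespace Pool.Agent.H489.GI.G

/-- growth like that of `log k!` -/
structure Gr (L : ℕ → ℝ) : Prop where
  lo : ∀ k : ℕ, 1 ≤ k → Real.log k ≤ L (k + 1) - L k
  hi : ∀ k : ℕ, 1 ≤ k → L (k + 1) - L k ≤ Real.log (k + 1)

lemma log_nat_nonneg (k : ℕ) : 0 ≤ Real.log k := Real.log_natCast_nonneg k

lemma log_mono {j k : ℕ} (hj : 1 ≤ j) (hjk : j ≤ k) : Real.log j ≤ Real.log k :=
  Real.log_le_log (by exact_mod_cast hj) (by exact_mod_cast hjk)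

variable {L : ℕ → ℝ}

lemma Gr.lo' (hL : Gr L) {j k : ℕ} (hj : 1 ≤ j) (hjk : j ≤ k) :
    ((k : ℝ) - j) * Real.log j ≤ L k - L j := by
  induction k, hjk using Nat.le_induction with
  | base => simp
  | succ k hk ih =>
    have h1 := hL.lo k (by omega)
    have h2 := log_mono hj hk
    push_cast
    linarith

lemma Gr.hi' (hL : Gr L) {j k : ℕ} (hj : 1 ≤ j) (hjk : j ≤ k) :
    L k - L j ≤ ((k : ℝ) - j) * Real.log k := by
  induction k, hjk using Nat.le_induction with
  | base => simp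
  | succ k hk ih =>
    have h1 := hL.hi k (by omega)
    have h2 : Real.log k ≤ Real.log ((k + 1 : ℕ) : ℝ) := log_mono (by omega) (by omega)
    have h3 : (0 : ℝ) ≤ (k : ℝ) - j := by
      have : (j : ℝ) ≤ k := by exact_mod_cast hk
      linarith
    have h4 := mul_le_mul_of_nonneg_left h2 h3
    push_cast at h2 h4 ⊢
    linarith

lemma Gr.mono (hL : Gr L) {j k : ℕ} (hj : 1 ≤ j) (hjk : j ≤ k) : L j ≤ L k := by
  have h1 := hL.lo' hj hjk
  have h2 : (0 : ℝ) ≤ (k : ℝ) - j := by
    have : (j : ℝ) ≤ k := by exact_mod_cast hjk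
    linarith
  have := mul_nonneg h2 (log_nat_nonneg j)
  linarith

lemma Gr.up (hL : Gr L) {k : ℕ} (hk : 1 ≤ k) : L k ≤ |L 1| + k * Real.log k := by
  have h1 := hL.hi' le_rfl hk
  have h2 := le_abs_self (L 1)
  have h3 := log_nat_nonneg k
  push_cast at h1
  nlinarith

lemma Gr.low (hL : Gr L) {k : ℕ} (hk : 9 ≤ k) : (k : ℝ) / 4 * Real.log k - |L 1| ≤ L k := by
  have h1 := hL.lo' (j := k / 2) (k := k) (by omega) (by omega)
  have h2 := hL.mono (j := 1) (k := k / 2) le_rfl (by omega)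
  have h3 := neg_abs_le (L 1)
  have hkr : (9 : ℝ) ≤ k := by exact_mod_cast hk
  have h4 : ((k / 2 : ℕ) : ℝ) ≤ (k : ℝ) / 2 := Nat.cast_div_le
  have h5 : (k : ℝ) / 3 ≤ ((k / 2 : ℕ) : ℝ) := by
    have : k ≤ 3 * (k / 2) := by omega
    have : (k : ℝ) ≤ 3 * ((k / 2 : ℕ) : ℝ) := by exact_mod_cast this
    linarith
  have h6 : Real.log k / 2 ≤ Real.log ((k / 2 : ℕ) : ℝ) := by
    have h7 : Real.log ((k : ℝ) / 3) ≤ Real.log ((k / 2 : ℕ) : ℝ) :=
      Real.log_le_log (by linarith) h5
    rw [Real.log_div (by linarith) (by norm_num)] at h7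
    have h8 : 2 * Real.log 3 ≤ Real.log k := by
      rw [← Real.log_rpow (by norm_num)]
      refine Real.log_le_log (by positivity) ?_
      norm_num
      exact hk
    linarith
  have h7 := log_nat_nonneg k
  have h8 : (k : ℝ) / 2 * (Real.log k / 2) ≤ ((k : ℝ) - ((k / 2 : ℕ) : ℝ)) *
      Real.log ((k / 2 : ℕ) : ℝ) := by
    apply mul_le_mul (by linarith) h6 (by linarith) (by linarith)
  linarith

lemma ev_mul_log (X : ℝ) : ∀ᶠ k : ℕ in atTop, X < k * Real.log k := by
  have h : Tendsto (fun k : ℕ => (k : ℝ) * Real.log k) atTop atTop :=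
    tendsto_natCast_atTop_atTop.atTop_mul_atTop₀
      (Real.tendsto_log_atTop.comp tendsto_natCast_atTop_atTop)
  exact h.eventually_gt_atTop X

lemma ev_log (X : ℝ) : ∀ᶠ k : ℕ in atTop, X < Real.log k :=
  (Real.tendsto_log_atTop.comp tendsto_natCast_atTop_atTop).eventually_gt_atTop X

/-- comparable sizes -/
lemma Gr.ratio1 (hL : Gr L) {d : ℕ} (hd : 1 ≤ d) (C : ℝ) : ∀ᶠ k : ℕ in atTop, ∀ (m p q : ℕ),
    1 ≤ m → 1 ≤ p → p ≤ d → 1 ≤ q → q ≤ d → |(p : ℝ) * L k - q * L m| ≤ C →
    m ≤ 8 * d * k := by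
  have e1 := ev_mul_log ((d + 1) * |L 1| + C)
  filter_upwards [e1, eventually_ge_atTop 9] with k h1 h2 m p q hm hp hpd hq hqd hbad
  by_contra hcon
  push Not at hcon
  have hdr : (1 : ℝ) ≤ d := by exact_mod_cast hd
  have hkr : (9 : ℝ) ≤ k := by exact_mod_cast h2
  have hqr : (1 : ℝ) ≤ q := by exact_mod_cast hq
  have hpr : (0 : ℝ) ≤ p := Nat.cast_nonneg p
  have hpdr : (p : ℝ) ≤ d := by exact_mod_cast hpd
  have hmk : k ≤ m := by nlinarith
  have hlow := hL.low (k := m) (by omega)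
  have hup := hL.up (k := k) (by omega)
  have hmr : 8 * (d : ℝ) * k ≤ m := by exact_mod_cast hcon.le
  have h3 : (2 * d * k : ℝ) * Real.log k ≤ (m : ℝ) / 4 * Real.log m := by
    apply mul_le_mul (by linarith) (log_mono (by omega) hmk) (log_nat_nonneg k) (by positivity)
  have h4 : 0 ≤ (k : ℝ) * Real.log k := mul_nonneg (by linarith) (log_nat_nonneg k)
  have h5 : (d : ℝ) * (k * Real.log k) ≥ k * Real.log k := by nlinarith
  have h6 : (d : ℝ) * |L 1| + |L 1| + C < 2 * d * (k * Real.log k) := by nlinarith [abs_nonneg (L 1)]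
  have hLm : 0 ≤ L m := by
    have : |L 1| ≤ 2 * d * (k * Real.log k) := by
      nlinarith [abs_nonneg (L 1), (abs_nonneg _).trans hbad, mul_nonneg (by linarith : (0:ℝ) ≤ d) (abs_nonneg (L 1))]
    nlinarith
  have h7 : L m ≤ q * L m := by nlinarith
  have h8 := (abs_le.1 hbad).1
  have h9 : (p : ℝ) * L k ≤ d * (|L 1| + k * Real.log k) := by
    have : 0 ≤ |L 1| + k * Real.log k := by positivity
    calc (p : ℝ) * L k ≤ p * (|L 1| + k * Real.log k) := mul_le_mul_of_nonneg_left hup hpr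
      _ ≤ d * (|L 1| + k * Real.log k) := mul_le_mul_of_nonneg_right hpdr this
  nlinarith

lemma Gr.ratio2 (hL : Gr L) {d : ℕ} (hd : 1 ≤ d) (C : ℝ) : ∀ᶠ k : ℕ in atTop, ∀ (m p q : ℕ),
    1 ≤ m → 1 ≤ p → p ≤ d → 1 ≤ q → q ≤ d → |(p : ℝ) * L k - q * L m| ≤ C →
    k ≤ 8 * d * m := by
  have e1 := ev_mul_log (8 * ((d + 1) * |L 1| + C))
  filter_upwards [e1, eventually_ge_atTop 9] with k h1 h2 m p q hm hp hpd hq hqd hbad
  by_contra hcon
  push Not at hcon
  have hdr : (1 : ℝ) ≤ d := by exact_mod_cast hd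
  have hkr : (9 : ℝ) ≤ k := by exact_mod_cast h2
  have hpr : (1 : ℝ) ≤ p := by exact_mod_cast hp
  have hqr : (0 : ℝ) ≤ q := Nat.cast_nonneg q
  have hqdr : (q : ℝ) ≤ d := by exact_mod_cast hqd
  have hmk : m ≤ k := by nlinarith
  have hlow := hL.low (k := k) (by omega)
  have hup := hL.up (k := m) hm
  have hmr : 8 * (d : ℝ) * m ≤ k := by exact_mod_cast hcon.le
  have h3 : (m : ℝ) * Real.log m ≤ (m : ℝ) * Real.log k :=
    mul_le_mul_of_nonneg_left (log_mono hm hmk) (Nat.cast_nonneg m)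
  have h4 : 8 * ((d : ℝ) * ((m : ℝ) * Real.log k)) ≤ k * Real.log k := by
    have := mul_le_mul_of_nonneg_right hmr (log_nat_nonneg k)
    linarith
  have hC : 0 ≤ C := (abs_nonneg _).trans hbad
  have hLk : 0 ≤ L k := by
    nlinarith [abs_nonneg (L 1), mul_nonneg (by linarith : (0:ℝ) ≤ d) (abs_nonneg (L 1))]
  have h7 : L k ≤ p * L k := by nlinarith
  have h8 := (abs_le.1 hbad).2
  have h9 : (q : ℝ) * L m ≤ d * (|L 1| + m * Real.log m) := by
    have : 0 ≤ |L 1| + m * Real.log m := by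
      have := log_nat_nonneg m
      positivity
    calc (q : ℝ) * L m ≤ q * (|L 1| + m * Real.log m) := mul_le_mul_of_nonneg_left hup hqr
      _ ≤ d * (|L 1| + m * Real.log m) := mul_le_mul_of_nonneg_right hqdr this
  have h10 : (d : ℝ) * (m * Real.log m) ≤ d * (m * Real.log k) :=
    mul_le_mul_of_nonneg_left h3 (by linarith)
  nlinarith

/-- the two sizes differ -/
lemma Gr.gap1 (hL : Gr L) {d : ℕ} (hd : 1 ≤ d) (C : ℝ) : ∀ᶠ k : ℕ in atTop, ∀ (m p q : ℕ),
    1 ≤ m → 1 ≤ p → p < q → q ≤ d → |(p : ℝ) * L k - q * L m| ≤ C →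
    1 / (8 * (d : ℝ)) ≤ |Real.log k - Real.log m| := by
  have e1 := ev_mul_log (8 * (|L 1| + C))
  filter_upwards [e1, eventually_ge_atTop 9] with k h1 h2 m p q hm hp hpq hqd hbad
  by_contra hcon
  push Not at hcon
  have hdr : (1 : ℝ) ≤ d := by exact_mod_cast hd
  have hkr : (9 : ℝ) ≤ k := by exact_mod_cast h2
  have hqr : (0 : ℝ) ≤ q := Nat.cast_nonneg q
  have hpqr : (p : ℝ) + 1 ≤ q := by exact_mod_cast hpq
  have hqdr : (q : ℝ) ≤ d := by exact_mod_cast hqd
  have hmr : (1 : ℝ) ≤ m := by exact_mod_cast hm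
  have hlow := hL.low (k := k) (by omega)
  have hC : 0 ≤ C := (abs_nonneg _).trans hbad
  have hklog : 0 ≤ (k : ℝ) * Real.log k := mul_nonneg (by linarith) (log_nat_nonneg k)
  have key : L k - L m ≤ 1 / (8 * (d : ℝ)) * (k * Real.log k) := by
    rcases le_total m k with h | h
    · have h3 := hL.hi' hm h
      have h4 : (k : ℝ) - m ≤ 1 / (8 * (d : ℝ)) * k := by
        have h5 : 1 - (m : ℝ) / k ≤ Real.log k - Real.log m := by
          have h6 := Real.log_le_sub_one_of_pos (show (0 : ℝ) < m / k by positivity)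
          rw [Real.log_div (by positivity) (by positivity)] at h6
          linarith
        have h7 : 1 - (m : ℝ) / k < 1 / (8 * (d : ℝ)) :=
          (h5.trans (le_abs_self _)).trans_lt hcon
        have h8 : (k : ℝ) - m = (1 - (m : ℝ) / k) * k := by field_simp
        rw [h8]
        exact mul_le_mul_of_nonneg_right h7.le (by linarith)
      calc L k - L m ≤ ((k : ℝ) - m) * Real.log k := h3
        _ ≤ (1 / (8 * (d : ℝ)) * k) * Real.log k :=
          mul_le_mul_of_nonneg_right h4 (log_nat_nonneg k)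
        _ = _ := by ring
    · have h3 := hL.mono (by omega) h
      have : 0 ≤ 1 / (8 * (d : ℝ)) * (k * Real.log k) := by positivity
      linarith
  have hLk : 0 ≤ L k := by linarith
  have h8 := (abs_le.1 hbad).1
  have h9 : L k - C ≤ q * (L k - L m) := by nlinarith
  have h10 : (q : ℝ) * (L k - L m) ≤ d * (1 / (8 * (d : ℝ)) * (k * Real.log k)) := by
    have h0 : 0 ≤ 1 / (8 * (d : ℝ)) * (k * Real.log k) := by positivity
    calc (q : ℝ) * (L k - L m) ≤ q * (1 / (8 * (d : ℝ)) * (k * Real.log k)) :=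
        mul_le_mul_of_nonneg_left key hqr
      _ ≤ _ := mul_le_mul_of_nonneg_right hqdr h0
  have h11 : (d : ℝ) * (1 / (8 * (d : ℝ)) * (k * Real.log k)) = (k * Real.log k) / 8 := by
    field_simp
  rw [h11] at h10
  linarith

lemma Gr.gap (hL : Gr L) {d : ℕ} (hd : 1 ≤ d) (C : ℝ) : ∀ᶠ k : ℕ in atTop, ∀ (m p q : ℕ),
    1 ≤ m → 1 ≤ p → p ≤ d → 1 ≤ q → q ≤ d → p ≠ q → |(p : ℝ) * L k - q * L m| ≤ C →
    1 / (8 * (d : ℝ)) ≤ |Real.log k - Real.log m| := by
  obtain ⟨K, hK⟩ := eventually_atTop.1 (hL.gap1 hd C)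
  filter_upwards [hL.gap1 hd C, hL.ratio2 hd C, eventually_ge_atTop (8 * d * K),
    eventually_ge_atTop 1] with k h1 h2 h3 hk1 m p q hm hp hpd hq hqd hpq hbad
  rcases lt_or_gt_of_ne hpq with h | h
  · exact h1 m p q hm hp h hqd hbad
  · have h4 := h2 m p q hm hp hpd hq hqd hbad
    rcases lt_or_ge m K with h5 | h5
    · -- `m < K` is impossible
      exfalso
      have : 8 * d * m < 8 * d * K := by
        apply Nat.mul_lt_mul_of_pos_left h5
        omega
      omega
    · have h6 := hK m h5 k q p hk1 hq h hpd (by rwa [abs_sub_comm] at hbad)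
      rwa [abs_sub_comm] at h6

lemma ev_div (X ε : ℝ) (hε : 0 < ε) : ∀ᶠ k : ℕ in atTop, X / k < ε := by
  have h : Tendsto (fun k : ℕ => X / (k : ℝ)) atTop (𝓝 0) :=
    tendsto_const_nhds.div_atTop tendsto_natCast_atTop_atTop
  exact h.eventually_lt_const hε

lemma log_add_le {k a : ℕ} (hk : 1 ≤ k) : Real.log ((k : ℝ) + a) ≤ Real.log k + a / k := by
  have hkr : (0 : ℝ) < k := by exact_mod_cast hk
  have h1 : (0 : ℝ) < ((k : ℝ) + a) / k := by positivity
  have h2 := Real.log_le_sub_one_of_pos h1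
  rw [Real.log_div (by positivity) hkr.ne'] at h2
  have h3 : ((k : ℝ) + a) / k - 1 = a / k := by field_simp; ring
  linarith

set_option maxHeartbeats 2000000 in
/-- two coincidences with the same exponents have well separated defects -/
lemma Gr.sep (hL : Gr L) {d : ℕ} (hd : 1 ≤ d) {C : ℝ} (hC : 0 ≤ C) (J : ℕ) :
    ∀ᶠ k : ℕ in atTop, ∀ (k' m m' p q : ℕ), k < k' → k' ≤ k + J →
    1 ≤ m → 1 ≤ m' → 1 ≤ p → p ≤ d → 1 ≤ q → q ≤ d → p ≠ q → |(p : ℝ) * L k - q * L m| ≤ C →
    |(p : ℝ) * L k' - q * L m'| ≤ C →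
    1 / (16 * (d : ℝ)) ≤ |((p : ℝ) * L k' - q * L m') - (p * L k - q * L m)| := by
  have hdr : (1 : ℝ) ≤ d := by exact_mod_cast hd
  set c1 : ℝ := Real.log (8 * d) with hc1
  have hc10 : 0 ≤ c1 := Real.log_nonneg (by linarith)
  -- bound for the second difference
  set B0 : ℝ := 2 * d * J + 1 with hB0
  have hJ0 : (0 : ℝ) ≤ J := Nat.cast_nonneg J
  have hB00 : 0 ≤ B0 := by positivity
  set e : ℝ := 1 / (16 * (d : ℝ)) with he
  have hepos : 0 < e := by positivity
  have he1 : e ≤ 1 := by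
    rw [he, div_le_one (by positivity)]
    linarith
  filter_upwards [hL.gap hd C, hL.ratio1 hd C, hL.ratio2 hd C, eventually_ge_atTop 1,
    ev_log (2 * C), ev_log (2 * c1), ev_log (2 * (d * J * J + 2 * C)),
    ev_log (d * B0 * c1 + 1 + 2 * C),
    ev_div (d * J * J) e hepos, ev_div (d * B0 * B0 * (8 * d)) e hepos]
    with k g1 g2 g3 hk1 l1 l2 l3 l4 f1 f2 k' m m' p q hkk' hk'J hm hm' hp hpd hq hqd hpq hb hb'
  have gap := g1 m p q hm hp hpd hq hqd hpq hb
  have r1 := g2 m p q hm hp hpd hq hqd hb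
  have r2 := g3 m p q hm hp hpd hq hqd hb
  have hkr : (1 : ℝ) ≤ k := by exact_mod_cast hk1
  have hmr : (1 : ℝ) ≤ m := by exact_mod_cast hm
  have hpr : (1 : ℝ) ≤ p := by exact_mod_cast hp
  have hqr : (1 : ℝ) ≤ q := by exact_mod_cast hq
  have hpdr : (p : ℝ) ≤ d := by exact_mod_cast hpd
  have hqdr : (q : ℝ) ≤ d := by exact_mod_cast hqd
  have hlogk : 0 ≤ Real.log k := log_nat_nonneg k
  have hlogm : 0 ≤ Real.log m := log_nat_nonneg m
  -- logarithms are comparable
  have hcomp : |Real.log k - Real.log m| ≤ c1 := by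
    have a1 : Real.log m ≤ c1 + Real.log k := by
      rw [hc1, ← Real.log_mul (by positivity) (by positivity)]
      refine Real.log_le_log (by linarith) ?_
      exact_mod_cast r1
    have a2 : Real.log k ≤ c1 + Real.log m := by
      rw [hc1, ← Real.log_mul (by positivity) (by positivity)]
      refine Real.log_le_log (by linarith) ?_
      exact_mod_cast r2
    rw [abs_le]
    constructor <;> linarith
  obtain ⟨a, rfl⟩ : ∃ a, k' = k + a := ⟨k' - k, by omega⟩
  have ha1 : 1 ≤ a := by omega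
  have haJ : a ≤ J := by omega
  have har : (1 : ℝ) ≤ a := by exact_mod_cast ha1
  have haJr : (a : ℝ) ≤ J := by exact_mod_cast haJ
  have lo1 := hL.lo' hk1 (show k ≤ k + a by omega)
  have hi1 := hL.hi' hk1 (show k ≤ k + a by omega)
  push_cast at lo1 hi1
  have ek : ((k : ℝ) + a - k) = a := by ring
  rw [ek] at lo1 hi1
  have la := log_add_le (k := k) (a := a) hk1
  -- the second index increases
  have hmm' : m < m' := by
    by_contra hcon
    push Not at hcon
    have h1 := hL.mono hm' hcon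
    have h2 : (q : ℝ) * L m' ≤ q * L m := mul_le_mul_of_nonneg_left h1 (by linarith)
    have h3 : (p : ℝ) * (L (k + a) - L k) ≤ 2 * C := by
      have := (abs_le.1 hb).1
      have := (abs_le.1 hb').2
      nlinarith
    have h4 : Real.log k ≤ p * (L (k + a) - L k) := by
      have : Real.log k ≤ a * Real.log k := by nlinarith
      have : a * Real.log k ≤ p * (a * Real.log k) := by
        have := mul_nonneg (by linarith : (0:ℝ) ≤ a) hlogk
        nlinarith
      have : (p : ℝ) * (a * Real.log k) ≤ p * (L (k + a) - L k) :=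
        mul_le_mul_of_nonneg_left lo1 (by linarith)
      linarith
    linarith
  obtain ⟨b, rfl⟩ : ∃ b, m' = m + b := ⟨m' - m, by omega⟩
  have hb1 : 1 ≤ b := by omega
  have hbr : (1 : ℝ) ≤ b := by exact_mod_cast hb1
  have lo2 := hL.lo' hm (show m ≤ m + b by omega)
  have hi2 := hL.hi' hm (show m ≤ m + b by omega)
  push_cast at lo2 hi2
  have em : ((m : ℝ) + b - m) = b := by ring
  rw [em] at lo2 hi2
  have lb := log_add_le (k := m) (a := b) hm
  set D : ℝ := ((p : ℝ) * L (k + a) - q * L (m + b)) - (p * L k - q * L m) with hD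
  have hD2 : |D| ≤ 2 * C := by
    have := abs_sub ((p : ℝ) * L (k + a) - q * L (m + b)) (p * L k - q * L m)
    linarith
  have hDe : D = p * (L (k + a) - L k) - q * (L (m + b) - L m) := by rw [hD]; ring
  -- upper bounds
  have u1 : (p : ℝ) * (L (k + a) - L k) ≤ p * a * Real.log k + d * J * J / k := by
    have h1 : (a : ℝ) * Real.log (k + a) ≤ a * (Real.log k + a / k) :=
      mul_le_mul_of_nonneg_left la (by linarith)
    have h2 : (p : ℝ) * (L (k + a) - L k) ≤ p * (a * (Real.log k + a / k)) :=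
      mul_le_mul_of_nonneg_left (hi1.trans h1) (by linarith)
    have h3 : (p : ℝ) * (a * (Real.log k + a / k)) = p * a * Real.log k + p * a * a / k := by ring
    have h4 : (p : ℝ) * a * a / k ≤ d * J * J / k := by
      apply div_le_div_of_nonneg_right _ (by linarith)
      gcongr
    linarith
  have l1' : (p : ℝ) * a * Real.log k ≤ p * (L (k + a) - L k) := by
    have := mul_le_mul_of_nonneg_left lo1 (show (0 : ℝ) ≤ p by linarith)
    linarith
  have l2' : (q : ℝ) * b * Real.log m ≤ q * (L (m + b) - L m) := by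
    have := mul_le_mul_of_nonneg_left lo2 (show (0 : ℝ) ≤ q by linarith)
    linarith
  -- bound for `b`
  have hbB : (b : ℝ) ≤ B0 := by
    have h1 : Real.log k / 2 ≤ Real.log m := by
      have := (abs_le.1 hcomp).2
      linarith
    have h2 : (b : ℝ) * (Real.log k / 2) ≤ q * b * Real.log m := by
      have : (b : ℝ) * (Real.log k / 2) ≤ b * Real.log m :=
        mul_le_mul_of_nonneg_left h1 (by linarith)
      have h5 : 0 ≤ (b : ℝ) * Real.log m := by positivity
      nlinarith
    have h3 : (q : ℝ) * (L (m + b) - L m) ≤ p * a * Real.log k + d * J * J / k + 2 * C := by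
      have := (abs_le.1 hD2).1
      linarith
    have h4 : (p : ℝ) * a * Real.log k ≤ d * J * Real.log k := by gcongr
    have h5 : (d : ℝ) * J * J / k ≤ d * J * J := div_le_self (by positivity) hkr
    have h6 : (b : ℝ) * (Real.log k / 2) ≤ d * J * Real.log k + (d * J * J + 2 * C) := by linarith
    have h7 : (b : ℝ) * (Real.log k / 2) ≤ B0 * (Real.log k / 2) := by
      rw [hB0]
      nlinarith
    have h8 : 0 < Real.log k / 2 := by
      have : 0 ≤ (d : ℝ) * J * J + 2 * C := by positivity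
      linarith
    exact le_of_mul_le_mul_right h7 h8
  have u2 : (q : ℝ) * (L (m + b) - L m) ≤ q * b * Real.log m + d * B0 * B0 * (8 * d) / k := by
    have h1 : (b : ℝ) * Real.log (m + b) ≤ b * (Real.log m + b / m) :=
      mul_le_mul_of_nonneg_left lb (by linarith)
    have h2 : (q : ℝ) * (L (m + b) - L m) ≤ q * (b * (Real.log m + b / m)) :=
      mul_le_mul_of_nonneg_left (hi2.trans h1) (by linarith)
    have h3 : (q : ℝ) * (b * (Real.log m + b / m)) = q * b * Real.log m + q * b * b / m := by ring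
    have h4 : (q : ℝ) * b * b / m ≤ d * B0 * B0 / m := by
      apply div_le_div_of_nonneg_right _ (by linarith)
      gcongr
    have h5 : (d : ℝ) * B0 * B0 / m ≤ d * B0 * B0 * (8 * d) / k := by
      rw [div_le_div_iff₀ (by linarith) (by linarith)]
      have r2' : (k : ℝ) ≤ 8 * d * m := by exact_mod_cast r2
      have : 0 ≤ (d : ℝ) * B0 * B0 := by positivity
      nlinarith
    linarith
  -- compare
  set T : ℝ := p * a * Real.log k - q * b * Real.log m with hT
  have hDT : |D - T| ≤ e := by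
    rw [abs_le, hDe, hT]
    constructor <;> linarith
  by_cases hab : p * a = q * b
  · have habr : (p : ℝ) * a = q * b := by exact_mod_cast hab
    have hT' : T = q * b * (Real.log k - Real.log m) := by rw [hT, habr]; ring
    have h1 : 1 / (8 * (d : ℝ)) ≤ |T| := by
      rw [hT', abs_mul, abs_of_nonneg (by positivity)]
      have : (1 : ℝ) ≤ q * b := by nlinarith
      nlinarith [abs_nonneg (Real.log k - Real.log m)]
    have h2 : 1 / (8 * (d : ℝ)) = 2 * e := by rw [he]; field_simp; norm_num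
    have h3 := abs_sub_abs_le_abs_sub T D
    rw [abs_sub_comm T D] at h3
    linarith
  · exfalso
    have h1 : (1 : ℝ) ≤ |(p : ℝ) * a - q * b| := by
      rcases lt_or_gt_of_ne hab with h | h
      · have : (p : ℝ) * a + 1 ≤ q * b := by exact_mod_cast h
        rw [abs_sub_comm]
        exact (by linarith : (1 : ℝ) ≤ q * b - p * a).trans (le_abs_self _)
      · have : (q : ℝ) * b + 1 ≤ p * a := by exact_mod_cast h
        exact (by linarith : (1 : ℝ) ≤ p * a - q * b).trans (le_abs_self _)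
    have hT' : T = (p * a - q * b) * Real.log k + q * b * (Real.log k - Real.log m) := by
      rw [hT]; ring
    have h2 : Real.log k ≤ |(p * a - q * b) * Real.log k| := by
      rw [abs_mul, abs_of_nonneg hlogk]
      nlinarith
    have h3 : |(q : ℝ) * b * (Real.log k - Real.log m)| ≤ d * B0 * c1 := by
      rw [abs_mul, abs_of_nonneg (by positivity)]
      gcongr
    have h4 : Real.log k - d * B0 * c1 ≤ |T| := by
      rw [hT']
      have := abs_sub_abs_le_abs_add ((p * a - q * b) * Real.log k)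
        ((q : ℝ) * b * (Real.log k - Real.log m))
      linarith
    have h5 := abs_sub_abs_le_abs_sub T D
    rw [abs_sub_comm T D] at h5
    linarith

end Pool.Agent.H489.GI.G
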