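import Pool.Agent.H489.GI.Win

open Filter Topology

namespace Pool.Agent.H489.GI.G

variable {L : ℕ → ℝ}

/-- few coincidences in a window, for given exponents -/
lemma Gr.few (hL : Gr L) {d : ℕ} (hd : 1 ≤ d) {C : ℝ} (hC : 0 ≤ C) (J : ℕ) :
    ∀ᶠ k0 : ℕ in atTop, ∀ (p q : ℕ), 1 ≤ p → p ≤ d → 1 ≤ q → q ≤ d → p ≠ q →
      ∀ S : Finset ℕ, (∀ k ∈ S, k0 < k ∧ k ≤ k0 + J ∧
        ∃ m : ℕ, 1 ≤ m ∧ |(p : ℝ) * L k - q * L m| ≤ C) →
      S.card ≤ ⌊2 * C * (16 * d)⌋₊ + 1 := by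
  obtain ⟨K, hK⟩ := eventually_atTop.1 (hL.sep hd hC J)
  filter_upwards [eventually_ge_atTop K] with k0 hk0 p q hp hpd hq hqd hpq S hS
  have hdr : (1 : ℝ) ≤ d := by exact_mod_cast hd
  have hS' : ∀ k : ℕ, ∃ m : ℕ, k ∈ S → 1 ≤ m ∧ |(p : ℝ) * L k - q * L m| ≤ C := by
    intro k
    by_cases h : k ∈ S
    · obtain ⟨-, -, m, hm⟩ := hS k h
      exact ⟨m, fun _ => hm⟩
    · exact ⟨0, fun h' => absurd h' h⟩
  choose μ hμ using hS'
  set δ : ℕ → ℝ := fun k => (p : ℝ) * L k - q * L (μ k) with hδ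
  set g : ℕ → ℕ := fun k => ⌊(δ k + C) * (16 * d)⌋₊ with hg
  have hsep : ∀ k ∈ S, ∀ k' ∈ S, k < k' → 1 ≤ |(δ k' + C) * (16 * d) - (δ k + C) * (16 * d)| := by
    intro k hk k' hk' hkk'
    obtain ⟨a1, a2, -⟩ := hS k hk
    obtain ⟨b1, b2, -⟩ := hS k' hk'
    obtain ⟨c1, c2⟩ := hμ k hk
    obtain ⟨d1, d2⟩ := hμ k' hk'
    have h1 := hK k (by omega) k' (μ k) (μ k') p q hkk' (by omega) c1 d1 hp hpd hq hqd hpq c2 d2
    have h2 : (δ k' + C) * (16 * d) - (δ k + C) * (16 * d) = (δ k' - δ k) * (16 * d) := by ring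
    rw [h2, abs_mul, abs_of_pos (by linarith : (0 : ℝ) < 16 * d)]
    rw [div_le_iff₀ (by linarith)] at h1
    exact h1
  have hnn : ∀ k ∈ S, 0 ≤ (δ k + C) * (16 * d) := by
    intro k hk
    have := (abs_le.1 (hμ k hk).2).1
    refine mul_nonneg ?_ (by linarith)
    simp only [hδ]
    linarith
  have hinj : ∀ k ∈ S, ∀ k' ∈ S, k < k' → g k ≠ g k' := by
    intro k hk k' hk' hkk' heq
    have h1 := hsep k hk k' hk' hkk'
    simp only [hg] at heq
    have a1 := Nat.floor_le (hnn k hk)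
    have a2 := Nat.lt_floor_add_one ((δ k + C) * (16 * d))
    have b1 := Nat.floor_le (hnn k' hk')
    have b2 := Nat.lt_floor_add_one ((δ k' + C) * (16 * d))
    rw [heq] at a1 a2
    rcases le_total 0 ((δ k' + C) * (16 * d) - (δ k + C) * (16 * d)) with h | h
    · rw [abs_of_nonneg h] at h1
      linarith
    · rw [abs_of_nonpos h] at h1
      linarith
  rw [← Finset.card_range (⌊2 * C * (16 * d)⌋₊ + 1)]
  refine Finset.card_le_card_of_injOn g ?_ ?_
  · intro k hk
    simp only [Finset.coe_range, Set.mem_Iio, hg]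
    refine Nat.lt_succ_of_le (Nat.floor_le_floor ?_)
    have := (abs_le.1 (hμ k hk).2).2
    refine mul_le_mul_of_nonneg_right ?_ (by linarith)
    simp only [hδ]
    linarith
  · intro k hk k' hk' h
    by_contra hne
    rcases lt_or_gt_of_ne hne with h1 | h1
    · exact hinj k hk k' hk' h1 h
    · exact hinj k' hk' k hk h1 h.symm

/-- **Windows without coincidences.** -/
theorem Gr.window (hL : Gr L) {d : ℕ} (hd : 1 ≤ d) {C : ℝ} (hC : 0 ≤ C) (J K : ℕ) :
    ∃ k1, K ≤ k1 ∧ ∀ k, k1 < k → k ≤ k1 + J → ∀ m p q : ℕ, 1 ≤ m → 1 ≤ p → p ≤ d → 1 ≤ q →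
      q ≤ d → p ≠ q → C < |(p : ℝ) * L k - q * L m| := by
  classical
  set R := ⌊2 * C * (16 * d)⌋₊ + 1 with hR
  set T := (d * d) * R with hT
  set J' := (T + 1) * (J + 1) with hJ'
  obtain ⟨K', hK'⟩ := eventually_atTop.1 (hL.few hd hC J')
  set k0 := max K K' with hk0
  have few := hK' k0 (le_max_right _ _)
  set Bad : ℕ → ℕ → ℕ → Prop := fun p q k => ∃ m : ℕ, 1 ≤ m ∧ |(p : ℝ) * L k - q * L m| ≤ C with hBad
  set S : Finset ℕ := ((Finset.Icc 1 d ×ˢ Finset.Icc 1 d).filter fun x => x.1 ≠ x.2).biUnion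
    fun x => (Finset.Ioc k0 (k0 + J')).filter fun k => Bad x.1 x.2 k with hS
  have hScard : S.card ≤ T := by
    rw [hS]
    refine Finset.card_biUnion_le.trans ?_
    refine (Finset.sum_le_card_nsmul _ _ R ?_).trans ?_
    · intro x hx
      simp only [Finset.mem_filter, Finset.mem_product, Finset.mem_Icc] at hx
      refine few x.1 x.2 hx.1.1.1 hx.1.1.2 hx.1.2.1 hx.1.2.2 hx.2 _ ?_
      intro k hk
      simp only [Finset.mem_filter, Finset.mem_Ioc] at hk
      exact ⟨hk.1.1, hk.1.2, hk.2⟩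
    · rw [smul_eq_mul]
      refine Nat.mul_le_mul_right _ ?_
      refine (Finset.card_filter_le _ _).trans ?_
      simp
  have hex : ∃ i, i < T + 1 ∧ ∀ k, k0 + i * (J + 1) < k → k ≤ k0 + (i + 1) * (J + 1) → k ∉ S := by
    by_contra hcon
    push Not at hcon
    choose! f hf1 hf2 hf3 using hcon
    have h1 : (Finset.range (T + 1)).card ≤ S.card := by
      refine Finset.card_le_card_of_injOn f ?_ ?_
      · intro i hi
        simp only [Finset.coe_range, Set.mem_Iio] at hi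
        exact hf3 i hi
      · intro i hi j hj hij
        simp only [Finset.coe_range, Set.mem_Iio] at hi hj
        by_contra hne
        have key : ∀ i j, i < T + 1 → j < T + 1 → f i = f j → ¬ i < j := by
          intro i j hi hj hij hlt
          have a1 := hf2 i hi
          have a2 := hf1 j hj
          have a3 : (i + 1) * (J + 1) ≤ j * (J + 1) := Nat.mul_le_mul_right _ hlt
          omega
        rcases lt_or_gt_of_ne hne with h | h
        · exact key i j hi hj hij h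
        · exact key j i hj hi hij.symm h
    rw [Finset.card_range] at h1
    omega
  obtain ⟨i, hi, hclean⟩ := hex
  refine ⟨k0 + i * (J + 1), (le_max_left _ _).trans (Nat.le_add_right _ _), ?_⟩
  intro k hk1 hk2 m p q hm hp hpd hq hqd hpq
  by_contra hcon
  push Not at hcon
  have h1 : (i + 1) * (J + 1) ≤ J' := Nat.mul_le_mul_right _ (by omega)
  have h2 : (i + 1) * (J + 1) = i * (J + 1) + (J + 1) := by ring
  refine hclean k hk1 (by omega) ?_
  rw [hS, Finset.mem_biUnion]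
  refine ⟨(p, q), ?_, ?_⟩
  · simp only [Finset.mem_filter, Finset.mem_product, Finset.mem_Icc]
    exact ⟨⟨⟨hp, hpd⟩, ⟨hq, hqd⟩⟩, hpq⟩
  · simp only [Finset.mem_filter, Finset.mem_Ioc]
    exact ⟨⟨by omega, by omega⟩, m, hm, hcon⟩

/-- the logarithms of the critical values -/
noncomputable def Lk (k : ℕ) : ℝ := Real.log (Mk k)

lemma Mk_succ_le {k : ℕ} (hk : 1 ≤ k) : Mk (k + 1) ≤ (k + 1) * Mk k := by
  have hx := xk_spec (k := k + 1) (by omega)
  push_cast at hx
  have h1 : (-1) ^ k * h (xk (k + 1) + 1) ≤ Mk k := by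
    apply le_Mk hk
    · linarith
    · linarith
  have h2 : Mk (k + 1) = (-xk (k + 1)) * ((-1) ^ k * h (xk (k + 1) + 1)) := by
    unfold Mk
    rw [h_rec (xk (k + 1)), pow_succ]
    ring
  have h3 : 0 ≤ -xk (k + 1) := by
    have : (1 : ℝ) ≤ k := by exact_mod_cast hk
    linarith
  rw [h2]
  calc (-xk (k + 1)) * ((-1) ^ k * h (xk (k + 1) + 1)) ≤ (-xk (k + 1)) * Mk k :=
        mul_le_mul_of_nonneg_left h1 h3
    _ ≤ (k + 1) * Mk k := mul_le_mul_of_nonneg_right (by linarith) (Mk_pos hk).le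

lemma Lk_gr : Gr Lk := by
  constructor
  · intro k hk
    have hkr : (1 : ℝ) ≤ k := by exact_mod_cast hk
    have h1 := Mk_succ hk
    have h2 := Mk_pos hk
    have h3 := Real.log_le_log (by positivity) h1.le
    rw [Real.log_mul (by positivity) h2.ne'] at h3
    unfold Lk
    linarith
  · intro k hk
    have h1 := Mk_succ_le hk
    have h2 := Mk_pos hk
    have h3 := Real.log_le_log (Mk_pos (by omega)) h1
    rw [Real.log_mul (by positivity) h2.ne'] at h3
    unfold Lk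
    linarith

end Pool.Agent.H489.GI.G
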